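import Mathlib

/-!
# A biclique partition with few bicliques
-/

set_option autoImplicit false

namespace Pool.Agent.R87.BicDet

open Finset Classical

/-- the bicliques `A i`, `B i` partition the edges of `G` -/
def IsPart {n : ℕ} {ι : Type} (G : SimpleGraph (Fin n)) (A B : ι → Finset (Fin n)) : Prop :=
  (∀ i, Disjoint (A i) (B i)) ∧
    ∀ u v : Fin n,
      (G.Adj u v → ∃! i, (u ∈ A i ∧ v ∈ B i) ∨ (v ∈ A i ∧ u ∈ B i)) ∧
      (¬ G.Adj u v → ∀ i, ¬ (u ∈ A i ∧ v ∈ B i))

theorem isPart_transfer {n : ℕ} {ι κ : Type} (e : κ ≃ ι) {G : SimpleGraph (Fin n)}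
    {A B : ι → Finset (Fin n)} (h : IsPart G A B) : IsPart G (fun i => A (e i)) (fun i => B (e i)) := by
  refine ⟨fun i => h.1 (e i), fun u v => ⟨fun huv => ?_, fun huv i => (h.2 u v).2 huv (e i)⟩⟩
  obtain ⟨i, hi, hu⟩ := (h.2 u v).1 huv
  refine ⟨e.symm i, by simpa using hi, ?_⟩
  intro j hj
  have := hu (e j) hj
  rw [← this]; simp

theorem exists_part {n k : ℕ} (G : SimpleGraph (Fin n)) (I : Finset (Fin n)) (hI : I.card = k)
    (hind : ∀ u ∈ I, ∀ v ∈ I, ¬ G.Adj u v) (x y : Fin n) (hx : x ∉ I) (hy : y ∉ I) (hxy : x ≠ y)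
    (hnadj : ¬ G.Adj x y) (hM : ∀ v ∈ I, G.Adj x v ↔ G.Adj y v) :
    k + 2 ≤ n ∧ ∃ A B : Fin (n - k - 1) → Finset (Fin n), IsPart G A B := by
  set W : Finset (Fin n) := insert x (insert y I) with hW
  have hWcard : W.card = k + 2 := by
    rw [hW, Finset.card_insert_of_notMem, Finset.card_insert_of_notMem hy, hI]
    simp [hxy, hx]
  have hle : k + 2 ≤ n := by
    rw [← hWcard]
    calc W.card ≤ (univ : Finset (Fin n)).card := Finset.card_le_univ _
      _ = n := by simp
  refine ⟨hle, ?_⟩
  set R : Finset (Fin n) := univ \ W with hR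
  have hRcard : R.card = n - k - 2 := by
    rw [hR, Finset.card_sdiff_of_subset (Finset.subset_univ _), hWcard, Finset.card_univ,
      Fintype.card_fin]
    omega
  let e : Fin R.card ≃ R := R.equivFin.symm
  let v : Fin R.card → Fin n := fun i => (e i : Fin n)
  have hvR : ∀ i, v i ∈ R := fun i => (e i).2
  have hvinj : Function.Injective v := fun i j h => e.injective (Subtype.ext h)
  have hvsurj : ∀ u ∈ R, ∃ i, v i = u := fun u hu => ⟨e.symm ⟨u, hu⟩, by simp [v]⟩
  have hvW : ∀ i, v i ∉ W := fun i h => (Finset.mem_sdiff.1 (hvR i)).2 h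
  have hRW : ∀ u, u ∉ R → u ∈ W := by
    intro u hu
    by_contra h
    exact hu (Finset.mem_sdiff.2 ⟨Finset.mem_univ _, h⟩)
  let A : Option (Fin R.card) → Finset (Fin n) := fun o =>
    match o with
    | none => {x, y}
    | some i => {v i}
  let B : Option (Fin R.card) → Finset (Fin n) := fun o =>
    match o with
    | none => I.filter (fun w => G.Adj x w)
    | some i => univ.filter (fun w => G.Adj (v i) w ∧ ∀ j, j < i → w ≠ v j)
  have memA0 : ∀ u, u ∈ A none ↔ u = x ∨ u = y := fun u => by simp [A]
  have memA : ∀ i u, u ∈ A (some i) ↔ u = v i := fun i u => by simp [A]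
  have memB0 : ∀ u, u ∈ B none ↔ u ∈ I ∧ G.Adj x u := fun u => by simp [B]
  have memB : ∀ i u, u ∈ B (some i) ↔ G.Adj (v i) u ∧ ∀ j, j < i → u ≠ v j := fun i u => by
    simp [B]
  have memW : ∀ u, u ∈ W ↔ u = x ∨ u = y ∨ u ∈ I := fun u => by simp [hW]
  have hpart : IsPart G A B := by
    refine ⟨?_, ?_⟩
    · intro o
      rw [Finset.disjoint_left]
      intro u hu1 hu2
      rcases o with _ | i
      · rw [memA0] at hu1
        rw [memB0] at hu2
        rcases hu1 with rfl | rfl
        · exact hx hu2.1
        · exact hy hu2.1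
      · rw [memA] at hu1
        rw [memB] at hu2
        subst hu1
        exact G.loopless.irrefl _ hu2.1
    · intro a b
      refine ⟨?_, ?_⟩
      · intro hab
        -- one endpoint outside `W`, with an index
        have key : ∀ a b, G.Adj a b → ∀ i, v i = a → (∀ j, j < i → b ≠ v j) →
            ∃! o, (a ∈ A o ∧ b ∈ B o) ∨ (b ∈ A o ∧ a ∈ B o) := by
          intro a b hab i hi hmin
          refine ⟨some i, Or.inl ⟨(memA i a).2 hi.symm, (memB i b).2 ⟨by rw [hi]; exact hab, hmin⟩⟩, ?_⟩
          intro o ho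
          have haW : a ∉ W := by rw [← hi]; exact hvW i
          rcases o with _ | j
          · exfalso
            rw [memA0, memB0, memA0, memB0] at ho
            rcases ho with ⟨h1, -⟩ | ⟨-, h1, -⟩
            · apply haW; rw [memW]; tauto
            · apply haW; rw [memW]; tauto
          · rw [memA, memB, memA, memB] at ho
            rcases ho with ⟨h1, -⟩ | ⟨h1, -, h2⟩
            · rw [hvinj (hi.trans h1)]
            · exfalso
              have hji : i ≤ j := by
                by_contra hlt
                exact hmin j (not_le.1 hlt) h1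
              rcases hji.lt_or_eq with h3 | h3
              · exact h2 i h3 hi.symm
              · subst h3
                rw [h1, hi] at hab
                exact G.loopless.irrefl _ hab
        by_cases haR : a ∈ R
        · obtain ⟨i, hi⟩ := hvsurj a haR
          by_cases hmin : ∀ j, j < i → b ≠ v j
          · exact key a b hab i hi hmin
          · push Not at hmin
            obtain ⟨j, hj, hbj⟩ := hmin
            obtain ⟨o, ho, hu⟩ := key b a hab.symm j hbj.symm (fun l hl h => by
              rw [← hi] at h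
              have := hvinj h
              omega)
            exact ⟨o, Or.symm ho, fun o' ho' => hu o' (Or.symm ho')⟩
        · by_cases hbR : b ∈ R
          · obtain ⟨j, hj⟩ := hvsurj b hbR
            obtain ⟨o, ho, hu⟩ := key b a hab.symm j hj (fun l _ h => haR (by rw [h]; exact hvR l))
            exact ⟨o, Or.symm ho, fun o' ho' => hu o' (Or.symm ho')⟩
          · have haW := (memW a).1 (hRW a haR)
            have hbW := (memW b).1 (hRW b hbR)
            have huniq : ∀ o, ((a ∈ A o ∧ b ∈ B o) ∨ (b ∈ A o ∧ a ∈ B o)) → o = none := by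
              intro o ho
              rcases o with _ | j
              · rfl
              · exfalso
                rw [memA, memA] at ho
                rcases ho with ⟨h1, -⟩ | ⟨h1, -⟩
                · exact haR (by rw [h1]; exact hvR j)
                · exact hbR (by rw [h1]; exact hvR j)
            refine ⟨none, ?_, huniq⟩
            beta_reduce
            rw [memA0, memB0, memA0, memB0]
            rcases haW with rfl | rfl | haI
            · rcases hbW with rfl | rfl | hbI
              · exact absurd hab (G.loopless.irrefl _)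
              · exact absurd hab hnadj
              · exact Or.inl ⟨Or.inl rfl, hbI, hab⟩
            · rcases hbW with rfl | rfl | hbI
              · exact absurd hab.symm hnadj
              · exact absurd hab (G.loopless.irrefl _)
              · exact Or.inl ⟨Or.inr rfl, hbI, (hM b hbI).2 hab⟩
            · rcases hbW with rfl | rfl | hbI
              · exact Or.inr ⟨Or.inl rfl, haI, hab.symm⟩
              · exact Or.inr ⟨Or.inr rfl, haI, (hM a haI).2 hab.symm⟩
              · exact absurd hab (hind a haI b hbI)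
      · intro hab o ho
        apply hab
        rcases o with _ | i
        · rw [memA0, memB0] at ho
          rcases ho with ⟨rfl | rfl, h2, h3⟩
          · exact h3
          · exact (hM b h2).1 h3
        · rw [memA, memB] at ho
          rw [ho.1]
          exact ho.2.1
  have hcard : Fintype.card (Fin (n - k - 1)) = Fintype.card (Option (Fin R.card)) := by
    rw [Fintype.card_option, Fintype.card_fin, Fintype.card_fin, hRcard]
    omega
  exact ⟨_, _, isPart_transfer (Fintype.equivOfCardEq hcard) hpart⟩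

theorem bic_ne {n k : ℕ} (G : SimpleGraph (Fin n)) (I : Finset (Fin n)) (hI : I.card = k)
    (hind : ∀ u ∈ I, ∀ v ∈ I, ¬ G.Adj u v) (x y : Fin n) (hx : x ∉ I) (hy : y ∉ I) (hxy : x ≠ y)
    (hnadj : ¬ G.Adj x y) (hM : ∀ v ∈ I, G.Adj x v ↔ G.Adj y v)
    (hcl : ∀ J : Finset (Fin n), J.card = k + 1 → ∃ u ∈ J, ∃ v ∈ J, G.Adj u v) :
    sInf {k : ℕ | ∃ A B : Fin k → Finset (Fin n),
              (∀ i, Disjoint (A i) (B i)) ∧
              ∀ u v : Fin n,
                (G.Adj u v → ∃! i, (u ∈ A i ∧ v ∈ B i) ∨ (v ∈ A i ∧ u ∈ B i)) ∧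
                (¬ G.Adj u v → ∀ i, ¬ (u ∈ A i ∧ v ∈ B i))} ≠ n - Gᶜ.cliqueNum := by
  obtain ⟨hle, A, B, hAB⟩ := exists_part G I hI hind x y hx hy hxy hnadj hM
  have h1 : sInf {k : ℕ | ∃ A B : Fin k → Finset (Fin n),
              (∀ i, Disjoint (A i) (B i)) ∧
              ∀ u v : Fin n,
                (G.Adj u v → ∃! i, (u ∈ A i ∧ v ∈ B i) ∨ (v ∈ A i ∧ u ∈ B i)) ∧
                (¬ G.Adj u v → ∀ i, ¬ (u ∈ A i ∧ v ∈ B i))} ≤ n - k - 1 :=
    Nat.sInf_le ⟨A, B, hAB⟩
  have h2 : Gᶜ.cliqueNum ≤ k := by
    by_contra hcon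
    push Not at hcon
    obtain ⟨s, hs⟩ := Gᶜ.exists_isNClique_cliqueNum
    obtain ⟨J, hJs, hJ⟩ := Finset.exists_subset_card_eq (s := s) (n := k + 1) (by
      rw [hs.card_eq]; omega)
    obtain ⟨u, hu, w, hw, huw⟩ := hcl J hJ
    have := hs.isClique (hJs hu) (hJs hw) huw.ne
    rw [SimpleGraph.compl_adj] at this
    exact this.2 huw
  omega

end Pool.Agent.R87.BicDet
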