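import Pool.Agent.R87.BicProb

/-!
# An upper bound for the probability that the biclique partition number is `n - α`
-/

set_option autoImplicit false

namespace Pool.Agent.R87.BicMain

open Finset Pool.Agent.W166.Gnp Pool.Agent.R87.GnpMore Pool.Agent.R87.BicProb

/-- the property in question -/
def BP {n : ℕ} (G : SimpleGraph (Fin n)) : Prop :=
  sInf {k : ℕ | ∃ A B : Fin k → Finset (Fin n),
              (∀ i, Disjoint (A i) (B i)) ∧
              ∀ u v : Fin n,
                (G.Adj u v → ∃! i, (u ∈ A i ∧ v ∈ B i) ∨ (v ∈ A i ∧ u ∈ B i)) ∧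
                (¬ G.Adj u v → ∀ i, ¬ (u ∈ A i ∧ v ∈ B i))} = n - Gᶜ.cliqueNum

theorem adj_iff {n : ℕ} {S : Finset (Sym2 (Fin n))} {a b : Fin n} :
    (SimpleGraph.fromEdgeSet (S : Set (Sym2 (Fin n)))).Adj a b ↔ s(a, b) ∈ S ∧ a ≠ b := by
  rw [SimpleGraph.fromEdgeSet_adj, mem_coe]

theorem not_BP {n k : ℕ} {V1 W : Finset (Fin n)} (hVW : Disjoint V1 W)
    {S : Finset (Sym2 (Fin n))}
    (h1 : ∃ I ∈ powersetCard k V1, Ind I S ∧
        ∃ K ∈ powersetCard 2 W, Eqq K I S ∧ Disjoint (ins K) S)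
    (h2 : ¬ ∃ J ∈ powersetCard (k + 1) univ, Ind J S) :
    ¬ BP (SimpleGraph.fromEdgeSet (S : Set (Sym2 (Fin n)))) := by
  classical
  obtain ⟨I, hI, hind, K, hK, hKI, hKS⟩ := h1
  rw [mem_powersetCard] at hI hK
  obtain ⟨x, y, hxy, rfl⟩ := card_eq_two.1 hK.2
  have hxW : x ∈ W := hK.1 (by simp)
  have hyW : y ∈ W := hK.1 (by simp)
  have hxI : x ∉ I := fun h => (Finset.disjoint_left.1 hVW) (hI.1 h) hxW
  have hyI : y ∉ I := fun h => (Finset.disjoint_left.1 hVW) (hI.1 h) hyW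
  unfold BP
  convert! BicDet.bic_ne (SimpleGraph.fromEdgeSet (S : Set (Sym2 (Fin n)))) I hI.2 ?_ x y hxI hyI
    hxy ?_ ?_ ?_
  · intro u hu v hv h
    rw [adj_iff] at h
    exact (Finset.disjoint_left.1 hind) (mem_ins.2 ⟨hu, hv, h.2⟩) h.1
  · intro h
    rw [adj_iff] at h
    exact (Finset.disjoint_left.1 hKS) (mem_ins.2 ⟨by simp, by simp, hxy⟩) h.1
  · intro v hv
    have hvx : x ≠ v := fun h => hxI (h ▸ hv)
    have hvy : y ≠ v := fun h => hyI (h ▸ hv)
    rw [adj_iff, adj_iff]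
    have mx : s(x, v) ∈ row v {x, y} := mem_row.2 ⟨x, by simp, Sym2.eq_swap⟩
    have my : s(y, v) ∈ row v {x, y} := mem_row.2 ⟨y, by simp, Sym2.eq_swap⟩
    rcases hKI v hv with h | h
    · exact ⟨fun _ => ⟨h my, hvy⟩, fun _ => ⟨h mx, hvx⟩⟩
    · exact ⟨fun h' => absurd h'.1 (Finset.disjoint_left.1 h mx),
        fun h' => absurd h'.1 (Finset.disjoint_left.1 h my)⟩
  · intro J hJ
    by_contra hcon
    push Not at hcon
    apply h2
    refine ⟨J, mem_powersetCard.2 ⟨subset_univ _, hJ⟩, ?_⟩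
    unfold Ind
    rw [Finset.disjoint_left]
    intro e he hS
    induction e using Sym2.ind with
    | _ a b =>
      rw [mem_ins] at he
      exact hcon a he.1 b he.2.1 (adj_iff.2 ⟨hS, he.2.2⟩)

theorem Pr_BP_le {p ρ : ℝ} (h0 : 0 ≤ p) (h1 : p < 1)
    (hs : (p ^ 2 + (1 - p) ^ 2) ^ 2 ≤ p ^ 3 + (1 - p) ^ 3) {m n2 k : ℕ} (hk : k ≤ m)
    (hρ : 0 < ρ)
    (hρ2 : ρ ≤ (n2.choose 2 : ℝ) * (p ^ 2 + (1 - p) ^ 2) ^ k -
      (1 / 2) * ((n2.choose 2 : ℝ) * ((n2.choose 2 : ℝ) * (p ^ 3 + (1 - p) ^ 3) ^ k))) :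
    Pr (allE (m + n2)) p (fun S => BP (SimpleGraph.fromEdgeSet (S : Set (Sym2 (Fin (m + n2))))))
      ≤ 1 - ((1 - p) * (1 - DD (1 - p) m k / ((m.choose k : ℝ) * (1 - p) ^ (k.choose 2) * ρ)) -
        ((m + n2).choose (k + 1) : ℝ) * (1 - p) ^ ((k + 1).choose 2)) := by
  classical
  have hq : 0 < 1 - p := by linarith
  set E := allE (m + n2) with hE
  set V1 : Finset (Fin (m + n2)) := univ.image (Fin.castAdd n2) with hV1
  set W : Finset (Fin (m + n2)) := univ.image (Fin.natAdd m) with hW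
  have hV1c : V1.card = m := by
    rw [hV1, card_image_of_injective _ (Fin.castAdd_injective m n2), card_univ, Fintype.card_fin]
  have hWc : W.card = n2 := by
    rw [hW, card_image_of_injective _ (Fin.natAdd_injective n2 m), card_univ, Fintype.card_fin]
  have hVW : Disjoint V1 W := by
    rw [Finset.disjoint_left]
    intro a ha hb
    rw [hV1, mem_image] at ha
    rw [hW, mem_image] at hb
    obtain ⟨x, _, rfl⟩ := ha
    obtain ⟨y, _, hy⟩ := hb
    have := congrArg Fin.val hy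
    simp at this
    have := x.2
    omega
  have hinsE : ∀ J : Finset (Fin (m + n2)), ins J ⊆ E := by
    intro J e
    induction e using Sym2.ind with
    | _ a b =>
      rw [mem_ins, hE, mem_allE]
      exact fun h => h.2.2
  have hbipE : bip V1 W ⊆ E := by
    intro e he
    rw [mem_bip] at he
    obtain ⟨v, hv, w, hw, rfl⟩ := he
    rw [hE, mem_allE]
    rintro rfl
    exact (Finset.disjoint_left.1 hVW) hv hw
  have hcol : ∀ I ∈ powersetCard k V1, ρ ≤ Pr E p (Col I W) := by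
    intro I hI
    rw [mem_powersetCard] at hI
    have hb : bip I W ⊆ E := by
      intro e he
      apply hbipE
      rw [mem_bip] at he ⊢
      obtain ⟨v, hv, w, hw, rfl⟩ := he
      exact ⟨v, hI.1 hv, w, hw, rfl⟩
    have := Pr_col_ge h0 h1.le hs (hVW.mono_left hI.1) hb
    rw [hWc, hI.2] at this
    exact hρ2.trans this
  have h2 := second h0 h1 hVW (hinsE V1) hbipE k hρ (by rw [hV1c]; exact hk) hcol
  rw [hV1c] at h2
  set X : ℝ := (m.choose k : ℝ) * (1 - p) ^ (k.choose 2) * ρ with hX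
  have hXpos : 0 < X := by
    have : 0 < m.choose k := Nat.choose_pos hk
    positivity
  have h3 := best (E := E) h0 h1.le hVW (hinsE W) k
  have h4 := clq (W := (univ : Finset (Fin (m + n2)))) (E := E) h0 h1.le (hinsE _) (k + 1)
  rw [card_univ, Fintype.card_fin] at h4
  have h5 : Pr E p (fun S => ¬ ∃ I ∈ powersetCard k V1, Ind I S ∧ Col I W S) ≤
      DD (1 - p) m k / X := by
    rw [le_div_iff₀ hXpos]
    linarith
  rw [Pr_not] at h5
  set Pb : ℝ := Pr E p (fun S => ∃ I ∈ powersetCard k V1, Ind I S ∧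
        ∃ K ∈ powersetCard 2 W, Eqq K I S ∧ Disjoint (ins K) S) with hPb
  have h6 : (1 - p) * (1 - DD (1 - p) m k / X) ≤ Pb := by
    refine le_trans ?_ h3
    apply mul_le_mul_of_nonneg_left _ hq.le
    linarith
  -- union bound
  have h7 : Pb ≤ Pr E p (fun S => ∃ J ∈ powersetCard (k + 1) (univ : Finset (Fin (m + n2))),
      Ind J S) +
      Pr E p (fun S => ¬ BP (SimpleGraph.fromEdgeSet (S : Set (Sym2 (Fin (m + n2)))))) := by
    refine le_trans ?_ (Pr_or_le h0 h1.le _ _)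
    apply Pr_mono h0 h1.le
    intro S _ hS
    by_cases hJ : ∃ J ∈ powersetCard (k + 1) (univ : Finset (Fin (m + n2))), Ind J S
    · exact Or.inl hJ
    · exact Or.inr (not_BP hVW hS hJ)
  rw [Pr_not] at h7
  linarith

end Pool.Agent.R87.BicMain
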