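import Pool.Agent.R87.BicMain

/-!
# Numerical estimates
-/

set_option autoImplicit false

namespace Pool.Agent.R87.BicNum

open Finset Pool.Agent.R87.BicProb

theorem two_choose (k : ℕ) : 2 * (k + 1).choose 2 = k * (k + 1) := by
  have h := Nat.choose_two_right (k + 1)
  have h2 : 2 ∣ (k + 1) * (k + 1 - 1) := (Nat.even_mul_pred_self (k + 1)).two_dvd
  rw [h, Nat.mul_div_cancel' h2]
  simp [mul_comm]

theorem choose_succ_two (k : ℕ) : (k + 1).choose 2 = k + k.choose 2 := by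
  rw [Nat.choose_succ_succ' k 1, Nat.choose_one_right]

theorem pow_choose_sq (q : ℝ) (k : ℕ) : (q ^ ((k + 1).choose 2)) ^ 2 = (q ^ k) ^ (k + 1) := by
  rw [← pow_mul, ← pow_mul, mul_comm, two_choose]

theorem one_le_of_pow {x : ℝ} (hx : 0 ≤ x) {n : ℕ} (hn : n ≠ 0) (h : 1 ≤ x ^ n) : 1 ≤ x := by
  by_contra hc
  push Not at hc
  exact absurd h (not_le.2 (pow_lt_one₀ hx hc hn))

/-- lower bound for `q ^ k` -/
theorem H1 {q : ℝ} (hq0 : 0 < q) {k m : ℕ} (hk : 4 ≤ k)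
    (hA : 1 / 100 < ((m + 1).choose (k + 1) : ℝ) * q ^ ((k + 1).choose 2)) :
    1 ≤ ((m : ℝ) + 1) ^ 2 * q ^ k := by
  have h1 := Nat.choose_le_pow_div (α := ℝ) (k + 1) (m + 1)
  have hf : (100 : ℝ) ≤ ((k + 1).factorial : ℝ) := by
    have : (5 : ℕ).factorial ≤ (k + 1).factorial := Nat.factorial_le (by omega)
    have h5 : (5 : ℕ).factorial = 120 := by decide
    rw [h5] at this
    exact_mod_cast le_trans (by norm_num) this
  have hfp : (0 : ℝ) < ((k + 1).factorial : ℝ) := by positivity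
  push_cast at h1
  have h2 : ((m + 1).choose (k + 1) : ℝ) * q ^ ((k + 1).choose 2) ≤
      (((m : ℝ) + 1) ^ (k + 1) / ((k + 1).factorial : ℝ)) * q ^ ((k + 1).choose 2) :=
    mul_le_mul_of_nonneg_right h1 (by positivity)
  have h3 : 1 ≤ ((m : ℝ) + 1) ^ (k + 1) * q ^ ((k + 1).choose 2) := by
    have h4 := hA.trans_le h2
    rw [div_mul_eq_mul_div, lt_div_iff₀ hfp] at h4
    nlinarith
  have h5 : 1 ≤ (((m : ℝ) + 1) ^ 2 * q ^ k) ^ (k + 1) := by
    have h6 : (((m : ℝ) + 1) ^ 2 * q ^ k) ^ (k + 1) =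
        (((m : ℝ) + 1) ^ (k + 1) * q ^ ((k + 1).choose 2)) ^ 2 := by
      rw [mul_pow, mul_pow, pow_choose_sq]
      congr 1
      exact pow_right_comm _ _ _
    rw [h6]
    nlinarith
  exact one_le_of_pow (by positivity) (by omega) h5

/-- upper bound for `q ^ k` -/
theorem H2 {q : ℝ} (hq0 : 0 < q) {k m : ℕ} (hkm : k ≤ m)
    (hB : (m.choose (k + 1) : ℝ) * q ^ ((k + 1).choose 2) ≤ 1 / 100) :
    ((m : ℝ) - k) ^ 2 * q ^ k ≤ ((k : ℝ) + 1) ^ 2 := by
  have h1 := Nat.pow_le_choose (α := ℝ) (k + 1) m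
  have hfp : (0 : ℝ) < ((k + 1).factorial : ℝ) := by positivity
  have hsub : m + 1 - (k + 1) = m - k := by omega
  rw [hsub, Nat.cast_sub hkm, div_le_iff₀ hfp] at h1
  have hmk : (0 : ℝ) ≤ (m : ℝ) - k := by
    have : (k : ℝ) ≤ m := by exact_mod_cast hkm
    linarith
  have hf : ((k + 1).factorial : ℝ) ≤ ((k : ℝ) + 1) ^ (k + 1) := by
    have := Nat.factorial_le_pow (k + 1)
    exact_mod_cast this
  have h2 : ((m : ℝ) - k) ^ (k + 1) * q ^ ((k + 1).choose 2) ≤ ((k : ℝ) + 1) ^ (k + 1) := by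
    calc ((m : ℝ) - k) ^ (k + 1) * q ^ ((k + 1).choose 2)
        ≤ ((m.choose (k + 1) : ℝ) * ((k + 1).factorial : ℝ)) * q ^ ((k + 1).choose 2) :=
          mul_le_mul_of_nonneg_right h1 (by positivity)
      _ = ((m.choose (k + 1) : ℝ) * q ^ ((k + 1).choose 2)) * ((k + 1).factorial : ℝ) := by ring
      _ ≤ 1 / 100 * ((k + 1).factorial : ℝ) := mul_le_mul_of_nonneg_right hB hfp.le
      _ ≤ ((k + 1).factorial : ℝ) := by linarith
      _ ≤ _ := hf
  have h5 : (((m : ℝ) - k) ^ 2 * q ^ k) ^ (k + 1) ≤ (((k : ℝ) + 1) ^ 2) ^ (k + 1) := by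
    have h6 : (((m : ℝ) - k) ^ 2 * q ^ k) ^ (k + 1) =
        (((m : ℝ) - k) ^ (k + 1) * q ^ ((k + 1).choose 2)) ^ 2 := by
      rw [mul_pow, mul_pow, pow_choose_sq]
      congr 1
      exact pow_right_comm _ _ _
    rw [h6, ← pow_mul, mul_comm 2, pow_mul]
    exact pow_le_pow_left₀ (by positivity) h2 2
  exact le_of_pow_le_pow_left₀ (by omega) (by positivity) h5

/-- lower bound for the expectation -/
theorem H3 {q : ℝ} (hq0 : 0 < q) {k m : ℕ}
    (hA : 1 / 100 < ((m + 1).choose (k + 1) : ℝ) * q ^ ((k + 1).choose 2))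
    (h2 : ((m : ℝ) - k) ^ 2 * q ^ k ≤ ((k : ℝ) + 1) ^ 2) :
    1 / 100 * ((m : ℝ) - k) ^ 2 ≤
      ((m.choose k : ℝ) * q ^ (k.choose 2)) * (((m : ℝ) + 1) * ((k : ℝ) + 1)) := by
  set x : ℝ := (m.choose k : ℝ) * q ^ (k.choose 2) with hx
  have hx0 : 0 ≤ x := by positivity
  have e1 : ((m : ℝ) + 1) * (m.choose k : ℝ) = ((m + 1).choose (k + 1) : ℝ) * ((k : ℝ) + 1) := by
    have := Nat.add_one_mul_choose_eq m k
    exact_mod_cast this
  have e2 : q ^ ((k + 1).choose 2) = q ^ k * q ^ (k.choose 2) := by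
    rw [choose_succ_two, pow_add]
  have h3 : 1 / 100 * ((k : ℝ) + 1) < ((m : ℝ) + 1) * x * q ^ k := by
    calc 1 / 100 * ((k : ℝ) + 1)
        < (((m + 1).choose (k + 1) : ℝ) * q ^ ((k + 1).choose 2)) * ((k : ℝ) + 1) :=
          mul_lt_mul_of_pos_right hA (by positivity)
      _ = (((m + 1).choose (k + 1) : ℝ) * ((k : ℝ) + 1)) * (q ^ k * q ^ (k.choose 2)) := by
          rw [e2]; ring
      _ = ((m : ℝ) + 1) * x * q ^ k := by rw [← e1, hx]; ring
  have h4 : 1 / 100 * ((k : ℝ) + 1) * ((m : ℝ) - k) ^ 2 ≤ ((m : ℝ) + 1) * x * ((k : ℝ) + 1) ^ 2 := by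
    calc 1 / 100 * ((k : ℝ) + 1) * ((m : ℝ) - k) ^ 2
        ≤ (((m : ℝ) + 1) * x * q ^ k) * ((m : ℝ) - k) ^ 2 :=
          mul_le_mul_of_nonneg_right h3.le (sq_nonneg _)
      _ = (((m : ℝ) + 1) * x) * (((m : ℝ) - k) ^ 2 * q ^ k) := by ring
      _ ≤ (((m : ℝ) + 1) * x) * ((k : ℝ) + 1) ^ 2 := mul_le_mul_of_nonneg_left h2 (by positivity)
  have hkp : (0 : ℝ) < (k : ℝ) + 1 := by positivity
  have h5 : ((k : ℝ) + 1) * (1 / 100 * ((m : ℝ) - k) ^ 2) ≤
      ((k : ℝ) + 1) * (x * (((m : ℝ) + 1) * ((k : ℝ) + 1))) := by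
    calc ((k : ℝ) + 1) * (1 / 100 * ((m : ℝ) - k) ^ 2)
        = 1 / 100 * ((k : ℝ) + 1) * ((m : ℝ) - k) ^ 2 := by ring
      _ ≤ ((m : ℝ) + 1) * x * ((k : ℝ) + 1) ^ 2 := h4
      _ = _ := by ring
  exact le_of_mul_le_mul_left h5 hkp

/-- upper bound for the expectation -/
theorem H4 {q : ℝ} (hq0 : 0 < q) {k m : ℕ} (hkm : k ≤ m)
    (hB : (m.choose (k + 1) : ℝ) * q ^ ((k + 1).choose 2) ≤ 1 / 100)
    (h1 : 1 ≤ ((m : ℝ) + 1) ^ 2 * q ^ k) :
    ((m.choose k : ℝ) * q ^ (k.choose 2)) * ((m : ℝ) - k) ≤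
      1 / 100 * (((k : ℝ) + 1) * ((m : ℝ) + 1) ^ 2) := by
  set x : ℝ := (m.choose k : ℝ) * q ^ (k.choose 2) with hx
  have hx0 : 0 ≤ x := by positivity
  have hmk : (0 : ℝ) ≤ (m : ℝ) - k := by
    have : (k : ℝ) ≤ m := by exact_mod_cast hkm
    linarith
  have e1 : (m.choose (k + 1) : ℝ) * ((k : ℝ) + 1) = (m.choose k : ℝ) * ((m : ℝ) - k) := by
    have := Nat.choose_succ_right_eq m k
    have h2 : ((m - k : ℕ) : ℝ) = (m : ℝ) - k := Nat.cast_sub hkm
    rw [← h2]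
    exact_mod_cast this
  have e2 : q ^ ((k + 1).choose 2) = q ^ k * q ^ (k.choose 2) := by
    rw [choose_succ_two, pow_add]
  have h3 : x * ((m : ℝ) - k) * q ^ k ≤ 1 / 100 * ((k : ℝ) + 1) := by
    calc x * ((m : ℝ) - k) * q ^ k
        = ((m.choose k : ℝ) * ((m : ℝ) - k)) * (q ^ k * q ^ (k.choose 2)) := by rw [hx]; ring
      _ = ((m.choose (k + 1) : ℝ) * q ^ ((k + 1).choose 2)) * ((k : ℝ) + 1) := by
          rw [← e1, ← e2]; ring
      _ ≤ 1 / 100 * ((k : ℝ) + 1) := mul_le_mul_of_nonneg_right hB (by positivity)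
  calc x * ((m : ℝ) - k) = x * ((m : ℝ) - k) * 1 := by ring
    _ ≤ x * ((m : ℝ) - k) * (((m : ℝ) + 1) ^ 2 * q ^ k) :=
        mul_le_mul_of_nonneg_left h1 (mul_nonneg hx0 hmk)
    _ = (x * ((m : ℝ) - k) * q ^ k) * ((m : ℝ) + 1) ^ 2 := by ring
    _ ≤ (1 / 100 * ((k : ℝ) + 1)) * ((m : ℝ) + 1) ^ 2 :=
        mul_le_mul_of_nonneg_right h3 (sq_nonneg _)
    _ = _ := by ring

theorem desc_ratio (k m : ℕ) (hkm : k ≤ m) :
    ∀ i, i ≤ k → k.descFactorial i * m ^ i ≤ m.descFactorial i * k ^ i := by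
  intro i
  induction i with
  | zero => intro _; simp
  | succ i ih =>
    intro hi
    have h1 := ih (by omega)
    rw [Nat.descFactorial_succ, Nat.descFactorial_succ, pow_succ, pow_succ]
    have h2 : (k - i) * m ≤ (m - i) * k := by
      rw [Nat.sub_mul, Nat.sub_mul, mul_comm m k]
      apply Nat.sub_le_sub_left
      exact Nat.mul_le_mul_left i hkm
    calc (k - i) * k.descFactorial i * (m ^ i * m)
        = ((k - i) * m) * (k.descFactorial i * m ^ i) := by ring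
      _ ≤ ((m - i) * k) * (m.descFactorial i * k ^ i) := Nat.mul_le_mul h2 h1
      _ = _ := by ring

theorem choose_ratio {k m i : ℕ} (hkm : k ≤ m) (hi : i ≤ k) :
    (m - k).choose (k - i) * m ^ i ≤ m.choose k * k ^ i := by
  have h1 : (m - k).choose (k - i) ≤ (m - i).choose (k - i) :=
    Nat.choose_le_choose _ (by omega)
  refine (Nat.mul_le_mul_right _ h1).trans ?_
  have h2 := Nat.choose_mul (n := m) (k := k) (s := i) hi
  have h3 := desc_ratio k m hkm i hi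
  have hpos : 0 < m.descFactorial i := Nat.descFactorial_pos.2 (hi.trans hkm)
  apply Nat.le_of_mul_le_mul_left _ hpos
  calc m.descFactorial i * ((m - i).choose (k - i) * m ^ i)
      = i.factorial * (m.choose i * (m - i).choose (k - i)) * m ^ i := by
        rw [Nat.descFactorial_eq_factorial_mul_choose]; ring
    _ = i.factorial * (m.choose k * k.choose i) * m ^ i := by rw [h2]
    _ = m.choose k * (k.descFactorial i * m ^ i) := by
        rw [Nat.descFactorial_eq_factorial_mul_choose]; ring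
    _ ≤ m.choose k * (m.descFactorial i * k ^ i) := Nat.mul_le_mul_left _ h3
    _ = _ := by ring

theorem sq_le_one_imp {x : ℝ} (hx : 0 ≤ x) (h : x ^ 2 ≤ 1) : x ≤ 1 := by nlinarith

/-- the terms with small intersection -/
theorem term_small {q : ℝ} (hq0 : 0 < q) (hq1 : q < 1) {k m i : ℕ} (hkm : k ≤ m) (hi1 : 1 ≤ i)
    (hik : i ≤ k) (hm : 0 < m) (h2i : 2 * (i - 1) ≤ k) (h1 : 1 ≤ ((m : ℝ) + 1) ^ 2 * q ^ k)
    (hb : (k : ℝ) ^ 4 * ((m : ℝ) + 1) ≤ (m : ℝ) ^ 2) :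
    ((k.choose i : ℝ) * ((m - k).choose (k - i) : ℝ)) * q ^ (k.choose 2 - i.choose 2) ≤
      ((m.choose k : ℝ) * q ^ (k.choose 2)) * (2 * (k : ℝ) ^ 4 / m) := by
  set x : ℝ := (m.choose k : ℝ) * q ^ (k.choose 2) with hx
  have hx0 : 0 ≤ x := by positivity
  have hmp : (0 : ℝ) < m := by exact_mod_cast hm
  have hm1 : (1 : ℝ) ≤ m := by exact_mod_cast hm
  have hk1 : (1 : ℝ) ≤ k := by exact_mod_cast hi1.trans hik
  set Q : ℝ := q⁻¹ with hQ
  have hQ0 : 0 < Q := by positivity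
  have hch : i.choose 2 ≤ k.choose 2 := Nat.choose_le_choose _ hik
  have e1 : q ^ (k.choose 2 - i.choose 2) = q ^ (k.choose 2) * Q ^ (i.choose 2) := by
    rw [hQ, inv_pow, pow_sub₀ _ hq0.ne' hch]
  have e2 : ((m - k).choose (k - i) : ℝ) * (m : ℝ) ^ i ≤ (m.choose k : ℝ) * (k : ℝ) ^ i := by
    exact_mod_cast choose_ratio hkm hik
  have e3 : (k.choose i : ℝ) ≤ (k : ℝ) ^ i := by exact_mod_cast Nat.choose_le_pow k i
  -- the factor y
  set y : ℝ := ((k : ℝ) ^ 2 / m) ^ i * Q ^ (i.choose 2) with hy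
  have hy0 : 0 ≤ y := by positivity
  have h2 : ((k.choose i : ℝ) * ((m - k).choose (k - i) : ℝ)) * q ^ (k.choose 2 - i.choose 2) ≤
      x * y := by
    have h3 : ((m - k).choose (k - i) : ℝ) ≤ (m.choose k : ℝ) * (k : ℝ) ^ i / (m : ℝ) ^ i := by
      rw [le_div_iff₀ (by positivity)]; exact e2
    calc ((k.choose i : ℝ) * ((m - k).choose (k - i) : ℝ)) * q ^ (k.choose 2 - i.choose 2)
        ≤ ((k : ℝ) ^ i * ((m.choose k : ℝ) * (k : ℝ) ^ i / (m : ℝ) ^ i)) *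
            q ^ (k.choose 2 - i.choose 2) := by
          apply mul_le_mul_of_nonneg_right _ (by positivity)
          exact mul_le_mul e3 h3 (by positivity) (by positivity)
      _ = x * y := by
          rw [e1, hx, hy, div_pow]
          ring
  refine h2.trans (mul_le_mul_of_nonneg_left ?_ hx0)
  -- y ≤ 2 k^4 / m
  rcases Nat.lt_or_ge i 2 with hi | hi
  · have hi' : i = 1 := by omega
    subst hi'
    rw [hy]
    simp only [pow_one]
    rw [show (1 : ℕ).choose 2 = 0 from rfl, pow_zero, mul_one]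
    apply div_le_div_of_nonneg_right _ hmp.le
    nlinarith [pow_le_pow_right₀ hk1 (show 2 ≤ 4 by norm_num)]
  · have hQk : Q ^ (i - 1) ≤ (m : ℝ) + 1 := by
      have h3 : (Q ^ (i - 1)) ^ 2 ≤ ((m : ℝ) + 1) ^ 2 := by
        have hQ1 : 1 ≤ Q := by rw [hQ]; exact (one_le_inv₀ hq0).2 hq1.le
        calc (Q ^ (i - 1)) ^ 2 = Q ^ (2 * (i - 1)) := by rw [← pow_mul, mul_comm]
          _ ≤ Q ^ k := pow_le_pow_right₀ hQ1 h2i
          _ = 1 * Q ^ k := by ring
          _ ≤ (((m : ℝ) + 1) ^ 2 * q ^ k) * Q ^ k := mul_le_mul_of_nonneg_right h1 (by positivity)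
          _ = ((m : ℝ) + 1) ^ 2 * (q * Q) ^ k := by rw [mul_pow]; ring
          _ = ((m : ℝ) + 1) ^ 2 := by rw [hQ, mul_inv_cancel₀ hq0.ne', one_pow, mul_one]
      exact le_of_sq_le_sq h3 (by positivity)
    have h4 : y ^ 2 ≤ ((k : ℝ) ^ 4 * ((m : ℝ) + 1) / (m : ℝ) ^ 2) ^ 2 := by
      have h5 : y ^ 2 = ((k : ℝ) ^ 4 / (m : ℝ) ^ 2 * Q ^ (i - 1)) ^ i := by
        rw [hy, mul_pow, ← pow_mul, ← pow_mul]
        have h6 : i.choose 2 * 2 = (i - 1) * i := by
          obtain ⟨j, rfl⟩ : ∃ j, i = j + 1 := ⟨i - 1, by omega⟩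
          rw [mul_comm, two_choose]
          simp
        rw [h6, mul_pow, ← pow_mul, div_pow, div_pow, ← pow_mul, ← pow_mul, ← pow_mul]
        congr 2
        · congr 1; ring
        · congr 1; ring
      rw [h5]
      have h6 : (k : ℝ) ^ 4 / (m : ℝ) ^ 2 * Q ^ (i - 1) ≤
          (k : ℝ) ^ 4 * ((m : ℝ) + 1) / (m : ℝ) ^ 2 := by
        rw [div_mul_eq_mul_div]
        apply div_le_div_of_nonneg_right _ (by positivity)
        exact mul_le_mul_of_nonneg_left hQk (by positivity)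
      have h7 : (k : ℝ) ^ 4 * ((m : ℝ) + 1) / (m : ℝ) ^ 2 ≤ 1 := by
        rw [div_le_one (by positivity)]; exact hb
      calc ((k : ℝ) ^ 4 / (m : ℝ) ^ 2 * Q ^ (i - 1)) ^ i
          ≤ ((k : ℝ) ^ 4 * ((m : ℝ) + 1) / (m : ℝ) ^ 2) ^ i :=
            pow_le_pow_left₀ (by positivity) h6 _
        _ ≤ ((k : ℝ) ^ 4 * ((m : ℝ) + 1) / (m : ℝ) ^ 2) ^ 2 :=
            pow_le_pow_of_le_one (by positivity) h7 hi
    have h8 : y ≤ (k : ℝ) ^ 4 * ((m : ℝ) + 1) / (m : ℝ) ^ 2 := le_of_sq_le_sq h4 (by positivity)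
    refine h8.trans ?_
    rw [div_le_div_iff₀ (by positivity) hmp]
    have : 0 ≤ (k : ℝ) ^ 4 * m := by positivity
    nlinarith

/-- the terms with large intersection -/
theorem term_large {q : ℝ} (hq0 : 0 < q) (hq1 : q < 1) {k m i : ℕ} (hkm : k < m)
    (hik : i ≤ k) (h2i : k < 2 * (i - 1))
    (h2 : ((m : ℝ) - k) ^ 2 * q ^ k ≤ ((k : ℝ) + 1) ^ 2)
    (hb : (k : ℝ) ^ 2 * (m : ℝ) ^ 2 * ((k : ℝ) + 1) ^ 3 ≤ ((m : ℝ) - k) ^ 3) :
    ((k.choose i : ℝ) * ((m - k).choose (k - i) : ℝ)) * q ^ (k.choose 2 - i.choose 2) ≤ 1 := by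
  have hmk : (0 : ℝ) < (m : ℝ) - k := by
    have : (k : ℝ) < m := by exact_mod_cast hkm
    linarith
  apply sq_le_one_imp (by positivity)
  set j := k - i with hj
  have e1 : (k.choose i : ℝ) ≤ (k : ℝ) ^ j := by
    rw [← Nat.choose_symm hik]
    exact_mod_cast Nat.choose_le_pow k (k - i)
  have e2 : ((m - k).choose j : ℝ) ≤ (m : ℝ) ^ j := by
    have : (m - k).choose j ≤ m ^ j :=
      (Nat.choose_le_pow _ _).trans (Nat.pow_le_pow_left (Nat.sub_le _ _) _)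
    exact_mod_cast this
  have e3 : (q ^ (k.choose 2 - i.choose 2)) ^ 2 = (q ^ (k + i - 1)) ^ j := by
    rw [← pow_mul, ← pow_mul]
    congr 1
    obtain ⟨a, rfl⟩ : ∃ a, i = a + 1 := ⟨i - 1, by omega⟩
    obtain ⟨b, rfl⟩ : ∃ b, k = b + 1 := ⟨k - 1, by omega⟩
    have h3 := two_choose a
    have h4 := two_choose b
    have h5 : (a + 1).choose 2 ≤ (b + 1).choose 2 := Nat.choose_le_choose _ hik
    obtain ⟨c, rfl⟩ : ∃ c, b = a + c := ⟨b - a, by omega⟩
    have h6 : a + c + 1 - (a + 1) = c := by omega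
    have h7 : a + c + 1 + (a + 1) - 1 = 2 * a + c + 1 := by omega
    rw [hj, h6, h7]
    rw [Nat.sub_mul]
    have h8 : (a + c + 1).choose 2 * 2 = (a + c) * (a + c + 1) := by rw [mul_comm]; exact h4
    have h9 : (a + 1).choose 2 * 2 = a * (a + 1) := by rw [mul_comm]; exact h3
    rw [h8, h9]
    have h10 : (a + c) * (a + c + 1) = a * (a + 1) + (2 * a + c + 1) * c := by ring
    rw [h10]
    omega
  have e4 : q ^ (k + i - 1) ≤ (((k : ℝ) + 1) / ((m : ℝ) - k)) ^ 3 := by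
    have h3 : (q ^ (k + i - 1)) ^ 2 ≤ ((((k : ℝ) + 1) / ((m : ℝ) - k)) ^ 3) ^ 2 := by
      calc (q ^ (k + i - 1)) ^ 2 = q ^ (2 * (k + i - 1)) := by rw [← pow_mul, mul_comm]
        _ ≤ q ^ (k * 3) := pow_le_pow_of_le_one hq0.le hq1.le (by omega)
        _ = (q ^ k) ^ 3 := by rw [pow_mul]
        _ ≤ (((k : ℝ) + 1) ^ 2 / ((m : ℝ) - k) ^ 2) ^ 3 := by
            apply pow_le_pow_left₀ (by positivity)
            rw [le_div_iff₀ (by positivity)]
            linarith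
        _ = _ := by rw [div_pow, div_pow, div_pow]; ring
    exact le_of_sq_le_sq h3 (by positivity)
  calc ((k.choose i : ℝ) * ((m - k).choose j : ℝ) * q ^ (k.choose 2 - i.choose 2)) ^ 2
      = ((k.choose i : ℝ) * ((m - k).choose j : ℝ)) ^ 2 * (q ^ (k + i - 1)) ^ j := by
        rw [mul_pow, e3]
    _ ≤ ((k : ℝ) ^ j * (m : ℝ) ^ j) ^ 2 * ((((k : ℝ) + 1) / ((m : ℝ) - k)) ^ 3) ^ j := by
        apply mul_le_mul _ (pow_le_pow_left₀ (by positivity) e4 _) (by positivity) (by positivity)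
        apply pow_le_pow_left₀ (by positivity)
        exact mul_le_mul e1 e2 (by positivity) (by positivity)
    _ = ((k : ℝ) ^ 2 * (m : ℝ) ^ 2 * ((k : ℝ) + 1) ^ 3 / ((m : ℝ) - k) ^ 3) ^ j := by
        rw [← mul_pow, ← pow_mul, mul_comm j 2, pow_mul, ← mul_pow, div_pow]
        congr 1
        ring
    _ ≤ 1 := by
        apply pow_le_one₀ (by positivity)
        rw [div_le_one (by positivity)]
        exact hb


/-- the sum of all terms -/
theorem DD_le {q : ℝ} (hq0 : 0 < q) (hq1 : q < 1) {k m : ℕ} (hkm : k < m)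
    (h1 : 1 ≤ ((m : ℝ) + 1) ^ 2 * q ^ k) (h2 : ((m : ℝ) - k) ^ 2 * q ^ k ≤ ((k : ℝ) + 1) ^ 2)
    (hb1 : (k : ℝ) ^ 4 * ((m : ℝ) + 1) ≤ (m : ℝ) ^ 2)
    (hb2 : (k : ℝ) ^ 2 * (m : ℝ) ^ 2 * ((k : ℝ) + 1) ^ 3 ≤ ((m : ℝ) - k) ^ 3)
    (hx : ((m.choose k : ℝ) * q ^ (k.choose 2)) ≤ ((k : ℝ) + 1) * m) :
    DD q m k ≤ 3 * ((k : ℝ) + 1) ^ 6 := by
  have hmp : (0 : ℝ) < m := by exact_mod_cast (Nat.zero_le k).trans_lt hkm
  unfold DD
  have h3 : ∀ i ∈ Icc 1 k, ((k.choose i : ℝ) * ((m - k).choose (k - i) : ℝ)) *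
      q ^ (k.choose 2 - i.choose 2) ≤ 2 * ((k : ℝ) + 1) ^ 5 + 1 := by
    intro i hi
    rw [mem_Icc] at hi
    rcases Nat.lt_or_ge k (2 * (i - 1)) with h | h
    · refine (term_large hq0 hq1 hkm hi.2 h h2 hb2).trans ?_
      have : (0 : ℝ) ≤ 2 * ((k : ℝ) + 1) ^ 5 := by positivity
      linarith
    · refine (term_small hq0 hq1 hkm.le hi.1 hi.2 (by omega) h h1 hb1).trans ?_
      calc ((m.choose k : ℝ) * q ^ (k.choose 2)) * (2 * (k : ℝ) ^ 4 / m)
          ≤ (((k : ℝ) + 1) * m) * (2 * (k : ℝ) ^ 4 / m) :=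
            mul_le_mul_of_nonneg_right hx (by positivity)
        _ = 2 * ((k : ℝ) + 1) * (k : ℝ) ^ 4 := by field_simp
        _ ≤ 2 * ((k : ℝ) + 1) * ((k : ℝ) + 1) ^ 4 := by
            apply mul_le_mul_of_nonneg_left _ (by positivity)
            exact pow_le_pow_left₀ (by positivity) (by linarith) _
        _ = 2 * ((k : ℝ) + 1) ^ 5 := by ring
        _ ≤ _ := by linarith
  refine (sum_le_card_nsmul _ _ _ h3).trans ?_
  rw [Nat.card_Icc, nsmul_eq_mul]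
  simp only [Nat.add_sub_cancel]
  have hk0 : (0 : ℝ) ≤ k := by positivity
  have h4 : (1 : ℝ) ≤ ((k : ℝ) + 1) ^ 5 := one_le_pow₀ (by linarith)
  calc (k : ℝ) * (2 * ((k : ℝ) + 1) ^ 5 + 1) ≤ (k : ℝ) * (3 * ((k : ℝ) + 1) ^ 5) :=
        mul_le_mul_of_nonneg_left (by linarith) hk0
    _ ≤ ((k : ℝ) + 1) * (3 * ((k : ℝ) + 1) ^ 5) :=
        mul_le_mul_of_nonneg_right (by linarith) (by positivity)
    _ = _ := by ring

/-- the number of large sets does not grow much -/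
theorem choose_growth {k m t : ℕ} (hkm : k < m) (ht : ((k : ℝ) + 1) * t ≤ 2 * ((m : ℝ) - k)) :
    ((m + t).choose (k + 1) : ℝ) ≤ 8 * (m.choose (k + 1) : ℝ) := by
  have hmk : (0 : ℝ) < (m : ℝ) - k := by
    have : (k : ℝ) < m := by exact_mod_cast hkm
    linarith
  set r : ℝ := 1 + t / ((m : ℝ) - k) with hr
  have hr0 : 0 < r := by positivity
  have key : ∀ i, i ≤ k + 1 → ((m + t).descFactorial i : ℝ) ≤ r ^ i * (m.descFactorial i : ℝ) := by
    intro i
    induction i with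
    | zero => intro _; simp
    | succ i ih =>
      intro hi
      have h1 := ih (by omega)
      rw [Nat.descFactorial_succ, Nat.descFactorial_succ, pow_succ]
      push_cast
      have h2 : ((m + t - i : ℕ) : ℝ) ≤ r * ((m - i : ℕ) : ℝ) := by
        rw [Nat.cast_sub (by omega), Nat.cast_sub (by omega), hr]
        push_cast
        have h3 : (i : ℝ) ≤ k := by exact_mod_cast Nat.lt_succ_iff.1 hi
        have h4 : (t : ℝ) / ((m : ℝ) - k) * ((m : ℝ) - k) = t := by field_simp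
        have h5 : 0 ≤ (t : ℝ) / ((m : ℝ) - k) := by positivity
        nlinarith
      calc ((m + t - i : ℕ) : ℝ) * ((m + t).descFactorial i : ℝ)
          ≤ (r * ((m - i : ℕ) : ℝ)) * (r ^ i * (m.descFactorial i : ℝ)) :=
            mul_le_mul h2 h1 (by positivity) (by positivity)
        _ = _ := by ring
  have h1 := key (k + 1) le_rfl
  rw [Nat.descFactorial_eq_factorial_mul_choose, Nat.descFactorial_eq_factorial_mul_choose] at h1
  push_cast at h1
  have hfp : (0 : ℝ) < ((k + 1).factorial : ℝ) := by positivity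
  have h2 : ((m + t).choose (k + 1) : ℝ) ≤ r ^ (k + 1) * (m.choose (k + 1) : ℝ) := by
    apply le_of_mul_le_mul_left _ hfp
    calc ((k + 1).factorial : ℝ) * ((m + t).choose (k + 1) : ℝ) ≤ _ := h1
      _ = _ := by ring
  refine h2.trans (mul_le_mul_of_nonneg_right ?_ (by positivity))
  calc r ^ (k + 1) ≤ (Real.exp (t / ((m : ℝ) - k))) ^ (k + 1) := by
        apply pow_le_pow_left₀ hr0.le
        rw [hr, add_comm]
        exact Real.add_one_le_exp _
    _ = Real.exp (((k : ℝ) + 1) * (t / ((m : ℝ) - k))) := by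
        rw [← Real.exp_nat_mul]; push_cast; rfl
    _ ≤ Real.exp 2 := by
        apply Real.exp_le_exp.2
        rw [mul_div_assoc', div_le_iff₀ hmk]
        exact ht
    _ = Real.exp 1 ^ 2 := by rw [← Real.exp_nat_mul]; norm_num
    _ ≤ 2.7182818286 ^ 2 := pow_le_pow_left₀ (Real.exp_pos 1).le Real.exp_one_lt_d9.le 2
    _ ≤ 8 := by norm_num


set_option maxHeartbeats 4000000 in
theorem bound {k m : ℕ} (hk : 4 ≤ k) (h15 : 8 * (14 / 15 : ℝ) ^ k ≤ 1)
    (hM : 10 ^ 13 * ((k : ℝ) + 1) ^ 18 ≤ m)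
    (hA : 1 / 100 < ((m + 1).choose (k + 1) : ℝ) * (11 / 20 : ℝ) ^ ((k + 1).choose 2))
    (hB : (m.choose (k + 1) : ℝ) * (11 / 20 : ℝ) ^ ((k + 1).choose 2) ≤ 1 / 100) :
    ∃ ρ : ℝ, 0 < ρ ∧
      ρ ≤ ((m / k).choose 2 : ℝ) * (101 / 200 : ℝ) ^ k -
        (1 / 2) * (((m / k).choose 2 : ℝ) * (((m / k).choose 2 : ℝ) * (103 / 400 : ℝ) ^ k)) ∧
      DD (11 / 20) m k / ((m.choose k : ℝ) * (11 / 20 : ℝ) ^ (k.choose 2) * ρ) ≤ 1 / 10 ∧
      ((m + m / k).choose (k + 1) : ℝ) * (11 / 20 : ℝ) ^ ((k + 1).choose 2) ≤ 8 / 100 := by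
  set q : ℝ := 11 / 20 with hq
  have hq0 : 0 < q := by rw [hq]; norm_num
  have hq1 : q < 1 := by rw [hq]; norm_num
  set K : ℝ := (k : ℝ) with hK
  set M : ℝ := (m : ℝ) with hMM
  set L : ℝ := K + 1 with hL
  have hK4 : (4 : ℝ) ≤ K := by rw [hK]; exact_mod_cast hk
  have hL5 : (5 : ℝ) ≤ L := by linarith
  have hL1 : (1 : ℝ) ≤ L := by linarith
  have hL5M : L ^ 5 * 10 ^ 13 ≤ M := by
    have : L ^ 5 ≤ L ^ 18 := pow_le_pow_right₀ hL1 (by norm_num)
    linarith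
  have hLL : L ≤ L ^ 5 := by
    calc L = L ^ 1 := (pow_one L).symm
      _ ≤ L ^ 5 := pow_le_pow_right₀ hL1 (by norm_num)
  have hL4 : L ^ 4 ≤ L ^ 5 := pow_le_pow_right₀ hL1 (by norm_num)
  have hM1 : 1 ≤ M := by linarith
  have hM0 : 0 < M := by linarith
  have hKM : 100 * K ≤ M := by linarith
  have hkm : k < m := by
    have : K < M := by linarith
    rw [hK, hMM] at this
    exact_mod_cast this
  have hMK : M / 2 ≤ M - K := by linarith
  have hMKp : 0 < M - K := by linarith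
  have hM2 : M + 1 ≤ 2 * M := by linarith
  have h1 : 1 ≤ (M + 1) ^ 2 * q ^ k := H1 hq0 hk hA
  have h2 : (M - K) ^ 2 * q ^ k ≤ L ^ 2 := H2 hq0 hkm.le hB
  have h3 := H3 hq0 hA h2
  have h4 := H4 hq0 hkm.le hB h1
  rw [← hK, ← hMM, ← hL] at h3 h4
  set x : ℝ := (m.choose k : ℝ) * q ^ (k.choose 2) with hx
  have hx0 : 0 < x := by
    have : 0 < m.choose k := Nat.choose_pos hkm.le
    positivity
  have hKL : K ≤ L := by linarith
  have hK0 : 0 < K := by linarith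
  have hL0 : 0 < L := by linarith
  -- upper bound for x
  have hxu : x ≤ L * M := by
    have h5 : x * (M / 2) ≤ 1 / 100 * (L * (2 * M) ^ 2) := by
      calc x * (M / 2) ≤ x * (M - K) := mul_le_mul_of_nonneg_left hMK hx0.le
        _ ≤ _ := h4
        _ ≤ _ := by
            apply mul_le_mul_of_nonneg_left _ (by norm_num)
            apply mul_le_mul_of_nonneg_left _ hL0.le
            exact pow_le_pow_left₀ (by linarith) hM2 2
    have h6 : (M / 2) * x ≤ (M / 2) * (L * M) := by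
      have : 0 ≤ L * M ^ 2 := by positivity
      linarith
    exact le_of_mul_le_mul_left h6 (by positivity)
  -- lower bound for x
  have hxl : M ≤ 800 * L * x := by
    have h5 : 1 / 100 * (M / 2) ^ 2 ≤ x * (2 * M * L) := by
      calc 1 / 100 * (M / 2) ^ 2 ≤ 1 / 100 * (M - K) ^ 2 := by
            apply mul_le_mul_of_nonneg_left _ (by norm_num)
            exact pow_le_pow_left₀ (by positivity) hMK 2
        _ ≤ _ := h3
        _ ≤ _ := by
            apply mul_le_mul_of_nonneg_left _ hx0.le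
            exact mul_le_mul_of_nonneg_right hM2 hL0.le
    have h6 : M * M ≤ M * (800 * L * x) := by linarith
    exact le_of_mul_le_mul_left h6 hM0
  -- the sum
  have hb1 : K ^ 4 * (M + 1) ≤ M ^ 2 := by
    have h5 : K ^ 4 ≤ L ^ 4 := pow_le_pow_left₀ hK0.le hKL 4
    have h6 : K ^ 4 * 2 ≤ M := by
      have : 0 ≤ L ^ 5 := by positivity
      linarith
    calc K ^ 4 * (M + 1) ≤ K ^ 4 * (2 * M) := mul_le_mul_of_nonneg_left hM2 (by positivity)
      _ = (K ^ 4 * 2) * M := by ring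
      _ ≤ M * M := mul_le_mul_of_nonneg_right h6 hM0.le
      _ = M ^ 2 := by ring
  have hb2 : K ^ 2 * M ^ 2 * (K + 1) ^ 3 ≤ (M - K) ^ 3 := by
    rw [← hL]
    have h5 : K ^ 2 * L ^ 3 * 8 ≤ M := by
      have h6 : K ^ 2 * L ^ 3 ≤ L ^ 5 := by
        calc K ^ 2 * L ^ 3 ≤ L ^ 2 * L ^ 3 :=
              mul_le_mul_of_nonneg_right (pow_le_pow_left₀ hK0.le hKL 2) (by positivity)
          _ = L ^ 5 := by ring
      have : 0 ≤ L ^ 5 := by positivity
      linarith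
    calc K ^ 2 * M ^ 2 * L ^ 3 = (K ^ 2 * L ^ 3 * 8) * (M ^ 2 / 8) := by ring
      _ ≤ M * (M ^ 2 / 8) := mul_le_mul_of_nonneg_right h5 (by positivity)
      _ = (M / 2) ^ 3 := by ring
      _ ≤ (M - K) ^ 3 := pow_le_pow_left₀ (by positivity) hMK 3
  have hDD : DD q m k ≤ 3 * L ^ 6 := DD_le hq0 hq1 hkm h1 h2 hb1 hb2 hxu
  -- the second part
  set t : ℕ := m / k with ht
  have htK : (t : ℝ) * K ≤ M := by
    have := Nat.div_mul_le_self m k
    rw [hK, hMM, ht]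
    exact_mod_cast this
  have htK2 : M < ((t : ℝ) + 1) * K := by
    have := Nat.lt_div_mul_add (a := m) (b := k) (by omega)
    have h5 : m < (t + 1) * k := by rw [add_mul, one_mul]; exact this
    rw [hK, hMM]
    exact_mod_cast h5
  have ht0 : (0 : ℝ) ≤ t := by positivity
  set N : ℝ := (t.choose 2 : ℝ) with hN
  have hNe : N = (t : ℝ) * ((t : ℝ) - 1) / 2 := by rw [hN]; exact Nat.cast_choose_two ℝ t
  have htm : M ≤ 2 * K * ((t : ℝ) - 1) := by linarith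
  have htm1 : 0 < (t : ℝ) - 1 := by
    by_contra h
    push Not at h
    have : 2 * K * ((t : ℝ) - 1) ≤ 0 := mul_nonpos_of_nonneg_of_nonpos (by positivity) h
    linarith
  have hNl : M ^ 2 ≤ 8 * L ^ 2 * N := by
    calc M ^ 2 ≤ (2 * K * ((t : ℝ) - 1)) ^ 2 := pow_le_pow_left₀ hM0.le htm 2
      _ = 4 * K ^ 2 * (((t : ℝ) - 1) * ((t : ℝ) - 1)) := by ring
      _ ≤ 4 * L ^ 2 * ((t : ℝ) * ((t : ℝ) - 1)) := by
          apply mul_le_mul _ _ (by positivity) (by positivity)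
          · exact mul_le_mul_of_nonneg_left (pow_le_pow_left₀ hK0.le hKL 2) (by norm_num)
          · exact mul_le_mul_of_nonneg_right (by linarith) htm1.le
      _ = 8 * L ^ 2 * N := by rw [hNe]; ring
  have hNu : 2 * K ^ 2 * N ≤ M ^ 2 := by
    calc 2 * K ^ 2 * N = K ^ 2 * ((t : ℝ) * ((t : ℝ) - 1)) := by rw [hNe]; ring
      _ ≤ K ^ 2 * ((t : ℝ) * (t : ℝ)) := by
          apply mul_le_mul_of_nonneg_left _ (by positivity)
          exact mul_le_mul_of_nonneg_left (by linarith) ht0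
      _ = ((t : ℝ) * K) ^ 2 := by ring
      _ ≤ M ^ 2 := pow_le_pow_left₀ (by positivity) htK 2
  have hN0 : 0 < N := by
    by_contra h
    push Not at h
    have : 8 * L ^ 2 * N ≤ 0 := mul_nonpos_of_nonneg_of_nonpos (by positivity) h
    have : 0 < M ^ 2 := by positivity
    linarith
  set σ : ℝ := (101 / 200 : ℝ) ^ k with hσ
  have hσ0 : 0 < σ := by positivity
  -- the collision probability
  have hcol : N * (103 / 400 : ℝ) ^ k ≤ σ := by
    have h5 : (103 / 400 : ℝ) ^ k ≤ σ * (q ^ k * (14 / 15 : ℝ) ^ k) := by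
      rw [hσ, ← mul_pow, ← mul_pow]
      apply pow_le_pow_left₀ (by norm_num)
      rw [hq]; norm_num
    have h6 : N * q ^ k ≤ 8 := by
      have h7 : (M / 2) ^ 2 * q ^ k ≤ L ^ 2 := by
        refine le_trans ?_ h2
        apply mul_le_mul_of_nonneg_right _ (by positivity)
        exact pow_le_pow_left₀ (by positivity) hMK 2
      have h8 : (2 * K ^ 2) * (N * q ^ k) ≤ (2 * K ^ 2) * 8 := by
        calc (2 * K ^ 2) * (N * q ^ k) = (2 * K ^ 2 * N) * q ^ k := by ring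
          _ ≤ M ^ 2 * q ^ k := mul_le_mul_of_nonneg_right hNu (by positivity)
          _ = 4 * ((M / 2) ^ 2 * q ^ k) := by ring
          _ ≤ 4 * L ^ 2 := by linarith
          _ ≤ 4 * (2 * K) ^ 2 := by
              apply mul_le_mul_of_nonneg_left _ (by norm_num)
              exact pow_le_pow_left₀ hL0.le (by linarith) 2
          _ = (2 * K ^ 2) * 8 := by ring
      exact le_of_mul_le_mul_left h8 (by positivity)
    calc N * (103 / 400 : ℝ) ^ k ≤ N * (σ * (q ^ k * (14 / 15 : ℝ) ^ k)) :=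
          mul_le_mul_of_nonneg_left h5 hN0.le
      _ = σ * ((N * q ^ k) * (14 / 15 : ℝ) ^ k) := by ring
      _ ≤ σ * (8 * (14 / 15 : ℝ) ^ k) := by
          apply mul_le_mul_of_nonneg_left _ hσ0.le
          exact mul_le_mul_of_nonneg_right h6 (by positivity)
      _ ≤ σ * 1 := mul_le_mul_of_nonneg_left h15 hσ0.le
      _ = σ := mul_one σ
  -- the expectation is large
  have hbig : 384000 * L ^ 9 ≤ M ^ 3 * σ := by
    apply le_of_pow_le_pow_left₀ (n := 4) (by norm_num) (by positivity)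
    have h5 : (q ^ k) ^ 5 ≤ σ ^ 4 := by
      rw [hσ, ← pow_mul, ← pow_mul, mul_comm k, mul_comm k, pow_mul, pow_mul]
      apply pow_le_pow_left₀ (by positivity)
      rw [hq]; norm_num
    have h6 : 1 ≤ 4 * M ^ 2 * q ^ k := by
      calc 1 ≤ (M + 1) ^ 2 * q ^ k := h1
        _ ≤ (2 * M) ^ 2 * q ^ k := by
            apply mul_le_mul_of_nonneg_right _ (by positivity)
            exact pow_le_pow_left₀ (by positivity) hM2 2
        _ = _ := by ring
    have h7 : 1 ≤ (4 * M ^ 2 * q ^ k) ^ 5 := one_le_pow₀ h6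
    calc (384000 * L ^ 9) ^ 4 = 384000 ^ 4 * (L ^ 18) ^ 2 := by ring
      _ ≤ (10 ^ 13 * L ^ 18) ^ 2 / 1024 := by
          rw [mul_pow, le_div_iff₀ (by norm_num)]
          have : 0 ≤ (L ^ 18) ^ 2 := by positivity
          linarith
      _ ≤ M ^ 2 / 1024 := by
          apply div_le_div_of_nonneg_right _ (by norm_num)
          exact pow_le_pow_left₀ (by positivity) hM 2
      _ = M ^ 2 / 1024 * 1 := by ring
      _ ≤ M ^ 2 / 1024 * (4 * M ^ 2 * q ^ k) ^ 5 := mul_le_mul_of_nonneg_left h7 (by positivity)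
      _ = M ^ 12 * (q ^ k) ^ 5 := by ring
      _ ≤ M ^ 12 * σ ^ 4 := mul_le_mul_of_nonneg_left h5 (by positivity)
      _ = (M ^ 3 * σ) ^ 4 := by ring
  refine ⟨N * σ / 2, by positivity, ?_, ?_, ?_⟩
  · have h5 : N * (N * (103 / 400 : ℝ) ^ k) ≤ N * σ := mul_le_mul_of_nonneg_left hcol hN0.le
    linarith
  · rw [div_le_iff₀ (by positivity)]
    have h5 : M ^ 3 ≤ 6400 * L ^ 3 * (x * N) := by
      calc M ^ 3 = M * M ^ 2 := by ring
        _ ≤ (800 * L * x) * (8 * L ^ 2 * N) :=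
            mul_le_mul hxl hNl (by positivity) (by positivity)
        _ = _ := by ring
    have h6 : 384000 * L ^ 9 ≤ 6400 * L ^ 3 * (x * N) * σ :=
      hbig.trans (mul_le_mul_of_nonneg_right h5 hσ0.le)
    have h7 : (6400 * L ^ 3) * (60 * L ^ 6) ≤ (6400 * L ^ 3) * (x * N * σ) := by
      calc (6400 * L ^ 3) * (60 * L ^ 6) = 384000 * L ^ 9 := by ring
        _ ≤ _ := h6
        _ = _ := by ring
    have h8 : 60 * L ^ 6 ≤ x * N * σ := le_of_mul_le_mul_left h7 (by positivity)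
    calc DD q m k ≤ 3 * L ^ 6 := hDD
      _ ≤ 1 / 10 * (x * (N * σ / 2)) := by linarith
  · have h5 := choose_growth (k := k) (m := m) (t := t) hkm (by
      rw [← hK, ← hMM]
      have h9 : 4 * (t : ℝ) ≤ K * t := mul_le_mul_of_nonneg_right hK4 ht0
      linarith)
    calc ((m + t).choose (k + 1) : ℝ) * q ^ ((k + 1).choose 2)
        ≤ (8 * (m.choose (k + 1) : ℝ)) * q ^ ((k + 1).choose 2) :=
          mul_le_mul_of_nonneg_right h5 (by positivity)
      _ = 8 * ((m.choose (k + 1) : ℝ) * q ^ ((k + 1).choose 2)) := by ring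
      _ ≤ 8 / 100 := by linarith

/-- for every large `k` there is a suitable `m` -/
theorem exists_m : ∃ k₀ : ℕ, ∀ k, k₀ ≤ k → ∃ m : ℕ, 4 ≤ k ∧ 8 * (14 / 15 : ℝ) ^ k ≤ 1 ∧
    10 ^ 13 * ((k : ℝ) + 1) ^ 18 ≤ m ∧
    1 / 100 < ((m + 1).choose (k + 1) : ℝ) * (11 / 20 : ℝ) ^ ((k + 1).choose 2) ∧
    (m.choose (k + 1) : ℝ) * (11 / 20 : ℝ) ^ ((k + 1).choose 2) ≤ 1 / 100 := by
  have e1 : ∀ᶠ k : ℕ in Filter.atTop, (14 / 15 : ℝ) ^ k ≤ 1 / 8 := by
    have := tendsto_pow_atTop_nhds_zero_of_lt_one (r := (14 / 15 : ℝ)) (by norm_num) (by norm_num)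
    exact this.eventually_le_const (by norm_num)
  have e2 : ∀ᶠ k : ℕ in Filter.atTop,
      ((k + 1 : ℕ) : ℝ) ^ 36 / (20 / 11 : ℝ) ^ (k + 1) < (1 / (4 * 10 ^ 26)) * (11 / 20) := by
    have h := tendsto_pow_const_div_const_pow_of_one_lt 36 (r := (20 / 11 : ℝ)) (by norm_num)
    have h2 := h.comp (Filter.tendsto_add_atTop_nat 1)
    exact h2.eventually_lt_const (by norm_num)
  obtain ⟨k₀, hk₀⟩ := Filter.eventually_atTop.1 ((e1.and e2).and (Filter.eventually_ge_atTop 4))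
  refine ⟨k₀, fun k hk => ?_⟩
  obtain ⟨⟨h1, h2⟩, h3⟩ := hk₀ k hk
  have hqp : (0 : ℝ) < (11 / 20 : ℝ) ^ ((k + 1).choose 2) := by positivity
  have hex : ∃ m : ℕ, 1 / 100 < ((m + 1).choose (k + 1) : ℝ) *
      (11 / 20 : ℝ) ^ ((k + 1).choose 2) := by
    obtain ⟨N, hN⟩ := exists_nat_gt (1 / 100 / (11 / 20 : ℝ) ^ ((k + 1).choose 2))
    rw [div_lt_iff₀ hqp] at hN
    refine ⟨k + N, hN.trans_le ?_⟩
    apply mul_le_mul_of_nonneg_right _ hqp.le
    have h4 : N ≤ (k + N + 1).choose (k + 1) := by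
      have h5 : k + N + 1 = (k + 1) + N := by ring
      rw [h5, Nat.choose_symm_add]
      have h6 : N ≤ (k + 1 + N).choose N := by
        calc N ≤ N + 1 := Nat.le_succ _
          _ = (1 + N).choose N := by rw [add_comm 1 N, Nat.choose_succ_self_right]
          _ ≤ (k + 1 + N).choose N := Nat.choose_le_choose _ (by omega)
      exact h6
    exact_mod_cast h4
  classical
  set m := Nat.find hex with hm
  have hA := Nat.find_spec hex
  have hB : (m.choose (k + 1) : ℝ) * (11 / 20 : ℝ) ^ ((k + 1).choose 2) ≤ 1 / 100 := by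
    rcases Nat.eq_zero_or_pos m with h0 | h0
    · rw [h0]; norm_num
    · have h4 := Nat.find_min hex (m := m - 1) (by omega)
      push Not at h4
      have h5 : m - 1 + 1 = m := by omega
      rw [h5] at h4
      exact h4
  refine ⟨m, h3, by linarith, ?_, hA, hB⟩
  have h4 : 1 ≤ ((m : ℝ) + 1) ^ 2 * (11 / 20 : ℝ) ^ k := H1 (by norm_num) h3 hA
  rw [div_lt_iff₀ (by positivity)] at h2
  have h5 : (20 / 11 : ℝ) ^ k ≤ ((m : ℝ) + 1) ^ 2 := by
    calc (20 / 11 : ℝ) ^ k = 1 * (20 / 11 : ℝ) ^ k := by ring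
      _ ≤ (((m : ℝ) + 1) ^ 2 * (11 / 20 : ℝ) ^ k) * (20 / 11 : ℝ) ^ k :=
          mul_le_mul_of_nonneg_right h4 (by positivity)
      _ = ((m : ℝ) + 1) ^ 2 * ((11 / 20) * (20 / 11) : ℝ) ^ k := by rw [mul_pow]; ring
      _ = ((m : ℝ) + 1) ^ 2 := by norm_num
  have h6 : 4 * 10 ^ 26 * ((k : ℝ) + 1) ^ 36 ≤ ((m : ℝ) + 1) ^ 2 := by
    push_cast at h2
    rw [pow_succ (20 / 11 : ℝ) k] at h2
    have h7 : 4 * 10 ^ 26 * ((k : ℝ) + 1) ^ 36 ≤ (20 / 11 : ℝ) ^ k := by linarith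
    exact h7.trans h5
  have h7 : 2 * 10 ^ 13 * ((k : ℝ) + 1) ^ 18 ≤ (m : ℝ) + 1 := by
    apply le_of_sq_le_sq _ (by positivity)
    calc (2 * 10 ^ 13 * ((k : ℝ) + 1) ^ 18) ^ 2 = 4 * 10 ^ 26 * ((k : ℝ) + 1) ^ 36 := by ring
      _ ≤ _ := h6
  have h8 : (1 : ℝ) ≤ ((k : ℝ) + 1) ^ 18 := one_le_pow₀ (by have : (0 : ℝ) ≤ k := by positivity
                                                            linarith)
  linarith

end Pool.Agent.R87.BicNum
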