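import Pool.Agent.R87.GnpMore
import Pool.Agent.R87.BicDet

/-!
# The second moment computation
-/

set_option autoImplicit false

namespace Pool.Agent.R87.BicProb

open Finset Pool.Agent.W166.Gnp Pool.Agent.R87.GnpMore

section
variable {V : Type} [DecidableEq V]

/-- `I` is independent -/
def Ind (I : Finset V) (S : Finset (Sym2 V)) : Prop := Disjoint (ins I) S

/-- each vertex of `I` is joined to all or none of `K` -/
def Eqq (K I : Finset V) (S : Finset (Sym2 V)) : Prop :=
  ∀ v ∈ I, row v K ⊆ S ∨ Disjoint (row v K) S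

/-- two vertices of `W` have the same neighbours in `I` -/
def Col (I W : Finset V) (S : Finset (Sym2 V)) : Prop :=
  ∃ K ∈ powersetCard 2 W, Eqq K I S

/-- the pairs between `I` and `W` -/
def bip (I W : Finset V) : Finset (Sym2 V) := I.biUnion (fun v => row v W)

theorem mem_bip {I W : Finset V} {e : Sym2 V} : e ∈ bip I W ↔ ∃ v ∈ I, ∃ w ∈ W, s(v, w) = e := by
  simp [bip, mem_row]

theorem bip_mono {I W W' : Finset V} (h : W ⊆ W') : bip I W ⊆ bip I W' := by
  intro e he
  rw [mem_bip] at he ⊢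
  obtain ⟨v, hv, w, hw, rfl⟩ := he
  exact ⟨v, hv, w, h hw, rfl⟩

theorem bip_disj {I J W W' : Finset V} (hIJ : Disjoint I J) (hIW : Disjoint I W') :
    Disjoint (bip I W) (bip J W') := by
  rw [Finset.disjoint_left]
  intro e h1 h2
  rw [mem_bip] at h1 h2
  obtain ⟨v, hv, w, hw, rfl⟩ := h1
  obtain ⟨v', hv', w', hw', h⟩ := h2
  rw [Sym2.eq_iff] at h
  rcases h with ⟨rfl, rfl⟩ | ⟨rfl, rfl⟩
  · exact (Finset.disjoint_left.1 hIJ) hv hv'
  · exact (Finset.disjoint_left.1 hIW) hv hw'

theorem bip_disj' {I W W' : Finset V} (hWW : Disjoint W W') (hIW : Disjoint I W') :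
    Disjoint (bip I W) (bip I W') := by
  rw [Finset.disjoint_left]
  intro e h1 h2
  rw [mem_bip] at h1 h2
  obtain ⟨v, hv, w, hw, rfl⟩ := h1
  obtain ⟨v', hv', w', hw', h⟩ := h2
  rw [Sym2.eq_iff] at h
  rcases h with ⟨rfl, rfl⟩ | ⟨rfl, rfl⟩
  · exact (Finset.disjoint_left.1 hWW) hw hw'
  · exact (Finset.disjoint_left.1 hIW) hv hw'

theorem ins_bip_disj {I J W : Finset V} (hIW : Disjoint I W) :
    Disjoint (ins I) (bip J W) := by
  rw [Finset.disjoint_left]
  intro e h1 h2
  rw [mem_bip] at h2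
  obtain ⟨v, hv, w, hw, rfl⟩ := h2
  rw [mem_ins] at h1
  exact (Finset.disjoint_left.1 hIW) h1.2.1 hw

theorem ins_ins_disj {I J : Finset V} (h : Disjoint I J) : Disjoint (ins I) (ins J) := by
  rw [Finset.disjoint_iff_inter_eq_empty, ins_inter, Finset.disjoint_iff_inter_eq_empty.1 h]
  rfl

theorem eqq_local {K I : Finset V} {F : Finset (Sym2 V)} (hF : bip I K ⊆ F) (S : Finset (Sym2 V)) :
    Eqq K I S ↔ Eqq K I (S ∩ F) := by
  unfold Eqq
  refine forall₂_congr (fun v hv => ?_)
  have hr : row v K ⊆ F := by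
    intro e he
    apply hF
    exact mem_biUnion.2 ⟨v, hv, he⟩
  refine or_congr ?_ ?_
  · rw [subset_inter_iff]
    exact ⟨fun h => ⟨h, hr⟩, fun h => h.1⟩
  · constructor
    · intro h
      exact h.mono_right inter_subset_left
    · intro h
      rw [Finset.disjoint_left] at h ⊢
      intro e he hS
      exact h he (mem_inter.2 ⟨hS, hr he⟩)

theorem col_local {I W : Finset V} {F : Finset (Sym2 V)} (hF : bip I W ⊆ F) (S : Finset (Sym2 V)) :
    Col I W S ↔ Col I W (S ∩ F) := by
  unfold Col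
  refine exists_congr (fun K => and_congr_right (fun hK => ?_))
  exact eqq_local ((bip_mono (mem_powersetCard.1 hK).1).trans hF) S

theorem disj_local {D F : Finset (Sym2 V)} (hF : D ⊆ F) (S : Finset (Sym2 V)) :
    Disjoint D S ↔ Disjoint D (S ∩ F) := by
  constructor
  · intro h
    exact h.mono_right inter_subset_left
  · intro h
    rw [Finset.disjoint_left] at h ⊢
    intro e he hS
    exact h he (mem_inter.2 ⟨hS, hF he⟩)

theorem Pr_eqq {K I : Finset V} {E : Finset (Sym2 V)} {p : ℝ}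
    (hKI : Disjoint I K) (hE : bip I K ⊆ E) (hK : K.Nonempty) :
    Pr E p (Eqq K I) = (p ^ K.card + (1 - p) ^ K.card) ^ I.card := by
  have hrE : ∀ v ∈ I, row v K ⊆ E := by
    intro v hv e he
    exact hE (mem_biUnion.2 ⟨v, hv, he⟩)
  have h := Pr_forall (E := E) p I (fun v => row v K) hrE
    (fun v hv w hw hvw => row_disjoint hvw (Finset.disjoint_left.1 hKI hv))
    (fun v S => row v K ⊆ S ∨ Disjoint (row v K) S)
  have h2 : Pr E p (Eqq K I) = Pr E p (fun S => ∀ v ∈ I,
      (row v K ⊆ (S ∩ row v K) ∨ Disjoint (row v K) (S ∩ row v K))) := by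
    apply Pr_congr
    intro S _
    refine forall₂_congr (fun v _ => ?_)
    refine or_congr ?_ ?_
    · rw [subset_inter_iff]
      exact ⟨fun h => ⟨h, subset_rfl⟩, fun h => h.1⟩
    · exact disj_local subset_rfl S
  rw [h2]
  refine h.trans ?_
  rw [← prod_const]
  apply prod_congr rfl
  intro v hv
  rw [Pr_or_excl, Pr_superset subset_rfl, Pr_disjoint subset_rfl, card_row]
  intro S _ h3 h4
  obtain ⟨a, ha⟩ := hK
  have h5 : s(v, a) ∈ row v K := mem_row.2 ⟨a, ha, rfl⟩
  exact (Finset.disjoint_left.1 h4) h5 (h3 h5)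

theorem eqq_union {K K' I : Finset V} (h : ¬ Disjoint K K') {S : Finset (Sym2 V)}
    (h1 : Eqq K I S) (h2 : Eqq K' I S) : Eqq (K ∪ K') I S := by
  rw [Finset.not_disjoint_iff] at h
  obtain ⟨z, hz1, hz2⟩ := h
  intro v hv
  have hr : row v (K ∪ K') = row v K ∪ row v K' := by
    unfold row; rw [image_union]
  have m1 : s(v, z) ∈ row v K := mem_row.2 ⟨z, hz1, rfl⟩
  have m2 : s(v, z) ∈ row v K' := mem_row.2 ⟨z, hz2, rfl⟩
  rw [hr]
  rcases h1 v hv with h3 | h3 <;> rcases h2 v hv with h4 | h4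
  · exact Or.inl (union_subset h3 h4)
  · exact absurd (h3 m1) (Finset.disjoint_left.1 h4 m2)
  · exact absurd (h4 m2) (Finset.disjoint_left.1 h3 m1)
  · exact Or.inr (disjoint_union_left.2 ⟨h3, h4⟩)

theorem Pr_pair_le {K K' I W : Finset V} {E : Finset (Sym2 V)} {p : ℝ} (h0 : 0 ≤ p) (h1 : p ≤ 1)
    (hs : (p ^ 2 + (1 - p) ^ 2) ^ 2 ≤ p ^ 3 + (1 - p) ^ 3)
    (hIW : Disjoint I W) (hE : bip I W ⊆ E) (hK : K ∈ powersetCard 2 W)
    (hK' : K' ∈ powersetCard 2 W) (hne : K ≠ K') :
    Pr E p (fun S => Eqq K I S ∧ Eqq K' I S) ≤ (p ^ 3 + (1 - p) ^ 3) ^ I.card := by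
  rw [mem_powersetCard] at hK hK'
  have hIK : Disjoint I K := hIW.mono_right hK.1
  have hIK' : Disjoint I K' := hIW.mono_right hK'.1
  have hEK : bip I K ⊆ E := (bip_mono hK.1).trans hE
  have hEK' : bip I K' ⊆ E := (bip_mono hK'.1).trans hE
  have nK : K.Nonempty := card_pos.1 (by omega)
  have nK' : K'.Nonempty := card_pos.1 (by omega)
  have hq : 0 ≤ 1 - p := by linarith
  by_cases hd : Disjoint K K'
  · rw [Pr_and hEK hEK' (bip_disj' hd hIK') p (fun S _ => eqq_local subset_rfl S)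
      (fun S _ => eqq_local subset_rfl S), Pr_eqq hIK hEK nK, Pr_eqq hIK' hEK' nK', hK.2, hK'.2,
      ← mul_pow, ← pow_two]
    exact pow_le_pow_left₀ (by positivity) hs _
  · have hc : (K ∪ K').card = 3 := by
      have h2 := card_union_add_card_inter K K'
      have h3 : 0 < (K ∩ K').card := card_pos.2 (not_disjoint_iff_nonempty_inter.1 hd)
      have h4 : (K ∩ K').card < 2 := by
        by_contra h
        have h5 : (K ∩ K').card = 2 := by
          have := card_le_card (inter_subset_left : K ∩ K' ⊆ K)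
          omega
        have h6 : K ∩ K' = K := eq_of_subset_of_card_le inter_subset_left (by omega)
        have h7 : K ∩ K' = K' := eq_of_subset_of_card_le inter_subset_right (by omega)
        exact hne (h6.symm.trans h7)
      omega
    have hU : K ∪ K' ⊆ W := union_subset hK.1 hK'.1
    have h5 : Pr E p (fun S => Eqq K I S ∧ Eqq K' I S) ≤ Pr E p (Eqq (K ∪ K') I) :=
      Pr_mono h0 h1 (fun S _ h => eqq_union hd h.1 h.2)
    rw [Pr_eqq (hIW.mono_right hU) ((bip_mono hU).trans hE) (nK.mono subset_union_left), hc] at h5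
    exact h5

theorem Pr_col_ge {I W : Finset V} {E : Finset (Sym2 V)} {p : ℝ} (h0 : 0 ≤ p) (h1 : p ≤ 1)
    (hs : (p ^ 2 + (1 - p) ^ 2) ^ 2 ≤ p ^ 3 + (1 - p) ^ 3)
    (hIW : Disjoint I W) (hE : bip I W ⊆ E) :
    (W.card.choose 2 : ℝ) * (p ^ 2 + (1 - p) ^ 2) ^ I.card -
      (1 / 2) * ((W.card.choose 2 : ℝ) * ((W.card.choose 2 : ℝ) * (p ^ 3 + (1 - p) ^ 3) ^ I.card)) ≤
      Pr E p (Col I W) := by
  have hq : 0 ≤ 1 - p := by linarith
  have h := bonferroni (E := E) h0 h1 (powersetCard 2 W) (fun K => Eqq K I)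
  refine le_trans ?_ h
  have h2 : ∑ K ∈ powersetCard 2 W, Pr E p (Eqq K I) =
      (W.card.choose 2 : ℝ) * (p ^ 2 + (1 - p) ^ 2) ^ I.card := by
    rw [← nsmul_eq_mul, ← card_powersetCard, ← sum_const]
    apply sum_congr rfl
    intro K hK
    rw [mem_powersetCard] at hK
    rw [Pr_eqq (hIW.mono_right hK.1) ((bip_mono hK.1).trans hE) (card_pos.1 (by omega)), hK.2]
  have h3 : ∑ K ∈ powersetCard 2 W, ∑ K' ∈ (powersetCard 2 W).erase K,
      Pr E p (fun S => Eqq K I S ∧ Eqq K' I S) ≤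
      (W.card.choose 2 : ℝ) * ((W.card.choose 2 : ℝ) * (p ^ 3 + (1 - p) ^ 3) ^ I.card) := by
    have h4 : ∀ K ∈ powersetCard 2 W, ∑ K' ∈ (powersetCard 2 W).erase K,
        Pr E p (fun S => Eqq K I S ∧ Eqq K' I S) ≤
        (W.card.choose 2 : ℝ) * (p ^ 3 + (1 - p) ^ 3) ^ I.card := by
      intro K hK
      calc ∑ K' ∈ (powersetCard 2 W).erase K, Pr E p (fun S => Eqq K I S ∧ Eqq K' I S)
          ≤ ∑ K' ∈ (powersetCard 2 W).erase K, (p ^ 3 + (1 - p) ^ 3) ^ I.card := by
            apply sum_le_sum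
            intro K' hK'
            rw [mem_erase] at hK'
            exact Pr_pair_le h0 h1 hs hIW hE hK hK'.2 hK'.1.symm
        _ ≤ ∑ K' ∈ powersetCard 2 W, (p ^ 3 + (1 - p) ^ 3) ^ I.card := by
            apply sum_le_sum_of_subset_of_nonneg (erase_subset _ _)
            intro _ _ _
            positivity
        _ = _ := by rw [sum_const, card_powersetCard, nsmul_eq_mul]
    calc _ ≤ ∑ K ∈ powersetCard 2 W,
        (W.card.choose 2 : ℝ) * (p ^ 3 + (1 - p) ^ 3) ^ I.card := sum_le_sum h4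
      _ = _ := by rw [sum_const, card_powersetCard, nsmul_eq_mul]
  rw [h2]
  linarith

/-- the number of `k`-subsets of `V1` that meet `I` in `i` points -/
theorem card_meet {V1 I : Finset V} (hI : I ⊆ V1) (k i : ℕ) :
    ((powersetCard k V1).filter (fun J => (I ∩ J).card = i)).card ≤
      I.card.choose i * (V1.card - I.card).choose (k - i) := by
  rw [← card_sdiff_of_subset hI, ← card_powersetCard, ← card_powersetCard, ← card_product]
  apply card_le_card_of_injOn (fun J => (I ∩ J, J \ I))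
  · intro J hJ
    rw [mem_coe, mem_filter, mem_powersetCard] at hJ
    rw [mem_coe, mem_product, mem_powersetCard, mem_powersetCard]
    refine ⟨⟨inter_subset_left, hJ.2⟩, sdiff_subset_sdiff hJ.1.1 subset_rfl, ?_⟩
    have h := card_sdiff_add_card_inter J I
    rw [inter_comm] at h
    have h1 := hJ.1.2
    have h2 := hJ.2
    show (J \ I).card = k - i
    omega
  · intro J _ J' _ h
    simp only [Prod.mk.injEq] at h
    rw [← sdiff_union_inter J I, ← sdiff_union_inter J' I, inter_comm J, inter_comm J', h.1, h.2]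

/-- the bound for the correlated pairs -/
noncomputable def DD (q : ℝ) (m k : ℕ) : ℝ :=
  ∑ i ∈ Icc 1 k, ((k.choose i : ℝ) * ((m - k).choose (k - i) : ℝ)) * q ^ (k.choose 2 - i.choose 2)

theorem sum_meet_le {V1 I : Finset V} {q : ℝ} (hq : 0 ≤ q) {k : ℕ} (hI : I ∈ powersetCard k V1) :
    ∑ J ∈ (powersetCard k V1).filter (fun J => ¬ Disjoint I J),
      q ^ (k.choose 2 - (I ∩ J).card.choose 2) ≤ DD q V1.card k := by
  rw [mem_powersetCard] at hI
  have h1 : ∀ J ∈ (powersetCard k V1).filter (fun J => ¬ Disjoint I J),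
      (I ∩ J).card ∈ Icc 1 k := by
    intro J hJ
    rw [mem_filter] at hJ
    rw [mem_Icc]
    refine ⟨card_pos.2 (not_disjoint_iff_nonempty_inter.1 hJ.2), ?_⟩
    rw [← hI.2]
    exact card_le_card inter_subset_left
  rw [← sum_fiberwise_of_maps_to h1]
  unfold DD
  apply sum_le_sum
  intro i hi
  rw [mem_Icc] at hi
  calc ∑ J ∈ ((powersetCard k V1).filter (fun J => ¬ Disjoint I J)).filter
        (fun J => (I ∩ J).card = i), q ^ (k.choose 2 - (I ∩ J).card.choose 2)
      = ∑ J ∈ ((powersetCard k V1).filter (fun J => ¬ Disjoint I J)).filter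
        (fun J => (I ∩ J).card = i), q ^ (k.choose 2 - i.choose 2) := by
        apply sum_congr rfl
        intro J hJ
        rw [mem_filter] at hJ
        rw [hJ.2]
    _ = ((((powersetCard k V1).filter (fun J => ¬ Disjoint I J)).filter
        (fun J => (I ∩ J).card = i)).card : ℝ) * q ^ (k.choose 2 - i.choose 2) := by
        rw [sum_const, nsmul_eq_mul]
    _ ≤ _ := by
        apply mul_le_mul_of_nonneg_right _ (pow_nonneg hq _)
        have h2 : (((powersetCard k V1).filter (fun J => ¬ Disjoint I J)).filter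
            (fun J => (I ∩ J).card = i)).card ≤ k.choose i * (V1.card - k).choose (k - i) := by
          refine le_trans (card_le_card ?_) (le_trans (card_meet hI.1 k i) (by rw [hI.2]))
          intro J hJ
          rw [mem_filter, mem_filter] at hJ
          rw [mem_filter]
          exact ⟨hJ.1.1, hJ.2⟩
        exact_mod_cast h2

/-- the second moment bound -/
theorem second {V1 W : Finset V} {E : Finset (Sym2 V)} {p ρ : ℝ} (h0 : 0 ≤ p) (h1 : p < 1)
    (hVW : Disjoint V1 W) (hE1 : ins V1 ⊆ E) (hE2 : bip V1 W ⊆ E) (k : ℕ) (hρ : 0 < ρ)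
    (hk : k ≤ V1.card)
    (hcol : ∀ I ∈ powersetCard k V1, ρ ≤ Pr E p (Col I W)) :
    ((V1.card.choose k : ℝ) * (1 - p) ^ (k.choose 2) * ρ) *
      Pr E p (fun S => ¬ ∃ I ∈ powersetCard k V1, Ind I S ∧ Col I W S) ≤ DD (1 - p) V1.card k := by
  classical
  have hq : 0 < 1 - p := by linarith
  have h1' : p ≤ 1 := h1.le
  set A : Finset V → Finset (Sym2 V) → Prop := fun I S => Ind I S ∧ Col I W S with hA
  set T := powersetCard k V1 with hT
  have hEins : ∀ I ∈ T, ins I ⊆ E := fun I hI =>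
    (ins_mono (mem_powersetCard.1 hI).1).trans hE1
  have hbipm : ∀ I ∈ T, bip I W ⊆ bip V1 W := by
    intro I hI e he
    rw [mem_bip] at he ⊢
    obtain ⟨v, hv, w, hw, rfl⟩ := he
    exact ⟨v, (mem_powersetCard.1 hI).1 hv, w, hw, rfl⟩
  have hEbip : ∀ I ∈ T, bip I W ⊆ E := fun I hI => (hbipm I hI).trans hE2
  have hdW : ∀ I ∈ T, Disjoint I W := fun I hI => hVW.mono_left (mem_powersetCard.1 hI).1
  -- probability of a single event
  have hsingle : ∀ I ∈ T, Pr E p (A I) = (1 - p) ^ (k.choose 2) * Pr E p (Col I W) := by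
    intro I hI
    refine (Pr_and (hEins I hI) (hEbip I hI) (ins_bip_disj (hdW I hI)) p
      (fun S _ => disj_local subset_rfl S) (fun S _ => col_local subset_rfl S)).trans ?_
    congr 1
    have := Pr_disjoint (hEins I hI) p
    rw [card_ins, (mem_powersetCard.1 hI).2] at this
    exact this
  -- disjoint pairs are independent
  have hdisj : ∀ I ∈ T, ∀ J ∈ T, Disjoint I J →
      Pr E p (fun S => A I S ∧ A J S) = Pr E p (A I) * Pr E p (A J) := by
    intro I hI J hJ hIJ
    have key : ∀ I ∈ T, ∀ S, S ⊆ E → (A I S ↔ A I (S ∩ (ins I ∪ bip I W))) := by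
      intro I hI S _
      exact and_congr (disj_local subset_union_left S) (col_local subset_union_right S)
    refine Pr_and (E1 := ins I ∪ bip I W) (E2 := ins J ∪ bip J W)
      (union_subset (hEins I hI) (hEbip I hI)) (union_subset (hEins J hJ) (hEbip J hJ)) ?_ p
      (key I hI) (key J hJ)
    rw [disjoint_union_left, disjoint_union_right, disjoint_union_right]
    exact ⟨⟨ins_ins_disj hIJ, ins_bip_disj (hdW I hI)⟩,
      ⟨(ins_bip_disj (hdW J hJ)).symm, bip_disj hIJ (hdW I hI)⟩⟩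
  -- general pairs
  have hgen : ∀ I ∈ T, ∀ J ∈ T, Pr E p (fun S => A I S ∧ A J S) ≤
      Pr E p (A I) * (1 - p) ^ (k.choose 2 - (I ∩ J).card.choose 2) := by
    intro I hI J hJ
    have h2 : Pr E p (fun S => A I S ∧ A J S) ≤
        Pr E p (fun S => Disjoint (ins I ∪ ins J) S ∧ Col I W S) := by
      apply Pr_mono h0 h1'
      intro S _ h
      exact ⟨disjoint_union_left.2 ⟨h.1.1, h.2.1⟩, h.1.2⟩
    have hsub : ins I ∪ ins J ⊆ E := union_subset (hEins I hI) (hEins J hJ)
    have hdd : Disjoint (ins I ∪ ins J) (bip I W) :=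
      disjoint_union_left.2 ⟨ins_bip_disj (hdW I hI), ins_bip_disj (hdW J hJ)⟩
    rw [Pr_and hsub (hEbip I hI) hdd p
      (fun S _ => disj_local subset_rfl S) (fun S _ => col_local subset_rfl S),
      Pr_disjoint hsub] at h2
    refine h2.trans (le_of_eq ?_)
    rw [hsingle I hI]
    have h3 : (ins I ∪ ins J).card = k.choose 2 + (k.choose 2 - (I ∩ J).card.choose 2) := by
      have h4 := card_union_add_card_inter (ins I) (ins J)
      rw [ins_inter, card_ins, card_ins, card_ins, (mem_powersetCard.1 hI).2,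
        (mem_powersetCard.1 hJ).2] at h4
      have h5 : (I ∩ J).card.choose 2 ≤ k.choose 2 := by
        apply Nat.choose_le_choose
        rw [← (mem_powersetCard.1 hI).2]
        exact card_le_card inter_subset_left
      omega
    rw [h3, pow_add]
    ring
  set μ : ℝ := ∑ I ∈ T, Pr E p (A I) with hμ
  set P : ℝ := Pr E p (fun S => ¬ ∃ I ∈ T, A I S) with hP
  have hPn : 0 ≤ P := Pr_nonneg h0 h1' _
  have hcheb : μ ^ 2 * P ≤ ∑ I ∈ T, ∑ J ∈ T, Pr E p (fun S => A I S ∧ A J S) - μ ^ 2 :=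
    chebyshev h0 h1' T A
  have hprn : ∀ I, 0 ≤ Pr E p (A I) := fun I => Pr_nonneg h0 h1' _
  have hrow : ∀ I ∈ T, ∑ J ∈ T, Pr E p (fun S => A I S ∧ A J S) ≤
      Pr E p (A I) * μ + Pr E p (A I) * DD (1 - p) V1.card k := by
    intro I hI
    rw [← sum_filter_add_sum_filter_not T (fun J => Disjoint I J)]
    apply add_le_add
    · calc ∑ J ∈ T with Disjoint I J, Pr E p (fun S => A I S ∧ A J S)
          = ∑ J ∈ T with Disjoint I J, Pr E p (A I) * Pr E p (A J) := by
            apply sum_congr rfl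
            intro J hJ
            rw [mem_filter] at hJ
            exact hdisj I hI J hJ.1 hJ.2
        _ = Pr E p (A I) * ∑ J ∈ T with Disjoint I J, Pr E p (A J) := by rw [mul_sum]
        _ ≤ Pr E p (A I) * μ := by
            apply mul_le_mul_of_nonneg_left _ (hprn I)
            exact sum_le_sum_of_subset_of_nonneg (filter_subset _ _) (fun J _ _ => hprn J)
    · calc ∑ J ∈ T with ¬ Disjoint I J, Pr E p (fun S => A I S ∧ A J S)
          ≤ ∑ J ∈ T with ¬ Disjoint I J,
              Pr E p (A I) * (1 - p) ^ (k.choose 2 - (I ∩ J).card.choose 2) := by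
            apply sum_le_sum
            intro J hJ
            rw [mem_filter] at hJ
            exact hgen I hI J hJ.1
        _ = Pr E p (A I) * ∑ J ∈ T with ¬ Disjoint I J,
              (1 - p) ^ (k.choose 2 - (I ∩ J).card.choose 2) := by rw [mul_sum]
        _ ≤ _ := mul_le_mul_of_nonneg_left (sum_meet_le hq.le hI) (hprn I)
  have hsum : ∑ I ∈ T, ∑ J ∈ T, Pr E p (fun S => A I S ∧ A J S) ≤
      μ * μ + μ * DD (1 - p) V1.card k := by
    refine (sum_le_sum hrow).trans (le_of_eq ?_)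
    rw [sum_add_distrib, ← sum_mul, ← sum_mul]
  have hX : (V1.card.choose k : ℝ) * (1 - p) ^ (k.choose 2) * ρ ≤ μ := by
    calc (V1.card.choose k : ℝ) * (1 - p) ^ (k.choose 2) * ρ
        = ∑ I ∈ T, (1 - p) ^ (k.choose 2) * ρ := by
          rw [sum_const, hT, card_powersetCard, nsmul_eq_mul]; ring
      _ ≤ μ := by
          rw [hμ]
          apply sum_le_sum
          intro I hI
          rw [hsingle I hI]
          exact mul_le_mul_of_nonneg_left (hcol I hI) (pow_nonneg hq.le _)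
  have hXpos : 0 < (V1.card.choose k : ℝ) * (1 - p) ^ (k.choose 2) * ρ := by
    have : 0 < V1.card.choose k := Nat.choose_pos hk
    positivity
  have hμpos : 0 < μ := lt_of_lt_of_le hXpos hX
  have h3 : μ * (μ * P) ≤ μ * DD (1 - p) V1.card k := by nlinarith
  have h4 : μ * P ≤ DD (1 - p) V1.card k := le_of_mul_le_mul_left h3 hμpos
  exact (mul_le_mul_of_nonneg_right hX hPn).trans h4

/-- exposing the edges inside `W` last -/
theorem best {V1 W : Finset V} {E : Finset (Sym2 V)} {p : ℝ} (h0 : 0 ≤ p) (h1 : p ≤ 1)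
    (hVW : Disjoint V1 W) (hE : ins W ⊆ E) (k : ℕ) :
    (1 - p) * Pr E p (fun S => ∃ I ∈ powersetCard k V1, Ind I S ∧ Col I W S) ≤
      Pr E p (fun S => ∃ I ∈ powersetCard k V1, Ind I S ∧
        ∃ K ∈ powersetCard 2 W, Eqq K I S ∧ Disjoint (ins K) S) := by
  classical
  set E1 := E \ ins W with hE1
  have hEu : E = E1 ∪ ins W := (sdiff_union_of_subset hE).symm
  have hd : Disjoint E1 (ins W) := sdiff_disjoint
  have hI1 : ∀ I, I ⊆ V1 → Disjoint (ins I) (ins W) := fun I hI =>
    ins_ins_disj (hVW.mono_left hI)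
  have hI2 : ∀ I, I ⊆ V1 → ∀ K, K ⊆ W → Disjoint (bip I K) (ins W) := by
    intro I hI K hK
    rw [Finset.disjoint_left]
    intro e he he2
    rw [mem_bip] at he
    obtain ⟨v, hv, w, hw, rfl⟩ := he
    rw [mem_ins] at he2
    exact (Finset.disjoint_left.1 hVW) (hI hv) he2.1
  have hindS : ∀ I, I ⊆ V1 → ∀ S T : Finset (Sym2 V), T ⊆ ins W → (Ind I (S ∪ T) ↔ Ind I S) := by
    intro I hI S T hT
    unfold Ind
    rw [disjoint_union_right]
    exact ⟨fun h => h.1, fun h => ⟨h, (hI1 I hI).mono_right hT⟩⟩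
  have heqS : ∀ I, I ⊆ V1 → ∀ K, K ⊆ W → ∀ S T : Finset (Sym2 V), T ⊆ ins W →
      (Eqq K I (S ∪ T) ↔ Eqq K I S) := by
    intro I hI K hK S T hT
    unfold Eqq
    refine forall₂_congr (fun v hv => ?_)
    have hr : Disjoint (row v K) T := by
      refine Disjoint.mono ?_ hT (hI2 I hI K hK)
      intro e he
      exact mem_biUnion.2 ⟨v, hv, he⟩
    refine or_congr ?_ ?_
    · constructor
      · intro h e he
        rcases mem_union.1 (h he) with h2 | h2
        · exact h2
        · exact absurd h2 (Finset.disjoint_left.1 hr he)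
      · intro h
        exact h.trans subset_union_left
    · rw [disjoint_union_right]
      exact ⟨fun h => h.1, fun h => ⟨h, hr⟩⟩
  rw [Pr_eq_Ex, Pr_eq_Ex, hEu, Ex_union hd, Ex_union hd, ← Ex_smul]
  apply Ex_mono h0 h1
  intro S hS
  by_cases hG : ∃ I ∈ powersetCard k V1, Ind I S ∧ Col I W S
  · have h3 : (1 - p) * Ex (ins W) p (fun T => if ∃ I ∈ powersetCard k V1, Ind I (S ∪ T) ∧
        Col I W (S ∪ T) then (1 : ℝ) else 0) ≤ 1 - p := by
      have h4 : Ex (ins W) p (fun T => if ∃ I ∈ powersetCard k V1, Ind I (S ∪ T) ∧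
        Col I W (S ∪ T) then (1 : ℝ) else 0) ≤ 1 := by
        calc _ ≤ Ex (ins W) p (fun _ => 1) := by
              apply Ex_mono h0 h1
              intro T _
              beta_reduce
              split_ifs <;> norm_num
          _ = 1 := Ex_const _ _ _
      have : 0 ≤ 1 - p := by linarith
      nlinarith
    refine h3.trans ?_
    obtain ⟨I, hI, hind, K, hK, hKI⟩ := hG
    have hI' := (mem_powersetCard.1 hI).1
    have hK' := (mem_powersetCard.1 hK).1
    have h5 : (1 - p) = Pr (ins W) p (fun T => Disjoint (ins K) T) := by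
      rw [Pr_disjoint (ins_mono hK'), card_ins, (mem_powersetCard.1 hK).2]
      simp
    rw [h5, Pr_eq_Ex]
    apply Ex_mono h0 h1
    intro T hT
    beta_reduce
    by_cases hKT : Disjoint (ins K) T
    · rw [if_pos hKT, if_pos]
      refine ⟨I, hI, (hindS I hI' S T hT).2 hind, K, hK, (heqS I hI' K hK' S T hT).2 hKI, ?_⟩
      rw [disjoint_union_right]
      refine ⟨?_, hKT⟩
      exact (hd.mono hS (ins_mono hK')).symm
    · rw [if_neg hKT]
      split_ifs <;> norm_num
  · have h3 : ∀ T, T ⊆ ins W → (if ∃ I ∈ powersetCard k V1, Ind I (S ∪ T) ∧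
        Col I W (S ∪ T) then (1 : ℝ) else 0) = (fun _ => 0) T := by
      intro T hT
      rw [if_neg]
      rintro ⟨I, hI, hind, K, hK, hKI⟩
      apply hG
      have hI' := (mem_powersetCard.1 hI).1
      have hK' := (mem_powersetCard.1 hK).1
      exact ⟨I, hI, (hindS I hI' S T hT).1 hind, K, hK, (heqS I hI' K hK' S T hT).1 hKI⟩
    rw [Ex_congr h3, Ex_const, mul_zero]
    apply Ex_nonneg h0 h1
    intro T _
    beta_reduce
    split_ifs <;> norm_num

/-- few large independent sets -/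
theorem clq {W : Finset V} {E : Finset (Sym2 V)} {p : ℝ} (h0 : 0 ≤ p) (h1 : p ≤ 1)
    (hE : ins W ⊆ E) (k : ℕ) :
    Pr E p (fun S => ∃ J ∈ powersetCard k W, Ind J S) ≤
      (W.card.choose k : ℝ) * (1 - p) ^ (k.choose 2) := by
  refine (Pr_exists_le h0 h1 _ _).trans (le_of_eq ?_)
  rw [← nsmul_eq_mul, ← card_powersetCard, ← sum_const]
  apply sum_congr rfl
  intro J hJ
  rw [mem_powersetCard] at hJ
  have := Pr_disjoint ((ins_mono hJ.1).trans hE) p
  rw [card_ins, hJ.2] at this
  exact this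

end

end Pool.Agent.R87.BicProb
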