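import Mathlib

/-!
# Counts of injective homomorphisms into balanced blowups
-/

set_option autoImplicit false

namespace Pool.Agent.R87.BlowLimit

open Filter Topology Finset

/-- The number of homomorphisms. -/
noncomputable def homs {W X : Type} (F : SimpleGraph W) (Γ : SimpleGraph X) : ℕ :=
  Set.ncard {φ : W → X | ∀ i j, F.Adj i j → Γ.Adj (φ i) (φ j)}

/-- The number of injective homomorphisms. -/
noncomputable def embs {W Y : Type} (F : SimpleGraph W) (G : SimpleGraph Y) : ℕ :=
  Set.ncard {f : W → Y | Function.Injective f ∧ ∀ i j, F.Adj i j → G.Adj (f i) (f j)}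

/-- Periodic map `Fin n → X` with respect to an enumeration of `X`. -/
def per {X : Type} {M : ℕ} (hM : 0 < M) (e : X ≃ Fin M) (n : ℕ) (u : Fin n) : X :=
  e.symm ⟨u.val % M, Nat.mod_lt _ hM⟩

theorem card_filter_fin (n : ℕ) (p : ℕ → Prop) [DecidablePred p] :
    (univ.filter (fun u : Fin n => p u)).card = Nat.count p n := by
  rw [Nat.count_eq_card_filter_range, ← Finset.card_map Fin.valEmbedding]
  congr 1
  ext x
  simp only [Finset.mem_map, Finset.mem_filter, Finset.mem_univ, true_and, Finset.mem_range]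
  constructor
  · rintro ⟨u, hu, rfl⟩
    exact ⟨u.2, hu⟩
  · rintro ⟨hx, hp⟩
    exact ⟨⟨x, hx⟩, hp, rfl⟩

theorem fiber_card {X : Type} [DecidableEq X] {M : ℕ} (hM : 0 < M) (e : X ≃ Fin M) (n : ℕ)
    (x : X) :
    n / M ≤ (Finset.univ.filter (fun u : Fin n => per hM e n u = x)).card ∧
    (Finset.univ.filter (fun u : Fin n => per hM e n u = x)).card ≤ n / M + 1 := by
  have h1 : (Finset.univ.filter (fun u : Fin n => per hM e n u = x)).card
      = Nat.count (fun u => u ≡ (e x).val [MOD M]) n := by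
    rw [← card_filter_fin]
    congr 1
    ext u
    simp only [Finset.mem_filter, Finset.mem_univ, true_and]
    unfold per
    rw [Equiv.symm_apply_eq, Fin.ext_iff]
    simp only [Nat.ModEq]
    rw [Nat.mod_eq_of_lt (e x).2]
  rw [h1, Nat.count_modEq_card _ hM]
  split_ifs <;> omega

section counts

variable {W X : Type} [Fintype W] [DecidableEq W] [Fintype X] [DecidableEq X]

open Classical in
theorem card_lift (F : SimpleGraph W) (Γ : SimpleGraph X) {n : ℕ} (π : Fin n → X) :
    (univ.filter (fun f : W → Fin n => ∀ i j, F.Adj i j → Γ.Adj (π (f i)) (π (f j)))).card =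
      ∑ φ ∈ univ.filter (fun φ : W → X => ∀ i j, F.Adj i j → Γ.Adj (φ i) (φ j)),
        ∏ w, (univ.filter (fun u : Fin n => π u = φ w)).card := by
  rw [Finset.card_eq_sum_card_fiberwise (f := fun f : W → Fin n => fun w => π (f w))
    (t := univ.filter (fun φ : W → X => ∀ i j, F.Adj i j → Γ.Adj (φ i) (φ j)))]
  · apply Finset.sum_congr rfl
    intro φ hφ
    rw [← Fintype.card_piFinset]
    congr 1
    ext f
    simp only [Finset.mem_filter, Finset.mem_univ, true_and, Fintype.mem_piFinset]
    constructor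
    · rintro ⟨-, h⟩ w
      exact congrFun h w
    · intro h
      have h' : (fun w => π (f w)) = φ := funext h
      refine ⟨?_, h'⟩
      intro i j hij
      have := (Finset.mem_filter.1 hφ).2 i j hij
      rw [← h'] at this
      exact this
  · intro f hf
    simp only [Finset.coe_filter, Finset.mem_univ, true_and, Set.mem_setOf_eq] at hf ⊢
    exact hf

open Classical in
theorem homs_eq (F : SimpleGraph W) (Γ : SimpleGraph X) :
    homs F Γ = (univ.filter (fun φ : W → X => ∀ i j, F.Adj i j → Γ.Adj (φ i) (φ j))).card := by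
  unfold homs
  rw [← Set.ncard_coe_finset]
  congr 1
  ext φ
  simp

open Classical in
theorem embs_bounds (F : SimpleGraph W) (Γ : SimpleGraph X) {M : ℕ} (hM : 0 < M) (e : X ≃ Fin M)
    (n : ℕ) :
    homs F Γ * (n / M) ^ Fintype.card W ≤
      embs F (Γ.comap (per hM e n)) + (n ^ Fintype.card W - n.descFactorial (Fintype.card W)) ∧
    embs F (Γ.comap (per hM e n)) ≤ homs F Γ * (n / M + 1) ^ Fintype.card W := by
  set A := univ.filter (fun f : W → Fin n =>
    ∀ i j, F.Adj i j → Γ.Adj (per hM e n (f i)) (per hM e n (f j))) with hA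
  have hE : embs F (Γ.comap (per hM e n)) = (A.filter (fun f => Function.Injective f)).card := by
    unfold embs
    rw [← Set.ncard_coe_finset]
    congr 1
    ext f
    simp only [hA, Set.mem_setOf_eq, Finset.coe_filter, Finset.mem_filter, Finset.mem_univ,
      true_and, SimpleGraph.comap_adj]
    tauto
  have hAcard := card_lift F Γ (per hM e n)
  rw [← hA] at hAcard
  have hlow : homs F Γ * (n / M) ^ Fintype.card W ≤ A.card := by
    rw [hAcard, homs_eq, ← smul_eq_mul]
    apply Finset.card_nsmul_le_sum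
    intro φ _
    rw [← Finset.card_univ, ← Finset.prod_const]
    exact Finset.prod_le_prod' (fun w _ => (fiber_card hM e n (φ w)).1)
  have hup : A.card ≤ homs F Γ * (n / M + 1) ^ Fintype.card W := by
    rw [hAcard, homs_eq, ← smul_eq_mul]
    apply Finset.sum_le_card_nsmul
    intro φ _
    rw [← Finset.card_univ, ← Finset.prod_const]
    exact Finset.prod_le_prod' (fun w _ => (fiber_card hM e n (φ w)).2)
  have hinj : (univ.filter (fun f : W → Fin n => Function.Injective f)).card =
      n.descFactorial (Fintype.card W) := by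
    have h1 : Fintype.card (W ↪ Fin n) = n.descFactorial (Fintype.card W) := by
      rw [Fintype.card_embedding_eq, Fintype.card_fin]
    rw [← h1, ← Fintype.card_subtype]
    exact Fintype.card_congr (Equiv.subtypeInjectiveEquivEmbedding W (Fin n))
  have hnon : (A.filter (fun f => ¬ Function.Injective f)).card ≤
      n ^ Fintype.card W - n.descFactorial (Fintype.card W) := by
    have h1 : (univ.filter (fun f : W → Fin n => ¬ Function.Injective f)).card =
        n ^ Fintype.card W - n.descFactorial (Fintype.card W) := by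
      have h2 := Finset.card_filter_add_card_filter_not (s := (univ : Finset (W → Fin n)))
        (fun f => Function.Injective f)
      rw [hinj, Finset.card_univ, Fintype.card_fun, Fintype.card_fin] at h2
      omega
    rw [← h1]
    exact Finset.card_le_card (Finset.filter_subset_filter _ (Finset.subset_univ _))
  have hsplit := Finset.card_filter_add_card_filter_not (s := A)
    (fun f => Function.Injective f)
  rw [hE]
  constructor
  · omega
  · exact (Finset.card_filter_le _ _).trans hup

/-- `n^k / (n)_k → 1`. -/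
theorem pow_div_descFactorial (k : ℕ) :
    Tendsto (fun n : ℕ => (n : ℝ) ^ k / (n.descFactorial k : ℝ)) atTop (𝓝 1) := by
  induction k with
  | zero => simp
  | succ k ih =>
    have h1 : Tendsto (fun n : ℕ => (n : ℝ) / ((n : ℝ) - k)) atTop (𝓝 1) := by
      have h2 : Tendsto (fun n : ℕ => (1 : ℝ) / (1 - (k : ℝ) / (n : ℝ))) atTop (𝓝 (1 / (1 - 0))) := by
        apply Tendsto.div tendsto_const_nhds _ (by norm_num)
        exact tendsto_const_nhds.sub (tendsto_const_div_atTop_nhds_zero_nat (k : ℝ))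
      rw [show (1 : ℝ) / (1 - 0) = 1 by norm_num] at h2
      refine h2.congr' ?_
      filter_upwards [eventually_gt_atTop k] with n hn
      have hn0 : (n : ℝ) ≠ 0 := by
        have : 0 < n := by omega
        positivity
      have hnk : (n : ℝ) - k ≠ 0 := by
        have : (k : ℝ) < (n : ℝ) := by exact_mod_cast hn
        linarith
      field_simp
    have h2 := h1.mul ih
    rw [one_mul] at h2
    refine h2.congr' ?_
    filter_upwards [eventually_gt_atTop k] with n hn
    rw [Nat.descFactorial_succ, Nat.cast_mul, Nat.cast_sub hn.le, div_mul_div_comm]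
    congr 1
    ring

theorem floor_div (M : ℕ) (hM : 0 < M) :
    Tendsto (fun n : ℕ => ((n / M : ℕ) : ℝ) / (n : ℝ)) atTop (𝓝 (1 / M)) := by
  have hM' : (0 : ℝ) < M := by exact_mod_cast hM
  have h1 : Tendsto (fun n : ℕ => (1 : ℝ) / M - 1 / (n : ℝ)) atTop (𝓝 (1 / M - 0)) :=
    tendsto_const_nhds.sub (tendsto_const_div_atTop_nhds_zero_nat (1 : ℝ))
  rw [sub_zero] at h1
  refine tendsto_of_tendsto_of_tendsto_of_le_of_le' h1 tendsto_const_nhds ?_ ?_
  · filter_upwards [eventually_gt_atTop 0] with n hn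
    have hn' : (0 : ℝ) < n := by exact_mod_cast hn
    have h2 : (n : ℝ) < M * ((n / M : ℕ) : ℝ) + M := by
      have := Nat.lt_mul_div_succ n hM
      have h3 : (n : ℝ) < ((M * (n / M + 1) : ℕ) : ℝ) := by exact_mod_cast this
      push_cast at h3
      linarith
    rw [le_div_iff₀ hn', sub_mul, one_div, one_div, inv_mul_cancel₀ hn'.ne', sub_le_iff_le_add,
      inv_mul_le_iff₀ hM']
    linarith
  · filter_upwards [eventually_gt_atTop 0] with n hn
    have hn' : (0 : ℝ) < n := by exact_mod_cast hn
    rw [div_le_div_iff₀ hn' hM', one_mul]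
    exact_mod_cast Nat.div_mul_le_self n M

/-- The normalised counts of injective homomorphisms converge. -/
theorem embs_tendsto (F : SimpleGraph W) (Γ : SimpleGraph X) {M : ℕ} (hM : 0 < M)
    (e : X ≃ Fin M) :
    Tendsto (fun n : ℕ => (embs F (Γ.comap (per hM e n)) : ℝ) /
      (n.descFactorial (Fintype.card W) : ℝ)) atTop
      (𝓝 ((homs F Γ : ℝ) / (M : ℝ) ^ Fintype.card W)) := by
  set k := Fintype.card W with hk
  have hpd := pow_div_descFactorial k
  have hfl := floor_div M hM
  have hinv : Tendsto (fun n : ℕ => (1 : ℝ) / (n : ℝ)) atTop (𝓝 0) :=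
    tendsto_const_div_atTop_nhds_zero_nat (1 : ℝ)
  have hlim : (homs F Γ : ℝ) / (M : ℝ) ^ k = (homs F Γ : ℝ) * (1 / (M : ℝ)) ^ k * 1 - (1 - 1) := by
    rw [one_div, inv_pow]; ring
  have hlim2 : (homs F Γ : ℝ) / (M : ℝ) ^ k = (homs F Γ : ℝ) * (1 / (M : ℝ) + 0) ^ k * 1 := by
    rw [add_zero, one_div, inv_pow]; ring
  have hlow : Tendsto (fun n : ℕ => (homs F Γ : ℝ) * (((n / M : ℕ) : ℝ) / (n : ℝ)) ^ k *
      ((n : ℝ) ^ k / (n.descFactorial k : ℝ)) - ((n : ℝ) ^ k / (n.descFactorial k : ℝ) - 1)) atTop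
      (𝓝 ((homs F Γ : ℝ) / (M : ℝ) ^ k)) := by
    rw [hlim]
    exact ((tendsto_const_nhds.mul (hfl.pow k)).mul hpd).sub (hpd.sub tendsto_const_nhds)
  have hup : Tendsto (fun n : ℕ => (homs F Γ : ℝ) * (((n / M : ℕ) : ℝ) / (n : ℝ) + 1 / (n : ℝ)) ^ k *
      ((n : ℝ) ^ k / (n.descFactorial k : ℝ))) atTop
      (𝓝 ((homs F Γ : ℝ) / (M : ℝ) ^ k)) := by
    rw [hlim2]
    exact (tendsto_const_nhds.mul ((hfl.add hinv).pow k)).mul hpd
  refine tendsto_of_tendsto_of_tendsto_of_le_of_le' hlow hup ?_ ?_
  · filter_upwards [eventually_ge_atTop (k + 1)] with n hn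
    have hn0 : (0 : ℝ) < n := by
      have : 0 < n := by omega
      exact_mod_cast this
    have hD : 0 < n.descFactorial k := Nat.descFactorial_pos.2 (by omega)
    have hD' : (0 : ℝ) < (n.descFactorial k : ℝ) := by exact_mod_cast hD
    have hb := (embs_bounds F Γ hM e n).1
    rw [← hk] at hb
    have hle := Nat.descFactorial_le_pow n k
    have hb' : (homs F Γ : ℝ) * ((n / M : ℕ) : ℝ) ^ k ≤
        (embs F (Γ.comap (per hM e n)) : ℝ) + ((n : ℝ) ^ k - (n.descFactorial k : ℝ)) := by
      have h3 : ((homs F Γ * (n / M) ^ k : ℕ) : ℝ) ≤ ((embs F (Γ.comap (per hM e n)) +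
        (n ^ k - n.descFactorial k) : ℕ) : ℝ) := by exact_mod_cast hb
      rw [Nat.cast_add, Nat.cast_sub hle] at h3
      push_cast at h3
      exact h3
    rw [le_div_iff₀ hD', div_pow, sub_mul]
    have e1 : (homs F Γ : ℝ) * (((n / M : ℕ) : ℝ) ^ k / (n : ℝ) ^ k) *
        ((n : ℝ) ^ k / (n.descFactorial k : ℝ)) * (n.descFactorial k : ℝ) =
        (homs F Γ : ℝ) * ((n / M : ℕ) : ℝ) ^ k := by
      field_simp
    have e2 : ((n : ℝ) ^ k / (n.descFactorial k : ℝ) - 1) * (n.descFactorial k : ℝ) =
        (n : ℝ) ^ k - (n.descFactorial k : ℝ) := by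
      field_simp
    rw [e1, e2]
    linarith
  · filter_upwards [eventually_ge_atTop (k + 1)] with n hn
    have hn0 : (0 : ℝ) < n := by
      have : 0 < n := by omega
      exact_mod_cast this
    have hD : 0 < n.descFactorial k := Nat.descFactorial_pos.2 (by omega)
    have hD' : (0 : ℝ) < (n.descFactorial k : ℝ) := by exact_mod_cast hD
    have hb := (embs_bounds F Γ hM e n).2
    rw [← hk] at hb
    have hb' : (embs F (Γ.comap (per hM e n)) : ℝ) ≤
        (homs F Γ : ℝ) * (((n / M : ℕ) : ℝ) + 1) ^ k := by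
      exact_mod_cast hb
    rw [div_le_iff₀ hD', ← add_div, div_pow]
    have e1 : (homs F Γ : ℝ) * ((((n / M : ℕ) : ℝ) + 1) ^ k / (n : ℝ) ^ k) *
        ((n : ℝ) ^ k / (n.descFactorial k : ℝ)) * (n.descFactorial k : ℝ) =
        (homs F Γ : ℝ) * (((n / M : ℕ) : ℝ) + 1) ^ k := by
      field_simp
    rw [e1]
    exact hb'

end counts

/-- Diagonal sequences. -/
theorem exists_diagonal (P : ℕ → ℕ → Prop) (h : ∀ j, ∀ᶠ n in atTop, P j n) :
    ∃ J : ℕ → ℕ, Tendsto J atTop atTop ∧ ∀ᶠ n in atTop, P (J n) n := by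
  classical
  have h' : ∀ j, ∃ N, ∀ n ≥ N, P j n := fun j => eventually_atTop.1 (h j)
  choose N hN using h'
  refine ⟨fun n => Nat.findGreatest (fun j => N j ≤ n) n, ?_, ?_⟩
  · rw [tendsto_atTop]
    intro b
    filter_upwards [eventually_ge_atTop (max b (N b))] with n hn
    exact Nat.le_findGreatest (le_trans (le_max_left _ _) hn) (le_trans (le_max_right _ _) hn)
  · filter_upwards [eventually_ge_atTop (N 0)] with n hn
    apply hN
    exact Nat.findGreatest_spec (P := fun j => N j ≤ n) (m := 0) (Nat.zero_le _) hn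

/-- Eventual bounds are bounds. -/
theorem bounded_of_eventually (f : ℕ → ℝ) (K : ℝ) (h : ∀ᶠ n in atTop, f n ≤ K) :
    ∃ C, ∀ n, f n ≤ C := by
  obtain ⟨N, hN⟩ := eventually_atTop.1 h
  refine ⟨|K| + ∑ i ∈ range N, |f i|, ?_⟩
  intro n
  rcases lt_or_ge n N with hn | hn
  · have h1 : |f n| ≤ ∑ i ∈ range N, |f i| :=
      Finset.single_le_sum (f := fun i => |f i|) (fun i _ => abs_nonneg _) (Finset.mem_range.2 hn)
    have h2 := le_abs_self (f n)
    have h3 := abs_nonneg K
    linarith
  · have h1 := hN n hn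
    have h2 : 0 ≤ ∑ i ∈ range N, |f i| := Finset.sum_nonneg (fun i _ => abs_nonneg _)
    have h3 := le_abs_self K
    linarith

end Pool.Agent.R87.BlowLimit
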