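import Mathlib

/-!
# The degree-preserving Builder-Chooser game
-/

set_option autoImplicit false

namespace Pool.Agent.R87.Builder

/-- `M` is a matching of `G`: a set of edges of `G`, no two of which share a vertex. -/
def IsMatchingOf {V : Type} (M G : SimpleGraph V) : Prop :=
  M ≤ G ∧ ∀ u v w, M.Adj u v → M.Adj u w → v = w

/-- The growth step: the edges of `M` are removed and a new vertex `none` is joined to all
endpoints of the edges of `M`. -/
def grow {V : Type} (G M : SimpleGraph V) : SimpleGraph (Option V) where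
  Adj x y := match x, y with
    | some u, some v => G.Adj u v ∧ ¬ M.Adj u v
    | none, some v => ∃ u, M.Adj u v
    | some v, none => ∃ u, M.Adj u v
    | none, none => False
  symm := ⟨by
    rintro (_ | u) (_ | v) h
    · exact h
    · exact h
    · exact h
    · exact ⟨h.1.symm, fun h' => h.2 h'.symm⟩⟩
  loopless := ⟨by
    rintro (_ | u) h
    · exact h
    · exact G.loopless.irrefl u h.1⟩

/-- Builder has a strategy which guarantees that after exactly `t` further rounds the graph
contains a clique with `k` vertices: Builder picks a matching `M` of the current graph `G`,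
splits the edges of the grown graph into the edge sets of `A` and `B`, and must be able to
continue from both of them. -/
def Forces (k : ℕ) : ℕ → (V : Type) → SimpleGraph V → Prop
  | 0, _, G => ∃ s : Finset _, G.IsNClique k s
  | t + 1, V, G => ∃ M A B, IsMatchingOf M G ∧ A ⊔ B = grow G M ∧ A ⊓ B = ⊥ ∧
      Forces k t (Option V) A ∧ Forces k t (Option V) B

/-- the pure game on the new vertices: the new vertex is joined to everything -/
def join {R : Type} (H : SimpleGraph R) : SimpleGraph (Option R) where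
  Adj x y := match x, y with
    | some u, some v => H.Adj u v
    | none, some _ => True
    | some _, none => True
    | none, none => False
  symm := ⟨by
    rintro (_ | u) (_ | v) h
    · exact h
    · exact h
    · exact h
    · exact SimpleGraph.Adj.symm h⟩
  loopless := ⟨by
    rintro (_ | u) h
    · exact h
    · exact H.loopless.irrefl u h⟩

/-- Builder wins the pure game in `t` rounds -/
def PWin (k : ℕ) : ℕ → (R : Type) → SimpleGraph R → Prop
  | 0, _, H => ∃ s : Finset _, H.IsNClique k s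
  | t + 1, R, H => ∃ A B, A ⊔ B = join H ∧ A ⊓ B = ⊥ ∧
      PWin k t (Option R) A ∧ PWin k t (Option R) B

theorem clique_mono {V W : Type} {G : SimpleGraph V} {G' : SimpleGraph W} {k : ℕ} (f : V ↪ W)
    (hf : ∀ u v, G.Adj u v → G'.Adj (f u) (f v)) (h : ∃ s : Finset V, G.IsNClique k s) :
    ∃ s : Finset W, G'.IsNClique k s := by
  obtain ⟨s, hs⟩ := h
  rw [SimpleGraph.isNClique_iff, SimpleGraph.isClique_iff] at hs
  refine ⟨s.map f, ?_⟩
  rw [SimpleGraph.isNClique_iff, SimpleGraph.isClique_iff]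
  constructor
  · intro x hx y hy hxy
    rw [Finset.mem_coe, Finset.mem_map] at hx hy
    obtain ⟨u, hu, rfl⟩ := hx
    obtain ⟨v, hv, rfl⟩ := hy
    exact hf u v (hs.1 hu hv (fun h => hxy (by rw [h])))
  · rw [Finset.card_map]; exact hs.2

/-- the splitting of `G'` that extends a given splitting of a subgraph -/
theorem split_mono {V W : Type} {A B : SimpleGraph V} {G' : SimpleGraph W} (f : V ↪ W)
    (hA : ∀ u v, A.Adj u v → G'.Adj (f u) (f v)) (hB : ∀ u v, B.Adj u v → G'.Adj (f u) (f v))
    (hAB : A ⊓ B = ⊥) : ∃ A' B' : SimpleGraph W, A' ⊔ B' = G' ∧ A' ⊓ B' = ⊥ ∧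
      (∀ u v, A.Adj u v → A'.Adj (f u) (f v)) ∧ (∀ u v, B.Adj u v → B'.Adj (f u) (f v)) := by
  have hdis : ∀ u v, A.Adj u v → ¬ B.Adj u v := by
    intro u v h1 h2
    have h3 : (A ⊓ B).Adj u v := ⟨h1, h2⟩
    rw [hAB] at h3
    exact h3
  refine ⟨A.map f, G' \ A.map f, ?_, ?_, ?_, ?_⟩
  · apply sup_sdiff_cancel_right
    intro x y h
    rw [SimpleGraph.map_adj] at h
    obtain ⟨u, v, huv, rfl, rfl⟩ := h
    exact hA u v huv
  · exact inf_sdiff_self_right
  · intro u v h
    rw [SimpleGraph.map_adj]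
    exact ⟨u, v, h, rfl, rfl⟩
  · intro u v h
    rw [SimpleGraph.sdiff_adj]
    refine ⟨hB u v h, ?_⟩
    rw [SimpleGraph.map_adj]
    rintro ⟨u', v', h', hu, hv⟩
    rw [f.injective hu, f.injective hv] at h'
    exact hdis u v h' h

theorem pwin_mono {k : ℕ} : ∀ (t : ℕ) {R R' : Type} {H : SimpleGraph R} {H' : SimpleGraph R'}
    (f : R ↪ R') (_ : ∀ u v, H.Adj u v → H'.Adj (f u) (f v)), PWin k t R H → PWin k t R' H' := by
  intro t
  induction t with
  | zero =>
    intro R R' H H' f hf h
    exact clique_mono f hf h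
  | succ t ih =>
    rintro R R' H H' f hf ⟨A, B, hAB, hd, hA, hB⟩
    have hjoin : ∀ u v, (join H).Adj u v → (join H').Adj (f.optionMap u) (f.optionMap v) := by
      rintro (_ | u) (_ | v) h
      · exact h
      · trivial
      · trivial
      · exact hf u v h
    obtain ⟨A', B', h1, h2, h3, h4⟩ := split_mono (G' := join H') f.optionMap
      (fun u v h => hjoin u v (by rw [← hAB]; exact Or.inl h))
      (fun u v h => hjoin u v (by rw [← hAB]; exact Or.inr h)) hd
    exact ⟨A', B', h1, h2, ih f.optionMap h3 hA, ih f.optionMap h4 hB⟩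

theorem forces_mono {k : ℕ} : ∀ (t : ℕ) {V V' : Type} {G : SimpleGraph V} {G' : SimpleGraph V'}
    (f : V ↪ V') (_ : ∀ u v, G.Adj u v → G'.Adj (f u) (f v)), Forces k t V G → Forces k t V' G' := by
  intro t
  induction t with
  | zero =>
    intro V V' G G' f hf h
    exact clique_mono f hf h
  | succ t ih =>
    rintro V V' G G' f hf ⟨M, A, B, hM, hAB, hd, hA, hB⟩
    have hM' : IsMatchingOf (M.map f) G' := by
      constructor
      · intro x y h
        rw [SimpleGraph.map_adj] at h
        obtain ⟨u, v, huv, rfl, rfl⟩ := h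
        exact hf u v (hM.1 huv)
      · intro x y z h1 h2
        rw [SimpleGraph.map_adj] at h1 h2
        obtain ⟨u, v, huv, rfl, rfl⟩ := h1
        obtain ⟨u', w, huw, hu, rfl⟩ := h2
        rw [f.injective hu] at huw
        rw [hM.2 u v w huv huw]
    have hgrow : ∀ u v, (grow G M).Adj u v → (grow G' (M.map f)).Adj (f.optionMap u)
        (f.optionMap v) := by
      rintro (_ | u) (_ | v) h
      · exact h
      · obtain ⟨a, ha⟩ := h
        exact ⟨f a, by rw [SimpleGraph.map_adj]; exact ⟨a, v, ha, rfl, rfl⟩⟩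
      · obtain ⟨a, ha⟩ := h
        exact ⟨f a, by rw [SimpleGraph.map_adj]; exact ⟨a, u, ha, rfl, rfl⟩⟩
      · refine ⟨hf u v h.1, ?_⟩
        rw [SimpleGraph.map_adj]
        rintro ⟨u', v', h', hu, hv⟩
        rw [f.injective hu, f.injective hv] at h'
        exact h.2 h'
    obtain ⟨A', B', h1, h2, h3, h4⟩ := split_mono (G' := grow G' (M.map f)) f.optionMap
      (fun u v h => hgrow u v (by rw [← hAB]; exact Or.inl h))
      (fun u v h => hgrow u v (by rw [← hAB]; exact Or.inr h)) hd
    exact ⟨M.map f, A', B', hM', h1, h2, ih f.optionMap h3 hA, ih f.optionMap h4 hB⟩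

/-! ### The pure game is a win for every `k` -/

/-- the graph `H` together with an independent set `X` joined completely to it -/
def star {R X : Type} (H : SimpleGraph R) : SimpleGraph (R ⊕ X) where
  Adj x y := match x, y with
    | Sum.inl u, Sum.inl v => H.Adj u v
    | Sum.inl _, Sum.inr _ => True
    | Sum.inr _, Sum.inl _ => True
    | Sum.inr _, Sum.inr _ => False
  symm := ⟨by
    rintro (u | x) (v | y) h
    · exact SimpleGraph.Adj.symm h
    · exact h
    · exact h
    · exact h⟩
  loopless := ⟨by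
    rintro (u | x) h
    · exact H.loopless.irrefl u h
    · exact h⟩

/-- the set `X` after `t` halvings must be nonempty -/
def Big : ℕ → Type
  | 0 => Unit
  | t + 1 => Big t ⊕ Big t

/-- the map of a half -/
def half {R X X' : Type} (e : X ↪ X') : (Option R ⊕ X) ↪ Option (R ⊕ X') where
  toFun := fun z => match z with
    | Sum.inl none => none
    | Sum.inl (some r) => some (Sum.inl r)
    | Sum.inr x => some (Sum.inr (e x))
  inj' := by
    rintro ((_ | r) | x) ((_ | r') | x') h
    · rfl
    · simp at h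
    · simp at h
    · simp at h
    · simpa using h
    · simp at h
    · simp at h
    · simp at h
    · have h1 : e x = e x' := by simpa using h
      rw [e.injective h1]

theorem pwin_star {k : ℕ} : ∀ (t : ℕ) {R : Type} (H : SimpleGraph R), PWin k t R H →
    PWin (k + 1) t (R ⊕ Big t) (star H) := by
  intro t
  induction t with
  | zero =>
    rintro R H ⟨s, hs⟩
    rw [SimpleGraph.isNClique_iff, SimpleGraph.isClique_iff] at hs
    let x0 : R ⊕ Big 0 := Sum.inr (show Big 0 from ())
    have hx0 : x0 ∉ s.map (⟨Sum.inl, Sum.inl_injective⟩ : R ↪ R ⊕ Big 0) := by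
      rw [Finset.mem_map]
      rintro ⟨u, _, hu⟩
      exact Sum.inl_ne_inr hu
    refine ⟨Finset.cons x0 _ hx0, ?_⟩
    rw [SimpleGraph.isNClique_iff, SimpleGraph.isClique_iff]
    constructor
    · intro x hx y hy hxy
      rw [Finset.mem_coe, Finset.mem_cons, Finset.mem_map] at hx hy
      rcases hx with rfl | ⟨u, hu, rfl⟩ <;> rcases hy with rfl | ⟨v, hv, rfl⟩
      · exact absurd rfl hxy
      · trivial
      · trivial
      · exact hs.1 hu hv (fun h => hxy (by rw [h]))
    · rw [Finset.card_cons, Finset.card_map, hs.2]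
  | succ t ih =>
    rintro R H ⟨A, B, hAB, hd, hA, hB⟩
    have h1 := ih A hA
    have h2 := ih B hB
    let fA : (Option R ⊕ Big t) ↪ Option (R ⊕ Big (t + 1)) :=
      half ⟨Sum.inl, Sum.inl_injective⟩
    let fB : (Option R ⊕ Big t) ↪ Option (R ⊕ Big (t + 1)) :=
      half ⟨Sum.inr, Sum.inr_injective⟩
    have hdis : ∀ u v, A.Adj u v → ¬ B.Adj u v := by
      intro u v h1 h2
      have h3 : (A ⊓ B).Adj u v := ⟨h1, h2⟩
      rw [hd] at h3
      exact h3
    have hAj : ∀ u v, A.Adj u v → (join H).Adj u v := fun u v h => by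
      rw [← hAB]; exact Or.inl h
    have hBj : ∀ u v, B.Adj u v → (join H).Adj u v := fun u v h => by
      rw [← hAB]; exact Or.inr h
    have hall : ∀ (C : SimpleGraph (Option R)) (e : Big t ↪ Big (t + 1)),
        (∀ u v, C.Adj u v → (join H).Adj u v) →
        ∀ x y, (star (X := Big t) C).Adj x y →
        (join (star (X := Big (t + 1)) H)).Adj (half (R := R) e x) (half (R := R) e y) := by
      rintro C e hC ((_ | u) | x) ((_ | v) | y) h
      · exact absurd h (C.loopless.irrefl _)
      · trivial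
      · trivial
      · trivial
      · have h3 : (join H).Adj (some u) (some v) := hC _ _ h
        exact h3
      · trivial
      · trivial
      · trivial
      · exact absurd h id
    have hcoin : ∀ x y, fA x = fB y → ∃ r, x = Sum.inl r ∧ y = Sum.inl r := by
      rintro ((_ | u) | x) ((_ | v) | y) h
      · exact ⟨none, rfl, rfl⟩
      · exact absurd h (by simp [fA, fB, half])
      · exact absurd h (by simp [fA, fB, half])
      · exact absurd h (by simp [fA, fB, half])
      · refine ⟨some u, rfl, ?_⟩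
        have h3 : (some (Sum.inl u) : Option (R ⊕ Big (t + 1))) = some (Sum.inl v) := h
        rw [Sum.inl.inj (Option.some.inj h3)]
      · have h3 : (some (Sum.inl u) : Option (R ⊕ (Big t ⊕ Big t)))
          = some (Sum.inr (Sum.inr y)) := h
        exact absurd (Option.some.inj h3) Sum.inl_ne_inr
      · exact absurd h (by simp [fA, fB, half])
      · have h3 : (some (Sum.inr (Sum.inl x)) : Option (R ⊕ (Big t ⊕ Big t)))
          = some (Sum.inl v) := h
        exact absurd (Option.some.inj h3) Sum.inr_ne_inl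
      · have h3 : (some (Sum.inr (Sum.inl x)) : Option (R ⊕ (Big t ⊕ Big t)))
          = some (Sum.inr (Sum.inr y)) := h
        exact absurd (Sum.inr.inj (Option.some.inj h3)) Sum.inl_ne_inr
    refine ⟨(star A).map fA, join (star H) \ (star A).map fA, ?_, inf_sdiff_self_right, ?_, ?_⟩
    · apply sup_sdiff_cancel_right
      intro x y h
      rw [SimpleGraph.map_adj] at h
      obtain ⟨u, v, huv, rfl, rfl⟩ := h
      exact hall A _ hAj u v huv
    · apply pwin_mono t fA _ h1
      intro u v h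
      rw [SimpleGraph.map_adj]
      exact ⟨u, v, h, rfl, rfl⟩
    · apply pwin_mono t fB _ h2
      intro u v h
      rw [SimpleGraph.sdiff_adj]
      refine ⟨hall B _ hBj u v h, ?_⟩
      rw [SimpleGraph.map_adj]
      rintro ⟨u', v', h', hu, hv⟩
      obtain ⟨r, rfl, rfl⟩ := hcoin u' u hu
      obtain ⟨r', rfl, rfl⟩ := hcoin v' v hv
      exact hdis r r' h' h

theorem pwin_down {k : ℕ} : ∀ (n t : ℕ) {R : Type}, PWin k t (Fin n ⊕ R) ⊥ → PWin k (t + n) R ⊥ := by
  intro n
  induction n with
  | zero =>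
    intro t R h
    refine pwin_mono t ⟨fun z => match z with
      | Sum.inl i => i.elim0
      | Sum.inr r => r, ?_⟩ ?_ h
    · rintro (i | r) (j | s) h
      · exact i.elim0
      · exact i.elim0
      · exact j.elim0
      · simpa using h
    · intro u v h
      exact absurd h id
  | succ n ih =>
    intro t R h
    have h1 : PWin k (t + 1) (Fin n ⊕ R) ⊥ := by
      let e : (Fin (n + 1) ⊕ R) ↪ Option (Fin n ⊕ R) := ⟨fun z => match z with
        | Sum.inl i => if h : i.val < n then some (Sum.inl ⟨i.val, h⟩) else none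
        | Sum.inr r => some (Sum.inr r), by
          rintro (i | r) (j | s) h
          · by_cases h1 : i.val < n <;> by_cases h2 : j.val < n <;> simp [h1, h2] at h
            · rw [Fin.ext h]
            · have : i = j := Fin.ext (by omega)
              rw [this]
          · by_cases h1 : i.val < n <;> simp [h1] at h
          · by_cases h1 : j.val < n <;> simp [h1] at h
          · simpa using h⟩
      refine ⟨join ⊥, ⊥, sup_bot_eq _, inf_bot_eq _, ?_, ?_⟩
      · exact pwin_mono t e (fun u v h => absurd h id) h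
      · exact pwin_mono t e (fun u v h => absurd h id) h
    have h2 := ih (t + 1) h1
    have e : t + 1 + n = t + (n + 1) := by ring
    rw [e] at h2
    exact h2

theorem big_fintype : ∀ t, Nonempty (Fintype (Big t)) := by
  intro t
  induction t with
  | zero => exact ⟨(inferInstance : Fintype Unit)⟩
  | succ t ih =>
    obtain ⟨i⟩ := ih
    exact ⟨(inferInstance : Fintype (Big t ⊕ Big t))⟩

theorem pwin_all : ∀ k : ℕ, ∃ t, PWin k t Empty ⊥ := by
  intro k
  induction k with
  | zero => exact ⟨0, ∅, by simp [SimpleGraph.isNClique_iff]⟩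
  | succ k ih =>
    obtain ⟨t, ht⟩ := ih
    have h1 := pwin_star t (⊥ : SimpleGraph Empty) ht
    obtain ⟨inst⟩ := big_fintype t
    refine ⟨t + Fintype.card (Big t), pwin_down (Fintype.card (Big t)) t ?_⟩
    refine pwin_mono t ⟨fun z => match z with
      | Sum.inl e => e.elim
      | Sum.inr x => Sum.inl (Fintype.equivFin (Big t) x), ?_⟩ ?_ h1
    · rintro (e | x) (e' | y) h
      · exact e.elim
      · exact e.elim
      · exact e'.elim
      · have := Sum.inl.inj h
        rw [(Fintype.equivFin (Big t)).injective this]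
    · rintro (e | x) (e' | y) h
      · exact e.elim
      · exact e.elim
      · exact e'.elim
      · exact absurd h id

/-! ### Realising the pure game -/

/-- the graph `H` on `R`, a pendant edge at `r` for every `r : R` and every element of `S`, and
a free edge for every element of `F` -/
def St {R : Type} (H : SimpleGraph R) (S F : Type) :
    SimpleGraph (R ⊕ ((R × S) ⊕ (F × Bool))) where
  Adj x y := match x, y with
    | Sum.inl u, Sum.inl v => H.Adj u v
    | Sum.inl r, Sum.inr (Sum.inl p) => r = p.1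
    | Sum.inr (Sum.inl p), Sum.inl r => r = p.1
    | Sum.inr (Sum.inr f), Sum.inr (Sum.inr g) => f.1 = g.1 ∧ f.2 ≠ g.2
    | _, _ => False
  symm := ⟨by
    rintro (u | (p | f)) (v | (q | g)) h
    · exact SimpleGraph.Adj.symm h
    · exact h
    · exact h
    · exact h
    · exact h
    · exact h
    · exact h
    · exact h
    · exact ⟨h.1.symm, h.2.symm⟩⟩
  loopless := ⟨by
    rintro (u | (p | f)) h
    · exact H.loopless.irrefl u h
    · exact h
    · exact h.2 rfl⟩

/-- the matching that Builder uses: one pendant edge at every `r`, and some of the free edges -/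
def Mt (R S F : Type) : SimpleGraph (R ⊕ ((R × (Unit ⊕ S)) ⊕ ((S ⊕ F) × Bool))) where
  Adj x y := match x, y with
    | Sum.inl r, Sum.inr (Sum.inl (r', Sum.inl ())) => r = r'
    | Sum.inr (Sum.inl (r', Sum.inl ())), Sum.inl r => r = r'
    | Sum.inr (Sum.inr (Sum.inl i, a)), Sum.inr (Sum.inr (Sum.inl j, b)) => i = j ∧ a ≠ b
    | _, _ => False
  symm := ⟨by
    rintro (u | (⟨p, (_ | s)⟩ | ⟨(i | f), a⟩)) (v | (⟨q, (_ | s')⟩ | ⟨(j | g), b⟩)) h
    all_goals first
      | exact h
      | exact absurd h id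
      | exact ⟨h.1.symm, h.2.symm⟩⟩
  loopless := ⟨by
    rintro (u | (⟨p, (_ | s)⟩ | ⟨(i | f), a⟩)) h
    all_goals first
      | exact h
      | exact h.2 rfl⟩

theorem mt_matching {R : Type} (H : SimpleGraph R) (S F : Type) :
    IsMatchingOf (Mt R S F) (St H (Unit ⊕ S) (S ⊕ F)) := by
  constructor
  · rintro (u | (⟨p, (_ | s)⟩ | ⟨(i | f), a⟩)) (v | (⟨q, (_ | s')⟩ | ⟨(j | g), b⟩)) h
    all_goals first
      | exact h
      | exact absurd h id
      | exact ⟨congrArg Sum.inl h.1, h.2⟩
  · rintro (u | (⟨p, (_ | s)⟩ | ⟨(i | f), a⟩)) (v | (⟨q, (_ | s')⟩ | ⟨(j | g), b⟩))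
      (w | (⟨r, (_ | s'')⟩ | ⟨(l | h'), c⟩)) h1 h2
    all_goals first
      | exact absurd h1 id
      | exact absurd h2 id
      | (have e1 : _ = _ := h1; have e2 : _ = _ := h2; rw [← e1, ← e2])
      | (have e1 : _ = _ := h1; have e2 : _ = _ := h2; rw [e1, e2])
      | (obtain ⟨e1, e2⟩ := h1; obtain ⟨e3, e4⟩ := h2
         rw [← e1, ← e3]
         cases a <;> cases b <;> cases c <;> simp_all)

/-- the placement of the position after one round of the pure game -/
def phiFun {R S S' F F' : Type} (c : S → S') (d : F → F') :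
    (Option R ⊕ ((Option R × S) ⊕ (F × Bool))) →
      Option (R ⊕ ((R × (Unit ⊕ S')) ⊕ ((S' ⊕ F') × Bool)))
  | Sum.inl none => none
  | Sum.inl (some r) => some (Sum.inl r)
  | Sum.inr (Sum.inl (none, s)) => some (Sum.inr (Sum.inr (Sum.inl (c s), false)))
  | Sum.inr (Sum.inl (some r, s)) => some (Sum.inr (Sum.inl (r, Sum.inr (c s))))
  | Sum.inr (Sum.inr (f, b)) => some (Sum.inr (Sum.inr (Sum.inr (d f), b)))

/-- the placement of the position after one round of the pure game -/
def phi {R S S' F F' : Type} (c : S ↪ S') (d : F ↪ F') :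
    (Option R ⊕ ((Option R × S) ⊕ (F × Bool))) ↪
      Option (R ⊕ ((R × (Unit ⊕ S')) ⊕ ((S' ⊕ F') × Bool))) where
  toFun := phiFun c d
  inj' := by
    rintro ((_ | r) | (⟨(_ | r), s⟩ | ⟨f, b⟩)) ((_ | r') | (⟨(_ | r'), s'⟩ | ⟨f', b'⟩)) h
    all_goals simp [phiFun] at h
    all_goals first
      | rfl
      | rw [h]
      | rw [h.1, h.2]

theorem phi_coin {R S F S' F' : Type} (c c' : S ↪ S') (d d' : F ↪ F')
    (hc : ∀ x y, c x ≠ c' y) (hd : ∀ x y, d x ≠ d' y) :
    ∀ x y, phi (R := R) c d x = phi (R := R) c' d' y → ∃ r, x = Sum.inl r ∧ y = Sum.inl r := by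
  have key : ∀ x y, phiFun (R := R) c d x = phiFun (R := R) c' d' y →
      ∃ r, x = Sum.inl r ∧ y = Sum.inl r := by
    rintro ((_ | r) | (⟨(_ | r), s⟩ | ⟨f, b⟩)) ((_ | r') | (⟨(_ | r'), s'⟩ | ⟨f', b'⟩)) h
    all_goals simp [phiFun] at h
    all_goals first
      | exact ⟨none, rfl, rfl⟩
      | exact ⟨some r, rfl, by rw [h]⟩
      | exact absurd h (hc _ _)
      | exact absurd h.2 (hc _ _)
      | exact absurd h.1 (hd _ _)
  exact fun x y h => key x y h

theorem phi_adj {R S F S' F' : Type} (H : SimpleGraph R) (C : SimpleGraph (Option R))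
    (hC : ∀ u v, C.Adj u v → (join H).Adj u v) (c : S ↪ S') (d : F ↪ F') :
    ∀ x y, (St C S F).Adj x y →
      (grow (St H (Unit ⊕ S') (S' ⊕ F')) (Mt R S' F')).Adj (phi (R := R) c d x)
        (phi (R := R) c d y) := by
  rintro ((_ | r) | (⟨(_ | r), s⟩ | ⟨f, b⟩)) ((_ | r') | (⟨(_ | r'), s'⟩ | ⟨f', b'⟩)) h
  · exact absurd h (C.loopless.irrefl _)
  · exact ⟨Sum.inr (Sum.inl (r', Sum.inl ())), rfl⟩
  · exact ⟨Sum.inr (Sum.inr (Sum.inl (c s'), true)), rfl, by simp⟩
  · exact absurd h (by simp [St])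
  · exact absurd h (by simp [St])
  · exact ⟨Sum.inr (Sum.inl (r, Sum.inl ())), rfl⟩
  · exact ⟨hC _ _ h, fun h' => h'⟩
  · exact absurd h (by simp [St])
  · exact ⟨Option.some.inj h, fun h' => h'⟩
  · exact absurd h (by simp [St])
  · exact ⟨Sum.inr (Sum.inr (Sum.inl (c s), true)), rfl, by simp⟩
  · exact absurd h (by simp [St])
  · exact absurd h (by simp [St])
  · exact absurd h (by simp [St])
  · exact absurd h (by simp [St])
  · exact absurd h (by simp [St])
  · exact ⟨Option.some.inj h, fun h' => h'⟩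
  · exact absurd h (by simp [St])
  · exact absurd h (by simp [St])
  · exact absurd h (by simp [St])
  · exact absurd h (by simp [St])
  · exact absurd h (by simp [St])
  · exact absurd h (by simp [St])
  · exact absurd h (by simp [St])
  · exact ⟨⟨by rw [show f = f' from h.1], h.2⟩, fun h' => h'⟩

/-- the number of pendant edges needed at every vertex -/
def Sup : ℕ → Type
  | 0 => Empty
  | t + 1 => Unit ⊕ (Sup t ⊕ Sup t)

/-- the number of free edges needed -/
def Free : ℕ → Type
  | 0 => Empty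
  | t + 1 => (Sup t ⊕ Sup t) ⊕ (Free t ⊕ Free t)

theorem realize_step {k t : ℕ} {R : Type} (H : SimpleGraph R) (S F : Type)
    (A B : SimpleGraph (Option R)) (hAB : A ⊔ B = join H) (hd : A ⊓ B = ⊥)
    (h1 : Forces k t (Option R ⊕ ((Option R × S) ⊕ (F × Bool))) (St A S F))
    (h2 : Forces k t (Option R ⊕ ((Option R × S) ⊕ (F × Bool))) (St B S F)) :
    Forces k (t + 1) (R ⊕ ((R × (Unit ⊕ (S ⊕ S))) ⊕ (((S ⊕ S) ⊕ (F ⊕ F)) × Bool)))
      (St H (Unit ⊕ (S ⊕ S)) ((S ⊕ S) ⊕ (F ⊕ F))) := by
  let cA : S ↪ (S ⊕ S) := ⟨Sum.inl, Sum.inl_injective⟩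
  let cB : S ↪ (S ⊕ S) := ⟨Sum.inr, Sum.inr_injective⟩
  let dA : F ↪ (F ⊕ F) := ⟨Sum.inl, Sum.inl_injective⟩
  let dB : F ↪ (F ⊕ F) := ⟨Sum.inr, Sum.inr_injective⟩
  have hdis : ∀ u v, A.Adj u v → ¬ B.Adj u v := by
    intro u v h1 h2
    have h3 : (A ⊓ B).Adj u v := ⟨h1, h2⟩
    rw [hd] at h3
    exact h3
  have hAj : ∀ u v, A.Adj u v → (join H).Adj u v := fun u v h => by
    rw [← hAB]; exact Or.inl h
  have hBj : ∀ u v, B.Adj u v → (join H).Adj u v := fun u v h => by
    rw [← hAB]; exact Or.inr h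
  have hcoin := phi_coin (R := R) cA cB dA dB (fun x y => Sum.inl_ne_inr)
    (fun x y => Sum.inl_ne_inr)
  refine ⟨Mt R (S ⊕ S) (F ⊕ F),
    (St A S F).map (phi (R := R) cA dA),
    grow (St H (Unit ⊕ (S ⊕ S)) ((S ⊕ S) ⊕ (F ⊕ F))) (Mt R (S ⊕ S) (F ⊕ F)) \
      (St A S F).map (phi (R := R) cA dA),
    mt_matching H (S ⊕ S) (F ⊕ F), ?_, inf_sdiff_self_right, ?_, ?_⟩
  · apply sup_sdiff_cancel_right
    intro x y h
    rw [SimpleGraph.map_adj] at h
    obtain ⟨u, v, huv, rfl, rfl⟩ := h
    exact phi_adj H A hAj cA dA u v huv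
  · apply forces_mono t (phi (R := R) cA dA) _ h1
    intro u v h
    rw [SimpleGraph.map_adj]
    exact ⟨u, v, h, rfl, rfl⟩
  · apply forces_mono t (phi (R := R) cB dB) _ h2
    intro u v h
    rw [SimpleGraph.sdiff_adj]
    refine ⟨phi_adj H B hBj cB dB u v h, ?_⟩
    rw [SimpleGraph.map_adj]
    rintro ⟨u', v', h', hu, hv⟩
    obtain ⟨r, rfl, rfl⟩ := hcoin u' u hu
    obtain ⟨r', rfl, rfl⟩ := hcoin v' v hv
    exact hdis r r' h' h

theorem realize {k : ℕ} : ∀ (t : ℕ) {R : Type} (H : SimpleGraph R), PWin k t R H →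
    Forces k t (R ⊕ ((R × Sup t) ⊕ (Free t × Bool))) (St H (Sup t) (Free t)) := by
  intro t
  induction t with
  | zero =>
    intro R H h
    exact clique_mono ⟨Sum.inl, Sum.inl_injective⟩ (fun u v h => h) h
  | succ t ih =>
    rintro R H ⟨A, B, hAB, hd, hA, hB⟩
    exact realize_step H (Sup t) (Free t) A B hAB hd (ih A hA) (ih B hB)

theorem sup_free_fintype : ∀ t, Nonempty (Fintype (Sup t)) ∧ Nonempty (Fintype (Free t)) := by
  intro t
  induction t with
  | zero => exact ⟨⟨(inferInstance : Fintype Empty)⟩, ⟨(inferInstance : Fintype Empty)⟩⟩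
  | succ t ih =>
    obtain ⟨⟨i⟩, ⟨j⟩⟩ := ih
    exact ⟨⟨(inferInstance : Fintype (Unit ⊕ (Sup t ⊕ Sup t)))⟩,
      ⟨(inferInstance : Fintype ((Sup t ⊕ Sup t) ⊕ (Free t ⊕ Free t)))⟩⟩

theorem st_triangleFree (S F : Type) : (St (⊥ : SimpleGraph Empty) S F).CliqueFree 3 := by
  classical
  intro s hs
  rw [SimpleGraph.is3Clique_iff] at hs
  obtain ⟨a, b, c, h1, h2, h3, -⟩ := hs
  rcases a with (e | (⟨e, _⟩ | ⟨f, a⟩))
  · exact e.elim
  · exact e.elim
  rcases b with (e | (⟨e, _⟩ | ⟨g, b⟩))
  · exact e.elim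
  · exact e.elim
  rcases c with (e | (⟨e, _⟩ | ⟨h, c⟩))
  · exact e.elim
  · exact e.elim
  have e1 : a ≠ b := h1.2
  have e2 : a ≠ c := h2.2
  have e3 : b ≠ c := h3.2
  cases a <;> cases b <;> cases c <;> simp_all

theorem forces_all (k : ℕ) : ∃ (V : Type) (_ : Fintype V) (G : SimpleGraph V),
    G.CliqueFree 3 ∧ ∃ t, Forces k t V G := by
  obtain ⟨t, ht⟩ := pwin_all k
  obtain ⟨⟨i⟩, ⟨j⟩⟩ := sup_free_fintype t
  exact ⟨Empty ⊕ ((Empty × Sup t) ⊕ (Free t × Bool)), inferInstance, St ⊥ (Sup t) (Free t),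
    st_triangleFree _ _, t, realize t ⊥ ht⟩

end Pool.Agent.R87.Builder
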