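import Pool.Agent.R87.Builder

/-!
# Tower bounds for the forcing time of cliques in the Builder-Chooser game
-/

set_option autoImplicit false

namespace Pool.Agent.R87.Builder

/-! ### Upper bound: a certificate for cliques of size four -/

/-- a binary tree whose leaves carry four numbers -/
inductive Tr where
  | leaf (a b c d : ℕ) : Tr
  | node (l r : Tr) : Tr

/-- the bits of the pairs `(i, j)` and `(j, i)` -/
def pr (i j : ℕ) : ℕ := (1 <<< (16 * i + j)) ||| (1 <<< (16 * j + i))

/-- the union of the edge sets of the cliques at the leaves -/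
def Tr.edges : Tr → ℕ
  | .leaf a b c d => pr a b ||| pr a c ||| pr a d ||| pr b c ||| pr b d ||| pr c d
  | .node l r => l.edges ||| r.edges

def maskAux (K : ℕ) : ℕ → ℕ
  | 0 => 0
  | n + 1 => maskAux K n ||| ((2 ^ K - 1) <<< (16 * n))

/-- the bits of all pairs of numbers smaller than `K` -/
def mask (K : ℕ) : ℕ := maskAux K K

/-- the check of the certificate -/
def ok : ℕ → ℕ → Tr → Bool
  | 0, N, .leaf a b c d => decide (a < b) && decide (b < c) && decide (c < d) && decide (d < N)
  | L + 1, N, .node l r => (l.edges &&& r.edges &&& mask (N + 1)) == 0 && ok L (N + 1) l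
      && ok L (N + 1) r
  | _, _, _ => false

theorem mask_spec : ∀ K < 17, ∀ i < K, ∀ j < K, (mask K).testBit (16 * i + j) = true := by
  decide +kernel

/-- the graph on the numbers smaller than `N` given by the bits of `M` -/
def gr (M N : ℕ) : SimpleGraph (Fin N) where
  Adj i j := i ≠ j ∧ M.testBit (16 * i.val + j.val) = true ∧ M.testBit (16 * j.val + i.val) = true
  symm := ⟨fun _ _ h => ⟨h.1.symm, h.2.2, h.2.1⟩⟩
  loopless := ⟨fun _ h => h.1 rfl⟩

theorem pr_left (i j : ℕ) : (pr i j).testBit (16 * i + j) = true := by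
  simp [pr]

theorem pr_right (i j : ℕ) : (pr i j).testBit (16 * j + i) = true := by
  simp [pr]

theorem and_zero {a b c i : ℕ} (h : (a &&& b &&& c) = 0) (hc : c.testBit i = true)
    (ha : a.testBit i = true) (hb : b.testBit i = true) : False := by
  have h1 : (a &&& b &&& c).testBit i = true := by
    rw [Nat.testBit_land, Nat.testBit_land, ha, hb, hc]; rfl
  rw [h, Nat.zero_testBit] at h1
  exact absurd h1 (by decide)

theorem ok_pwin : ∀ (L N : ℕ) (t : Tr), N + L ≤ 16 → ok L N t = true →
    PWin 4 L (Fin N) (gr t.edges N) := by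
  intro L
  induction L with
  | zero =>
    intro N t hN h
    cases t with
    | node l r => exact absurd h (by simp [ok])
    | leaf a b c d =>
      simp only [ok, Bool.and_eq_true, decide_eq_true_eq] at h
      obtain ⟨⟨⟨hab, hbc⟩, hcd⟩, hd⟩ := h
      have haN : a < N := by omega
      have hbN : b < N := by omega
      have hcN : c < N := by omega
      have key : ∀ i j : ℕ, ∀ (hi : i < N) (hj : j < N), i < j →
          (Tr.leaf a b c d).edges.testBit (16 * i + j) = true →
          (Tr.leaf a b c d).edges.testBit (16 * j + i) = true →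
          (gr (Tr.leaf a b c d).edges N).Adj ⟨i, hi⟩ ⟨j, hj⟩ := by
        intro i j hi hj hij h1 h2
        exact ⟨fun h => by have := Fin.mk.inj h; omega, h1, h2⟩
      have e1 := key a b haN hbN hab (by simp [Tr.edges, pr_left]) (by simp [Tr.edges, pr_right])
      have e2 := key a c haN hcN (by omega) (by simp [Tr.edges, pr_left])
        (by simp [Tr.edges, pr_right])
      have e3 := key a d haN hd (by omega) (by simp [Tr.edges, pr_left])
        (by simp [Tr.edges, pr_right])
      have e4 := key b c hbN hcN (by omega) (by simp [Tr.edges, pr_left])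
        (by simp [Tr.edges, pr_right])
      have e5 := key b d hbN hd (by omega) (by simp [Tr.edges, pr_left])
        (by simp [Tr.edges, pr_right])
      have e6 := key c d hcN hd (by omega) (by simp [Tr.edges, pr_left])
        (by simp [Tr.edges, pr_right])
      refine ⟨{⟨a, haN⟩, ⟨b, hbN⟩, ⟨c, hcN⟩, ⟨d, hd⟩}, ?_⟩
      rw [SimpleGraph.isNClique_iff]
      constructor
      · rw [SimpleGraph.isClique_iff]
        intro x hx y hy hxy
        simp only [Finset.coe_insert, Finset.coe_singleton, Set.mem_insert_iff,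
          Set.mem_singleton_iff] at hx hy
        rcases hx with rfl | rfl | rfl | rfl <;> rcases hy with rfl | rfl | rfl | rfl
        · exact absurd rfl hxy
        · exact e1
        · exact e2
        · exact e3
        · exact e1.symm
        · exact absurd rfl hxy
        · exact e4
        · exact e5
        · exact e2.symm
        · exact e4.symm
        · exact absurd rfl hxy
        · exact e6
        · exact e3.symm
        · exact e5.symm
        · exact e6.symm
        · exact absurd rfl hxy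
      · rw [Finset.card_insert_of_notMem, Finset.card_insert_of_notMem,
          Finset.card_insert_of_notMem, Finset.card_singleton]
        · rw [Finset.mem_singleton]; exact e6.ne
        · rw [Finset.mem_insert, Finset.mem_singleton]
          exact fun h => h.elim e4.ne e5.ne
        · rw [Finset.mem_insert, Finset.mem_insert, Finset.mem_singleton]
          exact fun h => h.elim e1.ne (fun h => h.elim e2.ne e3.ne)
  | succ L ih =>
    intro N t hN h
    cases t with
    | leaf a b c d => exact absurd h (by simp [ok])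
    | node l r =>
      simp only [ok, Bool.and_eq_true, beq_iff_eq] at h
      obtain ⟨⟨h0, hl⟩, hr⟩ := h
      have hm := mask_spec (N + 1) (by omega)
      let e : Fin (N + 1) ↪ Option (Fin N) := finSuccEquivLast.toEmbedding
      have hpl : ∀ (M : ℕ), (∀ i, M.testBit i = true → ((l.edges ||| r.edges).testBit i) = true) →
          ∀ u v, (gr M (N + 1)).Adj u v →
          (join (gr (Tr.node l r).edges N)).Adj (e u) (e v) := by
        intro M hM u v
        refine Fin.lastCases ?_ (fun i => ?_) u <;> refine Fin.lastCases ?_ (fun j => ?_) v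
        · intro h; exact absurd rfl h.1
        · intro _
          show (join (gr (Tr.node l r).edges N)).Adj (finSuccEquivLast (Fin.last N))
            (finSuccEquivLast (Fin.castSucc j))
          rw [finSuccEquivLast_last, finSuccEquivLast_castSucc]
          trivial
        · intro _
          show (join (gr (Tr.node l r).edges N)).Adj (finSuccEquivLast (Fin.castSucc i))
            (finSuccEquivLast (Fin.last N))
          rw [finSuccEquivLast_last, finSuccEquivLast_castSucc]
          trivial
        · intro h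
          show (join (gr (Tr.node l r).edges N)).Adj (finSuccEquivLast (Fin.castSucc i))
            (finSuccEquivLast (Fin.castSucc j))
          rw [finSuccEquivLast_castSucc, finSuccEquivLast_castSucc]
          exact ⟨fun h' => h.1 (by rw [h']), hM _ h.2.1, hM _ h.2.2⟩
      have hdis : gr l.edges (N + 1) ⊓ gr r.edges (N + 1) = ⊥ := by
        ext u v
        rw [SimpleGraph.inf_adj, SimpleGraph.bot_adj]
        constructor
        · rintro ⟨h1, h2⟩
          exact and_zero h0 (hm u.val u.isLt v.val v.isLt) h1.2.1 h2.2.1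
        · exact fun h => h.elim
      obtain ⟨A, B, h1, h2, h3, h4⟩ := split_mono e
        (hpl l.edges (fun i hi => by rw [Nat.testBit_lor, hi]; rfl))
        (hpl r.edges (fun i hi => by rw [Nat.testBit_lor, hi, Bool.or_true])) hdis
      exact ⟨A, B, h1, h2, pwin_mono L e h3 (ih (N + 1) l (by omega) hl),
        pwin_mono L e h4 (ih (N + 1) r (by omega) hr)⟩

def cert : Tr :=
  (.node (.node (.node (.node (.node (.node (.node (.leaf 1 10 11 14) (.leaf 8 12 13 14))
       (.node (.leaf 3 10 13 14) (.leaf 6 11 12 14)))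
      (.node (.node (.leaf 5 12 13 14) (.leaf 7 9 11 14))
       (.node (.leaf 0 11 13 14) (.leaf 9 10 12 14))))
     (.node (.node (.node (.leaf 4 10 12 14) (.leaf 2 11 13 14))
       (.node (.leaf 4 8 11 14) (.leaf 5 12 13 14)))
      (.node (.node (.leaf 5 11 13 14) (.leaf 6 9 12 13))
       (.node (.leaf 8 10 13 14) (.leaf 3 11 12 14)))))
    (.node (.node (.node (.node (.leaf 0 10 13 14) (.leaf 1 11 12 14))
       (.node (.leaf 2 12 13 14) (.leaf 7 10 11 14)))
      (.node (.node (.leaf 8 11 13 14) (.leaf 4 9 12 14))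
       (.node (.leaf 0 12 13 14) (.leaf 3 9 11 14))))
     (.node (.node (.node (.leaf 2 10 12 14) (.leaf 0 11 13 14))
       (.node (.leaf 6 10 13 14) (.leaf 3 8 12 13)))
      (.node (.node (.leaf 1 9 12 13) (.leaf 2 11 13 14))
       (.node (.leaf 5 10 13 14) (.leaf 4 11 12 14))))))
   (.node (.node (.node (.node (.node (.leaf 7 12 13 14) (.leaf 9 10 11 14))
       (.node (.leaf 5 11 13 14) (.leaf 4 10 12 14)))
      (.node (.node (.leaf 8 9 12 14) (.leaf 1 11 13 14))
       (.node (.leaf 7 10 13 14) (.leaf 0 11 12 14))))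
     (.node (.node (.node (.leaf 1 10 13 14) (.leaf 6 11 12 14))
       (.node (.leaf 3 10 12 14) (.leaf 4 11 13 14)))
      (.node (.node (.leaf 3 11 13 14) (.leaf 2 9 12 14))
       (.node (.leaf 1 12 13 14) (.leaf 7 8 11 14)))))
    (.node (.node (.node (.node (.leaf 6 11 13 14) (.leaf 0 10 12 14))
       (.node (.leaf 9 12 13 14) (.leaf 0 8 11 14)))
      (.node (.node (.leaf 5 9 11 14) (.leaf 7 12 13 14))
       (.node (.leaf 3 11 12 14) (.leaf 5 10 13 14))))
     (.node (.node (.node (.leaf 4 11 13 14) (.leaf 0 9 12 14))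
       (.node (.leaf 2 10 11 14) (.leaf 8 12 13 14)))
      (.node (.node (.leaf 8 10 13 14) (.leaf 7 11 12 14))
       (.node (.leaf 1 11 13 14) (.leaf 6 10 12 14)))))))
  (.node (.node (.node (.node (.node (.node (.leaf 7 9 11 14) (.leaf 4 12 13 14))
       (.node (.leaf 5 8 12 14) (.leaf 0 11 13 14)))
      (.node (.node (.leaf 6 11 13 14) (.leaf 9 10 12 14))
       (.node (.leaf 5 10 13 14) (.leaf 1 11 12 14))))
     (.node (.node (.node (.leaf 8 11 13 14) (.leaf 7 10 12 13))
       (.node (.leaf 6 9 13 14) (.leaf 5 11 12 14)))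
      (.node (.node (.leaf 4 11 13 14) (.leaf 1 8 12 14))
       (.node (.leaf 0 12 13 14) (.leaf 2 10 11 14)))))
    (.node (.node (.node (.node (.leaf 2 8 12 14) (.leaf 1 11 13 14))
       (.node (.leaf 5 12 13 14) (.leaf 0 10 11 14)))
      (.node (.node (.leaf 1 10 13 14) (.leaf 3 11 12 14))
       (.node (.leaf 5 11 13 14) (.leaf 4 10 12 14))))
     (.node (.node (.node (.leaf 2 11 13 14) (.leaf 8 10 12 14))
       (.node (.leaf 4 9 12 14) (.leaf 3 10 13 14)))
      (.node (.node (.leaf 6 10 13 14) (.leaf 7 11 12 14))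
       (.node (.leaf 8 9 11 13) (.leaf 1 12 13 14))))))
   (.node (.node (.node (.node (.node (.leaf 5 10 12 14) (.leaf 0 11 13 14))
       (.node (.leaf 8 10 13 14) (.leaf 6 11 12 14)))
      (.node (.node (.leaf 7 11 13 14) (.leaf 0 9 12 14))
       (.node (.leaf 3 10 11 14) (.leaf 1 12 13 14))))
     (.node (.node (.node (.leaf 4 10 13 14) (.leaf 8 11 12 14))
       (.node (.leaf 3 9 12 13) (.leaf 2 11 13 14)))
      (.node (.node (.leaf 5 9 11 14) (.leaf 1 12 13 14))
       (.node (.leaf 4 11 13 14) (.leaf 6 10 12 14)))))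
    (.node (.node (.node (.node (.leaf 6 11 13 14) (.leaf 1 10 12 14))
       (.node (.leaf 8 12 13 14) (.leaf 0 10 11 14)))
      (.node (.node (.leaf 7 11 13 14) (.leaf 2 9 12 14))
       (.node (.leaf 2 10 13 14) (.leaf 5 11 12 14))))
     (.node (.node (.node (.leaf 4 11 13 14) (.leaf 6 8 12 14))
       (.node (.leaf 3 11 12 14) (.leaf 7 10 13 14)))
      (.node (.node (.leaf 9 10 12 14) (.leaf 2 11 13 14))
       (.node (.leaf 0 12 13 14) (.leaf 1 9 11 14))))))))

theorem cert_ok : ok 7 8 cert = true := by decide +kernel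

theorem cert_mask : (cert.edges &&& mask 8) = 0 := by decide +kernel

theorem pwin_four : PWin 4 15 Empty ⊥ := by
  have h1 := ok_pwin 7 8 cert (by norm_num) cert_ok
  refine pwin_down 8 7 ?_
  refine pwin_mono 7 ⟨Sum.inl, Sum.inl_injective⟩ ?_ h1
  intro u v h
  exfalso
  have h2 : (cert.edges &&& mask 8).testBit (16 * u.val + v.val) = true := by
    rw [Nat.testBit_land, h.2.1, mask_spec 8 (by norm_num) u.val u.isLt v.val v.isLt]; rfl
  rw [cert_mask, Nat.zero_testBit] at h2
  exact absurd h2 (by decide)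

/-! ### Upper bound: the recursion -/

theorem pwin_star_empty {k t : ℕ} (ht : PWin k t Empty ⊥) : ∀ n : ℕ,
    Nonempty (Big t ≃ Fin n) → PWin (k + 1) (t + n) Empty ⊥ := by
  rintro n ⟨e⟩
  have h1 := pwin_star t (⊥ : SimpleGraph Empty) ht
  refine pwin_down n t ?_
  refine pwin_mono t ⟨fun z => match z with
    | Sum.inl e => e.elim
    | Sum.inr x => Sum.inl (e x), ?_⟩ ?_ h1
  · rintro (a | x) (b | y) h
    · exact a.elim
    · exact a.elim
    · exact b.elim
    · have := Sum.inl.inj h
      rw [e.injective this]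
  · rintro (a | x) (b | y) h
    · exact a.elim
    · exact a.elim
    · exact b.elim
    · exact absurd h id

theorem big_equiv : ∀ t, Nonempty (Big t ≃ Fin (2 ^ t)) := by
  intro t
  induction t with
  | zero =>
    exact ⟨(Equiv.ofUnique Unit (Fin 1) : Unit ≃ Fin 1)⟩
  | succ t ih =>
    obtain ⟨e⟩ := ih
    have h1 : 2 ^ t + 2 ^ t = 2 ^ (t + 1) := by ring
    exact ⟨((Equiv.sumCongr e e).trans (finSumFinEquiv.trans (finCongr h1)) :
      (Big t ⊕ Big t) ≃ Fin (2 ^ (t + 1)))⟩

theorem pwin_idle {k t : ℕ} (h : PWin k t Empty ⊥) : PWin k (t + 1) Empty ⊥ := by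
  refine pwin_down 1 t (pwin_mono t ⟨fun e => e.elim, fun e => e.elim⟩ (fun e => e.elim) h)

theorem pwin_le {k t t' : ℕ} (htt : t ≤ t') (h : PWin k t Empty ⊥) : PWin k t' Empty ⊥ := by
  induction htt with
  | refl => exact h
  | step _ ih => exact pwin_idle ih

/-- towers of twos -/
def tow : ℕ → ℕ
  | 0 => 1
  | n + 1 => 2 ^ tow n

theorem succ_le_tow : ∀ n, n + 1 ≤ tow n := by
  intro n
  induction n with
  | zero => exact le_refl 1
  | succ n ih =>
    have h1 : tow n < 2 ^ tow n := Nat.lt_two_pow_self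
    show n + 1 + 1 ≤ 2 ^ tow n
    omega

theorem upper : ∀ n, ∃ t, t < tow (n + 3) ∧ PWin (n + 4) t Empty ⊥ := by
  intro n
  induction n with
  | zero =>
    refine ⟨15, ?_, pwin_four⟩
    show 15 < 2 ^ 2 ^ 2 ^ 1
    norm_num
  | succ n ih =>
    obtain ⟨t, ht, hw⟩ := ih
    refine ⟨t + 2 ^ t, ?_, pwin_star_empty hw (2 ^ t) (big_equiv t)⟩
    have h1 : t < 2 ^ t := Nat.lt_two_pow_self
    have h2 : 2 ^ (t + 1) ≤ 2 ^ tow (n + 3) := Nat.pow_le_pow_right (by norm_num) ht
    have h3 : tow (n + 1 + 3) = 2 ^ tow (n + 3) := rfl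
    rw [h3]
    rw [pow_succ] at h2
    omega

/-! ### A cheap way to get two more vertices from the starting graph -/

/-- the graph `H` together with a perfect matching on `X × Bool`, completely joined to it -/
def star2 {R X : Type} (H : SimpleGraph R) : SimpleGraph (R ⊕ (X × Bool)) where
  Adj x y := match x, y with
    | Sum.inl u, Sum.inl v => H.Adj u v
    | Sum.inl _, Sum.inr _ => True
    | Sum.inr _, Sum.inl _ => True
    | Sum.inr p, Sum.inr q => p.1 = q.1 ∧ p.2 ≠ q.2
  symm := ⟨by
    rintro (u | x) (v | y) h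
    · exact SimpleGraph.Adj.symm h
    · exact h
    · exact h
    · exact ⟨h.1.symm, h.2.symm⟩⟩
  loopless := ⟨by
    rintro (u | x) h
    · exact H.loopless.irrefl u h
    · exact h.2 rfl⟩

def half2Fun {R X X' : Type} (e : X → X') : (Option R ⊕ (X × Bool)) → Option (R ⊕ (X' × Bool))
  | Sum.inl none => none
  | Sum.inl (some r) => some (Sum.inl r)
  | Sum.inr (x, b) => some (Sum.inr (e x, b))

def half2 {R X X' : Type} (e : X ↪ X') : (Option R ⊕ (X × Bool)) ↪ Option (R ⊕ (X' × Bool)) where
  toFun := half2Fun e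
  inj' := by
    rintro ((_ | r) | ⟨x, b⟩) ((_ | r') | ⟨x', b'⟩) h
    all_goals simp [half2Fun] at h
    all_goals first
      | rfl
      | rw [h]
      | rw [h.1, h.2]

theorem half2_coin {R X X' : Type} (e e' : X ↪ X') (he : ∀ x y, e x ≠ e' y) :
    ∀ x y, half2 (R := R) e x = half2 (R := R) e' y → ∃ r, x = Sum.inl r ∧ y = Sum.inl r := by
  have key : ∀ x y, half2Fun (R := R) e x = half2Fun (R := R) e' y →
      ∃ r, x = Sum.inl r ∧ y = Sum.inl r := by
    rintro ((_ | r) | ⟨x, b⟩) ((_ | r') | ⟨x', b'⟩) h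
    all_goals simp [half2Fun] at h
    all_goals first
      | exact ⟨none, rfl, rfl⟩
      | exact ⟨some r, rfl, by rw [h]⟩
      | exact absurd h.1 (he _ _)
  exact fun x y h => key x y h

theorem half2_adj {R X X' : Type} (H : SimpleGraph R) (C : SimpleGraph (Option R))
    (hC : ∀ u v, C.Adj u v → (join H).Adj u v) (e : X ↪ X') :
    ∀ x y, (star2 (X := X) C).Adj x y →
      (join (star2 (X := X') H)).Adj (half2 (R := R) e x) (half2 (R := R) e y) := by
  rintro ((_ | u) | ⟨x, b⟩) ((_ | v) | ⟨y, c⟩) h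
  · exact absurd h (C.loopless.irrefl _)
  · trivial
  · trivial
  · trivial
  · have h3 : (join H).Adj (some u) (some v) := hC _ _ h
    exact h3
  · trivial
  · trivial
  · trivial
  · refine ⟨?_, h.2⟩
    show e x = e y
    rw [show x = y from h.1]

theorem pwin_star2_step {k t : ℕ} {R X : Type} (H : SimpleGraph R)
    (A B : SimpleGraph (Option R)) (hAB : A ⊔ B = join H) (hd : A ⊓ B = ⊥)
    (h1 : PWin k t (Option R ⊕ (X × Bool)) (star2 A))
    (h2 : PWin k t (Option R ⊕ (X × Bool)) (star2 B)) :
    PWin k (t + 1) (R ⊕ ((X ⊕ X) × Bool)) (star2 H) := by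
  let eA : X ↪ (X ⊕ X) := ⟨Sum.inl, Sum.inl_injective⟩
  let eB : X ↪ (X ⊕ X) := ⟨Sum.inr, Sum.inr_injective⟩
  have hdis : ∀ u v, A.Adj u v → ¬ B.Adj u v := by
    intro u v h1 h2
    have h3 : (A ⊓ B).Adj u v := ⟨h1, h2⟩
    rw [hd] at h3
    exact h3
  have hAj : ∀ u v, A.Adj u v → (join H).Adj u v := fun u v h => by
    rw [← hAB]; exact Or.inl h
  have hBj : ∀ u v, B.Adj u v → (join H).Adj u v := fun u v h => by
    rw [← hAB]; exact Or.inr h
  have hcoin := half2_coin (R := R) eA eB (fun x y => Sum.inl_ne_inr)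
  refine ⟨(star2 A).map (half2 (R := R) eA),
    join (star2 H) \ (star2 A).map (half2 (R := R) eA), ?_, inf_sdiff_self_right, ?_, ?_⟩
  · apply sup_sdiff_cancel_right
    intro x y h
    rw [SimpleGraph.map_adj] at h
    obtain ⟨u, v, huv, rfl, rfl⟩ := h
    exact half2_adj H A hAj eA u v huv
  · apply pwin_mono t (half2 (R := R) eA) _ h1
    intro u v h
    rw [SimpleGraph.map_adj]
    exact ⟨u, v, h, rfl, rfl⟩
  · apply pwin_mono t (half2 (R := R) eB) _ h2
    intro u v h
    rw [SimpleGraph.sdiff_adj]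
    refine ⟨half2_adj H B hBj eB u v h, ?_⟩
    rw [SimpleGraph.map_adj]
    rintro ⟨u', v', h', hu, hv⟩
    obtain ⟨r, rfl, rfl⟩ := hcoin u' u hu
    obtain ⟨r', rfl, rfl⟩ := hcoin v' v hv
    exact hdis r r' h' h

theorem pwin_star2 {k : ℕ} : ∀ (t : ℕ) {R : Type} (H : SimpleGraph R), PWin k t R H →
    PWin (k + 2) t (R ⊕ (Big t × Bool)) (star2 H) := by
  intro t
  induction t with
  | zero =>
    rintro R H ⟨s, hs⟩
    rw [SimpleGraph.isNClique_iff, SimpleGraph.isClique_iff] at hs
    let x0 : R ⊕ (Big 0 × Bool) := Sum.inr (show Big 0 from (), false)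
    let x1 : R ⊕ (Big 0 × Bool) := Sum.inr (show Big 0 from (), true)
    have hx0 : x0 ∉ s.map (⟨Sum.inl, Sum.inl_injective⟩ : R ↪ R ⊕ (Big 0 × Bool)) := by
      rw [Finset.mem_map]
      rintro ⟨u, _, hu⟩
      exact Sum.inl_ne_inr hu
    have hx1 : x1 ∉ Finset.cons x0 _ hx0 := by
      rw [Finset.mem_cons, Finset.mem_map]
      rintro (h | ⟨u, _, hu⟩)
      · have h1 : (true : Bool) = false := congrArg Prod.snd (Sum.inr.inj h)
        exact absurd h1 (by decide)
      · exact Sum.inl_ne_inr hu
    refine ⟨Finset.cons x1 _ hx1, ?_⟩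
    rw [SimpleGraph.isNClique_iff, SimpleGraph.isClique_iff]
    constructor
    · intro x hx y hy hxy
      rw [Finset.mem_coe, Finset.mem_cons, Finset.mem_cons, Finset.mem_map] at hx hy
      rcases hx with rfl | rfl | ⟨u, hu, rfl⟩ <;> rcases hy with rfl | rfl | ⟨v, hv, rfl⟩
      · exact absurd rfl hxy
      · exact ⟨rfl, by simp⟩
      · trivial
      · exact ⟨rfl, by simp⟩
      · exact absurd rfl hxy
      · trivial
      · trivial
      · trivial
      · exact hs.1 hu hv (fun h => hxy (by rw [h]))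
    · rw [Finset.card_cons, Finset.card_cons, Finset.card_map, hs.2]
  | succ t ih =>
    rintro R H ⟨A, B, hAB, hd, hA, hB⟩
    exact pwin_star2_step H A B hAB hd (ih A hA) (ih B hB)

theorem st_triangleFree' {R : Type} (H : SimpleGraph R) (S F : Type) (hH : H.CliqueFree 3) :
    (St H S F).CliqueFree 3 := by
  classical
  intro s hs
  rw [SimpleGraph.is3Clique_iff] at hs
  obtain ⟨a, b, c, hab, hac, hbc, -⟩ := hs
  rcases a with (a | (a | a)) <;> rcases b with (b | (b | b)) <;> rcases c with (c | (c | c))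
  · exact hH {a, b, c} (by
      rw [SimpleGraph.is3Clique_iff]
      exact ⟨a, b, c, hab, hac, hbc, rfl⟩)
  · have h1 : a = c.1 := hac
    have h2 : b = c.1 := hbc
    rw [h1, h2] at hab
    exact (St H S F).loopless.irrefl _ hab
  · exact absurd hac id
  · have h1 : a = b.1 := hab
    have h2 : c = b.1 := hbc
    rw [h1, h2] at hac
    exact (St H S F).loopless.irrefl _ hac
  · exact absurd hbc id
  · exact absurd hbc id
  · exact absurd hab id
  · exact absurd hab id
  · exact absurd hab id
  · have h1 : b = a.1 := hab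
    have h2 : c = a.1 := hac
    rw [h1, h2] at hbc
    exact (St H S F).loopless.irrefl _ hbc
  · exact absurd hac id
  · exact absurd hac id
  · exact absurd hab id
  · exact absurd hab id
  · exact absurd hab id
  · exact absurd hab id
  · exact absurd hab id
  · exact absurd hab id
  · exact absurd hab id
  · exact absurd hab id
  · exact absurd hab id
  · exact absurd hab id
  · exact absurd hab id
  · exact absurd hab id
  · exact absurd hac id
  · exact absurd hac id
  · have h1 : a.2 ≠ b.2 := hab.2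
    have h2 : a.2 ≠ c.2 := hac.2
    have h3 : b.2 ≠ c.2 := hbc.2
    revert h1 h2 h3
    cases a.2 <;> cases b.2 <;> cases c.2 <;> simp

theorem star2_triangleFree (X : Type) : (star2 (X := X) (⊥ : SimpleGraph Empty)).CliqueFree 3 := by
  classical
  intro s hs
  rw [SimpleGraph.is3Clique_iff] at hs
  obtain ⟨a, b, c, hab, hac, hbc, -⟩ := hs
  rcases a with (a | a)
  · exact a.elim
  rcases b with (b | b)
  · exact b.elim
  rcases c with (c | c)
  · exact c.elim
  have h1 : a.2 ≠ b.2 := hab.2
  have h2 : a.2 ≠ c.2 := hac.2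
  have h3 : b.2 ≠ c.2 := hbc.2
  revert h1 h2 h3
  cases a.2 <;> cases b.2 <;> cases c.2 <;> simp

theorem forces_of_pwin {k t : ℕ} (h : PWin k t Empty ⊥) :
    ∃ (V : Type) (_ : Fintype V) (G : SimpleGraph V), G.CliqueFree 3 ∧ Forces (k + 2) t V G := by
  have h1 := realize t _ (pwin_star2 t (⊥ : SimpleGraph Empty) h)
  obtain ⟨⟨i⟩, ⟨j⟩⟩ := sup_free_fintype t
  obtain ⟨l⟩ := big_fintype t
  exact ⟨_, inferInstance, _, st_triangleFree' _ _ _ (star2_triangleFree (Big t)), h1⟩

/-! ### Lower bound: reduction to the game on the new vertices -/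

theorem forces_pwin {k : ℕ} : ∀ (t : ℕ) {V R : Type} (G : SimpleGraph V) (f : R ↪ V),
    (∀ a b c, a ∉ Set.range f → b ∉ Set.range f → c ∉ Set.range f →
      ¬ (G.Adj a b ∧ G.Adj a c ∧ G.Adj b c)) →
    Forces (k + 2) t V G → PWin k t R (G.comap f) := by
  intro t
  induction t with
  | zero =>
    rintro V R G f hG ⟨s, hs⟩
    classical
    rw [SimpleGraph.isNClique_iff, SimpleGraph.isClique_iff] at hs
    have h1 : (s.filter (fun x => x ∉ Set.range f)).card ≤ 2 := by
      by_contra hcon
      rw [not_le, Finset.two_lt_card] at hcon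
      obtain ⟨a, ha, b, hb, c, hc, hab, hac, hbc⟩ := hcon
      rw [Finset.mem_filter] at ha hb hc
      exact hG a b c ha.2 hb.2 hc.2 ⟨hs.1 ha.1 hb.1 hab, hs.1 ha.1 hc.1 hac, hs.1 hb.1 hc.1 hbc⟩
    have h2 : (s.filter (fun x => x ∈ Set.range f)).card
        + (s.filter (fun x => x ∉ Set.range f)).card = s.card :=
      Finset.card_filter_add_card_filter_not _
    have h3 : (s.preimage f f.injective.injOn).card
        = (s.filter (fun x => x ∈ Set.range f)).card := Finset.card_preimage _ _ _
    have h4 : k ≤ (s.preimage f f.injective.injOn).card := by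
      rw [hs.2] at h2
      omega
    obtain ⟨u, hu, huc⟩ := Finset.exists_subset_card_eq h4
    refine ⟨u, ?_⟩
    rw [SimpleGraph.isNClique_iff, SimpleGraph.isClique_iff]
    refine ⟨?_, huc⟩
    intro x hx y hy hxy
    have hx' := Finset.mem_preimage.1 (hu hx)
    have hy' := Finset.mem_preimage.1 (hu hy)
    exact hs.1 hx' hy' (fun h => hxy (f.injective h))
  | succ t ih =>
    rintro V R G f hG ⟨M, A, B, hM, hAB, hd, hA, hB⟩
    have hsub : ∀ C : SimpleGraph (Option V), (∀ u v, C.Adj u v → (grow G M).Adj u v) →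
        Forces (k + 2) t (Option V) C → PWin k t (Option R) (C.comap f.optionMap) := by
      intro C hC hF
      refine ih C f.optionMap ?_ hF
      rintro (_ | a) (_ | b) (_ | c) ha hb hc ⟨h1, h2, h3⟩
      · exact C.loopless.irrefl _ h1
      · exact ha ⟨none, rfl⟩
      · exact ha ⟨none, rfl⟩
      · exact ha ⟨none, rfl⟩
      · exact hb ⟨none, rfl⟩
      · exact hb ⟨none, rfl⟩
      · exact hc ⟨none, rfl⟩
      · refine hG a b c (fun ⟨r, hr⟩ => ha ⟨some r, by rw [← hr]; rfl⟩)
          (fun ⟨r, hr⟩ => hb ⟨some r, by rw [← hr]; rfl⟩)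
          (fun ⟨r, hr⟩ => hc ⟨some r, by rw [← hr]; rfl⟩)
          ⟨(hC _ _ h1).1, (hC _ _ h2).1, (hC _ _ h3).1⟩
    have hle : ∀ C : SimpleGraph (Option V), (∀ u v, C.Adj u v → (grow G M).Adj u v) →
        ∀ u v, (C.comap f.optionMap).Adj u v →
        (join (G.comap f)).Adj (Function.Embedding.refl _ u) (Function.Embedding.refl _ v) := by
      rintro C hC (_ | u) (_ | v) h
      · exact absurd h (C.loopless.irrefl _)
      · trivial
      · trivial
      · exact (hC _ _ h).1
    have hCA : ∀ u v, A.Adj u v → (grow G M).Adj u v := fun u v h => by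
      rw [← hAB]; exact Or.inl h
    have hCB : ∀ u v, B.Adj u v → (grow G M).Adj u v := fun u v h => by
      rw [← hAB]; exact Or.inr h
    have hd' : A.comap f.optionMap ⊓ B.comap f.optionMap = ⊥ := by
      ext u v
      constructor
      · rintro ⟨h1, h2⟩
        have h3 : (A ⊓ B).Adj (f.optionMap u) (f.optionMap v) := ⟨h1, h2⟩
        rw [hd] at h3
        exact h3.elim
      · exact fun h => h.elim
    obtain ⟨A', B', h1, h2, h3, h4⟩ := split_mono (Function.Embedding.refl (Option R))
      (hle A hCA) (hle B hCB) hd'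
    exact ⟨A', B', h1, h2, pwin_mono t (Function.Embedding.refl _) h3 (hsub A hCA hA),
      pwin_mono t (Function.Embedding.refl _) h4 (hsub B hCB hB)⟩

/-! ### Lower bound: the weight function of Chooser -/

open Classical in
/-- the ordered pairs of adjacent vertices whose labels have the same colour -/
noncomputable def badSet {R : Type} [Fintype R] (H : SimpleGraph R) (col : ℕ → ℕ) (lab : R → ℕ) :
    Finset (R × R) :=
  Finset.univ.filter (fun p => H.Adj p.1 p.2 ∧ lab p.2 < lab p.1 ∧
    col (lab p.1) = col (lab p.2))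

/-- the number of labels in `(d, T]` with the colour of `d` -/
def cnt (col : ℕ → ℕ) (T d : ℕ) : ℕ := ((Finset.Ioc d T).filter (fun e => col e = col d)).card

def lab' {R : Type} (lab : R → ℕ) (t : ℕ) : Option R → ℕ
  | none => t
  | some r => lab r

theorem bad_join {R : Type} [Fintype R] (H : SimpleGraph R) (col : ℕ → ℕ) (lab : R → ℕ)
    (t T : ℕ) (hinj : Function.Injective lab) (hr : ∀ r, t < lab r ∧ lab r ≤ T) :
    (badSet (join H) col (lab' lab t)).card ≤ (badSet H col lab).card + cnt col T t := by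
  classical
  let e1 : R × R ↪ Option R × Option R := ⟨fun p => (some p.1, some p.2), by
    rintro ⟨a, b⟩ ⟨c, d⟩ h
    simpa using h⟩
  let e2 : R ↪ Option R × Option R := ⟨fun r => (some r, none), by
    rintro a b h
    simpa using h⟩
  have hsub : badSet (join H) col (lab' lab t) ⊆ (badSet H col lab).map e1 ∪
      (Finset.univ.filter (fun r => col (lab r) = col t)).map e2 := by
    rintro ⟨(_ | x), (_ | y)⟩ h
    · rw [badSet, Finset.mem_filter] at h
      exact absurd h.2.1 id
    · rw [badSet, Finset.mem_filter] at h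
      have h1 : lab y < t := h.2.2.1
      have h2 := (hr y).1
      omega
    · rw [badSet, Finset.mem_filter] at h
      rw [Finset.mem_union, Finset.mem_map, Finset.mem_map]
      right
      exact ⟨x, Finset.mem_filter.2 ⟨Finset.mem_univ _, h.2.2.2⟩, rfl⟩
    · rw [badSet, Finset.mem_filter] at h
      rw [Finset.mem_union, Finset.mem_map, Finset.mem_map]
      left
      exact ⟨(x, y), Finset.mem_filter.2 ⟨Finset.mem_univ _, h.2⟩, rfl⟩
  have h1 := Finset.card_le_card hsub
  have h2 := Finset.card_union_le ((badSet H col lab).map e1)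
    ((Finset.univ.filter (fun r => col (lab r) = col t)).map e2)
  rw [Finset.card_map, Finset.card_map] at h2
  have h3 : (Finset.univ.filter (fun r => col (lab r) = col t)).card ≤ cnt col T t := by
    rw [cnt, ← Finset.card_image_of_injective _ hinj]
    apply Finset.card_le_card
    intro d hd
    rw [Finset.mem_image] at hd
    obtain ⟨r, hr', rfl⟩ := hd
    rw [Finset.mem_filter] at hr'
    rw [Finset.mem_filter, Finset.mem_Ioc]
    exact ⟨hr r, hr'.2⟩
  omega

theorem bad_split {R : Type} [Fintype R] {A B C : SimpleGraph R} (col : ℕ → ℕ) (lab : R → ℕ)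
    (hAB : A ⊔ B = C) (hd : A ⊓ B = ⊥) :
    (badSet A col lab).card + (badSet B col lab).card ≤ (badSet C col lab).card := by
  classical
  rw [← Finset.card_union_of_disjoint]
  · apply Finset.card_le_card
    intro p hp
    rw [Finset.mem_union] at hp
    rcases hp with hp | hp
    · rw [badSet, Finset.mem_filter] at hp ⊢
      refine ⟨hp.1, ?_, hp.2.2⟩
      rw [← hAB]; exact Or.inl hp.2.1
    · rw [badSet, Finset.mem_filter] at hp ⊢
      refine ⟨hp.1, ?_, hp.2.2⟩
      rw [← hAB]; exact Or.inr hp.2.1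
  · rw [Finset.disjoint_left]
    intro p h1 h2
    rw [badSet, Finset.mem_filter] at h1 h2
    have h3 : (A ⊓ B).Adj p.1 p.2 := ⟨h1.2.1, h2.2.1⟩
    rw [hd] at h3
    exact h3.elim

theorem chooser {q T : ℕ} {col Ψ : ℕ → ℕ} (hcol : ∀ d, d ≤ T → col d < q)
    (hΨ : ∀ t, t < T → 2 * Ψ t + cnt col T (t + 1) ≤ Ψ (t + 1)) :
    ∀ (t : ℕ), t ≤ T → ∀ {R : Type} [Fintype R] (H : SimpleGraph R) (lab : R → ℕ),
      Function.Injective lab → (∀ r, t < lab r ∧ lab r ≤ T) →
      (badSet H col lab).card + Ψ t < 2 ^ t → ¬ PWin (q + 1) t R H := by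
  intro t
  induction t with
  | zero =>
    rintro _ R _ H lab hinj hr hb ⟨s, hs⟩
    classical
    rw [SimpleGraph.isNClique_iff, SimpleGraph.isClique_iff] at hs
    have hmaps : Set.MapsTo (fun r => col (lab r)) (s : Set R) (Finset.range q : Set ℕ) := by
      intro r _
      rw [Finset.mem_coe, Finset.mem_range]
      exact hcol _ (hr r).2
    have hcard : (Finset.range q).card < s.card := by
      rw [Finset.card_range, hs.2]; omega
    obtain ⟨x, hx, y, hy, hxy, hc⟩ := Finset.exists_ne_map_eq_of_card_lt_of_maps_to hcard hmaps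
    have h0 : (badSet H col lab).card = 0 := by
      rw [pow_zero] at hb; omega
    rw [Finset.card_eq_zero] at h0
    have hne : lab x ≠ lab y := fun h => hxy (hinj h)
    rcases Nat.lt_or_gt_of_ne hne with h | h
    · have h1 : (y, x) ∈ badSet H col lab := by
        rw [badSet, Finset.mem_filter]
        exact ⟨Finset.mem_univ _, hs.1 hy hx hxy.symm, h, hc.symm⟩
      rw [h0] at h1
      exact absurd h1 (Finset.notMem_empty _)
    · have h1 : (x, y) ∈ badSet H col lab := by
        rw [badSet, Finset.mem_filter]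
        exact ⟨Finset.mem_univ _, hs.1 hx hy hxy, h, hc⟩
      rw [h0] at h1
      exact absurd h1 (Finset.notMem_empty _)
  | succ t ih =>
    rintro ht R _ H lab hinj hr hb ⟨A, B, hAB, hd, hA, hB⟩
    have h1 := bad_join H col lab (t + 1) T hinj hr
    have h2 := bad_split (C := join H) col (lab' lab (t + 1)) hAB hd
    have h3 := hΨ t (by omega)
    rw [pow_succ] at hb
    have hinj' : Function.Injective (lab' lab (t + 1)) := by
      rintro (_ | a) (_ | b) h
      · rfl
      · have h4 : t + 1 = lab b := h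
        have h5 := (hr b).1
        omega
      · have h4 : lab a = t + 1 := h
        have h5 := (hr a).1
        omega
      · rw [hinj (show lab a = lab b from h)]
    have hr' : ∀ r, t < lab' lab (t + 1) r ∧ lab' lab (t + 1) r ≤ T := by
      rintro (_ | a)
      · exact ⟨Nat.lt_succ_self t, ht⟩
      · have h5 := hr a
        exact ⟨by have : lab' lab (t + 1) (some a) = lab a := rfl
                  omega, h5.2⟩
    have h4 : (badSet A col (lab' lab (t + 1))).card + Ψ t < 2 ^ t ∨
        (badSet B col (lab' lab (t + 1))).card + Ψ t < 2 ^ t := by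
      omega
    rcases h4 with h4 | h4
    · exact ih (by omega) A _ hinj' hr' h4 hA
    · exact ih (by omega) B _ hinj' hr' h4 hB

/-- Chooser can avoid cliques with `q + 1` vertices for `T` rounds, with room to spare -/
def Good (q T : ℕ) : Prop := ∃ col Ψ : ℕ → ℕ, (∀ d, d ≤ T → col d < q) ∧
  (∀ t, t < T → 2 * Ψ t + cnt col T (t + 1) ≤ Ψ (t + 1)) ∧ Ψ T + 2 ^ (T + 1 - q) ≤ 2 ^ T ∧
  Ψ 0 = 0

theorem good_not {q T : ℕ} (h : Good q T) : ¬ PWin (q + 1) T Empty ⊥ := by
  obtain ⟨col, Ψ, h1, h2, h3, -⟩ := h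
  apply chooser h1 h2 T le_rfl (⊥ : SimpleGraph Empty) (fun e => e.elim) (fun e => e.elim)
    (fun e => e.elim)
  have h4 : (badSet (⊥ : SimpleGraph Empty) col (fun e => e.elim)).card = 0 := by
    rw [Finset.card_eq_zero]
    ext p
    exact p.1.elim
  have h5 : 0 < 2 ^ (T + 1 - q) := by positivity
  omega

theorem good_three : Good 3 7 := by
  refine ⟨fun d => if d ≤ 2 then 0 else if d ≤ 4 then 1 else 2,
    fun t => [0, 1, 2, 5, 10, 22, 45, 90].getD t 0, ?_, ?_, ?_, rfl⟩
  · intro d _
    dsimp only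
    split_ifs <;> norm_num
  · decide
  · decide

theorem good_step {q T : ℕ} (hq : q ≤ T) (h : Good q T) : Good (q + 1) (T + 2 ^ (T - q)) := by
  obtain ⟨col, Ψ, h1, h2, h3, h0⟩ := h
  let n := 2 ^ (T - q)
  let col' : ℕ → ℕ := fun d => if d ≤ T then col d else q
  let Ψ' : ℕ → ℕ := fun t => if t ≤ T then Ψ t else 2 ^ (t - T) * Ψ T + (2 ^ (t - T) - 1) * n
  have hcnt1 : ∀ d, d ≤ T → cnt col' (T + n) d = cnt col T d := by
    intro d hd
    rw [cnt, cnt]
    congr 1
    ext e
    rw [Finset.mem_filter, Finset.mem_filter, Finset.mem_Ioc, Finset.mem_Ioc]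
    have e1 : col' d = col d := if_pos hd
    rw [e1]
    constructor
    · rintro ⟨⟨h4, h5⟩, h6⟩
      by_cases he : e ≤ T
      · have e2 : col' e = col e := if_pos he
        rw [e2] at h6
        exact ⟨⟨h4, he⟩, h6⟩
      · have e2 : col' e = q := if_neg he
        rw [e2] at h6
        have := h1 d hd
        omega
    · rintro ⟨⟨h4, h5⟩, h6⟩
      have e2 : col' e = col e := if_pos h5
      rw [e2]
      exact ⟨⟨h4, le_trans h5 (Nat.le_add_right _ _)⟩, h6⟩
  have hcnt2 : ∀ d, cnt col' (T + n) d ≤ T + n - d := by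
    intro d
    rw [cnt]
    refine le_trans (Finset.card_filter_le _ _) ?_
    rw [Nat.card_Ioc]
  refine ⟨col', Ψ', ?_, ?_, ?_, ?_⟩
  · intro d _
    show (if d ≤ T then col d else q) < q + 1
    split_ifs with hd
    · have := h1 d hd
      omega
    · omega
  · intro t ht
    by_cases htT : t < T
    · have e1 : Ψ' t = Ψ t := if_pos (by omega)
      have e2 : Ψ' (t + 1) = Ψ (t + 1) := if_pos (by omega)
      rw [e1, e2, hcnt1 (t + 1) (by omega)]
      exact h2 t htT
    · have htT' : T ≤ t := by omega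
      obtain ⟨j, rfl⟩ := Nat.exists_eq_add_of_le htT'
      have e1 : Ψ' (T + j) = 2 ^ j * Ψ T + (2 ^ j - 1) * n := by
        show (if T + j ≤ T then Ψ (T + j) else
          2 ^ (T + j - T) * Ψ T + (2 ^ (T + j - T) - 1) * n) = _
        rw [Nat.add_sub_cancel_left]
        split_ifs with hj
        · have : j = 0 := by omega
          subst this
          simp
        · rfl
      have e2 : Ψ' (T + j + 1) = 2 ^ (j + 1) * Ψ T + (2 ^ (j + 1) - 1) * n := by
        show (if T + j + 1 ≤ T then Ψ (T + j + 1) else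
          2 ^ (T + j + 1 - T) * Ψ T + (2 ^ (T + j + 1 - T) - 1) * n) = _
        rw [if_neg (by omega), show T + j + 1 - T = j + 1 by omega]
      have h4 := hcnt2 (T + j + 1)
      obtain ⟨p, hp⟩ : ∃ p, 2 ^ j = p + 1 :=
        ⟨2 ^ j - 1, by have : 0 < 2 ^ j := by positivity
                       omega⟩
      rw [e1, e2, pow_succ, hp]
      have e3 : p + 1 - 1 = p := rfl
      have e4 : (p + 1) * 2 - 1 = 2 * p + 1 := by omega
      rw [e3, e4]
      have h5 : T + n - (T + j + 1) ≤ n := by omega
      nlinarith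
  · have hn : 0 < n := by positivity
    have e1 : Ψ' (T + n) = 2 ^ n * Ψ T + (2 ^ n - 1) * n := by
      show (if T + n ≤ T then Ψ (T + n) else
        2 ^ (T + n - T) * Ψ T + (2 ^ (T + n - T) - 1) * n) = _
      rw [if_neg (by omega), Nat.add_sub_cancel_left]
    have e2 : T + n + 1 - (q + 1) = n + (T - q) := by omega
    have e3 : T + 1 - q = (T - q) + 1 := by omega
    show Ψ' (T + n) + 2 ^ (T + n + 1 - (q + 1)) ≤ 2 ^ (T + n)
    rw [e1, e2, pow_add, pow_add]
    rw [e3, pow_succ] at h3
    have h4 : (2 ^ n - 1) * n ≤ 2 ^ n * n := Nat.mul_le_mul_right _ (Nat.sub_le _ _)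
    have h5 : 2 ^ n * (Ψ T + 2 ^ (T - q) * 2) ≤ 2 ^ n * 2 ^ T := Nat.mul_le_mul_left _ h3
    have h6 : (2 : ℕ) ^ (T - q) = n := rfl
    rw [h6] at h5 ⊢
    nlinarith
  · show (if 0 ≤ T then Ψ 0 else _) = 0
    rw [if_pos (Nat.zero_le _), h0]

theorem good_tow : ∀ i, ∃ T, Good (i + 3) T ∧ tow (i + 2) + (i + 3) ≤ T := by
  intro i
  induction i with
  | zero => exact ⟨7, good_three, by decide⟩
  | succ i ih =>
    obtain ⟨T, hT, hle⟩ := ih
    have hpos := succ_le_tow (i + 2)
    refine ⟨T + 2 ^ (T - (i + 3)), good_step (by omega) hT, ?_⟩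
    have h1 : 2 ^ tow (i + 2) ≤ 2 ^ (T - (i + 3)) :=
      Nat.pow_le_pow_right (by norm_num) (by omega)
    have h2 : tow (i + 1 + 2) = 2 ^ tow (i + 2) := rfl
    rw [h2]
    omega

theorem lower (i t : ℕ) (h : PWin (i + 4) t Empty ⊥) : tow (i + 2) + (i + 3) < t := by
  obtain ⟨T, hT, hle⟩ := good_tow i
  by_contra hcon
  exact good_not hT (pwin_le (by omega) h)

/-- the least number of rounds in which Builder can force a clique with `k` vertices from some
finite triangle-free graph -/
noncomputable def rho (k : ℕ) : ℕ :=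
  sInf {t | ∃ (V : Type) (_ : Fintype V) (G : SimpleGraph V), G.CliqueFree 3 ∧ Forces k t V G}

theorem pwin_of_forces {k t : ℕ} {V : Type} {G : SimpleGraph V} (hG : G.CliqueFree 3)
    (h : Forces (k + 2) t V G) : PWin k t Empty ⊥ := by
  have h1 := forces_pwin (k := k) (R := Empty) t G ⟨fun e => e.elim, fun e => e.elim⟩ (by
    classical
    rintro a b c - - - ⟨hab, hac, hbc⟩
    apply hG {a, b, c}
    rw [SimpleGraph.is3Clique_iff]
    exact ⟨a, b, c, hab, hac, hbc, rfl⟩) h
  exact pwin_mono t (Function.Embedding.refl _) (fun e => e.elim) h1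

theorem rho_bounds (k : ℕ) (hk : 6 ≤ k) :
    (∃ t, ∃ (V : Type) (_ : Fintype V) (G : SimpleGraph V), G.CliqueFree 3 ∧ Forces k t V G) ∧
    tow (k - 4) < rho k ∧ rho k < tow (k - 3) := by
  obtain ⟨i, rfl⟩ := Nat.exists_eq_add_of_le' hk
  obtain ⟨t, ht, hw⟩ := upper i
  have h1 := forces_of_pwin hw
  have hne : {t | ∃ (V : Type) (_ : Fintype V) (G : SimpleGraph V), G.CliqueFree 3 ∧
      Forces (i + 6) t V G}.Nonempty := ⟨t, h1⟩
  refine ⟨⟨t, h1⟩, ?_, ?_⟩
  · obtain ⟨V, _, G, hG, hF⟩ := Nat.sInf_mem hne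
    have h2 := lower i _ (pwin_of_forces hG hF)
    have h3 : i + 6 - 4 = i + 2 := by omega
    rw [h3]
    show tow (i + 2) < rho (i + 6)
    have h4 : rho (i + 6) = sInf {t | ∃ (V : Type) (_ : Fintype V) (G : SimpleGraph V),
      G.CliqueFree 3 ∧ Forces (i + 6) t V G} := rfl
    rw [h4]
    omega
  · have h3 : i + 6 - 3 = i + 3 := by omega
    rw [h3]
    exact lt_of_le_of_lt (Nat.sInf_le h1) ht

end Pool.Agent.R87.Builder
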