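import Pool.Agent.W166.Gnp.Row
import Pool.Agent.W166.Gnp.Transfer

/-!
# More on the product Bernoulli measure: disjointness, exclusive events, independence,
Bonferroni and Chebyshev.
-/

set_option autoImplicit false

namespace Pool.Agent.R87.GnpMore

open Finset Pool.Agent.W166.Gnp

section
variable {α : Type} [DecidableEq α]

theorem Pr_congr {E : Finset α} {p : ℝ} {A B : Finset α → Prop} (h : ∀ S, S ⊆ E → (A S ↔ B S)) :
    Pr E p A = Pr E p B := by
  classical
  unfold Pr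
  apply Ex_congr
  intro S hS
  by_cases hA : A S
  · rw [if_pos hA, if_pos ((h S hS).1 hA)]
  · rw [if_neg hA, if_neg (fun hb => hA ((h S hS).2 hb))]

theorem Pr_eq_Ex {E : Finset α} {p : ℝ} (A : Finset α → Prop) [DecidablePred A] :
    Pr E p A = Ex E p (fun S => if A S then 1 else 0) := by
  unfold Pr
  apply Ex_congr
  intro S _
  congr

theorem Pr_marg' {E E1 : Finset α} (h1 : E1 ⊆ E) (p : ℝ) {A : Finset α → Prop}
    (hA : ∀ S, S ⊆ E → (A S ↔ A (S ∩ E1))) : Pr E p A = Pr E1 p A := by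
  rw [← Pr_marg h1 p]
  exact Pr_congr hA

/-- probability that a given set is missed -/
theorem Pr_disjoint {E D : Finset α} (hD : D ⊆ E) (p : ℝ) :
    Pr E p (fun S => Disjoint D S) = (1 - p) ^ D.card := by
  classical
  have hm : Pr E p (fun S => Disjoint D S) = Pr D p (fun S => Disjoint D S) := by
    apply Pr_marg' hD
    intro S _
    rw [Finset.disjoint_left, Finset.disjoint_left]
    constructor
    · intro h a ha hS
      exact h ha (mem_inter.1 hS).1
    · intro h a ha hS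
      exact h ha (mem_inter.2 ⟨hS, ha⟩)
  rw [hm, Pr_eq_Ex]
  unfold Ex
  rw [Finset.sum_eq_single ∅]
  · simp
  · intro S hS hne
    rw [mem_powerset] at hS
    beta_reduce
    rw [if_neg, mul_zero]
    intro h
    obtain ⟨a, ha⟩ := Finset.nonempty_iff_ne_empty.2 hne
    exact (Finset.disjoint_left.1 h) (hS ha) ha
  · intro h
    exact absurd (empty_mem_powerset D) h

theorem Pr_or_excl {E : Finset α} {p : ℝ} {A B : Finset α → Prop}
    (h : ∀ S, S ⊆ E → A S → B S → False) :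
    Pr E p (fun S => A S ∨ B S) = Pr E p A + Pr E p B := by
  classical
  unfold Pr
  rw [← Ex_add]
  apply Ex_congr
  intro S hS
  by_cases hA : A S <;> by_cases hB : B S
  · exact absurd hB (fun hb => h S hS hA hb)
  · simp [hA, hB]
  · simp [hA, hB]
  · simp [hA, hB]

/-- independence of two events -/
theorem Pr_and {E E1 E2 : Finset α} (h1 : E1 ⊆ E) (h2 : E2 ⊆ E) (hd : Disjoint E1 E2) (p : ℝ)
    {A B : Finset α → Prop} (hA : ∀ S, S ⊆ E → (A S ↔ A (S ∩ E1)))
    (hB : ∀ S, S ⊆ E → (B S ↔ B (S ∩ E2))) :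
    Pr E p (fun S => A S ∧ B S) = Pr E p A * Pr E p B := by
  classical
  have hu : E1 ∪ E2 ⊆ E := union_subset h1 h2
  have h3 : Pr E p (fun S => A S ∧ B S) = Pr (E1 ∪ E2) p (fun S => A S ∧ B S) := by
    apply Pr_marg' hu
    intro S hS
    have h4 : S ∩ (E1 ∪ E2) ⊆ E := inter_subset_left.trans hS
    rw [hA S hS, hB S hS, hA _ h4, hB _ h4, inter_assoc, inter_assoc,
      inter_eq_right.2 (subset_union_left : E1 ⊆ E1 ∪ E2),
      inter_eq_right.2 (subset_union_right : E2 ⊆ E1 ∪ E2)]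
  rw [h3, Pr_marg' h1 p hA, Pr_marg' h2 p hB, Pr_eq_Ex, Ex_union hd, Pr_eq_Ex (E := E1),
    mul_comm, ← Ex_smul]
  apply Ex_congr
  intro S hS
  rw [Pr_eq_Ex (E := E2), mul_comm, ← Ex_smul]
  apply Ex_congr
  intro T hT
  have e1 : A (S ∪ T) ↔ A S := by
    rw [hA (S ∪ T) (union_subset (hS.trans h1) (hT.trans h2)), union_inter_distrib_right,
      inter_eq_left.2 hS, Finset.disjoint_iff_inter_eq_empty.mp ((hd.mono_right hT).symm),
      union_empty]
  have e2 : B (S ∪ T) ↔ B T := by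
    rw [hB (S ∪ T) (union_subset (hS.trans h1) (hT.trans h2)), union_inter_distrib_right,
      inter_eq_left.2 hT, Finset.disjoint_iff_inter_eq_empty.mp (hd.mono_left hS), empty_union]
  by_cases hA' : A S <;> by_cases hB' : B T <;> simp [e1, e2, hA', hB']

/-- Bonferroni's inequality -/
theorem bonferroni {ι : Type} [DecidableEq ι] {E : Finset α} {p : ℝ} (h0 : 0 ≤ p) (h1 : p ≤ 1)
    (T : Finset ι) (A : ι → Finset α → Prop) :
    ∑ i ∈ T, Pr E p (A i) -
        (1 / 2) * ∑ i ∈ T, ∑ j ∈ T.erase i, Pr E p (fun S => A i S ∧ A j S) ≤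
      Pr E p (fun S => ∃ i ∈ T, A i S) := by
  classical
  have h2 : ∀ i ∈ T, ∑ j ∈ T.erase i, Pr E p (fun S => A i S ∧ A j S) =
      Ex E p (fun S => ∑ j ∈ T.erase i, if A i S ∧ A j S then (1 : ℝ) else 0) := by
    intro i _
    rw [Ex_sum]
    exact sum_congr rfl (fun j _ => Pr_eq_Ex _)
  rw [sum_congr rfl h2, ← Ex_sum, sum_congr rfl (fun i _ => Pr_eq_Ex (A i)), ← Ex_sum,
    ← Ex_smul, sub_eq_add_neg, ← neg_one_mul, ← Ex_smul, ← Ex_add, Pr_eq_Ex]
  apply Ex_mono h0 h1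
  intro S _
  set C : ℝ := ∑ i ∈ T, if A i S then (1 : ℝ) else 0 with hC
  have h3 : ∑ i ∈ T, ∑ j ∈ T.erase i, (if A i S ∧ A j S then (1 : ℝ) else 0) = C * C - C := by
    have h4 : ∀ i ∈ T, ∑ j ∈ T.erase i, (if A i S ∧ A j S then (1 : ℝ) else 0) =
        (if A i S then (1 : ℝ) else 0) * C - (if A i S then (1 : ℝ) else 0) := by
      intro i hi
      rw [hC, ← Finset.add_sum_erase T _ hi, mul_add]
      have h5 : ∀ j ∈ T.erase i, (if A i S ∧ A j S then (1 : ℝ) else 0) =
          (if A i S then (1 : ℝ) else 0) * (if A j S then (1 : ℝ) else 0) := by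
        intro j _
        by_cases hA : A i S <;> by_cases hB : A j S <;> simp [hA, hB]
      rw [sum_congr rfl h5, ← mul_sum]
      by_cases hA : A i S <;> simp [hA]
    rw [sum_congr rfl h4, sum_sub_distrib, ← sum_mul]
  rw [h3]
  have hCn : C = ((T.filter (fun i => A i S)).card : ℝ) := by
    rw [hC, sum_boole]
  by_cases hex : ∃ i ∈ T, A i S
  · rw [if_pos hex]
    have h6 : (C - 1) * (C - 2) ≥ 0 := by
      rw [hCn]
      rcases Nat.lt_or_ge (T.filter (fun i => A i S)).card 2 with h | h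
      · have h7 : (((T.filter (fun i => A i S)).card : ℕ) : ℝ) ≤ 1 := by
          exact_mod_cast Nat.lt_succ_iff.1 h
        nlinarith
      · have h7 : (2 : ℝ) ≤ (((T.filter (fun i => A i S)).card : ℕ) : ℝ) := by
          exact_mod_cast h
        nlinarith
    nlinarith
  · rw [if_neg hex]
    have h6 : C = 0 := by
      rw [hC]
      apply sum_eq_zero
      intro i hi
      rw [if_neg (fun h => hex ⟨i, hi, h⟩)]
    rw [h6]; norm_num

/-- Chebyshev's inequality for the number of events that occur -/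
theorem chebyshev {ι : Type} [DecidableEq ι] {E : Finset α} {p : ℝ} (h0 : 0 ≤ p) (h1 : p ≤ 1)
    (T : Finset ι) (A : ι → Finset α → Prop) :
    (∑ i ∈ T, Pr E p (A i)) ^ 2 * Pr E p (fun S => ¬ ∃ i ∈ T, A i S) ≤
      ∑ i ∈ T, ∑ j ∈ T, Pr E p (fun S => A i S ∧ A j S) - (∑ i ∈ T, Pr E p (A i)) ^ 2 := by
  classical
  set μ : ℝ := ∑ i ∈ T, Pr E p (A i) with hμ
  have h2 : ∑ i ∈ T, ∑ j ∈ T, Pr E p (fun S => A i S ∧ A j S) =
      Ex E p (fun S => (∑ i ∈ T, if A i S then (1 : ℝ) else 0) *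
        (∑ i ∈ T, if A i S then (1 : ℝ) else 0)) := by
    have h3 : ∀ S, (∑ i ∈ T, if A i S then (1 : ℝ) else 0) *
        (∑ i ∈ T, if A i S then (1 : ℝ) else 0) =
        ∑ i ∈ T, ∑ j ∈ T, if A i S ∧ A j S then (1 : ℝ) else 0 := by
      intro S
      rw [sum_mul_sum]
      refine sum_congr rfl (fun i _ => sum_congr rfl (fun j _ => ?_))
      by_cases hA : A i S <;> by_cases hB : A j S <;> simp [hA, hB]
    simp only [h3]
    rw [Ex_sum]
    refine sum_congr rfl (fun i _ => ?_)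
    rw [Ex_sum]
    exact sum_congr rfl (fun j _ => Pr_eq_Ex _)
  have h4 : μ = Ex E p (fun S => ∑ i ∈ T, if A i S then (1 : ℝ) else 0) := by
    rw [Ex_sum]
    exact sum_congr rfl (fun j _ => Pr_eq_Ex _)
  have h5 : Ex E p (fun S => ((∑ i ∈ T, if A i S then (1 : ℝ) else 0) - μ) ^ 2) =
      ∑ i ∈ T, ∑ j ∈ T, Pr E p (fun S => A i S ∧ A j S) - μ ^ 2 := by
    have h6 : ∀ S, ((∑ i ∈ T, if A i S then (1 : ℝ) else 0) - μ) ^ 2 =
        ((∑ i ∈ T, if A i S then (1 : ℝ) else 0) * (∑ i ∈ T, if A i S then (1 : ℝ) else 0) +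
        (-2 * μ) * (∑ i ∈ T, if A i S then (1 : ℝ) else 0)) + μ ^ 2 := by
      intro S; ring
    simp only [h6]
    rw [Ex_add, Ex_add, Ex_smul, Ex_const, ← h2, ← h4]
    ring
  rw [← h5, Pr_eq_Ex, ← Ex_smul]
  apply Ex_mono h0 h1
  intro S _
  by_cases hex : ∃ i ∈ T, A i S
  · rw [if_neg (by push Not; exact hex)]
    rw [mul_zero]; positivity
  · rw [if_pos hex]
    have h6 : (∑ i ∈ T, if A i S then (1 : ℝ) else 0) = 0 := by
      apply sum_eq_zero
      intro i hi
      rw [if_neg (fun h => hex ⟨i, hi, h⟩)]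
    rw [h6]
    ring_nf
    exact le_refl _

end

section
variable {V : Type} [DecidableEq V]

/-- the pairs inside `J` -/
def ins (J : Finset V) : Finset (Sym2 V) := J.offDiag.image (Sym2.mk.uncurry)

theorem card_ins (J : Finset V) : (ins J).card = J.card.choose 2 := Sym2.card_image_offDiag J

theorem mem_ins {J : Finset V} {a b : V} : s(a, b) ∈ ins J ↔ a ∈ J ∧ b ∈ J ∧ a ≠ b := by
  unfold ins
  simp only [mem_image, mem_offDiag, Prod.exists, Function.uncurry]
  constructor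
  · rintro ⟨x, y, ⟨hx, hy, hxy⟩, h⟩
    have h' : s(x, y) = s(a, b) := h
    rw [Sym2.eq_iff] at h'
    rcases h' with ⟨rfl, rfl⟩ | ⟨rfl, rfl⟩
    · exact ⟨hx, hy, hxy⟩
    · exact ⟨hy, hx, hxy.symm⟩
  · intro h
    exact ⟨a, b, h, rfl⟩

theorem ins_mono {I J : Finset V} (h : I ⊆ J) : ins I ⊆ ins J := by
  intro e
  induction e using Sym2.ind with
  | _ a b =>
    rw [mem_ins, mem_ins]
    exact fun h' => ⟨h h'.1, h h'.2.1, h'.2.2⟩

theorem ins_inter (I J : Finset V) : ins I ∩ ins J = ins (I ∩ J) := by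
  ext e
  induction e using Sym2.ind with
  | _ a b =>
    simp only [mem_inter, mem_ins]
    tauto

end

end Pool.Agent.R87.GnpMore
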