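import Mathlib

set_option autoImplicit false

namespace Pool.Agent.R87.HS
open Finset Filter Topology
open scoped Pointwise

/-- `ℝ^d` -/
abbrev E (d : ℕ) := EuclideanSpace ℝ (Fin d)

/-- Pach's theorem for equal sizes in dimension `d` with the constant `c`. -/
def PachEqual (d : ℕ) (c : ℝ) : Prop :=
  ∀ (n : ℕ) (C : Fin (d + 1) → Finset (E d)), 1 ≤ n → (∀ i, (C i).card = n) →
    (∀ i j, i ≠ j → Disjoint (C i) (C j)) →
    ∃ (p : E d) (D : Fin (d + 1) → Finset (E d)),
      (∀ i, D i ⊆ C i ∧ c * (n : ℝ) ≤ ((D i).card : ℝ)) ∧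
      ∀ x : Fin (d + 1) → E d, (∀ i, x i ∈ D i) → p ∈ convexHull ℝ (Set.range x)

lemma near_hull {d : ℕ} {ι : Type*} (x y : ι → E d) (η : ℝ)
    (h : ∀ i, ‖y i - x i‖ ≤ η) (p : E d) (hp : p ∈ convexHull ℝ (Set.range y)) :
    ∃ q ∈ convexHull ℝ (Set.range x), ‖p - q‖ ≤ η := by
  have hconv : Convex ℝ (convexHull ℝ (Set.range x) + Metric.closedBall (0 : E d) η) :=
    (convex_convexHull ℝ _).add (convex_closedBall _ _)
  have hsub : Set.range y ⊆ convexHull ℝ (Set.range x) + Metric.closedBall (0 : E d) η := by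
    rintro _ ⟨i, rfl⟩
    refine ⟨x i, subset_convexHull ℝ _ ⟨i, rfl⟩, y i - x i, ?_, by simp⟩
    simpa using h i
  obtain ⟨q, hq, r, hr, rfl⟩ := convexHull_min hsub hconv hp
  refine ⟨q, hq, ?_⟩
  simpa using hr

/-- the version with integer multiplicities -/
theorem int_sel {d : ℕ} (hd : 1 ≤ d) {c : ℝ} (hc : 0 < c) (hP : PachEqual d c)
    (C : Fin (d + 1) → Finset (E d))
    (m : Fin (d + 1) → E d → ℕ) (N : ℕ) (hN : 1 ≤ N) (hm : ∀ i, ∑ x ∈ C i, m i x = N) :
    ∃ (p : E d) (D : Fin (d + 1) → Finset (E d)),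
    (∀ i, D i ⊆ C i ∧ c * (N : ℝ) ≤ ((∑ x ∈ D i, m i x : ℕ) : ℝ)) ∧
    ∀ x : Fin (d + 1) → E d, (∀ i, x i ∈ D i) → p ∈ convexHull ℝ (Set.range x) := by
  classical
  set e : E d := EuclideanSpace.single ⟨0, hd⟩ (1 : ℝ) with he
  have hne : ‖e‖ = 1 := by simp [he]
  have he0 : e ≠ 0 := by
    intro h; rw [h, norm_zero] at hne; exact zero_ne_one hne
  let tag : Fin (d + 1) → ℕ → ℝ := fun i j => ((j * (d + 1) + (i : ℕ) : ℕ) : ℝ)
  let f : ℝ → Fin (d + 1) → (Σ _ : E d, ℕ) → E d := fun ε i a => a.1 + (ε * tag i a.2) • e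
  let A : Fin (d + 1) → Finset (Σ _ : E d, ℕ) := fun i => (C i).sigma (fun x => range (m i x))
  set J : ℝ := ((N * (d + 1) + (d + 1) : ℕ) : ℝ) with hJ
  have hJ0 : 0 ≤ J := by rw [hJ]; positivity
  have htag0 : ∀ i j, 0 ≤ tag i j := fun i j => by simp only [tag]; positivity
  have htag : ∀ i, ∀ a ∈ A i, tag i a.2 ≤ J := by
    intro i a ha
    rw [Finset.mem_sigma, Finset.mem_range] at ha
    have h1 : m i a.1 ≤ N := by
      rw [← hm i]; exact Finset.single_le_sum (f := fun x => m i x) (fun _ _ => Nat.zero_le _) ha.1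
    have h2 : a.2 ≤ N := by omega
    simp only [tag, hJ]
    have h3 : a.2 * (d + 1) ≤ N * (d + 1) := Nat.mul_le_mul_right _ h2
    have h4 := i.2
    exact_mod_cast (by omega : a.2 * (d + 1) + (i : ℕ) ≤ N * (d + 1) + (d + 1))
  set U : Finset (E d) := univ.biUnion C with hU
  have hCU : ∀ i, C i ⊆ U := fun i => Finset.subset_biUnion_of_mem C (mem_univ i)
  set R0 : ℝ := ∑ x ∈ U, ‖x‖ with hR0
  have hR0x : ∀ x ∈ U, ‖x‖ ≤ R0 := fun x hx =>
    Finset.single_le_sum (f := fun x : E d => ‖x‖) (fun _ _ => norm_nonneg _) hx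
  -- small parameters
  have hsmall : ∀ᶠ ε in 𝓝[>] (0 : ℝ), ∀ x ∈ U, ∀ y ∈ U, x ≠ y → ε * J < dist x y := by
    rw [Filter.eventually_all_finset]
    intro x _
    rw [Filter.eventually_all_finset]
    intro y _
    by_cases hxy : x = y
    · exact Eventually.of_forall fun ε h => absurd hxy h
    · have h1 : Tendsto (fun ε : ℝ => ε * J) (𝓝[>] 0) (𝓝 (0 * J)) :=
        ((continuous_id.mul continuous_const).tendsto 0).mono_left nhdsWithin_le_nhds
      rw [zero_mul] at h1
      have h2 : (0 : ℝ) < dist x y := dist_pos.2 hxy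
      filter_upwards [h1.eventually_lt_const h2] with ε h _ using h
  have hpos : ∀ᶠ ε in 𝓝[>] (0 : ℝ), 0 < ε := eventually_nhdsWithin_of_forall fun _ h => h
  have hle1 : ∀ᶠ ε in 𝓝[>] (0 : ℝ), ε ≤ 1 := by
    have : ∀ᶠ ε in 𝓝 (0 : ℝ), ε ≤ 1 := eventually_le_nhds (by norm_num)
    exact this.filter_mono nhdsWithin_le_nhds
  have key : ∀ᶠ ε in 𝓝[>] (0 : ℝ), ∃ D ∈ ((Fintype.piFinset fun i => (C i).powerset :
      Finset (Fin (d + 1) → Finset (E d))) : Set (Fin (d + 1) → Finset (E d))), ∃ p : E d,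
      p ∈ Metric.closedBall (0 : E d) (R0 + J) ∧
      (∀ i, c * (N : ℝ) ≤ ((∑ x ∈ D i, m i x : ℕ) : ℝ)) ∧
      ∀ x : Fin (d + 1) → E d, (∀ i, x i ∈ D i) →
        ∃ q ∈ convexHull ℝ (Set.range x), ‖p - q‖ ≤ ε * J := by
    filter_upwards [hsmall, hpos, hle1] with ε hs h0 h1
    have hinj : ∀ i i' : Fin (d + 1), ∀ a ∈ A i, ∀ b ∈ A i', f ε i a = f ε i' b →
        i = i' ∧ a = b := by
      intro i i' a ha b hb hab
      have ha1 : a.1 ∈ U := hCU i (Finset.mem_sigma.1 ha).1
      have hb1 : b.1 ∈ U := hCU i' (Finset.mem_sigma.1 hb).1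
      have hta := htag i a ha
      have htb := htag i' b hb
      have hta0 := htag0 i a.2
      have htb0 := htag0 i' b.2
      simp only [f] at hab
      have e1 : a.1 - b.1 = (ε * (tag i' b.2 - tag i a.2)) • e := by
        have : a.1 - b.1 = (ε * tag i' b.2) • e - (ε * tag i a.2) • e := by
          rw [sub_eq_sub_iff_add_eq_add, hab, add_comm]
        rw [this, ← sub_smul, mul_sub]
      have e2 : a.1 = b.1 := by
        by_contra hne'
        have h2 := hs _ ha1 _ hb1 hne'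
        rw [dist_eq_norm, e1, norm_smul, hne, mul_one, Real.norm_eq_abs, abs_mul,
          abs_of_pos h0] at h2
        have h3 : |tag i' b.2 - tag i a.2| ≤ J := by
          rw [abs_le]; constructor <;> linarith
        have h4 := mul_le_mul_of_nonneg_left h3 h0.le
        linarith
      rw [e2, sub_self] at e1
      have e3 : ε * (tag i' b.2 - tag i a.2) = 0 := by
        rcases smul_eq_zero.1 e1.symm with h | h
        · exact h
        · exact absurd h he0
      have e4 : tag i' b.2 = tag i a.2 := by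
        rcases mul_eq_zero.1 e3 with h | h
        · exact absurd h h0.ne'
        · linarith
      simp only [tag] at e4
      have e5 : b.2 * (d + 1) + (i' : ℕ) = a.2 * (d + 1) + (i : ℕ) := by exact_mod_cast e4
      have e6 : b.2 = a.2 := by
        have h1 : (b.2 * (d + 1) + (i' : ℕ)) / (d + 1) = b.2 := by
          rw [Nat.mul_comm, Nat.mul_add_div (by omega), Nat.div_eq_of_lt i'.2, add_zero]
        have h2 : (a.2 * (d + 1) + (i : ℕ)) / (d + 1) = a.2 := by
          rw [Nat.mul_comm, Nat.mul_add_div (by omega), Nat.div_eq_of_lt i.2, add_zero]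
        rw [← h1, e5, h2]
      have e7 : (i' : ℕ) = (i : ℕ) := by rw [e6] at e5; omega
      exact ⟨Fin.ext e7.symm, Sigma.ext e2 (heq_of_eq e6.symm)⟩
    obtain ⟨p, D', hD', hp⟩ := hP N (fun i => (A i).image (f ε i)) hN
      (by
        intro i
        rw [Finset.card_image_of_injOn]
        · rw [Finset.card_sigma]; simpa using hm i
        · intro a ha b hb hab
          exact (hinj i i a ha b hb hab).2)
      (by
        intro i j hij
        rw [Finset.disjoint_left]
        intro z hz hz'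
        obtain ⟨a, ha, rfl⟩ := Finset.mem_image.1 hz
        obtain ⟨b, hb, hab⟩ := Finset.mem_image.1 hz'
        exact hij (hinj i j a ha b hb hab.symm).1)
    let D : Fin (d + 1) → Finset (E d) := fun i =>
      (C i).filter (fun x => ∃ j < m i x, f ε i ⟨x, j⟩ ∈ D' i)
    have hDC : ∀ i, D i ⊆ C i := fun i => Finset.filter_subset _ _
    have hcard : ∀ i, (D' i).card ≤ ∑ x ∈ D i, m i x := by
      intro i
      have hsub : D' i ⊆ ((D i).sigma (fun x => range (m i x))).image (f ε i) := by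
        intro z hz
        obtain ⟨a, ha, rfl⟩ := Finset.mem_image.1 ((hD' i).1 hz)
        have ha' := Finset.mem_sigma.1 ha
        refine Finset.mem_image.2 ⟨a, Finset.mem_sigma.2 ⟨?_, ha'.2⟩, rfl⟩
        exact Finset.mem_filter.2 ⟨ha'.1, a.2, Finset.mem_range.1 ha'.2, hz⟩
      calc (D' i).card ≤ _ := Finset.card_le_card hsub
        _ ≤ ((D i).sigma (fun x => range (m i x))).card := Finset.card_image_le
        _ = ∑ x ∈ D i, m i x := by rw [Finset.card_sigma]; simp
    have hDN : ∀ i, c * (N : ℝ) ≤ ((∑ x ∈ D i, m i x : ℕ) : ℝ) := fun i =>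
      (hD' i).2.trans (by exact_mod_cast hcard i)
    have hnear : ∀ x : Fin (d + 1) → E d, (∀ i, x i ∈ D i) →
        ∃ q ∈ convexHull ℝ (Set.range x), ‖p - q‖ ≤ ε * J := by
      intro x hx
      have hx' : ∀ i, ∃ j < m i (x i), f ε i ⟨x i, j⟩ ∈ D' i := fun i => (Finset.mem_filter.1 (hx i)).2
      choose j hj hjD using hx'
      refine near_hull x (fun i => f ε i ⟨x i, j i⟩) _ ?_ p (hp _ hjD)
      intro i
      have h2 : f ε i ⟨x i, j i⟩ - x i = (ε * tag i (j i)) • e := by simp [f]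
      rw [h2, norm_smul, hne, mul_one, Real.norm_eq_abs, abs_mul, abs_of_pos h0,
        abs_of_nonneg (htag0 _ _)]
      refine mul_le_mul_of_nonneg_left ?_ h0.le
      exact htag i ⟨x i, j i⟩ (Finset.mem_sigma.2 ⟨hDC i (hx i), Finset.mem_range.2 (hj i)⟩)
    refine ⟨D, by simpa [Fintype.mem_piFinset] using hDC, p, ?_, hDN, hnear⟩
    have hDne : ∀ i, (D i).Nonempty := by
      intro i
      rw [Finset.nonempty_iff_ne_empty]
      intro h
      have h2 := hDN i
      rw [h] at h2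
      simp only [Finset.sum_empty, Nat.cast_zero] at h2
      have h3 : (0 : ℝ) < N := by exact_mod_cast hN
      have := mul_pos hc h3
      linarith
    choose x hx using hDne
    obtain ⟨q, hq, hpq⟩ := hnear x hx
    have hq2 : ‖q‖ ≤ R0 := by
      have : convexHull ℝ (Set.range x) ⊆ Metric.closedBall (0 : E d) R0 := by
        refine convexHull_min ?_ (convex_closedBall _ _)
        rintro _ ⟨i, rfl⟩
        simpa using hR0x _ (hCU i (hDC i (hx i)))
      simpa using this hq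
    rw [mem_closedBall_zero_iff]
    have h3 : ε * J ≤ J := by nlinarith
    calc ‖p‖ = ‖(p - q) + q‖ := by rw [sub_add_cancel]
      _ ≤ ‖p - q‖ + ‖q‖ := norm_add_le _ _
      _ ≤ R0 + J := by linarith
  -- pass to the limit along an ultrafilter
  let 𝒰 : Ultrafilter ℝ := Ultrafilter.of (𝓝[>] (0 : ℝ))
  have h𝒰 : (𝒰 : Filter ℝ) ≤ 𝓝[>] (0 : ℝ) := Ultrafilter.of_le _
  obtain ⟨D, hD, hev⟩ := (Ultrafilter.eventually_exists_mem_iff (Finset.finite_toSet _)).1
    (key.filter_mono h𝒰)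
  obtain ⟨g, hg⟩ := hev.choice
  have hmem : Metric.closedBall (0 : E d) (R0 + J) ∈ (𝒰.map g : Filter (E d)) := by
    rw [Ultrafilter.coe_map, Filter.mem_map]
    filter_upwards [hg] with ε h using h.1
  obtain ⟨p, _, hp⟩ := (isCompact_closedBall (0 : E d) (R0 + J)).ultrafilter_le_nhds'
    (𝒰.map g) hmem
  have htend : Tendsto g 𝒰 (𝓝 p) := hp
  refine ⟨p, D, fun i => ⟨?_, ?_⟩, ?_⟩
  · have := Fintype.mem_piFinset.1 (Finset.mem_coe.1 hD) i
    exact Finset.mem_powerset.1 this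
  · obtain ⟨ε, hε⟩ := hg.exists
    exact hε.2.1 i
  · intro x hx
    set K := convexHull ℝ (Set.range x) with hK
    have hKc : IsClosed K := ((Set.finite_range x).isCompact_convexHull ℝ).isClosed
    have hKn : K.Nonempty := ⟨x 0, subset_convexHull ℝ _ ⟨0, rfl⟩⟩
    rw [hKc.mem_iff_infDist_zero hKn]
    refine le_antisymm ?_ Metric.infDist_nonneg
    have h1 : Tendsto (fun ε => Metric.infDist (g ε) K) 𝒰 (𝓝 (Metric.infDist p K)) :=
      ((Metric.continuous_infDist_pt K).tendsto p).comp htend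
    have h2 : Tendsto (fun ε : ℝ => ε * J) 𝒰 (𝓝 (0 * J)) :=
      (((continuous_id.mul continuous_const).tendsto 0).mono_left nhdsWithin_le_nhds).mono_left h𝒰
    rw [zero_mul] at h2
    refine le_of_tendsto_of_tendsto h1 h2 ?_
    filter_upwards [hg] with ε h
    obtain ⟨q, hq, hpq⟩ := h.2.2 x hx
    calc Metric.infDist (g ε) K ≤ dist (g ε) q := Metric.infDist_le_dist_of_mem hq
      _ ≤ ε * J := by rw [dist_eq_norm]; exact hpq

/-- the version with arbitrary weights -/
theorem w_sel {d : ℕ} (hd : 1 ≤ d) {c : ℝ} (hc : 0 < c) (hP : PachEqual d c)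
    (C : Fin (d + 1) → Finset (E d)) (w : Fin (d + 1) → E d → ℝ)
    (hw : ∀ i, ∀ x ∈ C i, 0 ≤ w i x) (hw0 : ∀ i, 0 < ∑ x ∈ C i, w i x) :
    ∃ (p : E d) (D : Fin (d + 1) → Finset (E d)),
    (∀ i, D i ⊆ C i ∧ c * ∑ x ∈ C i, w i x ≤ ∑ x ∈ D i, w i x) ∧
    ∀ x : Fin (d + 1) → E d, (∀ i, x i ∈ D i) → p ∈ convexHull ℝ (Set.range x) := by
  classical
  have hCne : ∀ i, (C i).Nonempty := by
    intro i
    rw [Finset.nonempty_iff_ne_empty]
    intro h
    have := hw0 i
    rw [h, Finset.sum_empty] at this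
    exact lt_irrefl _ this
  choose x0 hx0 using hCne
  set W : Fin (d + 1) → ℝ := fun i => ∑ x ∈ C i, w i x with hW
  set M : ℕ := ∑ i, (C i).card with hM
  have hMi : ∀ i, (C i).card ≤ M := fun i =>
    Finset.single_le_sum (f := fun i => (C i).card) (fun _ _ => Nat.zero_le _) (mem_univ i)
  have key : ∀ K : ℕ, 1 ≤ K → ∃ D ∈ ((Fintype.piFinset fun i => (C i).powerset :
      Finset (Fin (d + 1) → Finset (E d))) : Set (Fin (d + 1) → Finset (E d))),
      (∃ p : E d, ∀ x : Fin (d + 1) → E d, (∀ i, x i ∈ D i) → p ∈ convexHull ℝ (Set.range x)) ∧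
      ∀ i, c ≤ (∑ x ∈ D i, w i x) / W i + 2 * (M : ℝ) / K := by
    intro K hK
    have hK0 : (0 : ℝ) < K := by exact_mod_cast hK
    let a : Fin (d + 1) → E d → ℕ := fun i x => ⌈(K : ℝ) * w i x / W i⌉₊
    have ha1 : ∀ i, ∀ x ∈ C i, (K : ℝ) * w i x / W i ≤ a i x := fun i x _ => Nat.le_ceil _
    have ha2 : ∀ i, ∀ x ∈ C i, (a i x : ℝ) ≤ (K : ℝ) * w i x / W i + 1 := by
      intro i x hx
      refine (Nat.ceil_lt_add_one ?_).le
      exact div_nonneg (mul_nonneg hK0.le (hw i x hx)) (hw0 i).le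
    have hsumK : ∀ i, ∑ x ∈ C i, (K : ℝ) * w i x / W i = K := by
      intro i
      rw [← Finset.sum_div, ← Finset.mul_sum]
      exact mul_div_cancel_right₀ _ (hw0 i).ne'
    have hs1 : ∀ i, K ≤ ∑ x ∈ C i, a i x := by
      intro i
      have : (K : ℝ) ≤ ((∑ x ∈ C i, a i x : ℕ) : ℝ) := by
        push_cast
        rw [← hsumK i]
        exact Finset.sum_le_sum (ha1 i)
      exact_mod_cast this
    have hs2 : ∀ i, ∑ x ∈ C i, a i x ≤ K + M := by
      intro i
      have : ((∑ x ∈ C i, a i x : ℕ) : ℝ) ≤ ((K + M : ℕ) : ℝ) := by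
        push_cast
        calc ∑ x ∈ C i, (a i x : ℝ) ≤ ∑ x ∈ C i, ((K : ℝ) * w i x / W i + 1) :=
              Finset.sum_le_sum (ha2 i)
          _ = K + (C i).card := by rw [Finset.sum_add_distrib, hsumK i]; simp
          _ ≤ K + M := by
              have : ((C i).card : ℝ) ≤ M := by exact_mod_cast hMi i
              linarith
      exact_mod_cast this
    let m : Fin (d + 1) → E d → ℕ := fun i x =>
      a i x + if x = x0 i then (K + M - ∑ y ∈ C i, a i y) else 0
    have hm : ∀ i, ∑ x ∈ C i, m i x = K + M := by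
      intro i
      simp only [m]
      rw [Finset.sum_add_distrib, Finset.sum_ite_eq' , if_pos (hx0 i)]
      have := hs2 i
      omega
    obtain ⟨p, D, hD, hp⟩ := int_sel hd hc hP C m (K + M) (by omega) hm
    refine ⟨D, by simpa [Fintype.mem_piFinset] using fun i => (hD i).1, ⟨p, hp⟩, ?_⟩
    intro i
    have h1 := (hD i).2
    have h2 : ((∑ x ∈ D i, m i x : ℕ) : ℝ) ≤ K * ((∑ x ∈ D i, w i x) / W i) + 2 * M := by
      have h3 : ∑ x ∈ D i, m i x ≤ ∑ x ∈ D i, a i x + M := by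
        simp only [m]
        rw [Finset.sum_add_distrib]
        refine Nat.add_le_add_left ?_ _
        rw [Finset.sum_ite_eq']
        have := hs1 i
        split_ifs
        · omega
        · omega
      have h4 : ∑ x ∈ D i, (a i x : ℝ) ≤ K * ((∑ x ∈ D i, w i x) / W i) + M := by
        calc ∑ x ∈ D i, (a i x : ℝ) ≤ ∑ x ∈ D i, ((K : ℝ) * w i x / W i + 1) :=
              Finset.sum_le_sum fun x hx => ha2 i x ((hD i).1 hx)
          _ = K * ((∑ x ∈ D i, w i x) / W i) + (D i).card := by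
              rw [Finset.sum_add_distrib, ← Finset.sum_div, ← Finset.mul_sum, mul_div_assoc]
              simp
          _ ≤ _ := by
              have h5 : ((D i).card : ℝ) ≤ M := by
                exact_mod_cast (Finset.card_le_card (hD i).1).trans (hMi i)
              linarith
      have h5 : ((∑ x ∈ D i, m i x : ℕ) : ℝ) ≤ ((∑ x ∈ D i, a i x + M : ℕ) : ℝ) := by
        exact_mod_cast h3
      push_cast at h5 ⊢
      linarith
    have h6 : c * K ≤ K * ((∑ x ∈ D i, w i x) / W i) + 2 * M := by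
      have h7 : c * (K : ℝ) ≤ c * ((K + M : ℕ) : ℝ) := by
        refine mul_le_mul_of_nonneg_left ?_ hc.le
        push_cast
        have : (0 : ℝ) ≤ M := Nat.cast_nonneg _
        linarith
      linarith
    rw [← sub_nonneg]
    have h8 : (∑ x ∈ D i, w i x) / W i + 2 * (M : ℝ) / K - c =
        (K * ((∑ x ∈ D i, w i x) / W i) + 2 * M - c * K) / K := by
      field_simp
    rw [h8]
    exact div_nonneg (by linarith) hK0.le
  let 𝒰 : Ultrafilter ℕ := Ultrafilter.of atTop
  have h𝒰 : (𝒰 : Filter ℕ) ≤ atTop := Ultrafilter.of_le _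
  have key' : ∀ᶠ K : ℕ in (atTop : Filter ℕ), ∃ D ∈ ((Fintype.piFinset fun i => (C i).powerset :
      Finset (Fin (d + 1) → Finset (E d))) : Set (Fin (d + 1) → Finset (E d))),
      (∃ p : E d, ∀ x : Fin (d + 1) → E d, (∀ i, x i ∈ D i) → p ∈ convexHull ℝ (Set.range x)) ∧
      ∀ i, c ≤ (∑ x ∈ D i, w i x) / W i + 2 * (M : ℝ) / K :=
    (eventually_ge_atTop 1).mono key
  obtain ⟨D, hD, hev⟩ := (Ultrafilter.eventually_exists_mem_iff (Finset.finite_toSet _)).1
    (key'.filter_mono h𝒰)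
  obtain ⟨K0, ⟨p, hp⟩, _⟩ := hev.exists
  refine ⟨p, D, fun i => ⟨?_, ?_⟩, hp⟩
  · exact Finset.mem_powerset.1 (Fintype.mem_piFinset.1 (Finset.mem_coe.1 hD) i)
  · have h1 : Tendsto (fun K : ℕ => (∑ x ∈ D i, w i x) / W i + 2 * (M : ℝ) / K) 𝒰
        (𝓝 ((∑ x ∈ D i, w i x) / W i + 0)) :=
      ((tendsto_const_nhds.add (tendsto_const_div_atTop_nhds_zero_nat (2 * (M : ℝ))))).mono_left h𝒰
    rw [add_zero] at h1
    have h2 : c ≤ (∑ x ∈ D i, w i x) / W i := ge_of_tendsto h1 (hev.mono fun K h => h.2 i)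
    rwa [le_div_iff₀ (hw0 i)] at h2

end Pool.Agent.R87.HS
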