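import Pool.Agent.R87.PXDefs

set_option autoImplicit false

namespace Pool.Agent.R87.PX

open Finset

section walks
variable {V E : Type} {src tgt : E → V}

theorem walk_append (l l' : List (E × Bool)) (v w : V) :
    Walk src tgt v (l ++ l') w ↔ ∃ x, Walk src tgt v l x ∧ Walk src tgt x l' w := by
  induction l generalizing v with
  | nil => simp [Walk]
  | cons a l ih =>
    simp only [List.cons_append, Walk, ih]
    constructor
    · rintro ⟨h, x, h1, h2⟩; exact ⟨x, ⟨h, h1⟩, h2⟩
    · rintro ⟨x, ⟨h, h1⟩, h2⟩; exact ⟨h, x, h1, h2⟩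

theorem walk_unique (l : List (E × Bool)) (v w w' : V) (h : Walk src tgt v l w)
    (h' : Walk src tgt v l w') : w = w' := by
  induction l generalizing v with
  | nil => simp only [Walk] at h h'; exact h.symm.trans h'
  | cons a l ih => exact ih _ h.2 h'.2

@[simp] theorem orev_orev (a : E × Bool) : orev (orev a) = a := by simp [orev]

theorem otail_orev (a : E × Bool) : otail src tgt (orev a) = ohead src tgt a := by
  rcases a with ⟨e, _ | _⟩ <;> simp [otail, ohead, orev]

theorem ohead_orev (a : E × Bool) : ohead src tgt (orev a) = otail src tgt a := by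
  rcases a with ⟨e, _ | _⟩ <;> simp [otail, ohead, orev]

/-- the reversed path -/
def rpath (l : List (E × Bool)) : List (E × Bool) := (l.map orev).reverse

theorem walk_rpath (l : List (E × Bool)) (v w : V) (h : Walk src tgt v l w) :
    Walk src tgt w (rpath l) v := by
  induction l generalizing v with
  | nil => simp only [Walk] at h; simp [rpath, Walk, h]
  | cons a l ih =>
    have h1 := ih _ h.2
    have : rpath (a :: l) = rpath l ++ [orev a] := by simp [rpath]
    rw [this, walk_append]
    exact ⟨_, h1, otail_orev a, by rw [ohead_orev]; exact h.1⟩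

/-- positively oriented -/
def pos (l : List E) : List (E × Bool) := l.map fun e => (e, true)

theorem pos_append (l l' : List E) : pos (l ++ l') = pos l ++ pos l' := by simp [pos]

/-- maximal common prefix -/
theorem common_prefix [DecidableEq E] (P Q : List E) : ∃ c p q : List E, P = c ++ p ∧ Q = c ++ q ∧
    (∀ x ∈ p.head?, ∀ y ∈ q.head?, x ≠ y) := by
  induction P generalizing Q with
  | nil => exact ⟨[], [], Q, by simp⟩
  | cons a P ih =>
    cases Q with
    | nil => exact ⟨[], a :: P, [], by simp⟩
    | cons b Q =>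
      by_cases h : a = b
      · subst h
        obtain ⟨c, p, q, h1, h2, h3⟩ := ih Q
        exact ⟨a :: c, p, q, by simp [h1], by simp [h2], h3⟩
      · exact ⟨[], a :: P, b :: Q, rfl, rfl, by simpa using h⟩

end walks

section chain
variable {E : Type}

theorem chain_pos (l : List E) : (pos l).IsChain (fun a b => b ≠ orev a) := by
  refine List.Pairwise.isChain ?_
  refine List.pairwise_of_forall_mem_list ?_
  intro a ha b hb h
  simp only [pos, List.mem_map] at ha hb
  obtain ⟨x, _, rfl⟩ := ha
  obtain ⟨y, _, rfl⟩ := hb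
  simp [orev] at h

theorem chain_rpath (l : List E) : (rpath (pos l)).IsChain (fun a b => b ≠ orev a) := by
  refine List.Pairwise.isChain ?_
  refine List.pairwise_of_forall_mem_list ?_
  intro a ha b hb h
  simp only [rpath, pos, List.mem_reverse, List.mem_map] at ha hb
  obtain ⟨x, ⟨x', _, rfl⟩, rfl⟩ := ha
  obtain ⟨y, ⟨y', _, rfl⟩, rfl⟩ := hb
  simp [orev] at h

/-- the fundamental cycle is cyclically reduced -/
theorem chain_fund (p q : List E) (e : E) (hq : e ∉ q)
    (hpq : ∀ x ∈ p.head?, ∀ y ∈ q.head?, x ≠ y) :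
    ((pos (p ++ [e]) ++ rpath (pos q)) ++ (pos (p ++ [e]) ++ rpath (pos q))).IsChain
      (fun a b => b ≠ orev a) := by
  have hA : (pos (p ++ [e])).IsChain (fun a b => b ≠ orev a) := chain_pos _
  have hB : (rpath (pos q)).IsChain (fun a b => b ≠ orev a) := chain_rpath _
  have h1 : (pos (p ++ [e]) ++ rpath (pos q)).IsChain (fun a b => b ≠ orev a) := by
    refine List.IsChain.append hA hB ?_
    intro a ha b hb hab
    have ha' : a = (e, true) := by
      have : (pos (p ++ [e])).getLast? = some (e, true) := by simp [pos]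
      rw [this] at ha; simpa using ha.symm
    subst ha'
    have hb' : b ∈ rpath (pos q) := List.mem_of_mem_head? hb
    simp only [rpath, pos, List.mem_reverse, List.mem_map] at hb'
    obtain ⟨y, ⟨y', hy', rfl⟩, rfl⟩ := hb'
    simp only [orev, Prod.mk.injEq] at hab
    exact hq (hab.1 ▸ hy')
  refine List.IsChain.append h1 h1 ?_
  intro a ha b hb hab
  -- b is the first letter, positive
  have hb' : ∃ z ∈ (p ++ [e]).head?, b = (z, true) := by
    cases p with
    | nil => simp [pos] at hb ⊢; exact hb.symm
    | cons z p => simp [pos] at hb ⊢; exact hb.symm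
  obtain ⟨z, hz, rfl⟩ := hb'
  cases q with
  | nil =>
    simp [rpath, pos] at ha
    rw [← ha] at hab
    simp [orev] at hab
  | cons y q =>
    have : (pos (p ++ [e]) ++ rpath (pos (y :: q))).getLast? = some (y, false) := by
      have h5 : pos (p ++ [e]) ++ rpath (pos (y :: q)) =
          (pos (p ++ [e]) ++ rpath (pos q)) ++ [(y, false)] := by simp [rpath, pos, orev]
      rw [h5, List.getLast?_append]
      simp
    rw [this] at ha
    have ha' : a = (y, false) := by simpa using ha.symm
    subst ha'
    simp only [orev, Prod.mk.injEq] at hab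
    have hzy : z = y := hab.1
    cases p with
    | nil =>
      simp at hz
      exact hq (by rw [hz, hzy]; simp)
    | cons x p =>
      simp at hz
      exact hpq x (by simp) y (by simp) (by rw [hz, hzy])

end chain

section ham
variable {n : ℕ}

theorem dH_mul_left (g σ τ : Equiv.Perm (Fin n)) : dH (g * σ) (g * τ) = dH σ τ := by
  unfold dH; simp

theorem dH_mul_right (g σ τ : Equiv.Perm (Fin n)) : dH (σ * g) (τ * g) = dH σ τ := by
  unfold dH
  congr 2
  refine Finset.card_bij (fun j _ => g j) ?_ ?_ ?_
  · intro j hj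
    exact mem_filter.2 ⟨mem_univ _, (mem_filter.1 hj).2⟩
  · intro a _ b _ h; exact g.injective h
  · intro b hb
    have h := (mem_filter.1 hb).2
    refine ⟨g⁻¹ b, mem_filter.2 ⟨mem_univ _, ?_⟩, by simp⟩
    show σ (g (g⁻¹ b)) ≠ τ (g (g⁻¹ b))
    simpa using h

theorem dH_nonneg (σ τ : Equiv.Perm (Fin n)) : 0 ≤ dH σ τ := by unfold dH; positivity

theorem dH_self (σ : Equiv.Perm (Fin n)) : dH σ σ = 0 := by unfold dH; simp

theorem dH_comm (σ τ : Equiv.Perm (Fin n)) : dH σ τ = dH τ σ := by
  unfold dH; simp only [ne_comm]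

theorem hol_append {E : Type} (α : E → Equiv.Perm (Fin n)) (l l' : List (E × Bool)) :
    hol α (l ++ l') = hol α l * hol α l' := by simp [hol]

theorem oval_orev {E : Type} (α : E → Equiv.Perm (Fin n)) (a : E × Bool) :
    oval α (orev a) = (oval α a)⁻¹ := by
  rcases a with ⟨e, _ | _⟩ <;> simp [oval, orev]

theorem hol_rpath {E : Type} (α : E → Equiv.Perm (Fin n)) (l : List (E × Bool)) :
    hol α (rpath l) = (hol α l)⁻¹ := by
  induction l with
  | nil => simp [rpath, hol]
  | cons a l ih =>
    have : rpath (a :: l) = rpath l ++ [orev a] := by simp [rpath]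
    rw [this, hol_append, ih]
    simp [hol, oval_orev]

end ham

section euler
open Function

theorem sameCycle_of_iterate {E : Type} (τ : Equiv.Perm E) (n : ℕ) (x : E) :
    τ.SameCycle x (τ^[n] x) := by
  refine ⟨(n : ℤ), ?_⟩
  rw [zpow_natCast, Equiv.Perm.iterate_eq_pow]

/-- Multiplication with a transposition merges two cycles. -/
theorem merge {E : Type} [Finite E] [DecidableEq E] (τ : Equiv.Perm E) (a b : E)
    (hab : ¬ τ.SameCycle a b) : (Equiv.swap a b * τ).SameCycle a b ∧
      ∀ x y, τ.SameCycle x y → (Equiv.swap a b * τ).SameCycle x y := by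
  set τ' := Equiv.swap a b * τ with hτ'
  have happ : ∀ x, τ' x = Equiv.swap a b (τ x) := fun x => rfl
  have hp : 0 < minimalPeriod τ a :=
    minimalPeriod_pos_of_mem_periodicPts (τ.injective.mem_periodicPts a)
  have h1 : ∀ j, j < minimalPeriod τ a → τ'^[j] a = τ^[j] a := by
    intro j
    induction j with
    | zero => intro _; rfl
    | succ j ih =>
      intro hj
      rw [iterate_succ_apply', ih (by omega), happ, ← iterate_succ_apply' τ]
      refine Equiv.swap_apply_of_ne_of_ne ?_ ?_
      · intro h
        have h2 : IsPeriodicPt τ (j + 1) a := h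
        have h3 := h2.minimalPeriod_le (Nat.succ_pos j)
        omega
      · intro h
        exact hab (h ▸ sameCycle_of_iterate τ (j + 1) a)
  have h2 : τ'.SameCycle a b := by
    obtain ⟨p, hpp⟩ : ∃ p, minimalPeriod τ a = p + 1 := ⟨_, (Nat.succ_pred_eq_of_pos hp).symm⟩
    have h3 : τ'^[p + 1] a = b := by
      rw [iterate_succ_apply', h1 p (by omega), happ, ← iterate_succ_apply' τ]
      have h4 : τ^[p + 1] a = a := by
        rw [← hpp]
        exact isPeriodicPt_minimalPeriod τ a
      rw [h4, Equiv.swap_apply_left]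
    exact h3 ▸ sameCycle_of_iterate τ' (p + 1) a
  have h3 : ∀ x, τ'.SameCycle x (τ x) := by
    intro x
    have h4 : τ'.SameCycle x (τ' x) := sameCycle_of_iterate τ' 1 x
    rw [happ] at h4
    by_cases ha : τ x = a
    · rw [ha, Equiv.swap_apply_left] at h4
      rw [ha]
      exact h4.trans h2.symm
    · by_cases hb : τ x = b
      · rw [hb, Equiv.swap_apply_right] at h4
        rw [hb]
        exact h4.trans h2
      · rwa [Equiv.swap_apply_of_ne_of_ne ha hb] at h4
  refine ⟨h2, fun x y hxy => ?_⟩
  obtain ⟨n, rfl⟩ := hxy.exists_nat_pow_eq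
  induction n with
  | zero => exact Equiv.Perm.SameCycle.refl _ _
  | succ n ih =>
    rw [pow_succ', Equiv.Perm.mul_apply]
    exact (ih (Equiv.Perm.sameCycle_pow_right.2 (Equiv.Perm.SameCycle.refl _ _))).trans (h3 _)

/-- The permutation of the arcs `(v, r)`, from `v` to `σ r v`, given by the transitions `π`. -/
def tau {V K : Type} (σ : K → Equiv.Perm V) (π : V → Equiv.Perm K) : Equiv.Perm (V × K) where
  toFun p := (σ p.2 p.1, π (σ p.2 p.1) p.2)
  invFun p := ((σ ((π p.1).symm p.2)).symm p.1, (π p.1).symm p.2)
  left_inv := by rintro ⟨v, r⟩; simp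
  right_inv := by rintro ⟨v, r⟩; simp

theorem tau_update {V K : Type} [DecidableEq V] [DecidableEq K] (σ : K → Equiv.Perm V)
    (π : V → Equiv.Perm K) (v : V) (r r' : K) :
    tau σ (Function.update π v (Equiv.swap r r' * π v)) =
      Equiv.swap (v, r) (v, r') * tau σ π := by
  ext ⟨u, i⟩ : 1
  show (σ i u, (Function.update π v (Equiv.swap r r' * π v)) (σ i u) i) =
    Equiv.swap (v, r) (v, r') (σ i u, π (σ i u) i)
  by_cases h : σ i u = v
  · rw [h, Function.update_self]
    show (v, Equiv.swap r r' (π v i)) = _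
    by_cases h1 : π v i = r
    · rw [h1, Equiv.swap_apply_left, Equiv.swap_apply_left]
    · by_cases h2 : π v i = r'
      · rw [h2, Equiv.swap_apply_right, Equiv.swap_apply_right]
      · rw [Equiv.swap_apply_of_ne_of_ne h1 h2, Equiv.swap_apply_of_ne_of_ne]
        · intro h3; exact h1 (congrArg Prod.snd h3)
        · intro h3; exact h2 (congrArg Prod.snd h3)
  · rw [Function.update_of_ne h, Equiv.swap_apply_of_ne_of_ne]
    · intro h3; exact h (congrArg Prod.fst h3)
    · intro h3; exact h (congrArg Prod.fst h3)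

/-- Transitions such that all arcs leaving a vertex are in the same closed trail. -/
theorem exists_transitions {V K : Type} [Finite V] [Finite K] (σ : K → Equiv.Perm V) :
    ∃ π : V → Equiv.Perm K, ∀ v r r', (tau σ π).SameCycle (v, r) (v, r') := by
  classical
  have := Fintype.ofFinite V
  have := Fintype.ofFinite K
  let N : (V → Equiv.Perm K) → ℕ := fun π =>
    (univ.filter (fun p : (V × K) × (V × K) => (tau σ π).SameCycle p.1 p.2)).card
  obtain ⟨π, hπ⟩ := Finite.exists_max N
  refine ⟨π, fun v r r' => ?_⟩
  by_contra hcon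
  obtain ⟨h1, h2⟩ := merge (tau σ π) (v, r) (v, r') hcon
  have h3 := hπ (Function.update π v (Equiv.swap r r' * π v))
  have h4 : N π < N (Function.update π v (Equiv.swap r r' * π v)) := by
    refine card_lt_card ?_
    rw [tau_update]
    refine (ssubset_iff_of_subset ?_).2 ⟨((v, r), (v, r')), ?_, ?_⟩
    · intro p hp
      rw [mem_filter] at hp ⊢
      exact ⟨mem_univ _, h2 _ _ hp.2⟩
    · exact mem_filter.2 ⟨mem_univ _, h1⟩
    · intro hp
      exact hcon (mem_filter.1 hp).2
  omega

/-- An Euler circuit of a connected graph given by permutations. -/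
theorem exists_circuit {V K : Type} [Fintype V] [Fintype K] (σ : K → Equiv.Perm V)
    (hconn : ∀ u v : V, Relation.ReflTransGen (fun a b => ∃ i, σ i a = b) u v) (x0 : V × K) :
    ∃ l : List (V × K), l ≠ [] ∧ (∀ p, p ∈ l) ∧
      Walk (fun p : V × K => p.1) (fun p : V × K => σ p.2 p.1) x0.1 (pos l) x0.1 := by
  classical
  obtain ⟨π, hπ⟩ := exists_transitions σ
  set τ := tau σ π with hτ
  have hstep : ∀ (u : V) (i r s : K), τ.SameCycle (u, r) (σ i u, s) := by
    intro u i r s
    have h1 : τ.SameCycle (u, i) (τ (u, i)) := sameCycle_of_iterate _ 1 _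
    exact ((hπ u r i).trans h1).trans (hπ _ _ s)
  have hall : ∀ (u v : V) (r s : K), τ.SameCycle (u, r) (v, s) := by
    intro u v r s
    induction hconn u v generalizing s with
    | refl => exact hπ _ _ _
    | tail _ h ih =>
      obtain ⟨i, rfl⟩ := h
      exact (ih r).trans (hstep _ i r s)
  have hN : 0 < orderOf τ := orderOf_pos τ
  let f : ℕ → V × K := fun j => (τ ^ j) x0
  have hf : ∀ j, (f (j + 1)).1 = σ (f j).2 (f j).1 := by
    intro j
    simp only [f]
    rw [pow_succ', Equiv.Perm.mul_apply]
    rfl
  have hwalk : ∀ N : ℕ, Walk (fun p : V × K => p.1) (fun p : V × K => σ p.2 p.1) x0.1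
      (pos ((List.range N).map f)) (f N).1 := by
    intro N
    induction N with
    | zero => simp [pos, Walk, f]
    | succ N ih =>
      rw [List.range_succ, List.map_append, pos_append, walk_append]
      refine ⟨_, ih, ?_⟩
      simp [pos, Walk, otail, ohead, hf]
  refine ⟨(List.range (orderOf τ)).map f, ?_, ?_, ?_⟩
  · intro h
    rw [List.map_eq_nil_iff, List.range_eq_nil] at h
    omega
  · intro p
    obtain ⟨n, hn⟩ := (hall x0.1 p.1 x0.2 p.2).exists_nat_pow_eq
    rw [List.mem_map]
    refine ⟨n % orderOf τ, List.mem_range.2 (Nat.mod_lt _ hN), ?_⟩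
    simp only [f]
    rw [pow_mod_orderOf]
    exact hn
  · have := hwalk (orderOf τ)
    simp only [f, pow_orderOf_eq_one] at this
    exact this

end euler

end Pool.Agent.R87.PX
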