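import Pool.Agent.R87.PX1

set_option autoImplicit false

namespace Pool.Agent.R87.PX

open Finset

section build
variable {V K : Type}

/-- A spanning tree of positively oriented edges, given by the tree paths from the root. -/
structure Dat (σ : K → Equiv.Perm V) where
  root : V
  path : V → List (V × K)
  walk : ∀ v, Walk (fun p : V × K => p.1) (fun p : V × K => σ p.2 p.1) root (pos (path v)) v
  tree : ∀ v, ∀ e ∈ path v, path (σ e.2 e.1) = path e.1 ++ [e]

/-- tree edges -/
def Dat.T {σ : K → Equiv.Perm V} (D : Dat σ) (e : V × K) : Prop :=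
  D.path (σ e.2 e.1) = D.path e.1 ++ [e]

theorem exists_fund {σ : K → Equiv.Perm V} (D : Dat σ) (e : V × K) (he : ¬ D.T e) :
    ∃ l : List ((V × K) × Bool), l ≠ [] ∧
      (∃ v, Walk (fun p : V × K => p.1) (fun p : V × K => σ p.2 p.1) v l v) ∧
      (l ++ l).IsChain (fun a b => b ≠ orev a) ∧
      ∀ (n : ℕ) (α : V × K → Equiv.Perm (Fin n)), dH (hol α l) 1 =
        dH (α e) ((hol α (pos (D.path e.1)))⁻¹ * hol α (pos (D.path (σ e.2 e.1)))) := by
  classical
  obtain ⟨c, p, q, hp, hq, hpq⟩ := common_prefix (D.path e.1) (D.path (σ e.2 e.1))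
  have heq : e ∉ q := by
    intro h
    exact he (D.tree _ e (by rw [hq]; exact List.mem_append_right _ h))
  refine ⟨pos (p ++ [e]) ++ rpath (pos q), ?_, ?_, chain_fund p q e heq hpq, ?_⟩
  · simp [pos]
  · have h1 := D.walk e.1
    have h2 := D.walk (σ e.2 e.1)
    rw [hp, pos_append, walk_append] at h1
    rw [hq, pos_append, walk_append] at h2
    obtain ⟨x, hx, hx1⟩ := h1
    obtain ⟨y, hy, hy1⟩ := h2
    have hxy : x = y := walk_unique _ _ _ _ hx hy
    subst hxy
    refine ⟨x, ?_⟩
    rw [walk_append]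
    refine ⟨σ e.2 e.1, ?_, walk_rpath _ _ _ hy1⟩
    rw [pos_append, walk_append]
    exact ⟨e.1, hx1, by simp [pos, Walk, otail, ohead]⟩
  · intro n α
    rw [hp, hq, pos_append, pos_append, pos_append, hol_append, hol_append, hol_append,
      hol_append, hol_rpath]
    have he1 : hol α (pos [e]) = α e := by simp [hol, pos, oval]
    rw [he1]
    set a := hol α (pos c)
    set b := hol α (pos p)
    set d := hol α (pos q)
    have h1 : dH (α e) ((a * b)⁻¹ * (a * d)) = dH (b * α e) d := by
      rw [← dH_mul_left b (α e)]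
      congr 1
      group
    rw [h1, ← dH_mul_right d⁻¹ (b * α e) d]
    simp

variable [Fintype V] [Fintype K] [DecidableEq V] [DecidableEq K]

theorem build {σ : K → Equiv.Perm V} (D : Dat σ) (hK : 0 < Fintype.card K)
    (hconn : ∀ u v : V, Relation.ReflTransGen (fun a b => ∃ i, σ i a = b) u v)
    (hnt : ∃ e, ¬ D.T e) (C : ℝ) (hC : 0 < C)
    (hP : ∀ n : ℕ, 1 ≤ n → ∀ β : V → Equiv.Perm (Fin n), ∃ c : Equiv.Perm (Fin n),
      ∑ v, dH (β v) c ≤ C * ∑ e : V × K, dH (β e.1) (β (σ e.2 e.1))) :
    ∃ X : PolygonalComplex, Fintype.card X.V = Fintype.card V ∧ X.IsConnected ∧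
      (∀ v, X.degree v ≤ 2 * Fintype.card K) ∧ X.H0ge (1 / (8 * C * Fintype.card K)) ∧
      X.H1ge (1 / 4) ∧ X.H0geU (1 / (C * Fintype.card K)) ∧ X.H1geU (1 / 2) := by
  classical
  obtain ⟨k0⟩ : Nonempty K := Fintype.card_pos_iff.1 hK
  obtain ⟨L, hL0, hL1, hL2⟩ := exists_circuit σ hconn (D.root, k0)
  choose l hl0 hl1 hl2 hl3 using fun e : {e : V × K // ¬ D.T e} => exists_fund D e.1 e.2
  let X : PolygonalComplex :=
    { V := V
      E := V × K
      P := {e : V × K // ¬ D.T e} × Bool
      fV := inferInstance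
      fE := inferInstance
      fP := inferInstance
      dV := inferInstance
      dE := inferInstance
      src := fun p => p.1
      tgt := fun p => σ p.2 p.1
      bd := fun p => if p.2 then pos L else l p.1
      bd_ne := by
        rintro ⟨p, _ | _⟩
        · simpa using hl0 p
        · simpa [pos] using hL0
      closed := by
        rintro ⟨p, _ | _⟩
        · simpa using hl1 p
        · exact ⟨D.root, hL2⟩
      reduced := by
        rintro ⟨p, _ | _⟩
        · simpa using hl2 p
        · simp only [if_true]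
          rw [← pos_append]
          exact chain_pos _ }
  set F : ℝ := (Fintype.card {e : V × K // ¬ D.T e} : ℝ) with hF
  have hF1 : (0 : ℝ) < F := by
    have : 0 < Fintype.card {e : V × K // ¬ D.T e} := Fintype.card_pos_iff.2 ⟨⟨_, hnt.choose_spec⟩⟩
    rw [hF]; exact_mod_cast this
  have hcardV : 0 < Fintype.card V := Fintype.card_pos_iff.2 ⟨D.root⟩
  set N : ℝ := (Fintype.card V : ℝ) with hN
  have hN0 : (0 : ℝ) < N := by rw [hN]; exact_mod_cast hcardV
  set κ : ℝ := (Fintype.card K : ℝ) with hκ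
  have hκ0 : (0 : ℝ) < κ := by rw [hκ]; exact_mod_cast hK
  have hcardE : (Fintype.card (V × K) : ℝ) = N * κ := by
    rw [Fintype.card_prod]; push_cast; rfl
  have hcardP : (Fintype.card X.P : ℝ) = 2 * F := by
    show (Fintype.card ({e : V × K // ¬ D.T e} × Bool) : ℝ) = 2 * F
    rw [Fintype.card_prod, Fintype.card_bool]; push_cast; ring
  have hFE : F ≤ N * κ := by
    rw [← hcardE, hF]
    exact_mod_cast Fintype.card_subtype_le _
  -- bounds for the measures
  have hm1u : ∀ e : V × K, X.m1 e ≤ 2 * F := by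
    intro e
    rw [← hcardP]
    unfold PolygonalComplex.m1
    exact_mod_cast (Finset.card_le_univ _)
  have hm1l : ∀ e : V × K, F ≤ X.m1 e := by
    intro e
    unfold PolygonalComplex.m1
    rw [hF]
    have : Fintype.card {e : V × K // ¬ D.T e} ≤
        (Finset.univ.filter fun p : X.P => e ∈ (X.bd p).map Prod.fst).card := by
      rw [← Finset.card_univ]
      refine Finset.card_le_card_of_injOn (fun q => ((q, true) : {e : V × K // ¬ D.T e} × Bool))
        ?_ ?_
      · intro q _
        refine Finset.mem_coe.2 (Finset.mem_filter.2 ⟨Finset.mem_univ _, ?_⟩)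
        show e ∈ (if (true : Bool) then pos L else l q).map Prod.fst
        simp only [if_true, pos, List.map_map]
        rw [List.mem_map]
        exact ⟨e, hL1 e, rfl⟩
      · intro a _ b _ h
        exact (Prod.mk.inj h).1
    refine Nat.cast_le.2 ?_
    convert this
  have hS1u : ∑ e : V × K, X.m1 e ≤ 2 * F * (N * κ) := by
    calc ∑ e : V × K, X.m1 e ≤ ∑ _e : V × K, 2 * F := Finset.sum_le_sum fun e _ => hm1u e
      _ = 2 * F * (N * κ) := by
        rw [Finset.sum_const, Finset.card_univ, nsmul_eq_mul, hcardE]; ring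
  have hS1l : F * (N * κ) ≤ ∑ e : V × K, X.m1 e := by
    calc F * (N * κ) = ∑ _e : V × K, F := by
          rw [Finset.sum_const, Finset.card_univ, nsmul_eq_mul, hcardE]; ring
      _ ≤ _ := Finset.sum_le_sum fun e _ => hm1l e
  have hS1pos : 0 < ∑ e : V × K, X.m1 e := lt_of_lt_of_le (by positivity) hS1l
  have hsrc : ∀ v : V, (Finset.univ.filter fun e : V × K => e.1 = v).card = Fintype.card K := by
    intro v
    rw [← Finset.card_univ]
    symm
    refine Finset.card_bij (fun k _ => (v, k)) ?_ ?_ ?_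
    · intro k _; simp
    · intro a _ b _ h; exact (Prod.mk.inj h).2
    · rintro ⟨u, k⟩ h
      have h2 : u = v := (Finset.mem_filter.1 h).2
      exact ⟨k, Finset.mem_univ _, by rw [h2]⟩
  have htgt : ∀ v : V, (Finset.univ.filter fun e : V × K => σ e.2 e.1 = v).card =
      Fintype.card K := by
    intro v
    rw [← Finset.card_univ]
    symm
    refine Finset.card_bij (fun k _ => ((σ k).symm v, k)) ?_ ?_ ?_
    · intro k _; simp
    · intro a _ b _ h; exact (Prod.mk.inj h).2
    · rintro ⟨u, k⟩ h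
      refine ⟨k, Finset.mem_univ _, ?_⟩
      have h2 : σ k u = v := (Finset.mem_filter.1 h).2
      rw [← h2]; simp
  have hm0l : ∀ v : V, κ * F ≤ X.m0 v := by
    intro v
    have h1 : ∑ _e ∈ Finset.univ.filter (fun e : V × K => e.1 = v), F ≤ X.m0 v := by
      calc ∑ _e ∈ Finset.univ.filter (fun e : V × K => e.1 = v), F
          ≤ ∑ e ∈ Finset.univ.filter (fun e : V × K => e.1 = v), X.m1 e :=
            Finset.sum_le_sum fun e _ => hm1l e
        _ ≤ _ := by
            refine Finset.sum_le_sum_of_subset_of_nonneg ?_ ?_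
            · intro e he
              exact Finset.mem_filter.2 ⟨Finset.mem_univ _, Or.inl (Finset.mem_filter.1 he).2⟩
            · intro e _ _
              exact hF1.le.trans (hm1l e)
    rw [Finset.sum_const, hsrc, nsmul_eq_mul] at h1
    exact h1
  have hm0u : ∀ v : V, X.m0 v ≤ 4 * κ * F := by
    intro v
    calc X.m0 v ≤ ∑ _e ∈ Finset.univ.filter (fun e : V × K => e.1 = v ∨ σ e.2 e.1 = v), 2 * F :=
          Finset.sum_le_sum fun e _ => hm1u e
      _ = ((Finset.univ.filter (fun e : V × K => e.1 = v ∨ σ e.2 e.1 = v)).card : ℝ) *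
            (2 * F) := by rw [Finset.sum_const, nsmul_eq_mul]
      _ ≤ (2 * κ) * (2 * F) := by
          refine mul_le_mul_of_nonneg_right ?_ (by positivity)
          have h1 : (Finset.univ.filter (fun e : V × K => e.1 = v ∨ σ e.2 e.1 = v)).card ≤
              2 * Fintype.card K := by
            rw [Finset.filter_or]
            refine (Finset.card_union_le _ _).trans ?_
            rw [hsrc, htgt]; omega
          rw [hκ]
          exact_mod_cast h1
      _ = 4 * κ * F := by ring
  have hS0l : N * (κ * F) ≤ ∑ v : V, X.m0 v := by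
    calc N * (κ * F) = ∑ _v : V, κ * F := by
          rw [Finset.sum_const, Finset.card_univ, nsmul_eq_mul]
      _ ≤ _ := Finset.sum_le_sum fun v _ => hm0l v
  have hS0pos : 0 < ∑ v : V, X.m0 v := lt_of_lt_of_le (by positivity) hS0l
  have hmu0 : ∀ v : V, X.mu0 v ≤ 4 / N := by
    intro v
    show X.m0 v / ∑ v' : V, X.m0 v' ≤ 4 / N
    rw [div_le_div_iff₀ hS0pos hN0]
    calc X.m0 v * N ≤ 4 * κ * F * N := mul_le_mul_of_nonneg_right (hm0u v) hN0.le
      _ = 4 * (N * (κ * F)) := by ring
      _ ≤ _ := mul_le_mul_of_nonneg_left hS0l (by norm_num)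
  have hmu1l : ∀ e : V × K, 1 / (2 * N * κ) ≤ X.mu1 e := by
    intro e
    show 1 / (2 * N * κ) ≤ X.m1 e / ∑ e' : V × K, X.m1 e'
    rw [div_le_div_iff₀ (by positivity) hS1pos]
    calc 1 * ∑ e' : V × K, X.m1 e' ≤ 2 * F * (N * κ) := by rw [one_mul]; exact hS1u
      _ = F * (2 * N * κ) := by ring
      _ ≤ _ := mul_le_mul_of_nonneg_right (hm1l e) (by positivity)
  have hmu1u : ∀ e : V × K, X.mu1 e ≤ 2 / (N * κ) := by
    intro e
    show X.m1 e / ∑ e' : V × K, X.m1 e' ≤ 2 / (N * κ)
    rw [div_le_div_iff₀ hS1pos (by positivity)]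
    calc X.m1 e * (N * κ) ≤ 2 * F * (N * κ) := mul_le_mul_of_nonneg_right (hm1u e) (by positivity)
      _ = 2 * (F * (N * κ)) := by ring
      _ ≤ _ := mul_le_mul_of_nonneg_left hS1l (by norm_num)
  have hcardXE : (Fintype.card X.E : ℝ) = N * κ := hcardE
  have hcob : ∀ (n : ℕ) (β : V → Equiv.Perm (Fin n)) (e : V × K),
      dH (X.cob0 β e) 1 = dH (β e.1) (β (σ e.2 e.1)) := by
    intro n β e
    show dH ((β e.1)⁻¹ * β (σ e.2 e.1)) 1 = _
    rw [← dH_mul_left (β e.1) ((β e.1)⁻¹ * β (σ e.2 e.1)) 1, dH_comm]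
    congr 1
    · simp
  refine ⟨X, rfl, ⟨⟨D.root⟩, ?_⟩, ?_, ?_, ?_, ?_, ?_⟩
  · -- connected
    intro u v
    refine ⟨rpath (pos (D.path u)) ++ pos (D.path v), ?_⟩
    rw [walk_append]
    exact ⟨D.root, walk_rpath _ _ _ (D.walk u), D.walk v⟩
  · intro v
    show (Finset.univ.filter fun e : V × K => e.1 = v).card +
      (Finset.univ.filter fun e : V × K => σ e.2 e.1 = v).card ≤ 2 * Fintype.card K
    rw [hsrc, htgt]; omega
  · -- h0
    intro n hn β
    obtain ⟨c, hc⟩ := hP n hn β
    refine ⟨c, ?_⟩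
    have h1 : ∑ v : V, X.mu0 v * dH (β v) c ≤ 4 / N * ∑ v : V, dH (β v) c := by
      rw [Finset.mul_sum]
      exact Finset.sum_le_sum fun v _ => mul_le_mul_of_nonneg_right (hmu0 v) (dH_nonneg _ _)
    have h2 : 1 / (2 * N * κ) * ∑ e : V × K, dH (β e.1) (β (σ e.2 e.1)) ≤
        ∑ e : V × K, X.mu1 e * dH (X.cob0 β e) 1 := by
      rw [Finset.mul_sum]
      refine Finset.sum_le_sum fun e _ => ?_
      rw [hcob]
      exact mul_le_mul_of_nonneg_right (hmu1l e) (dH_nonneg _ _)
    calc 1 / (8 * C * κ) * ∑ v : V, X.mu0 v * dH (β v) c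
        ≤ 1 / (8 * C * κ) * (4 / N * (C * ∑ e : V × K, dH (β e.1) (β (σ e.2 e.1)))) := by
          refine mul_le_mul_of_nonneg_left (h1.trans ?_) (by positivity)
          exact mul_le_mul_of_nonneg_left hc (by positivity)
      _ = 1 / (2 * N * κ) * ∑ e : V × K, dH (β e.1) (β (σ e.2 e.1)) := by
          field_simp; ring
      _ ≤ _ := h2
  · -- h1
    intro n hn α
    refine ⟨fun v => hol α (pos (D.path v)), ?_⟩
    have hT : ∀ e : V × K, D.T e →
        dH (α e) (X.cob0 (fun v => hol α (pos (D.path v))) e) = 0 := by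
      intro e he
      have h1 : X.cob0 (fun v => hol α (pos (D.path v))) e = α e := by
        show (hol α (pos (D.path e.1)))⁻¹ * hol α (pos (D.path (σ e.2 e.1))) = α e
        unfold Dat.T at he
        rw [he, pos_append, hol_append]
        simp [hol, pos, oval]
      rw [h1, dH_self]
    have hNT : ∀ e : {e : V × K // ¬ D.T e},
        dH (hol α (l e)) 1 = dH (α e.1) (X.cob0 (fun v => hol α (pos (D.path v))) e.1) :=
      fun e => hl3 e n α
    have h1 : ∑ e : V × K, X.mu1 e * dH (α e) (X.cob0 (fun v => hol α (pos (D.path v))) e) ≤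
        2 / (N * κ) * ∑ e : {e : V × K // ¬ D.T e}, dH (hol α (l e)) 1 := by
      calc ∑ e : V × K, X.mu1 e * dH (α e) (X.cob0 (fun v => hol α (pos (D.path v))) e)
          ≤ ∑ e : V × K, 2 / (N * κ) *
              dH (α e) (X.cob0 (fun v => hol α (pos (D.path v))) e) :=
            Finset.sum_le_sum fun e _ => mul_le_mul_of_nonneg_right (hmu1u e) (dH_nonneg _ _)
        _ = 2 / (N * κ) * ∑ e : V × K,
              dH (α e) (X.cob0 (fun v => hol α (pos (D.path v))) e) := by
            rw [Finset.mul_sum]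
        _ = 2 / (N * κ) * ∑ e ∈ Finset.univ.filter (fun e : V × K => ¬ D.T e),
              dH (α e) (X.cob0 (fun v => hol α (pos (D.path v))) e) := by
            congr 1
            symm
            refine Finset.sum_subset (Finset.filter_subset _ _) ?_
            intro e _ he
            refine hT e ?_
            by_contra h
            exact he (Finset.mem_filter.2 ⟨Finset.mem_univ _, h⟩)
        _ = _ := by
            congr 1
            rw [← Finset.sum_subtype_eq_sum_filter]
            rw [Finset.subtype_univ]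
            exact Finset.sum_congr rfl fun e _ => (hNT e).symm
    have h2 : 1 / (2 * F) * ∑ e : {e : V × K // ¬ D.T e}, dH (hol α (l e)) 1 ≤
        ∑ p : X.P, X.mu2 p * dH (hol α (X.bd p)) 1 := by
      have h3 : ∀ p : X.P, X.mu2 p = 1 / (2 * F) := by
        intro p
        show 1 / (Fintype.card X.P : ℝ) = _
        rw [hcardP]
      calc 1 / (2 * F) * ∑ e : {e : V × K // ¬ D.T e}, dH (hol α (l e)) 1
          ≤ 1 / (2 * F) * ∑ p : {e : V × K // ¬ D.T e} × Bool, dH (hol α (X.bd p)) 1 := by
            refine mul_le_mul_of_nonneg_left ?_ (by positivity)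
            rw [Fintype.sum_prod_type]
            refine Finset.sum_le_sum fun e _ => ?_
            rw [Fintype.sum_bool]
            have h4 : X.bd (e, false) = l e := rfl
            rw [h4]
            linarith [dH_nonneg (hol α (X.bd (e, true))) 1]
        _ = ∑ p : X.P, X.mu2 p * dH (hol α (X.bd p)) 1 := by
            rw [Finset.mul_sum]
            exact Finset.sum_congr rfl fun p _ => by rw [h3 p]
    have hsum : 0 ≤ ∑ e : {e : V × K // ¬ D.T e}, dH (hol α (l e)) 1 :=
      Finset.sum_nonneg fun e _ => dH_nonneg _ _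
    calc 1 / 4 * ∑ e : V × K, X.mu1 e * dH (α e) (X.cob0 (fun v => hol α (pos (D.path v))) e)
        ≤ 1 / 4 * (2 / (N * κ) * ∑ e : {e : V × K // ¬ D.T e}, dH (hol α (l e)) 1) :=
          mul_le_mul_of_nonneg_left h1 (by norm_num)
      _ = (1 / (2 * (N * κ))) * ∑ e : {e : V × K // ¬ D.T e}, dH (hol α (l e)) 1 := by
          field_simp; ring
      _ ≤ 1 / (2 * F) * ∑ e : {e : V × K // ¬ D.T e}, dH (hol α (l e)) 1 := by
          refine mul_le_mul_of_nonneg_right ?_ hsum
          exact one_div_le_one_div_of_le (by positivity) (by linarith)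
      _ ≤ _ := h2
  · -- h0, uniform
    intro n hn β
    obtain ⟨c, hc⟩ := hP n hn β
    refine ⟨c, ?_⟩
    have h2 : ∑ e : X.E, dH (X.cob0 β e) 1 = ∑ e : V × K, dH (β e.1) (β (σ e.2 e.1)) :=
      Finset.sum_congr rfl fun e _ => hcob n β e
    rw [h2, hcardXE]
    show 1 / (C * κ) * ((∑ v : V, dH (β v) c) / N) ≤ _
    calc 1 / (C * κ) * ((∑ v : V, dH (β v) c) / N)
        ≤ 1 / (C * κ) * ((C * ∑ e : V × K, dH (β e.1) (β (σ e.2 e.1))) / N) := by
          refine mul_le_mul_of_nonneg_left ?_ (by positivity)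
          exact div_le_div_of_nonneg_right hc hN0.le
      _ = _ := by field_simp
  · -- h1, uniform
    intro n hn α
    refine ⟨fun v => hol α (pos (D.path v)), ?_⟩
    have hT : ∀ e : V × K, D.T e →
        dH (α e) (X.cob0 (fun v => hol α (pos (D.path v))) e) = 0 := by
      intro e he
      have h1 : X.cob0 (fun v => hol α (pos (D.path v))) e = α e := by
        show (hol α (pos (D.path e.1)))⁻¹ * hol α (pos (D.path (σ e.2 e.1))) = α e
        unfold Dat.T at he
        rw [he, pos_append, hol_append]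
        simp [hol, pos, oval]
      rw [h1, dH_self]
    have hNT : ∀ e : {e : V × K // ¬ D.T e},
        dH (hol α (l e)) 1 = dH (α e.1) (X.cob0 (fun v => hol α (pos (D.path v))) e.1) :=
      fun e => hl3 e n α
    have h1 : ∑ e : V × K, dH (α e) (X.cob0 (fun v => hol α (pos (D.path v))) e) =
        ∑ e : {e : V × K // ¬ D.T e}, dH (hol α (l e)) 1 := by
      calc ∑ e : V × K, dH (α e) (X.cob0 (fun v => hol α (pos (D.path v))) e)
          = ∑ e ∈ Finset.univ.filter (fun e : V × K => ¬ D.T e),
              dH (α e) (X.cob0 (fun v => hol α (pos (D.path v))) e) := by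
            symm
            refine Finset.sum_subset (Finset.filter_subset _ _) ?_
            intro e _ he
            refine hT e ?_
            by_contra h
            exact he (Finset.mem_filter.2 ⟨Finset.mem_univ _, h⟩)
        _ = _ := by
            rw [← Finset.sum_subtype_eq_sum_filter]
            rw [Finset.subtype_univ]
            exact Finset.sum_congr rfl fun e _ => (hNT e).symm
    have h2 : ∑ e : {e : V × K // ¬ D.T e}, dH (hol α (l e)) 1 ≤
        ∑ p : {e : V × K // ¬ D.T e} × Bool, dH (hol α (X.bd p)) 1 := by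
      rw [Fintype.sum_prod_type]
      refine Finset.sum_le_sum fun e _ => ?_
      rw [Fintype.sum_bool]
      have h4 : X.bd (e, false) = l e := rfl
      rw [h4]
      linarith [dH_nonneg (hol α (X.bd (e, true))) 1]
    have hsum : 0 ≤ ∑ e : {e : V × K // ¬ D.T e}, dH (hol α (l e)) 1 :=
      Finset.sum_nonneg fun e _ => dH_nonneg _ _
    rw [hcardXE, hcardP]
    show 1 / 2 * ((∑ e : V × K, dH (α e) (X.cob0 (fun v => hol α (pos (D.path v))) e)) /
      (N * κ)) ≤ (∑ p : {e : V × K // ¬ D.T e} × Bool, dH (hol α (X.bd p)) 1) / (2 * F)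
    rw [h1]
    calc 1 / 2 * ((∑ e : {e : V × K // ¬ D.T e}, dH (hol α (l e)) 1) / (N * κ))
        ≤ 1 / 2 * ((∑ e : {e : V × K // ¬ D.T e}, dH (hol α (l e)) 1) / F) := by
          refine mul_le_mul_of_nonneg_left ?_ (by norm_num)
          exact div_le_div_of_nonneg_left hsum hF1 hFE
      _ = (∑ e : {e : V × K // ¬ D.T e}, dH (hol α (l e)) 1) / (2 * F) := by
          field_simp
      _ ≤ _ := div_le_div_of_nonneg_right h2 (by positivity)

end build

end Pool.Agent.R87.PX
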