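import Pool.Agent.R87.PX2
import Pool.Agent.H518R4.UG.CEXP
import Pool.Agent.H518R4.UG.BURG

set_option autoImplicit false

namespace Pool.Agent.R87.PX

open Finset

section torus
variable (m : ℕ) [NeZero m]

/-- the four permutations of the torus -/
def sg : Fin 4 → Equiv.Perm (ZMod m × ZMod m) :=
  ![{ toFun := fun v => (v.1 + 1, v.2)
      invFun := fun v => (v.1 - 1, v.2)
      left_inv := fun v => by simp
      right_inv := fun v => by simp },
    { toFun := fun v => (v.1, v.2 + 1)
      invFun := fun v => (v.1, v.2 - 1)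
      left_inv := fun v => by simp
      right_inv := fun v => by simp },
    { toFun := fun v => (v.1, v.2 + v.1)
      invFun := fun v => (v.1, v.2 - v.1)
      left_inv := fun v => by simp
      right_inv := fun v => by simp },
    { toFun := fun v => (v.1 + v.2, v.2)
      invFun := fun v => (v.1 - v.2, v.2)
      left_inv := fun v => by simp
      right_inv := fun v => by simp }]

@[simp] theorem sg0 (v : ZMod m × ZMod m) : sg m 0 v = (v.1 + 1, v.2) := rfl
@[simp] theorem sg1 (v : ZMod m × ZMod m) : sg m 1 v = (v.1, v.2 + 1) := rfl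
@[simp] theorem sg2 (v : ZMod m × ZMod m) : sg m 2 v = (v.1, v.2 + v.1) := rfl
@[simp] theorem sg3 (v : ZMod m × ZMod m) : sg m 3 v = (v.1 + v.2, v.2) := rfl

/-- first part of the tree path -/
def pathA (a : ℕ) : List ((ZMod m × ZMod m) × Fin 4) :=
  (List.range a).map fun j : ℕ => (((j : ZMod m), (0 : ZMod m)), (0 : Fin 4))

/-- second part of the tree path -/
def pathB (x : ZMod m) (b : ℕ) : List ((ZMod m × ZMod m) × Fin 4) :=
  (List.range b).map fun j : ℕ => ((x, (j : ZMod m)), (1 : Fin 4))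

theorem walkA (a : ℕ) : Walk (fun p : (ZMod m × ZMod m) × Fin 4 => p.1)
    (fun p : (ZMod m × ZMod m) × Fin 4 => sg m p.2 p.1) (0, 0) (pos (pathA m a))
    ((a : ZMod m), 0) := by
  induction a with
  | zero => simp [pathA, pos, Walk]
  | succ a ih =>
    have : pathA m (a + 1) = pathA m a ++ [(((a : ZMod m), (0 : ZMod m)), (0 : Fin 4))] := by
      simp [pathA, List.range_succ]
    rw [this, pos_append, walk_append]
    exact ⟨_, ih, by simp [pos, Walk, otail, ohead]⟩

theorem walkB (x : ZMod m) (b : ℕ) : Walk (fun p : (ZMod m × ZMod m) × Fin 4 => p.1)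
    (fun p : (ZMod m × ZMod m) × Fin 4 => sg m p.2 p.1) (x, 0) (pos (pathB m x b))
    (x, (b : ZMod m)) := by
  induction b with
  | zero => simp [pathB, pos, Walk]
  | succ b ih =>
    have : pathB m x (b + 1) = pathB m x b ++ [((x, (b : ZMod m)), (1 : Fin 4))] := by
      simp [pathB, List.range_succ]
    rw [this, pos_append, walk_append]
    exact ⟨_, ih, by simp [pos, Walk, otail, ohead]⟩

/-- the comb tree of the torus -/
def dat : Dat (sg m) where
  root := (0, 0)
  path v := pathA m v.1.val ++ pathB m v.1 v.2.val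
  walk v := by
    rw [pos_append, walk_append]
    refine ⟨(v.1, 0), ?_, ?_⟩
    · have := walkA m v.1.val
      rwa [ZMod.natCast_zmod_val] at this
    · have := walkB m v.1 v.2.val
      rwa [ZMod.natCast_zmod_val] at this
  tree v e he := by
    rw [List.mem_append] at he
    rcases he with he | he
    · simp only [pathA, List.mem_map, List.mem_range] at he
      obtain ⟨j, hj, rfl⟩ := he
      have hm : v.1.val < m := ZMod.val_lt _
      have h1 : ((j : ZMod m)).val = j := ZMod.val_natCast_of_lt (by omega)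
      have h2 : ((j : ZMod m) + 1).val = j + 1 := by
        have : ((j : ZMod m) + 1) = ((j + 1 : ℕ) : ZMod m) := by push_cast; rfl
        rw [this]; exact ZMod.val_natCast_of_lt (by omega)
      simp only [sg0, h1, h2, ZMod.val_zero]
      simp [pathA, pathB, List.range_succ]
    · simp only [pathB, List.mem_map, List.mem_range] at he
      obtain ⟨j, hj, rfl⟩ := he
      have hm : v.2.val < m := ZMod.val_lt _
      have h1 : ((j : ZMod m)).val = j := ZMod.val_natCast_of_lt (by omega)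
      have h2 : ((j : ZMod m) + 1).val = j + 1 := by
        have : ((j : ZMod m) + 1) = ((j + 1 : ℕ) : ZMod m) := by push_cast; rfl
        rw [this]; exact ZMod.val_natCast_of_lt (by omega)
      simp only [sg1, h1, h2]
      simp [pathB, List.range_succ]

theorem nontree : ∃ e, ¬ (dat m).T e := by
  refine ⟨((0, 0), 2), ?_⟩
  intro h
  unfold Dat.T dat at h
  simp [pathA, pathB] at h

theorem conn (u v : ZMod m × ZMod m) :
    Relation.ReflTransGen (fun a b => ∃ i, sg m i a = b) u v := by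
  have h1 : ∀ (a : ℕ) (x y : ZMod m), Relation.ReflTransGen (fun a b => ∃ i, sg m i a = b)
      (x, y) (x + a, y) := by
    intro a x y
    induction a with
    | zero => simpa using Relation.ReflTransGen.refl
    | succ a ih => exact ih.tail ⟨0, by simp [add_assoc]⟩
  have h2 : ∀ (b : ℕ) (x y : ZMod m), Relation.ReflTransGen (fun a b => ∃ i, sg m i a = b)
      (x, y) (x, y + b) := by
    intro b x y
    induction b with
    | zero => simpa using Relation.ReflTransGen.refl
    | succ b ih => exact ih.tail ⟨1, by simp [add_assoc]⟩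
  have h3 := h1 (v.1 - u.1).val u.1 u.2
  have h4 := h2 (v.2 - u.2).val v.1 u.2
  rw [ZMod.natCast_zmod_val, add_sub_cancel] at h3 h4
  exact h3.trans h4

/-- the Poincare inequality for real functions -/
theorem poinc (g : ZMod m × ZMod m → ℝ) :
    ∑ u, ∑ v, (g u - g v) ^ 2 ≤
      800 * (Fintype.card (ZMod m × ZMod m) : ℝ) *
        ∑ e : (ZMod m × ZMod m) × Fin 4, (g (sg m e.2 e.1) - g e.1) ^ 2 := by
  set N : ℝ := (Fintype.card (ZMod m × ZMod m) : ℝ) with hN
  have hN0 : 0 < N := by rw [hN]; exact_mod_cast Fintype.card_pos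
  set A : ℝ := (∑ v, g v) / N with hA
  have hsum : ∑ v : ZMod m × ZMod m, ((g v - A : ℝ) : ℂ) = 0 := by
    rw [← Complex.ofReal_sum, Finset.sum_sub_distrib, Finset.sum_const, Finset.card_univ,
      nsmul_eq_mul, ← hN, hA, mul_div_cancel₀ _ hN0.ne', sub_self, Complex.ofReal_zero]
  have h := Pool.Agent.H518R4.UG.p_CEXP Pool.Agent.H518R4.UG.p_BURG ℂ m
    (fun v => ((g v - A : ℝ) : ℂ)) hsum
  have hnorm : ∀ x : ℝ, ‖(x : ℂ)‖ ^ 2 = x ^ 2 := by
    intro x; rw [Complex.norm_real, Real.norm_eq_abs, sq_abs]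
  simp only [← Complex.ofReal_sub, hnorm, sub_sub_sub_cancel_right] at h
  have h5 : ∑ e : (ZMod m × ZMod m) × Fin 4, (g (sg m e.2 e.1) - g e.1) ^ 2 =
      ∑ v, (g (v.1 + 1, v.2) - g v) ^ 2 + ∑ v, (g (v.1, v.2 + 1) - g v) ^ 2 +
      ∑ v, (g (v.1, v.2 + v.1) - g v) ^ 2 + ∑ v, (g (v.1 + v.2, v.2) - g v) ^ 2 := by
    rw [Fintype.sum_prod_type_right]
    rw [Fin.sum_univ_four]
    simp only [sg0, sg1, sg2, sg3]
  have h6 : ∑ u, ∑ v, (g u - g v) ^ 2 = 2 * N * ∑ v, (g v - A) ^ 2 := by
    have e1 : ∀ u v, (g u - g v) ^ 2 = (g u - A) ^ 2 + (g v - A) ^ 2 -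
        2 * ((g u - A) * (g v - A)) := by intro u v; ring
    have e2 : ∑ v, (g v - A) = 0 := by
      rw [Finset.sum_sub_distrib, Finset.sum_const, Finset.card_univ, nsmul_eq_mul, ← hN, hA,
        mul_div_cancel₀ _ hN0.ne', sub_self]
    calc ∑ u, ∑ v, (g u - g v) ^ 2
        = ∑ u, ∑ v, ((g u - A) ^ 2 + (g v - A) ^ 2 - 2 * ((g u - A) * (g v - A))) :=
          Finset.sum_congr rfl fun u _ => Finset.sum_congr rfl fun v _ => e1 u v
      _ = ∑ u, (N * (g u - A) ^ 2 + ∑ v, (g v - A) ^ 2 -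
            2 * ((g u - A) * ∑ v, (g v - A))) := by
          refine Finset.sum_congr rfl fun u _ => ?_
          rw [Finset.sum_sub_distrib, Finset.sum_add_distrib, Finset.sum_const, Finset.card_univ,
            nsmul_eq_mul, ← hN, ← Finset.mul_sum, ← Finset.mul_sum]
      _ = ∑ u, (N * (g u - A) ^ 2 + ∑ v, (g v - A) ^ 2) := by
          refine Finset.sum_congr rfl fun u _ => ?_
          rw [e2]; ring
      _ = _ := by
          rw [Finset.sum_add_distrib, ← Finset.mul_sum, Finset.sum_const, Finset.card_univ,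
            nsmul_eq_mul, ← hN]; ring
  rw [h6, h5]
  calc 2 * N * ∑ v, (g v - A) ^ 2 ≤ 2 * N * (400 * _) := mul_le_mul_of_nonneg_left h (by positivity)
    _ = _ := by ring

theorem poincH (n : ℕ) (hn : 1 ≤ n) (β : ZMod m × ZMod m → Equiv.Perm (Fin n)) :
    ∃ c : Equiv.Perm (Fin n), ∑ v, dH (β v) c ≤
      800 * ∑ e : (ZMod m × ZMod m) × Fin 4, dH (β e.1) (β (sg m e.2 e.1)) := by
  have hn0 : (0 : ℝ) < n := by exact_mod_cast hn
  set N : ℝ := (Fintype.card (ZMod m × ZMod m) : ℝ) with hN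
  have hN0 : 0 < N := by rw [hN]; exact_mod_cast Fintype.card_pos
  -- indicator identity
  have hind : ∀ u v : ZMod m × ZMod m, ∑ j : Fin n, ∑ k : Fin n,
      ((if β u j = k then (1 : ℝ) else 0) - (if β v j = k then (1 : ℝ) else 0)) ^ 2 =
      2 * n * dH (β u) (β v) := by
    intro u v
    have e1 : ∀ j : Fin n, ∑ k : Fin n,
        ((if β u j = k then (1 : ℝ) else 0) - (if β v j = k then (1 : ℝ) else 0)) ^ 2 =
        if β u j ≠ β v j then 2 else 0 := by
      intro j
      by_cases h : β u j = β v j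
      · simp [h]
      · rw [if_pos h]
        have e2 : ∀ k : Fin n,
            ((if β u j = k then (1 : ℝ) else 0) - (if β v j = k then (1 : ℝ) else 0)) ^ 2 =
            (if β u j = k then 1 else 0) + (if β v j = k then 1 else 0) := by
          intro k
          by_cases h1 : β u j = k
          · have h2 : β v j ≠ k := fun h2 => h (h1.trans h2.symm)
            simp [h1, h2]
          · by_cases h2 : β v j = k <;> simp [h1, h2]
        simp_rw [e2]
        rw [Finset.sum_add_distrib]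
        simp; norm_num
    simp_rw [e1]
    unfold dH
    rw [← Finset.sum_filter, Finset.sum_const, nsmul_eq_mul]
    field_simp
  have hmain : ∑ u, ∑ v, dH (β u) (β v) ≤ 800 * N *
      ∑ e : (ZMod m × ZMod m) × Fin 4, dH (β (sg m e.2 e.1)) (β e.1) := by
    have h1 : ∀ j k : Fin n, _ := fun j k =>
      poinc m (fun v => if β v j = k then (1 : ℝ) else 0)
    have h2 : ∑ j : Fin n, ∑ k : Fin n, ∑ u, ∑ v,
        ((if β u j = k then (1 : ℝ) else 0) - (if β v j = k then (1 : ℝ) else 0)) ^ 2 ≤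
        ∑ j : Fin n, ∑ k : Fin n, 800 * N * ∑ e : (ZMod m × ZMod m) × Fin 4,
        ((if β (sg m e.2 e.1) j = k then (1 : ℝ) else 0) -
          (if β e.1 j = k then (1 : ℝ) else 0)) ^ 2 :=
      Finset.sum_le_sum fun j _ => Finset.sum_le_sum fun k _ => h1 j k
    have h3 : ∑ j : Fin n, ∑ k : Fin n, ∑ u, ∑ v,
        ((if β u j = k then (1 : ℝ) else 0) - (if β v j = k then (1 : ℝ) else 0)) ^ 2 =
        ∑ u, ∑ v, 2 * n * dH (β u) (β v) := by
      calc _ = ∑ j : Fin n, ∑ u, ∑ k : Fin n, ∑ v, 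
          ((if β u j = k then (1 : ℝ) else 0) - (if β v j = k then (1 : ℝ) else 0)) ^ 2 :=
            Finset.sum_congr rfl fun j _ => Finset.sum_comm
        _ = ∑ u, ∑ j : Fin n, ∑ k : Fin n, ∑ v, 
          ((if β u j = k then (1 : ℝ) else 0) - (if β v j = k then (1 : ℝ) else 0)) ^ 2 :=
            Finset.sum_comm
        _ = ∑ u, ∑ j : Fin n, ∑ v, ∑ k : Fin n,
          ((if β u j = k then (1 : ℝ) else 0) - (if β v j = k then (1 : ℝ) else 0)) ^ 2 :=
            Finset.sum_congr rfl fun u _ => Finset.sum_congr rfl fun j _ => Finset.sum_comm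
        _ = ∑ u, ∑ v, ∑ j : Fin n, ∑ k : Fin n,
          ((if β u j = k then (1 : ℝ) else 0) - (if β v j = k then (1 : ℝ) else 0)) ^ 2 :=
            Finset.sum_congr rfl fun u _ => Finset.sum_comm
        _ = _ := Finset.sum_congr rfl fun u _ => Finset.sum_congr rfl fun v _ => hind u v
    have h4 : ∑ j : Fin n, ∑ k : Fin n, 800 * N * ∑ e : (ZMod m × ZMod m) × Fin 4,
        ((if β (sg m e.2 e.1) j = k then (1 : ℝ) else 0) -
          (if β e.1 j = k then (1 : ℝ) else 0)) ^ 2 =
        800 * N * ∑ e : (ZMod m × ZMod m) × Fin 4, 2 * n * dH (β (sg m e.2 e.1)) (β e.1) := by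
      simp_rw [← Finset.mul_sum]
      congr 1
      calc _ = ∑ j : Fin n, ∑ e : (ZMod m × ZMod m) × Fin 4, ∑ k : Fin n,
          ((if β (sg m e.2 e.1) j = k then (1 : ℝ) else 0) -
            (if β e.1 j = k then (1 : ℝ) else 0)) ^ 2 :=
            Finset.sum_congr rfl fun j _ => Finset.sum_comm
        _ = ∑ e : (ZMod m × ZMod m) × Fin 4, ∑ j : Fin n, ∑ k : Fin n,
          ((if β (sg m e.2 e.1) j = k then (1 : ℝ) else 0) -
            (if β e.1 j = k then (1 : ℝ) else 0)) ^ 2 := Finset.sum_comm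
        _ = ∑ e : (ZMod m × ZMod m) × Fin 4, 2 * n * dH (β (sg m e.2 e.1)) (β e.1) :=
            Finset.sum_congr rfl fun e _ => hind _ _
        _ = _ := by rw [← Finset.mul_sum]
    rw [h3, h4] at h2
    simp_rw [← Finset.mul_sum] at h2
    have h5 : 2 * (n : ℝ) * ∑ u, ∑ v, dH (β u) (β v) ≤ 2 * n * (800 * N *
      ∑ e : (ZMod m × ZMod m) × Fin 4, dH (β (sg m e.2 e.1)) (β e.1)) := by
      calc _ ≤ _ := h2
        _ = _ := by ring
    exact le_of_mul_le_mul_left h5 (by positivity)
  -- averaging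
  by_contra hcon
  push Not at hcon
  have h6 : ∑ _u : ZMod m × ZMod m, 800 * ∑ e : (ZMod m × ZMod m) × Fin 4,
      dH (β e.1) (β (sg m e.2 e.1)) < ∑ u, ∑ v, dH (β v) (β u) :=
    Finset.sum_lt_sum_of_nonempty Finset.univ_nonempty fun u _ => hcon (β u)
  rw [Finset.sum_const, Finset.card_univ, nsmul_eq_mul, ← hN] at h6
  have h7 : ∑ u, ∑ v, dH (β v) (β u) = ∑ u, ∑ v, dH (β u) (β v) :=
    Finset.sum_congr rfl fun u _ => Finset.sum_congr rfl fun v _ => dH_comm _ _
  have h8 : ∑ e : (ZMod m × ZMod m) × Fin 4, dH (β (sg m e.2 e.1)) (β e.1) =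
      ∑ e : (ZMod m × ZMod m) × Fin 4, dH (β e.1) (β (sg m e.2 e.1)) :=
    Finset.sum_congr rfl fun e _ => dH_comm _ _
  rw [h7] at h6
  rw [h8] at hmain
  nlinarith [h6, hmain]

end torus

theorem main (m : ℕ) (hm : 1 ≤ m) : ∃ X : PolygonalComplex, Fintype.card X.V = m ^ 2 ∧
    X.IsConnected ∧ (∀ v, X.degree v ≤ 8) ∧ X.H0ge (1 / 25600) ∧ X.H1ge (1 / 4) ∧
    X.H0geU (1 / 3200) ∧ X.H1geU (1 / 2) := by
  have : NeZero m := ⟨by omega⟩
  obtain ⟨X, h1, h2, h3, h4, h5, h6, h7⟩ := build (dat m) (by simp) (conn m) (nontree m) 800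
    (by norm_num) (poincH m)
  refine ⟨X, ?_, h2, ?_, ?_, h5, ?_, h7⟩
  · rw [h1, Fintype.card_prod, ZMod.card]; ring
  · intro v; simpa using h3 v
  · convert h4 using 1
    simp; norm_num
  · convert h6 using 1
    simp; norm_num

end Pool.Agent.R87.PX
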