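import Mathlib

/-!
Finite polygonal complexes, permutation valued cochains and the Cheeger constants of
MP_d4a15d_co.
-/

set_option autoImplicit false

namespace Pool.Agent.R87.PX

/-- The tail of an oriented edge `(e, true)` (or `(e, false)`, the edge `e` reversed). -/
def otail {V E : Type} (src tgt : E → V) (a : E × Bool) : V := if a.2 then src a.1 else tgt a.1

/-- The head of an oriented edge. -/
def ohead {V E : Type} (src tgt : E → V) (a : E × Bool) : V := if a.2 then tgt a.1 else src a.1

/-- The oppositely oriented edge. -/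
def orev {E : Type} (a : E × Bool) : E × Bool := (a.1, !a.2)

/-- `Walk src tgt v l w`: the list `l` of oriented edges is a path from `v` to `w`. -/
def Walk {V E : Type} (src tgt : E → V) : V → List (E × Bool) → V → Prop
  | v, [], w => v = w
  | v, a :: l, w => otail src tgt a = v ∧ Walk src tgt (ohead src tgt a) l w

/-- A finite polygonal complex: a finite graph (loops and parallel edges allowed) and finitely many
polygons, each attached along a closed path `bd p` which is cyclically reduced: in `bd p ++ bd p`,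
hence in the cyclic word `bd p`, no oriented edge is followed by its reverse. -/
structure PolygonalComplex where
  /-- vertices -/
  V : Type
  /-- (unoriented) edges -/
  E : Type
  /-- polygons -/
  P : Type
  fV : Fintype V
  fE : Fintype E
  fP : Fintype P
  dV : DecidableEq V
  dE : DecidableEq E
  src : E → V
  tgt : E → V
  bd : P → List (E × Bool)
  bd_ne : ∀ p, bd p ≠ []
  closed : ∀ p, ∃ v, Walk src tgt v (bd p) v
  reduced : ∀ p, (bd p ++ bd p).IsChain (fun a b => b ≠ orev a)

attribute [instance] PolygonalComplex.fV PolygonalComplex.fE PolygonalComplex.fP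
  PolygonalComplex.dV PolygonalComplex.dE

namespace PolygonalComplex

variable (X : PolygonalComplex)

/-- The graph is connected. -/
def IsConnected : Prop :=
  Nonempty X.V ∧ ∀ u v : X.V, ∃ l, Walk X.src X.tgt u l v

/-- The number of edges at a vertex; a loop counts twice. -/
def degree (v : X.V) : ℕ :=
  (Finset.univ.filter fun e => X.src e = v).card + (Finset.univ.filter fun e => X.tgt e = v).card

/-- The number of polygons containing an edge. -/
noncomputable def m1 (e : X.E) : ℝ :=
  ((Finset.univ.filter fun p : X.P => e ∈ (X.bd p).map Prod.fst).card : ℝ)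

/-- The sum of `m1` over the edges containing a vertex. -/
noncomputable def m0 (v : X.V) : ℝ :=
  ∑ e ∈ Finset.univ.filter (fun e => X.src e = v ∨ X.tgt e = v), X.m1 e

/-- The uniform distribution on polygons. -/
noncomputable def mu2 (_p : X.P) : ℝ := 1 / (Fintype.card X.P : ℝ)

/-- The distribution on edges descending from `mu2`. -/
noncomputable def mu1 (e : X.E) : ℝ := X.m1 e / ∑ e', X.m1 e'

/-- The distribution on vertices descending from `mu1`. -/
noncomputable def mu0 (v : X.V) : ℝ := X.m0 v / ∑ v', X.m0 v'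

end PolygonalComplex

/-- The normalized Hamming distance on `Sym(n)`. -/
noncomputable def dH {n : ℕ} (σ τ : Equiv.Perm (Fin n)) : ℝ :=
  ((Finset.univ.filter fun j => σ j ≠ τ j).card : ℝ) / n

/-- The value of a 1-cochain on an oriented edge; `α (e reversed) = (α e)⁻¹`. -/
def oval {n : ℕ} {E : Type} (α : E → Equiv.Perm (Fin n)) (a : E × Bool) : Equiv.Perm (Fin n) :=
  if a.2 then α a.1 else (α a.1)⁻¹

/-- The product `α(e_1) ⋯ α(e_ℓ)` along a list of oriented edges. -/
def hol {n : ℕ} {E : Type} (α : E → Equiv.Perm (Fin n)) (l : List (E × Bool)) :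
    Equiv.Perm (Fin n) := (l.map (oval α)).prod

namespace PolygonalComplex

variable (X : PolygonalComplex)

/-- The coboundary of a 0-cochain. -/
def cob0 {n : ℕ} (β : X.V → Equiv.Perm (Fin n)) (e : X.E) : Equiv.Perm (Fin n) :=
  (β (X.src e))⁻¹ * β (X.tgt e)

/-- `h_0^B(X, Sym) ≥ lam`: every 0-cochain `β` with values in `Sym(n)`, `n ≥ 1`, has a constant
0-cochain `c` with `lam * d(β, c) ≤ ‖δβ‖`. -/
def H0ge (lam : ℝ) : Prop :=
  ∀ n : ℕ, 1 ≤ n → ∀ β : X.V → Equiv.Perm (Fin n), ∃ c : Equiv.Perm (Fin n),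
    lam * ∑ v, X.mu0 v * dH (β v) c ≤ ∑ e, X.mu1 e * dH (X.cob0 β e) 1

/-- `h_1^B(X, Sym) ≥ lam`: every 1-cochain `α` with values in `Sym(n)`, `n ≥ 1`, has a coboundary
`δβ` with `lam * d(α, δβ) ≤ ‖δα‖`. -/
def H1ge (lam : ℝ) : Prop :=
  ∀ n : ℕ, 1 ≤ n → ∀ α : X.E → Equiv.Perm (Fin n), ∃ β : X.V → Equiv.Perm (Fin n),
    lam * ∑ e, X.mu1 e * dH (α e) (X.cob0 β e) ≤ ∑ p, X.mu2 p * dH (hol α (X.bd p)) 1

/-- `H0ge` with the uniform distributions on vertices and edges instead of `mu0`, `mu1`. -/
def H0geU (lam : ℝ) : Prop :=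
  ∀ n : ℕ, 1 ≤ n → ∀ β : X.V → Equiv.Perm (Fin n), ∃ c : Equiv.Perm (Fin n),
    lam * ((∑ v, dH (β v) c) / (Fintype.card X.V : ℝ)) ≤
      (∑ e, dH (X.cob0 β e) 1) / (Fintype.card X.E : ℝ)

/-- `H1ge` with the uniform distributions on edges and polygons. -/
def H1geU (lam : ℝ) : Prop :=
  ∀ n : ℕ, 1 ≤ n → ∀ α : X.E → Equiv.Perm (Fin n), ∃ β : X.V → Equiv.Perm (Fin n),
    lam * ((∑ e, dH (α e) (X.cob0 β e)) / (Fintype.card X.E : ℝ)) ≤
      (∑ p, dH (hol α (X.bd p)) 1) / (Fintype.card X.P : ℝ)

end PolygonalComplex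

end Pool.Agent.R87.PX
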