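import Mathlib

/-!
# Extending a 7-colouring to a clique on seven vertices

`W` is the set of the vertices outside a clique `Q` with seven vertices (identified with
`Fin 7`), `H` is the graph induced on `W` and `N w` is the set of the neighbours of `w` in `Q`.
-/

set_option autoImplicit false
set_option linter.unusedSectionVars false

namespace Pool.Agent.R87.Seven

open Finset

variable {W : Type} [Fintype W] [DecidableEq W]

/-- maximum degree 8, the vertices of `Q` have at most two neighbours in `W`, and there is no
clique with eight vertices -/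
structure Data (H : SimpleGraph W) [DecidableRel H.Adj] (N : W → Finset (Fin 7)) : Prop where
  deg : ∀ w, H.degree w + (N w).card ≤ 8
  two : ∀ q, (univ.filter (fun w => q ∈ N w)).card ≤ 2
  ne : ∀ w, N w ≠ univ
  adj : ∀ w w', H.Adj w w' → (N w ∩ N w').card ≤ 5
  k8 : H.CliqueFree 8

/-- a 7-colouring of the whole graph -/
def Good (H : SimpleGraph W) (N : W → Finset (Fin 7)) : Prop :=
  ∃ c : W → Fin 7, ∃ σ : Fin 7 → Fin 7, Function.Injective σ ∧ (∀ w w', H.Adj w w' → c w ≠ c w') ∧
    ∀ w q, q ∈ N w → c w ≠ σ q

/-- the neighbours in `Q` of a colour class -/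
def bad (N : W → Finset (Fin 7)) (c : W → Fin 7) (i : Fin 7) : Finset (Fin 7) :=
  (univ.filter (fun w => c w = i)).biUnion N

theorem mem_bad {N : W → Finset (Fin 7)} {c : W → Fin 7} {i q : Fin 7} :
    q ∈ bad N c i ↔ ∃ w, c w = i ∧ q ∈ N w := by
  simp [bad]

variable {H : SimpleGraph W} [DecidableRel H.Adj] {N : W → Finset (Fin 7)}

theorem card_forb (h2 : ∀ q, (univ.filter (fun w => q ∈ N w)).card ≤ 2) (c : W → Fin 7)
    (q : Fin 7) : (univ.filter (fun i => q ∈ bad N c i)).card ≤ 2 := by
  refine le_trans (card_le_card ?_) ((card_image_le (f := c)).trans (h2 q))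
  intro i hi
  rw [mem_filter, mem_bad] at hi
  obtain ⟨_, w, hw, hq⟩ := hi
  rw [mem_image]
  exact ⟨w, by simp [hq], hw⟩

theorem good_of_hall (h2 : ∀ q, (univ.filter (fun w => q ∈ N w)).card ≤ 2) {c : W → Fin 7}
    (hc : ∀ w w', H.Adj w w' → c w ≠ c w') (hA : ∀ i, bad N c i ≠ univ)
    (hB : ∀ i j, i ≠ j → (bad N c i ∩ bad N c j).card ≤ 5) : Good H N := by
  classical
  have key := (Finset.all_card_le_biUnion_card_iff_exists_injective
    (fun q : Fin 7 => univ.filter (fun i : Fin 7 => q ∉ bad N c i))).1 ?_
  · obtain ⟨σ, hσ, hσ2⟩ := key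
    refine ⟨c, σ, hσ, hc, ?_⟩
    intro w q hq heq
    have := hσ2 q
    rw [mem_filter] at this
    exact this.2 (mem_bad.2 ⟨w, heq, hq⟩)
  · intro s
    by_contra hcon
    push Not at hcon
    set U := s.biUnion (fun q : Fin 7 => univ.filter (fun i : Fin 7 => q ∉ bad N c i)) with hU
    have hUc : ∀ i ∈ Uᶜ, ∀ q ∈ s, q ∈ bad N c i := by
      intro i hi q hq
      by_contra h
      rw [mem_compl] at hi
      exact hi (mem_biUnion.2 ⟨q, hq, by simp [h]⟩)
    have hcard : Uᶜ.card = 7 - U.card := by rw [card_compl, Fintype.card_fin]
    have hs7 : s.card ≤ 7 := by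
      have := card_le_univ s
      rwa [Fintype.card_fin] at this
    have hsne : s.Nonempty := card_pos.1 (by omega)
    obtain ⟨q0, hq0⟩ := hsne
    have h3 : Uᶜ.card ≤ 2 := by
      refine le_trans (card_le_card ?_) (card_forb h2 c q0)
      intro i hi
      rw [mem_filter]
      exact ⟨mem_univ _, hUc i hi q0 hq0⟩
    have hs6 : 6 ≤ s.card := by omega
    rcases Nat.lt_or_ge s.card 7 with h | h
    · have h4 : 1 < Uᶜ.card := by omega
      obtain ⟨i, hi, j, hj, hij⟩ := one_lt_card.1 h4
      have h5 : s ⊆ bad N c i ∩ bad N c j := by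
        intro q hq
        exact mem_inter.2 ⟨hUc i hi q hq, hUc j hj q hq⟩
      have := card_le_card h5
      have := hB i j hij
      omega
    · have h4 : 0 < Uᶜ.card := by omega
      obtain ⟨i, hi⟩ := card_pos.1 h4
      apply hA i
      apply eq_univ_iff_forall.2
      intro q
      apply hUc i hi q
      have : s = univ := by
        apply eq_univ_of_card
        rw [Fintype.card_fin]; omega
      rw [this]; exact mem_univ _

/-- a free colour -/
theorem exists_free (c : W → Fin 7) (x : W) (F : Finset (Fin 7)) (h : H.degree x + F.card < 7) :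
    ∃ j, j ∉ F ∧ ∀ w, H.Adj x w → c w ≠ j := by
  classical
  by_contra hcon
  push Not at hcon
  have h2 : (univ : Finset (Fin 7)) ⊆ F ∪ (H.neighborFinset x).image c := by
    intro j _
    by_cases hj : j ∈ F
    · exact mem_union_left _ hj
    · obtain ⟨w, hw, hcw⟩ := hcon j hj
      apply mem_union_right
      rw [mem_image]
      exact ⟨w, by simpa using hw, hcw⟩
  have h3 := card_le_card h2
  have h4 := card_union_le F ((H.neighborFinset x).image c)
  have h5 : ((H.neighborFinset x).image c).card ≤ H.degree x := card_image_le
  rw [card_univ, Fintype.card_fin] at h3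
  omega

theorem proper_update {c : W → Fin 7} (hc : ∀ w w', H.Adj w w' → c w ≠ c w') {x : W} {j : Fin 7}
    (hj : ∀ w, H.Adj x w → c w ≠ j) :
    ∀ w w', H.Adj w w' → Function.update c x j w ≠ Function.update c x j w' := by
  intro w w' h
  by_cases h1 : w = x
  · subst h1
    have h2 : w' ≠ w := h.ne'
    rw [Function.update_self, Function.update_of_ne h2]
    exact (hj w' h).symm
  · by_cases h2 : w' = x
    · subst h2
      rw [Function.update_self, Function.update_of_ne h1]
      exact hj w h.symm
    · rw [Function.update_of_ne h1, Function.update_of_ne h2]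
      exact hc w w' h

theorem bad_update_self (c : W → Fin 7) (x : W) (j : Fin 7) :
    bad N (Function.update c x j) j = bad N c j ∪ N x := by
  ext q
  rw [mem_union, mem_bad, mem_bad]
  constructor
  · rintro ⟨w, hw, hq⟩
    by_cases h : w = x
    · subst h; exact Or.inr hq
    · rw [Function.update_of_ne h] at hw
      exact Or.inl ⟨w, hw, hq⟩
  · rintro (⟨w, hw, hq⟩ | hq)
    · refine ⟨w, ?_, hq⟩
      by_cases h : w = x
      · subst h; rw [Function.update_self]
      · rw [Function.update_of_ne h, hw]
    · exact ⟨x, Function.update_self _ _ _, hq⟩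

theorem bad_update_sub (c : W → Fin 7) (x : W) {j k : Fin 7} (hk : k ≠ j) :
    bad N (Function.update c x j) k ⊆ bad N c k := by
  intro q hq
  rw [mem_bad] at hq ⊢
  obtain ⟨w, hw, hq⟩ := hq
  by_cases h : w = x
  · subst h; rw [Function.update_self] at hw
    exact absurd hw.symm hk
  · rw [Function.update_of_ne h] at hw
    exact ⟨w, hw, hq⟩

/-- two vertices with the same six neighbours in `Q` -/
theorem good_of_twins (D : Data H N) {c0 : W → Fin 7} (hc0 : ∀ w w', H.Adj w w' → c0 w ≠ c0 w')
    {w1 w2 : W} (hne : w1 ≠ w2) (heq : N w1 = N w2) (h6 : (N w1).card = 6) : Good H N := by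
  classical
  have hnadj : ¬ H.Adj w1 w2 := by
    intro h
    have := D.adj w1 w2 h
    rw [← heq, inter_self] at this
    omega
  have hc7 : (N w1)ᶜ.card = 1 := by rw [card_compl, Fintype.card_fin, h6]
  obtain ⟨q7, hq7⟩ := card_eq_one.1 hc7
  have hmem : ∀ q, q ∉ N w1 → q = q7 := by
    intro q hq
    have : q ∈ (N w1)ᶜ := mem_compl.2 hq
    rw [hq7] at this
    exact mem_singleton.1 this
  have hq7n : q7 ∉ N w1 := by
    have : q7 ∈ (N w1)ᶜ := by rw [hq7]; exact mem_singleton_self _
    exact mem_compl.1 this
  -- the colour
  have d1 := D.deg w1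
  have d2 := D.deg w2
  rw [h6] at d1
  rw [← heq, h6] at d2
  have d3 := D.two q7
  obtain ⟨i, hi⟩ : ∃ i : Fin 7, i ∉ (H.neighborFinset w1).image c0 ∪
      ((H.neighborFinset w2).image c0 ∪ (univ.filter (fun w => q7 ∈ N w)).image c0) := by
    by_contra hcon
    push Not at hcon
    have h1 : (univ : Finset (Fin 7)) ⊆ (H.neighborFinset w1).image c0 ∪
      ((H.neighborFinset w2).image c0 ∪ (univ.filter (fun w => q7 ∈ N w)).image c0) :=
      fun i _ => hcon i
    have h2 := card_le_card h1
    have h3 := card_union_le ((H.neighborFinset w1).image c0)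
      ((H.neighborFinset w2).image c0 ∪ (univ.filter (fun w => q7 ∈ N w)).image c0)
    have h4 := card_union_le ((H.neighborFinset w2).image c0)
      ((univ.filter (fun w => q7 ∈ N w)).image c0)
    have h5 : ((H.neighborFinset w1).image c0).card ≤ H.degree w1 := card_image_le
    have h6' : ((H.neighborFinset w2).image c0).card ≤ H.degree w2 := card_image_le
    have h7 : ((univ.filter (fun w => q7 ∈ N w)).image c0).card ≤ _ := card_image_le
    rw [card_univ, Fintype.card_fin] at h2
    omega
  rw [mem_union, mem_union] at hi
  push Not at hi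
  obtain ⟨hi1, hi2, hi3⟩ := hi
  have hi1' : ∀ w, H.Adj w1 w → c0 w ≠ i := fun w hw h =>
    hi1 (mem_image.2 ⟨w, by simpa using hw, h⟩)
  have hi2' : ∀ w, H.Adj w2 w → c0 w ≠ i := fun w hw h =>
    hi2 (mem_image.2 ⟨w, by simpa using hw, h⟩)
  have hi3' : ∀ w, q7 ∈ N w → c0 w ≠ i := fun w hw h =>
    hi3 (mem_image.2 ⟨w, by simpa using hw, h⟩)
  have hp1 := proper_update hc0 hi1'
  have hp2 := proper_update (c := Function.update c0 w1 i) hp1 (x := w2) (j := i) (by
    intro w hw
    by_cases h : w = w1
    · subst h; exact absurd hw.symm hnadj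
    · rw [Function.update_of_ne h]; exact hi2' w hw)
  refine ⟨Function.update (Function.update c0 w1 i) w2 i, Equiv.swap q7 i,
    (Equiv.swap q7 i).injective, hp2, ?_⟩
  -- the vertices of `Q`
  intro w q hq
  by_cases hqS : q ∈ N w1
  · have hw : w = w1 ∨ w = w2 := by
      by_contra hcon
      push Not at hcon
      have h3 : ({w, w1, w2} : Finset W) ⊆ univ.filter (fun w => q ∈ N w) := by
        intro u hu
        rw [mem_insert, mem_insert, mem_singleton] at hu
        rw [mem_filter]
        refine ⟨mem_univ _, ?_⟩
        rcases hu with rfl | rfl | rfl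
        · exact hq
        · exact hqS
        · rw [← heq]; exact hqS
      have h4 : ({w, w1, w2} : Finset W).card = 3 := card_eq_three.2 ⟨w, w1, w2, hcon.1, hcon.2,
        hne, rfl⟩
      have := card_le_card h3
      have := D.two q
      omega
    have hq7' : q ≠ q7 := fun h => hq7n (h ▸ hqS)
    have hcol : Function.update (Function.update c0 w1 i) w2 i w = i := by
      rcases hw with rfl | rfl
      · rw [Function.update_of_ne hne, Function.update_self]
      · rw [Function.update_self]
    rw [hcol]
    intro h
    have h3 : Equiv.swap q7 i q7 = Equiv.swap q7 i q := by rw [Equiv.swap_apply_left]; exact h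
    exact hq7' ((Equiv.swap q7 i).injective h3).symm
  · have hqq := hmem q hqS
    subst hqq
    have hw1 : w ≠ w1 := fun h => hqS (h ▸ hq)
    have hw2 : w ≠ w2 := fun h => hqS (by rw [heq, ← h]; exact hq)
    rw [Equiv.swap_apply_left, Function.update_of_ne hw2, Function.update_of_ne hw1]
    exact hi3' w hq

/-- the invariant -/
def Inv (H : SimpleGraph W) (N : W → Finset (Fin 7)) (c : W → Fin 7) : Prop :=
  (∀ w w', H.Adj w w' → c w ≠ c w') ∧
  ∀ i, (univ.filter (fun w => c w = i)).card ≤ 2 ∨
    (bad N c i ≠ univ ∧ ∃ x, c x = i ∧ 4 ≤ (N x).card)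

theorem exists_big {c : W → Fin 7} {i : Fin 7} {t : ℕ}
    (h2 : (univ.filter (fun w => c w = i)).card ≤ 2) (hb : 2 * t < (bad N c i).card) :
    ∃ x, c x = i ∧ t < (N x).card := by
  by_contra hcon
  push Not at hcon
  have h3 : (bad N c i).card ≤ (univ.filter (fun w => c w = i)).card * t := by
    apply card_biUnion_le_card_mul
    intro w hw
    rw [mem_filter] at hw
    exact hcon w hw.2
  have : (univ.filter (fun w => c w = i)).card * t ≤ 2 * t := Nat.mul_le_mul_right _ h2
  omega

/-- a point of `Q` with neighbours in two different classes has no other neighbours -/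
theorem two_classes (h2 : ∀ q, (univ.filter (fun w => q ∈ N w)).card ≤ 2) {c : W → Fin 7}
    {q i j k : Fin 7} (hi : q ∈ bad N c i) (hj : q ∈ bad N c j) (hij : i ≠ j)
    (hk : q ∈ bad N c k) : k = i ∨ k = j := by
  by_contra hcon
  push Not at hcon
  have h3 : ({k, i, j} : Finset (Fin 7)) ⊆ univ.filter (fun i => q ∈ bad N c i) := by
    intro u hu
    rw [mem_insert, mem_insert, mem_singleton] at hu
    rw [mem_filter]
    refine ⟨mem_univ _, ?_⟩
    rcases hu with rfl | rfl | rfl
    · exact hk
    · exact hi
    · exact hj
  have h4 : ({k, i, j} : Finset (Fin 7)).card = 3 :=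
    card_eq_three.2 ⟨k, i, j, hcon.1, hcon.2, hij, rfl⟩
  have := card_le_card h3
  have := card_forb h2 c q
  omega

/-- a point of `Q` with neighbours in two different classes has exactly one in each -/
theorem two_points (h2 : ∀ q, (univ.filter (fun w => q ∈ N w)).card ≤ 2)
    {q : Fin 7} {u v w : W} (hu : q ∈ N u) (hv : q ∈ N v) (huv : u ≠ v)
    (hw : q ∈ N w) : w = u ∨ w = v := by
  by_contra hcon
  push Not at hcon
  have h3 : ({w, u, v} : Finset W) ⊆ univ.filter (fun w => q ∈ N w) := by
    intro x hx
    rw [mem_insert, mem_insert, mem_singleton] at hx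
    rw [mem_filter]
    refine ⟨mem_univ _, ?_⟩
    rcases hx with rfl | rfl | rfl
    · exact hw
    · exact hu
    · exact hv
  have h4 : ({w, u, v} : Finset W).card = 3 := card_eq_three.2 ⟨w, u, v, hcon.1, hcon.2, huv, rfl⟩
  have := card_le_card h3
  have := h2 q
  omega

theorem step_A (D : Data H N) {c : W → Fin 7} (hI : Inv H N c) {i : Fin 7}
    (hi : bad N c i = univ) : ∃ c', Inv H N c' ∧
      (univ.filter (fun k => bad N c' k = univ)).card <
        (univ.filter (fun k => bad N c k = univ)).card := by
  classical
  obtain ⟨hc, hI2⟩ := hI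
  have hcl : (univ.filter (fun w => c w = i)).card ≤ 2 := by
    rcases hI2 i with h | h
    · exact h
    · exact absurd hi h.1
  obtain ⟨x, hx, hx4⟩ := exists_big (N := N) (t := 3) hcl (by
    rw [hi, card_univ, Fintype.card_fin]; norm_num)
  have dx := D.deg x
  have hNx := D.ne x
  obtain ⟨a, ha⟩ : ∃ a, a ∉ N x := by
    by_contra hcon
    push Not at hcon
    exact hNx (eq_univ_iff_forall.2 hcon)
  -- the target colour
  obtain ⟨j, hji, hjfree, hjbad⟩ : ∃ j, j ≠ i ∧ (∀ w, H.Adj x w → c w ≠ j) ∧
      bad N c j ∪ N x ≠ univ := by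
    obtain ⟨j1, hj1, hj1f⟩ := exists_free (H := H) c x {i} (by rw [card_singleton]; omega)
    obtain ⟨j2, hj2, hj2f⟩ := exists_free (H := H) c x {i, j1} (by
      have : ({i, j1} : Finset (Fin 7)).card ≤ 2 := card_le_two
      omega)
    rw [mem_singleton] at hj1
    rw [mem_insert, mem_singleton] at hj2
    push Not at hj2
    by_cases h1 : bad N c j1 ∪ N x = univ
    · refine ⟨j2, hj2.1, hj2f, ?_⟩
      intro h2
      have a1 : a ∈ bad N c j1 := by
        have : a ∈ bad N c j1 ∪ N x := by rw [h1]; exact mem_univ _
        exact (mem_union.1 this).resolve_right ha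
      have a2 : a ∈ bad N c j2 := by
        have : a ∈ bad N c j2 ∪ N x := by rw [h2]; exact mem_univ _
        exact (mem_union.1 this).resolve_right ha
      have a3 : a ∈ bad N c i := by rw [hi]; exact mem_univ _
      rcases two_classes D.two a3 a1 (Ne.symm hj1) a2 with h | h
      · exact hj2.1 h
      · exact hj2.2 h
    · exact ⟨j1, hj1, hj1f, h1⟩
  set c' := Function.update c x j with hc'
  have hbj : bad N c' j = bad N c j ∪ N x := bad_update_self c x j
  have hbk : ∀ k, k ≠ j → bad N c' k ⊆ bad N c k := fun k hk => bad_update_sub c x hk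
  -- the class `i` loses `x`
  have hcli : (univ.filter (fun w => c' w = i)) ⊆ (univ.filter (fun w => c w = i)).erase x := by
    intro w hw
    rw [mem_filter] at hw
    rw [mem_erase, mem_filter]
    by_cases h : w = x
    · subst h
      rw [hc', Function.update_self] at hw
      exact absurd hw.2 hji
    · rw [hc', Function.update_of_ne h] at hw
      exact ⟨h, mem_univ _, hw.2⟩
  have hcli2 : (univ.filter (fun w => c' w = i)).card ≤ 1 := by
    have h1 := card_le_card hcli
    rw [card_erase_of_mem (by simp [hx])] at h1
    omega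
  have hbi : bad N c' i ≠ univ := by
    intro h
    have h1 : (bad N c' i).card ≤ (univ.filter (fun w => c' w = i)).card * 6 := by
      apply card_biUnion_le_card_mul
      intro w _
      have h2 := D.ne w
      have h3 : (N w).card < (univ : Finset (Fin 7)).card :=
        card_lt_card ((ssubset_univ_iff).2 h2)
      rw [card_univ, Fintype.card_fin] at h3
      omega
    rw [h, card_univ, Fintype.card_fin] at h1
    omega
  refine ⟨c', ⟨proper_update hc hjfree, ?_⟩, ?_⟩
  · intro k
    by_cases hkj : k = j
    · subst hkj
      right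
      rw [hbj]
      exact ⟨hjbad, x, by rw [hc', Function.update_self], by omega⟩
    · by_cases hki : k = i
      · subst hki
        left; omega
      · have hsame : ∀ w, c' w = k ↔ c w = k := by
          intro w
          by_cases h : w = x
          · subst h
            rw [hc', Function.update_self, hx]
            exact ⟨fun h => absurd h.symm hkj, fun h => absurd h.symm hki⟩
          · rw [hc', Function.update_of_ne h]
        have hb : bad N c' k = bad N c k := by
          unfold bad
          simp only [hsame]
        rcases hI2 k with h | ⟨h1, y, hy, hy4⟩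
        · left
          simp only [hsame]; exact h
        · right
          rw [hb]
          exact ⟨h1, y, (hsame y).2 hy, hy4⟩
  · apply card_lt_card
    rw [ssubset_iff_of_subset]
    · exact ⟨i, by simp [hi], by simp [hbi]⟩
    · intro k hk
      rw [mem_filter] at hk ⊢
      refine ⟨mem_univ _, ?_⟩
      by_cases hkj : k = j
      · subst hkj
        rw [hbj] at hk
        exact absurd hk.2 hjbad
      · apply eq_univ_of_forall
        intro q
        apply hbk k hkj
        rw [hk.2]; exact mem_univ _

theorem exists_noA (D : Data H N) : ∀ (n : ℕ) (c : W → Fin 7), Inv H N c →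
    (univ.filter (fun k => bad N c k = univ)).card ≤ n →
    ∃ c', Inv H N c' ∧ ∀ k, bad N c' k ≠ univ := by
  intro n
  induction n with
  | zero =>
    intro c hI hn
    refine ⟨c, hI, fun k hk => ?_⟩
    have : 0 < (univ.filter (fun k => bad N c k = univ)).card := card_pos.2 ⟨k, by simp [hk]⟩
    omega
  | succ n ih =>
    intro c hI hn
    by_cases h : ∃ k, bad N c k = univ
    · obtain ⟨k, hk⟩ := h
      obtain ⟨c', hI', hlt⟩ := step_A D hI hk
      exact ih c' hI' (by omega)
    · push Not at h
      exact ⟨c, hI, h⟩

/-- moving a vertex out of one of the two conflicting classes -/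
theorem move_B (D : Data H N) {c : W → Fin 7} (hc : ∀ w w', H.Adj w w' → c w ≠ c w')
    (hA : ∀ k, bad N c k ≠ univ) {i i' : Fin 7} (hii : i ≠ i')
    (heq : bad N c i = bad N c i') (h6 : (bad N c i).card = 6) {x : W} (hx : c x = i)
    (hx3 : 3 ≤ (N x).card) (hxS : N x ≠ bad N c i) : Good H N := by
  classical
  set S := bad N c i with hS
  have hNS : N x ⊆ S := by
    intro q hq
    rw [hS, mem_bad]
    exact ⟨x, hx, hq⟩
  obtain ⟨z, hzS, hzx⟩ : ∃ z ∈ S, z ∉ N x := by
    by_contra hcon
    push Not at hcon
    exact hxS (subset_antisymm hNS hcon)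
  have dx := D.deg x
  obtain ⟨j, hj, hjf⟩ := exists_free (H := H) c x {i} (by rw [card_singleton]; omega)
  rw [mem_singleton] at hj
  set c' := Function.update c x j with hc'
  have hbj : bad N c' j = bad N c j ∪ N x := bad_update_self c x j
  have hbk : ∀ k, k ≠ j → bad N c' k ⊆ bad N c k := fun k hk => bad_update_sub c x hk
  -- `bad N c' i` misses `N x`
  have hbix : ∀ q ∈ N x, q ∉ bad N c' i := by
    intro q hq hqb
    rw [mem_bad] at hqb
    obtain ⟨w, hw, hqw⟩ := hqb
    have hwx : w ≠ x := by
      rintro rfl
      rw [hc', Function.update_self] at hw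
      exact hj hw
    rw [hc', Function.update_of_ne hwx] at hw
    have hq' : q ∈ bad N c i' := by rw [← heq]; exact hNS hq
    rw [mem_bad] at hq'
    obtain ⟨w', hw', hqw'⟩ := hq'
    have h1 : w ≠ w' := by
      rintro rfl
      exact hii (hw.symm.trans hw')
    rcases two_points D.two hqw hqw' h1 hq with h | h
    · exact hwx h.symm
    · exact hii (hx.symm.trans (by rw [h]; exact hw'))
  have hother : ∀ k, k ≠ i → k ≠ i' → ∀ q ∈ S, q ∉ bad N c k := by
    intro k hki hki' q hqS hqk
    rcases two_classes D.two (i := i) (j := i') hqS (by rw [← heq]; exact hqS) hii hqk with h | h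
    · exact hki h
    · exact hki' h
  apply good_of_hall D.two (proper_update hc hjf)
  · intro k hk
    change bad N c' k = univ at hk
    by_cases hkj : k = j
    · subst hkj
      have hz : z ∈ bad N c' k := by rw [hk]; exact mem_univ _
      by_cases hki' : k = i'
      · subst hki'
        rw [hbj, ← heq, union_eq_left.2 hNS] at hk
        exact hA i (by rw [← hS]; exact hk)
      · rw [hbj, mem_union] at hz
        exact hother k hj hki' z hzS (hz.resolve_right hzx)
    · apply hA k
      apply eq_univ_of_forall
      intro q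
      apply hbk k hkj
      rw [hk]; exact mem_univ _
  · -- no two classes conflict
    have hSuniv : ∃ q7, ∀ q, q ∉ S → q = q7 := by
      have h1 : Sᶜ.card = 1 := by rw [card_compl, Fintype.card_fin, h6]
      obtain ⟨q7, hq7⟩ := card_eq_one.1 h1
      refine ⟨q7, fun q hq => ?_⟩
      have : q ∈ Sᶜ := mem_compl.2 hq
      rw [hq7] at this
      exact mem_singleton.1 this
    obtain ⟨q7, hq7⟩ := hSuniv
    have hxcard : (N x).card < 6 := by
      rw [← h6]
      exact card_lt_card ((ssubset_iff_of_subset hNS).2 ⟨z, hzS, hzx⟩)
    -- main case distinction, for an ordered pair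
    have main : ∀ k l, k ≠ l → l ≠ j → (bad N c' k ∩ bad N c' l).card ≤ 5 := by
      intro k l hkl hlj
      by_cases hli' : l = i'
      · subst hli'
        -- `bad N c' l ⊆ S`
        have hlS : bad N c' l ⊆ S := by rw [heq]; exact hbk l hlj
        by_cases hkj : k = j
        · subst hkj
          have h1 : bad N c' k ∩ bad N c' l ⊆ N x := by
            intro q hq
            rw [mem_inter] at hq
            have hqS := hlS hq.2
            rw [hbj, mem_union] at hq
            rcases hq.1 with h | h
            · exact absurd h (hother k hj hlj.symm q hqS)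
            · exact h
          have := card_le_card h1
          omega
        · by_cases hki : k = i
          · subst hki
            have h1 : bad N c' k ∩ bad N c' l ⊆ S \ N x := by
              intro q hq
              rw [mem_inter] at hq
              rw [mem_sdiff]
              exact ⟨hlS hq.2, fun h => hbix q h hq.1⟩
            have h2 := card_le_card h1
            rw [card_sdiff_of_subset hNS, h6] at h2
            omega
          · have h1 : bad N c' k ∩ bad N c' l ⊆ ∅ := by
              intro q hq
              rw [mem_inter] at hq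
              exact absurd (hbk k hkj hq.1) (hother k hki hkl q (hlS hq.2))
            have := card_le_card h1
            rw [card_empty] at this
            omega
      · by_cases hli : l = i
        · subst hli
          have h1 : bad N c' k ∩ bad N c' l ⊆ S \ N x := by
            intro q hq
            rw [mem_inter] at hq
            rw [mem_sdiff]
            exact ⟨hbk l hlj hq.2, fun h => hbix q h hq.2⟩
          have h2 := card_le_card h1
          rw [card_sdiff_of_subset hNS, h6] at h2
          omega
        · have h1 : bad N c' k ∩ bad N c' l ⊆ {q7} := by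
            intro q hq
            rw [mem_inter] at hq
            rw [mem_singleton]
            apply hq7
            intro hqS
            exact hother l hli hli' q hqS (hbk l hlj hq.2)
          have := card_le_card h1
          rw [card_singleton] at this
          omega
    intro k l hkl
    by_cases hlj : l = j
    · rw [inter_comm]
      apply main l k hkl.symm
      rw [← hlj]; exact hkl
    · exact main k l hkl hlj

theorem good_of_inv (D : Data H N) {c : W → Fin 7} (hI : Inv H N c) : Good H N := by
  classical
  obtain ⟨c', ⟨hc, hI2⟩, hA⟩ := exists_noA D _ c hI le_rfl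
  by_cases hB : ∀ i j, i ≠ j → (bad N c' i ∩ bad N c' j).card ≤ 5
  · exact good_of_hall D.two hc hA hB
  · push Not at hB
    obtain ⟨i, j, hij, h5⟩ := hB
    have hle : ∀ k, (bad N c' k).card ≤ 6 := by
      intro k
      have h3 : (bad N c' k).card < (univ : Finset (Fin 7)).card :=
        card_lt_card ((ssubset_univ_iff).2 (hA k))
      rw [card_univ, Fintype.card_fin] at h3
      omega
    have h1 : bad N c' i ∩ bad N c' j = bad N c' i :=
      eq_of_subset_of_card_le inter_subset_left (by have := hle i; omega)
    have h2 : bad N c' i ∩ bad N c' j = bad N c' j :=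
      eq_of_subset_of_card_le inter_subset_right (by have := hle j; omega)
    have heq : bad N c' i = bad N c' j := h1.symm.trans h2
    have h6 : (bad N c' i).card = 6 := by
      have := hle i
      rw [h1] at h5
      omega
    have hbig : ∀ k, (bad N c' k).card = 6 → ∃ x, c' x = k ∧ 3 ≤ (N x).card := by
      intro k hk
      rcases hI2 k with h | ⟨_, y, hy, hy4⟩
      · exact exists_big (N := N) (t := 2) h (by omega)
      · exact ⟨y, hy, by omega⟩
    obtain ⟨x, hx, hx3⟩ := hbig i h6
    obtain ⟨y, hy, hy3⟩ := hbig j (by rw [← heq]; exact h6)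
    by_cases hxS : N x = bad N c' i
    · by_cases hyS : N y = bad N c' j
      · have hxy : x ≠ y := by
          rintro rfl
          exact hij (hx.symm.trans hy)
        exact good_of_twins D hc hxy (by rw [hxS, hyS, heq]) (by rw [hxS]; exact h6)
      · exact move_B D hc hA hij.symm heq.symm (by rw [← heq]; exact h6) hy hy3 hyS
    · exact move_B D hc hA hij heq h6 hx hx3 hxS

end Pool.Agent.R87.Seven
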