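import Pool.Agent.R87.SevenMain

/-!
# Graphs on at most 21 vertices with a 7-clique, no 8-clique and maximum degree at most 8
-/

set_option autoImplicit false
set_option linter.unusedSectionVars false

namespace Pool.Agent.R87.Seven

open Finset

variable {V : Type} [Fintype V] [DecidableEq V]

/-- the graph induced outside `s`, with `m` isolated vertices added -/
def padded (G : SimpleGraph V) (s : Finset V) (m : ℕ) : SimpleGraph ({v // v ∉ s} ⊕ Fin m) where
  Adj x y := match x, y with
    | Sum.inl a, Sum.inl b => G.Adj a.1 b.1
    | _, _ => False
  symm := ⟨by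
    rintro (a | a) (b | b) h
    · exact SimpleGraph.Adj.symm h
    · exact h
    · exact h
    · exact h⟩
  loopless := ⟨by
    rintro (a | a) h
    · exact G.loopless.irrefl _ h
    · exact h⟩

theorem colorable7 (G : SimpleGraph V) [DecidableRel G.Adj] (hcard : Fintype.card V ≤ 21)
    (hcl : G.CliqueFree 8) {s : Finset V} (hs : G.IsNClique 7 s) (hdeg : ∀ v, G.degree v ≤ 8) :
    G.Colorable 7 := by
  classical
  set m : ℕ := 21 - Fintype.card V with hm
  have hs7 : s.card = 7 := hs.card_eq
  have hsc : ∀ a ∈ s, ∀ b ∈ s, a ≠ b → G.Adj a b := by
    intro a ha b hb hab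
    exact hs.isClique ha hb hab
  let e : Fin 7 ≃ s := (s.equivFinOfCardEq hs7).symm
  have hes : ∀ q, (e q : V) ∈ s := fun q => (e q).2
  have heinj : Function.Injective (fun q => (e q : V)) := fun a b h =>
    e.injective (Subtype.ext h)
  let W := {v // v ∉ s} ⊕ Fin m
  let H : SimpleGraph W := padded G s m
  let N : W → Finset (Fin 7) := fun w => match w with
    | Sum.inl a => univ.filter (fun q => G.Adj a.1 (e q))
    | Sum.inr _ => ∅
  have hNl : ∀ (a : {v // v ∉ s}) (q : Fin 7), q ∈ N (Sum.inl a) ↔ G.Adj a.1 (e q) := by
    intro a q
    simp only [N, mem_filter, mem_univ, true_and]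
  have hNr : ∀ i : Fin m, N (Sum.inr i) = ∅ := fun i => rfl
  have hHl : ∀ (a b : {v // v ∉ s}), H.Adj (Sum.inl a) (Sum.inl b) ↔ G.Adj a.1 b.1 :=
    fun a b => Iff.rfl
  have hWcard : Fintype.card W = 14 := by
    have h1 : Fintype.card W = Fintype.card {v // v ∉ s} + Fintype.card (Fin m) :=
      Fintype.card_sum
    rw [h1, Fintype.card_fin, Fintype.card_subtype_compl, Fintype.card_coe, hs7]
    have h2 := card_le_univ s
    omega
  -- cliques of `G`
  have hclq : ∀ t : Finset V, (∀ a ∈ t, ∀ b ∈ t, a ≠ b → G.Adj a b) → t.card ≠ 8 := by
    intro t ht htc
    apply hcl t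
    rw [SimpleGraph.isNClique_iff, SimpleGraph.isClique_iff]
    exact ⟨fun a ha b hb hab => ht a ha b hb hab, htc⟩
  have D : Data H N := by
    refine ⟨?_, ?_, ?_, ?_, ?_⟩
    · rintro (a | i)
      · have h1 : (H.degree (Sum.inl a)) ≤ ((G.neighborFinset a.1).filter (fun v => v ∉ s)).card := by
          rw [← SimpleGraph.card_neighborFinset_eq_degree]
          apply card_le_card_of_injOn (fun w : W => match w with
            | Sum.inl b => (b.1 : V)
            | Sum.inr _ => a.1)
          · rintro (b | i) hb
            · rw [mem_coe, SimpleGraph.mem_neighborFinset] at hb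
              rw [mem_coe, mem_filter, SimpleGraph.mem_neighborFinset]
              exact ⟨hb, b.2⟩
            · rw [mem_coe, SimpleGraph.mem_neighborFinset] at hb
              exact absurd hb id
          · rintro (b | i) hb (b' | i') hb' h
            · have : b = b' := Subtype.ext h
              rw [this]
            · rw [mem_coe, SimpleGraph.mem_neighborFinset] at hb'
              exact absurd hb' id
            · rw [mem_coe, SimpleGraph.mem_neighborFinset] at hb
              exact absurd hb id
            · rw [mem_coe, SimpleGraph.mem_neighborFinset] at hb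
              exact absurd hb id
        have h2 : (N (Sum.inl a)).card ≤ ((G.neighborFinset a.1).filter (fun v => ¬ v ∉ s)).card := by
          apply card_le_card_of_injOn (fun q => (e q : V))
          · intro q hq
            rw [mem_coe, hNl] at hq
            rw [mem_coe, mem_filter, SimpleGraph.mem_neighborFinset]
            exact ⟨hq, fun h => h (hes q)⟩
          · intro q _ q' _ h
            exact heinj h
        have h3 := card_filter_add_card_filter_not (s := G.neighborFinset a.1) (fun v => v ∉ s)
        rw [SimpleGraph.card_neighborFinset_eq_degree] at h3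
        have := hdeg a.1
        omega
      · have h1 : H.degree (Sum.inr i) = 0 := by
          rw [← SimpleGraph.card_neighborFinset_eq_degree, card_eq_zero,
            eq_empty_iff_forall_notMem]
          intro w hw
          rw [SimpleGraph.mem_neighborFinset] at hw
          rcases w with b | j <;> exact hw
        rw [h1, hNr i]; simp
    · intro q
      have h1 : (univ.filter (fun w : W => q ∈ N w)).card ≤
          ((G.neighborFinset (e q)).filter (fun v => v ∉ s)).card := by
        apply card_le_card_of_injOn (fun w : W => match w with
            | Sum.inl b => (b.1 : V)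
            | Sum.inr _ => (e q : V))
        · rintro (b | i) hb
          · rw [mem_coe, mem_filter, hNl] at hb
            rw [mem_coe, mem_filter, SimpleGraph.mem_neighborFinset]
            exact ⟨hb.2.symm, b.2⟩
          · rw [mem_coe, mem_filter, hNr i] at hb
            exact absurd hb.2 (by simp)
        · rintro (b | i) hb (b' | i') hb' h
          · have : b = b' := Subtype.ext h
            rw [this]
          · rw [mem_coe, mem_filter, hNr i'] at hb'
            exact absurd hb'.2 (by simp)
          · rw [mem_coe, mem_filter, hNr i] at hb
            exact absurd hb.2 (by simp)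
          · rw [mem_coe, mem_filter, hNr i] at hb
            exact absurd hb.2 (by simp)
      have h2 : 6 ≤ ((G.neighborFinset (e q)).filter (fun v => ¬ v ∉ s)).card := by
        have h4 : (s.erase (e q)).card = 6 := by rw [card_erase_of_mem (hes q), hs7]
        rw [← h4]
        apply card_le_card
        intro v hv
        rw [mem_erase] at hv
        rw [mem_filter, SimpleGraph.mem_neighborFinset]
        exact ⟨hsc _ (hes q) _ hv.2 hv.1.symm, fun h => h hv.2⟩
      have h3 := card_filter_add_card_filter_not (s := G.neighborFinset (e q : V)) (fun v => v ∉ s)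
      rw [SimpleGraph.card_neighborFinset_eq_degree] at h3
      have := hdeg (e q : V)
      omega
    · rintro (a | i) h
      · apply hclq (insert a.1 s)
        · intro x hx y hy hxy
          have hall : ∀ z ∈ s, G.Adj a.1 z := by
            intro z hz
            have h1 : e.symm ⟨z, hz⟩ ∈ N (Sum.inl a) := by rw [h]; exact mem_univ _
            rw [hNl] at h1
            simpa using h1
          rw [mem_insert] at hx hy
          rcases hx with rfl | hx <;> rcases hy with rfl | hy
          · exact absurd rfl hxy
          · exact hall y hy
          · exact (hall x hx).symm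
          · exact hsc x hx y hy hxy
        · rw [card_insert_of_notMem a.2, hs7]
      · rw [hNr i] at h
        have : (0 : Fin 7) ∈ (∅ : Finset (Fin 7)) := by rw [h]; exact mem_univ _
        simp at this
    · rintro (a | i) (b | j) hadj
      · by_contra hcon
        push Not at hcon
        obtain ⟨t, ht, htc⟩ := exists_subset_card_eq (s := N (Sum.inl a) ∩ N (Sum.inl b)) (n := 6)
          (by omega)
        have hta : ∀ q ∈ t, G.Adj a.1 (e q) ∧ G.Adj b.1 (e q) := by
          intro q hq
          have h1 := ht hq
          rw [mem_inter, hNl, hNl] at h1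
          exact h1
        have hab : G.Adj a.1 b.1 := hadj
        have himg : ∀ x, x ∈ t.image (fun q => (e q : V)) → x ∈ s := by
          intro x hx
          rw [mem_image] at hx
          obtain ⟨q, _, rfl⟩ := hx
          exact hes q
        apply hclq (insert a.1 (insert b.1 (t.image (fun q => (e q : V)))))
        · intro x hx y hy hxy
          rw [mem_insert, mem_insert] at hx hy
          rcases hx with rfl | rfl | hx <;> rcases hy with rfl | rfl | hy
          · exact absurd rfl hxy
          · exact hab
          · rw [mem_image] at hy
            obtain ⟨q, hq, rfl⟩ := hy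
            exact (hta q hq).1
          · exact hab.symm
          · exact absurd rfl hxy
          · rw [mem_image] at hy
            obtain ⟨q, hq, rfl⟩ := hy
            exact (hta q hq).2
          · rw [mem_image] at hx
            obtain ⟨q, hq, rfl⟩ := hx
            exact (hta q hq).1.symm
          · rw [mem_image] at hx
            obtain ⟨q, hq, rfl⟩ := hx
            exact (hta q hq).2.symm
          · exact hsc x (himg x hx) y (himg y hy) hxy
        · rw [card_insert_of_notMem, card_insert_of_notMem, card_image_of_injective _ heinj, htc]
          · exact fun h => b.2 (himg _ h)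
          · rw [mem_insert]
            rintro (h | h)
            · exact hab.ne h
            · exact a.2 (himg _ h)
      · exact absurd hadj id
      · exact absurd hadj id
      · exact absurd hadj id
    · intro t ht
      rw [SimpleGraph.isNClique_iff, SimpleGraph.isClique_iff] at ht
      obtain ⟨ht1, ht2⟩ := ht
      have hinl : ∀ w ∈ t, ∃ a, w = Sum.inl a := by
        intro w hw
        obtain ⟨w', hw', hne⟩ := exists_mem_ne (s := t) (by omega) w
        have h1 := ht1 hw hw' hne.symm
        rcases w with a | i
        · exact ⟨a, rfl⟩
        · exact absurd h1 (by rcases w' with b | j <;> exact id)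
      apply hclq (t.image (fun w : W => match w with
            | Sum.inl b => (b.1 : V)
            | Sum.inr _ => (e 0 : V)))
      · intro x hx y hy hxy
        rw [mem_image] at hx hy
        obtain ⟨w, hw, rfl⟩ := hx
        obtain ⟨w', hw', rfl⟩ := hy
        obtain ⟨a, rfl⟩ := hinl w hw
        obtain ⟨b, rfl⟩ := hinl w' hw'
        have h1 : (Sum.inl a : W) ≠ Sum.inl b := by
          intro h
          rw [h] at hxy
          exact hxy rfl
        exact ht1 hw hw' h1
      · rw [card_image_of_injOn, ht2]
        intro w hw w' hw' h
        obtain ⟨a, rfl⟩ := hinl w hw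
        obtain ⟨b, rfl⟩ := hinl w' hw'
        have : a = b := Subtype.ext h
        rw [this]
  obtain ⟨c, σ, hσ, hc1, hc2⟩ := good_main D hWcard
  refine ⟨SimpleGraph.Coloring.mk
    (fun v => if h : v ∈ s then σ (e.symm ⟨v, h⟩) else c (Sum.inl ⟨v, h⟩)) ?_⟩
  intro u v huv
  have hcross : ∀ (x : V) (hx : x ∉ s) (y : V) (hy : y ∈ s), G.Adj x y →
      c (Sum.inl ⟨x, hx⟩) ≠ σ (e.symm ⟨y, hy⟩) := by
    intro x hx y hy hxy
    apply hc2
    rw [hNl]
    simpa using hxy
  by_cases hu : u ∈ s <;> by_cases hv : v ∈ s
  · simp only [hu, hv, dif_pos]
    intro h
    have h1 := e.symm.injective (hσ h)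
    have h2 : u = v := by simpa using h1
    exact huv.ne h2
  · simp only [hu, hv, dif_pos, dif_neg, not_false_eq_true]
    exact (hcross v hv u hu huv.symm).symm
  · simp only [hu, hv, dif_pos, dif_neg, not_false_eq_true]
    exact hcross u hu v hv huv
  · simp only [hu, hv, dif_neg, not_false_eq_true]
    exact hc1 _ _ ((hHl ⟨u, hu⟩ ⟨v, hv⟩).2 huv)

end Pool.Agent.R87.Seven
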