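import Pool.Agent.R87.SevenTutte

/-!
# The theorem on fourteen vertices
-/

set_option autoImplicit false
set_option linter.unusedSectionVars false

namespace Pool.Agent.R87.Seven

open Finset

variable {W : Type} [Fintype W] [DecidableEq W]
variable {H : SimpleGraph W} [DecidableRel H.Adj] {N : W → Finset (Fin 7)}

theorem bad_card_le {c : W → Fin 7} {i : Fin 7} {a t : ℕ}
    (h1 : (univ.filter (fun w => c w = i)).card ≤ a) (h2 : ∀ w, c w = i → (N w).card ≤ t) :
    (bad N c i).card ≤ a * t := by
  refine le_trans (card_biUnion_le_card_mul _ _ t ?_) (Nat.mul_le_mul_right _ h1)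
  intro w hw
  rw [mem_filter] at hw
  exact h2 w hw.2

theorem good_of_small (D : Data H N) {c : W → Fin 7} (hc : ∀ w w', H.Adj w w' → c w ≠ c w')
    (h5 : ∀ i, (bad N c i).card ≤ 5) : Good H N := by
  apply good_of_hall D.two hc
  · intro i h
    have := h5 i
    rw [h, card_univ, Fintype.card_fin] at this
    omega
  · intro i j _
    exact (card_le_card inter_subset_left).trans (h5 i)

theorem fin7_val : ∀ j : Fin 7, j ≠ 0 → j ≠ 1 → j ≠ 2 → j ≠ 3 → j ≠ 4 → j ≠ 5 → j = 6 := by
  intro j
  fin_cases j <;> simp

/-- two sides of size seven, completely joined -/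
theorem good_bipartite (D : Data H N) {A B : Finset W} (hA : A.card = 7) (hB : B.card = 7)
    (hd : Disjoint A B) (hu : ∀ w, w ∈ A ∨ w ∈ B) (hAB : ∀ a ∈ A, ∀ b ∈ B, H.Adj a b) :
    Good H N := by
  classical
  -- within a side the degree is at most one
  have key : ∀ (A B : Finset W), B.card = 7 → Disjoint A B → (∀ a ∈ A, ∀ b ∈ B, H.Adj a b) →
      ∀ a ∈ A, (A.filter (fun a' => H.Adj a a')).card + (N a).card ≤ 1 := by
    intro A B hB hd hAB a ha
    have h1 : A.filter (fun a' => H.Adj a a') ∪ B ⊆ H.neighborFinset a := by
      intro w hw
      rw [mem_union, mem_filter] at hw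
      rw [SimpleGraph.mem_neighborFinset]
      rcases hw with h | h
      · exact h.2
      · exact hAB a ha w h
    have h2 : Disjoint (A.filter (fun a' => H.Adj a a')) B := hd.mono_left (filter_subset _ _)
    have h3 := card_le_card h1
    rw [card_union_of_disjoint h2, hB, SimpleGraph.card_neighborFinset_eq_degree] at h3
    have := D.deg a
    omega
  have kA := key A B hB hd hAB
  have kB := key B A hA hd.symm (fun b hb a ha => (hAB a ha b hb).symm)
  obtain ⟨A0, hA0, hA0c⟩ := exists_subset_card_eq (s := A) (n := 4) (by omega)
  obtain ⟨B0, hB0, hB0c⟩ := exists_subset_card_eq (s := B) (n := 4) (by omega)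
  -- an ordering
  let r : W → ℕ := fun w => (Fintype.equivFin W w : ℕ)
  have hr : Function.Injective r := fun a b h =>
    (Fintype.equivFin W).injective (Fin.val_injective h)
  let sm : W → Prop := fun w => ∃ w', (w ∈ A ↔ w' ∈ A) ∧ H.Adj w w' ∧ r w' < r w
  let c : W → Fin 7 := fun w =>
    if w ∈ A then (if sm w then 1 else if w ∈ A0 then 0 else 2)
    else (if sm w then 4 else if w ∈ B0 then 3 else 5)
  -- uniqueness of the neighbour inside a side
  have uniq : ∀ w w1 w2, (w ∈ A ↔ w1 ∈ A) → (w ∈ A ↔ w2 ∈ A) → H.Adj w w1 → H.Adj w w2 →
      w1 = w2 := by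
    intro w w1 w2 h1 h2 h3 h4
    by_contra hne
    by_cases hw : w ∈ A
    · have h5 : ({w1, w2} : Finset W) ⊆ A.filter (fun a' => H.Adj w a') := by
        intro x hx
        rw [mem_insert, mem_singleton] at hx
        rw [mem_filter]
        rcases hx with rfl | rfl
        · exact ⟨h1.1 hw, h3⟩
        · exact ⟨h2.1 hw, h4⟩
      have h6 := card_le_card h5
      rw [card_pair hne] at h6
      have := kA w hw
      omega
    · have hwB : ∀ x, x ∉ A → x ∈ B := fun x hx => (hu x).resolve_left hx
      have h5 : ({w1, w2} : Finset W) ⊆ B.filter (fun a' => H.Adj w a') := by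
        intro x hx
        rw [mem_insert, mem_singleton] at hx
        rw [mem_filter]
        rcases hx with rfl | rfl
        · exact ⟨hwB _ (fun h => hw (h1.2 h)), h3⟩
        · exact ⟨hwB _ (fun h => hw (h2.2 h)), h4⟩
      have h6 := card_le_card h5
      rw [card_pair hne] at h6
      have := kB w (hwB w hw)
      omega
  have hone : ∀ w w', (w ∈ A ↔ w' ∈ A) → H.Adj w w' → r w' < r w → sm w ∧ ¬ sm w' := by
    intro w w' h1 h2 h3
    refine ⟨⟨w', h1, h2, h3⟩, ?_⟩
    rintro ⟨w'', h4, h5, h6⟩
    have : w = w'' := uniq w' w w'' h1.symm h4 h2.symm h5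
    rw [← this] at h6
    omega
  have hprop : ∀ w w', H.Adj w w' → c w ≠ c w' := by
    have aux : ∀ w w', (w ∈ A ↔ w' ∈ A) → H.Adj w w' → r w' < r w → c w ≠ c w' := by
      intro w w' h1 h2 h3
      obtain ⟨h4, h5⟩ := hone w w' h1 h2 h3
      by_cases hw : w ∈ A
      · have hw' := h1.1 hw
        simp only [c, hw, hw', h4, h5, if_true, if_false]
        split_ifs <;> decide
      · have hw' : w' ∉ A := fun h => hw (h1.2 h)
        simp only [c, hw, hw', h4, h5, if_true, if_false]
        split_ifs <;> decide
    intro w w' h
    by_cases hs : (w ∈ A ↔ w' ∈ A)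
    · rcases lt_trichotomy (r w) (r w') with h1 | h1 | h1
      · exact (aux w' w hs.symm h.symm h1).symm
      · exact absurd (hr h1) h.ne
      · exact aux w w' hs h h1
    · by_cases hw : w ∈ A
      · have hw' : w' ∉ A := fun h' => hs ⟨fun _ => h', fun _ => hw⟩
        simp only [c, hw, hw', if_true, if_false]
        split_ifs <;> decide
      · have hw' : w' ∈ A := by
          by_contra h'
          exact hs ⟨fun h => absurd h hw, fun h => absurd h h'⟩
        simp only [c, hw, hw', if_true, if_false]
        split_ifs <;> decide
  -- the number of neighbours in `Q`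
  have hN1 : ∀ w, (N w).card ≤ 1 := by
    intro w
    rcases hu w with h | h
    · have := kA w h; omega
    · have := kB w h; omega
  have hN0 : ∀ w, sm w → (N w).card ≤ 0 := by
    rintro w ⟨w', h1, h2, _⟩
    by_cases hw : w ∈ A
    · have h3 : 0 < (A.filter (fun a' => H.Adj w a')).card :=
        card_pos.2 ⟨w', mem_filter.2 ⟨h1.1 hw, h2⟩⟩
      have := kA w hw; omega
    · have hwB : ∀ x, x ∉ A → x ∈ B := fun x hx => (hu x).resolve_left hx
      have h3 : 0 < (B.filter (fun a' => H.Adj w a')).card :=
        card_pos.2 ⟨w', mem_filter.2 ⟨hwB _ (fun h => hw (h1.2 h)), h2⟩⟩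
      have := kB w (hwB w hw); omega
  have hsm : ∀ w, (c w = 1 ∨ c w = 4) → sm w := by
    intro w hw
    by_contra h
    by_cases hwA : w ∈ A
    · simp only [c, hwA, h, if_true, if_false] at hw
      split_ifs at hw <;> revert hw <;> decide
    · simp only [c, hwA, h, if_false] at hw
      split_ifs at hw <;> revert hw <;> decide
  have hcl : ∀ (i : Fin 7) (X : Finset W), (∀ w, c w = i → w ∈ X) → X.card ≤ 4 →
      (bad N c i).card ≤ 5 := by
    intro i X hX hX4
    have h1 : (univ.filter (fun w => c w = i)).card ≤ 4 := by
      refine (card_le_card ?_).trans hX4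
      intro w hw
      rw [mem_filter] at hw
      exact hX w hw.2
    have := bad_card_le (N := N) h1 (t := 1) (fun w _ => hN1 w)
    omega
  apply good_of_small D hprop
  intro i
  have hz : (c · = i) = (c · = i) := rfl
  by_cases hi14 : i = 1 ∨ i = 4
  · have h1 : (bad N c i).card ≤ Fintype.card W * 0 := by
      apply bad_card_le (card_le_univ _)
      intro w hw
      apply hN0 w (hsm w _)
      rw [hw]; exact hi14
    omega
  · push Not at hi14
    by_cases hi0 : i = 0
    · apply hcl i A0 _ hA0c.le
      intro w hw
      rw [hi0] at hw
      by_contra h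
      simp only [c, h, if_false] at hw
      split_ifs at hw <;> revert hw <;> decide
    · by_cases hi2 : i = 2
      · apply hcl i (A \ A0) _ (by rw [card_sdiff_of_subset hA0]; omega)
        intro w hw
        rw [hi2] at hw
        rw [mem_sdiff]
        by_contra h
        have h' : w ∈ A → w ∈ A0 := by
          intro h1; by_contra h2; exact h ⟨h1, h2⟩
        by_cases hwA : w ∈ A
        · simp only [c, hwA, h' hwA, if_true] at hw
          split_ifs at hw <;> revert hw <;> decide
        · simp only [c, hwA, if_false] at hw
          split_ifs at hw <;> revert hw <;> decide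
      · by_cases hi3 : i = 3
        · apply hcl i B0 _ hB0c.le
          intro w hw
          rw [hi3] at hw
          by_contra h
          simp only [c, h, if_false] at hw
          split_ifs at hw <;> revert hw <;> decide
        · by_cases hi5 : i = 5
          · apply hcl i (B \ B0) _ (by rw [card_sdiff_of_subset hB0]; omega)
            intro w hw
            rw [hi5] at hw
            rw [mem_sdiff]
            by_contra h
            by_cases hwA : w ∈ A
            · simp only [c, hwA, if_true] at hw
              split_ifs at hw <;> revert hw <;> decide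
            · have hwB : w ∈ B := (hu w).resolve_left hwA
              have hwB0 : w ∈ B0 := by
                by_contra h2; exact h ⟨hwB, h2⟩
              simp only [c, hwA, hwB0, if_false, if_true] at hw
              split_ifs at hw <;> revert hw <;> decide
          · apply hcl i ∅ _ (by simp)
            intro w hw
            exfalso
            have hi6 := fin7_val i hi0 hi14.1 hi2 hi3 hi14.2 hi5
            rw [hi6] at hw
            simp only [c] at hw
            split_ifs at hw <;> revert hw <;> decide

/-- the exceptional graph with a clique `X` on six vertices joined to a set `C` of three -/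
theorem good_exceptional (D : Data H N) {X T C : Finset W} (hX : X.card = 6) (hT : T.card = 5)
    (hC : C.card = 3) (hXT : Disjoint X T) (hXC : Disjoint X C) (hTC : Disjoint T C)
    (hu : ∀ w, w ∈ X ∨ w ∈ T ∨ w ∈ C) (hXX : ∀ x ∈ X, ∀ x' ∈ X, x ≠ x' → H.Adj x x')
    (hXCa : ∀ x ∈ X, ∀ y ∈ C, H.Adj x y) : Good H N := by
  classical
  -- the vertices of `X` have no other neighbours
  have hXnb : ∀ x ∈ X, (∀ t ∈ T, ¬ H.Adj x t) ∧ N x = ∅ := by
    intro x hx
    have h1 : X.erase x ∪ C ⊆ H.neighborFinset x := by
      intro w hw
      rw [mem_union, mem_erase] at hw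
      rw [SimpleGraph.mem_neighborFinset]
      rcases hw with h | h
      · exact hXX x hx w h.2 h.1.symm
      · exact hXCa x hx w h
    have h2 : Disjoint (X.erase x) C := hXC.mono_left (erase_subset _ _)
    have h3 : (X.erase x ∪ C).card = 8 := by
      rw [card_union_of_disjoint h2, card_erase_of_mem hx, hX, hC]
    have h4 := D.deg x
    have h5 := card_le_card h1
    rw [h3, SimpleGraph.card_neighborFinset_eq_degree] at h5
    refine ⟨?_, card_eq_zero.1 (by omega)⟩
    intro t ht hadj
    have h6 : insert t (X.erase x ∪ C) ⊆ H.neighborFinset x := by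
      intro w hw
      rw [mem_insert] at hw
      rcases hw with rfl | h
      · rw [SimpleGraph.mem_neighborFinset]; exact hadj
      · exact h1 h
    have h7 : t ∉ X.erase x ∪ C := by
      rw [mem_union, mem_erase]
      rintro (h | h)
      · exact (Finset.disjoint_left.1 hXT) h.2 ht
      · exact (Finset.disjoint_left.1 hTC) ht h
    have h8 := card_le_card h6
    rw [card_insert_of_notMem h7, h3, SimpleGraph.card_neighborFinset_eq_degree] at h8
    omega
  -- `C` is independent
  have hCC : ∀ a ∈ C, ∀ b ∈ C, ¬ H.Adj a b := by
    intro a ha b hb hab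
    have haX : a ∉ X := fun h => (Finset.disjoint_left.1 hXC) h ha
    have hbX : b ∉ X := fun h => (Finset.disjoint_left.1 hXC) h hb
    apply D.k8 (insert a (insert b X))
    rw [SimpleGraph.isNClique_iff]
    constructor
    · rw [SimpleGraph.isClique_iff]
      intro u hu' v hv huv
      simp only [coe_insert, Set.mem_insert_iff, mem_coe] at hu' hv
      rcases hu' with rfl | rfl | h1 <;> rcases hv with rfl | rfl | h2
      · exact absurd rfl huv
      · exact hab
      · exact (hXCa v h2 u ha).symm
      · exact hab.symm
      · exact absurd rfl huv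
      · exact (hXCa v h2 u hb).symm
      · exact hXCa u h1 v ha
      · exact hXCa u h1 v hb
      · exact hXX u h1 v h2 huv
    · rw [card_insert_of_notMem, card_insert_of_notMem hbX, hX]
      rw [mem_insert]
      push Not
      exact ⟨hab.ne, haX⟩
  have hCnb : ∀ y ∈ C, (N y).card ≤ 2 ∧ ∀ t ∈ T, H.Adj y t → (N y).card ≤ 1 := by
    intro y hy
    have h1 : X ⊆ H.neighborFinset y := by
      intro w hw
      rw [SimpleGraph.mem_neighborFinset]
      exact (hXCa w hw y hy).symm
    have h4 := D.deg y
    have h5 := card_le_card h1
    rw [hX, SimpleGraph.card_neighborFinset_eq_degree] at h5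
    refine ⟨by omega, ?_⟩
    intro t ht hadj
    have h6 : insert t X ⊆ H.neighborFinset y := by
      intro w hw
      rw [mem_insert] at hw
      rcases hw with rfl | h
      · rw [SimpleGraph.mem_neighborFinset]; exact hadj
      · exact h1 h
    have h8 := card_le_card h6
    rw [card_insert_of_notMem (fun h => (Finset.disjoint_left.1 hXT) h ht), hX,
      SimpleGraph.card_neighborFinset_eq_degree] at h8
    omega
  -- the colouring
  let eX : X ≃ Fin 6 := X.equivFinOfCardEq hX
  let eT : T ≃ Fin 5 := T.equivFinOfCardEq hT
  let c : W → Fin 7 := fun w =>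
    if h : w ∈ X then (eX ⟨w, h⟩).castLE (by norm_num)
    else if h : w ∈ T then (eT ⟨w, h⟩).castLE (by norm_num) else 6
  have cX : ∀ w (h : w ∈ X), c w = (eX ⟨w, h⟩).castLE (by norm_num) := by
    intro w h; simp only [c, h, dif_pos]
  have nXT : ∀ w, w ∈ T → w ∉ X := fun w h h' => (Finset.disjoint_left.1 hXT) h' h
  have cT : ∀ w (h : w ∈ T), c w = (eT ⟨w, h⟩).castLE (by norm_num) := by
    intro w h
    have h' := nXT w h
    simp only [c, h', h, dif_pos, dif_neg, not_false_eq_true]
  have cC : ∀ w, w ∈ C → c w = 6 := by
    intro w h
    have h1 : w ∉ X := fun h' => (Finset.disjoint_left.1 hXC) h' h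
    have h2 : w ∉ T := fun h' => (Finset.disjoint_left.1 hTC) h' h
    simp only [c, h1, h2, dif_neg, not_false_eq_true]
  have vX : ∀ w, w ∈ X → (c w).val < 6 := by
    intro w h
    rw [cX w h, Fin.val_castLE]; exact (eX ⟨w, h⟩).2
  have vT : ∀ w, w ∈ T → (c w).val < 6 := by
    intro w h
    rw [cT w h, Fin.val_castLE]
    have := (eT ⟨w, h⟩).2
    omega
  have iT : ∀ w ∈ T, ∀ w' ∈ T, c w = c w' → w = w' := by
    intro w h w' h' heq
    rw [cT w h, cT w' h'] at heq
    have h1 := Fin.castLE_injective _ heq
    have h2 := eT.injective h1
    simpa using h2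
  have iX : ∀ w ∈ X, ∀ w' ∈ X, c w = c w' → w = w' := by
    intro w h w' h' heq
    rw [cX w h, cX w' h'] at heq
    have h1 := Fin.castLE_injective _ heq
    have h2 := eX.injective h1
    simpa using h2
  have hprop : ∀ w w', H.Adj w w' → c w ≠ c w' := by
    intro w w' hadj heq
    rcases hu w with h | h | h <;> rcases hu w' with h' | h' | h'
    · exact hadj.ne (iX w h w' h' heq)
    · exact (hXnb w h).1 w' h' hadj
    · have h1 := vX w h
      rw [heq, cC w' h'] at h1
      exact absurd h1 (by decide)
    · exact (hXnb w' h').1 w h hadj.symm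
    · exact hadj.ne (iT w h w' h' heq)
    · have h1 := vT w h
      rw [heq, cC w' h'] at h1
      exact absurd h1 (by decide)
    · have h1 := vX w' h'
      rw [← heq, cC w h] at h1
      exact absurd h1 (by decide)
    · have h1 := vT w' h'
      rw [← heq, cC w h] at h1
      exact absurd h1 (by decide)
    · exact hCC w h w' h' hadj
  -- the classes
  have hbk : ∀ k : Fin 7, k ≠ 6 → ∀ q ∈ bad N c k, ∃ t ∈ T, c t = k ∧ q ∈ N t := by
    intro k hk q hq
    rw [mem_bad] at hq
    obtain ⟨w, hw, hqw⟩ := hq
    rcases hu w with h | h | h
    · rw [(hXnb w h).2] at hqw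
      simp at hqw
    · exact ⟨w, h, hw, hqw⟩
    · rw [cC w h] at hw
      exact absurd hw.symm hk
  have hbk2 : ∀ k : Fin 7, k ≠ 6 → ∀ t ∈ T, c t = k → bad N c k ⊆ N t := by
    intro k hk t ht htk q hq
    obtain ⟨t', ht', h1, h2⟩ := hbk k hk q hq
    rw [iT t ht t' ht' (htk.trans h1.symm)]
    exact h2
  have hNcard : ∀ w, (N w).card ≤ 6 := by
    intro w
    have h3 : (N w).card < (univ : Finset (Fin 7)).card :=
      card_lt_card ((ssubset_univ_iff).2 (D.ne w))
    rw [card_univ, Fintype.card_fin] at h3
    omega
  have hb6 : bad N c 6 = C.biUnion N := by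
    ext q
    rw [mem_bad, mem_biUnion]
    constructor
    · rintro ⟨w, hw, hq⟩
      rcases hu w with h | h | h
      · have := vX w h
        rw [hw] at this
        exact absurd this (by decide)
      · have := vT w h
        rw [hw] at this
        exact absurd this (by decide)
      · exact ⟨w, h, hq⟩
    · rintro ⟨w, hw, hq⟩
      exact ⟨w, cC w hw, hq⟩
  have hb6c : (bad N c 6).card ≤ 6 := by
    rw [hb6]
    have := card_biUnion_le_card_mul C N 2 (fun w hw => (hCnb w hw).1)
    rw [hC] at this
    exact this
  have hA : ∀ k, bad N c k ≠ univ := by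
    intro k hk
    have h7 : (bad N c k).card = 7 := by rw [hk, card_univ, Fintype.card_fin]
    by_cases hk6 : k = 6
    · subst hk6; omega
    · have h0 : (0 : Fin 7) ∈ bad N c k := by rw [hk]; exact mem_univ _
      obtain ⟨t, ht, h1, _⟩ := hbk k hk6 0 h0
      have := card_le_card (hbk2 k hk6 t ht h1)
      have := hNcard t
      omega
  by_cases hex : (bad N c 6).card = 6 ∧ ∃ t ∈ T, N t = bad N c 6
  · obtain ⟨h6, t, ht, htN⟩ := hex
    set S := bad N c 6 with hS
    -- each vertex of `C` has two neighbours in `Q`
    have htC : ∀ y ∈ C, ¬ H.Adj y t := by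
      intro y hy hadj
      have h1 := (hCnb y hy).2 t ht hadj
      have h2 : (C.biUnion N).card ≤ (N y).card + ((C.erase y).biUnion N).card := by
        rw [← insert_erase hy, biUnion_insert]
        rw [insert_erase hy]
        exact card_union_le _ _
      have h3 := card_biUnion_le_card_mul (C.erase y) N 2
        (fun w hw => (hCnb w (mem_of_mem_erase hw)).1)
      rw [card_erase_of_mem hy, hC] at h3
      rw [← hb6, h6] at h2
      omega
    have hfree : ∀ w, H.Adj t w → c w ≠ 6 := by
      intro w hadj hw
      rcases hu w with h | h | h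
      · have := vX w h
        rw [hw] at this
        exact absurd this (by decide)
      · have := vT w h
        rw [hw] at this
        exact absurd this (by decide)
      · exact htC w h hadj.symm
    set c' := Function.update c t 6 with hc'
    have hb6' : bad N c' 6 = S := by
      rw [hc', bad_update_self, htN, ← hS, union_self]
    have hsub : ∀ k, k ≠ 6 → bad N c' k ⊆ bad N c k := fun k hk => bad_update_sub c t hk
    have hS0 : ∀ k, k ≠ 6 → ∀ q ∈ S, q ∉ bad N c' k := by
      intro k hk q hqS hqk
      rw [mem_bad] at hqk
      obtain ⟨w, hw, hqw⟩ := hqk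
      have hwt : w ≠ t := by
        rintro rfl
        rw [hc', Function.update_self] at hw
        exact hk hw.symm
      rw [hc', Function.update_of_ne hwt] at hw
      have h1 := hqS
      rw [hb6, mem_biUnion] at h1
      obtain ⟨y, hy, hqy⟩ := h1
      have h2 : q ∈ N t := by rw [htN]; exact hqS
      have hyt : y ≠ t := by
        rintro rfl
        exact (Finset.disjoint_left.1 hTC) ht hy
      rcases two_points D.two hqy h2 hyt hqw with h | h
      · rw [h, cC y hy] at hw
        exact hk hw.symm
      · exact hwt h
    have hSc : Sᶜ.card = 1 := by rw [card_compl, Fintype.card_fin, h6]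
    apply good_of_hall D.two (proper_update hprop hfree)
    · intro k hk
      change bad N c' k = univ at hk
      by_cases hk6 : k = 6
      · subst hk6
        rw [hb6'] at hk
        rw [hk, card_univ, Fintype.card_fin] at h6
        omega
      · apply hA k
        apply eq_univ_of_forall
        intro q
        apply hsub k hk6
        rw [hk]; exact mem_univ _
    · have main : ∀ k l, k ≠ 6 → (bad N c' k ∩ bad N c' l).card ≤ 5 := by
        intro k l hk
        have h1 : bad N c' k ∩ bad N c' l ⊆ Sᶜ := by
          intro q hq
          rw [mem_inter] at hq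
          rw [mem_compl]
          exact fun h => hS0 k hk q h hq.1
        have := card_le_card h1
        omega
      intro k l hkl
      by_cases hk6 : k = 6
      · rw [inter_comm]
        apply main l k
        rw [← hk6]; exact hkl.symm
      · exact main k l hk6
  · by_cases hB : ∀ i j, i ≠ j → (bad N c i ∩ bad N c j).card ≤ 5
    · exact good_of_hall D.two hprop hA hB
    · push Not at hB
      -- a conflict between two classes
      have aux : ∀ i j, i ≠ j → j ≠ 6 → 5 < (bad N c i ∩ bad N c j).card → Good H N := by
        intro i j hij hj h5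
        obtain ⟨q, hq⟩ : (bad N c i ∩ bad N c j).Nonempty := card_pos.1 (by omega)
        rw [mem_inter] at hq
        obtain ⟨t, ht, htj, _⟩ := hbk j hj q hq.2
        have hNt : bad N c i ∩ bad N c j = N t := by
          apply eq_of_subset_of_card_le
          · exact inter_subset_right.trans (hbk2 j hj t ht htj)
          · have := hNcard t
            omega
        have hNt6 : (N t).card = 6 := by
          have := hNcard t
          rw [hNt] at h5
          omega
        by_cases hi : i = 6
        · subst hi
          exfalso
          apply hex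
          have h1 : bad N c 6 ∩ bad N c j = bad N c 6 := by
            apply eq_of_subset_of_card_le inter_subset_left
            omega
          refine ⟨?_, t, ht, ?_⟩
          · rw [← h1, hNt]; exact hNt6
          · rw [← hNt, h1]
        · obtain ⟨t', ht', hti, _⟩ := hbk i hi q hq.1
          have hNt' : bad N c i ∩ bad N c j = N t' := by
            apply eq_of_subset_of_card_le
            · exact inter_subset_left.trans (hbk2 i hi t' ht' hti)
            · have := hNcard t'
              omega
          have hne : t ≠ t' := by
            rintro rfl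
            exact hij (hti.symm.trans htj)
          exact good_of_twins D hprop hne (hNt.symm.trans hNt') hNt6
      obtain ⟨i, j, hij, h5⟩ := hB
      by_cases hj : j = 6
      · apply aux j i hij.symm (by rw [← hj]; exact hij)
        rw [inter_comm]; exact h5
      · exact aux i j hij hj h5

/-- the main theorem: the colouring always exists -/
theorem good_main (D : Data H N) (hW : Fintype.card W = 14) : Good H N := by
  classical
  by_cases hM : ∃ M : (Hᶜ).Subgraph, M.IsPerfectMatching
  · obtain ⟨c, hc, hc2⟩ := coloring_of_matching hM hW
    apply good_of_inv D (c := c)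
    refine ⟨?_, fun i => Or.inl (hc2 i)⟩
    intro w w' hadj heq
    rcases hc w w' heq with h | h
    · exact hadj.ne h
    · rw [SimpleGraph.compl_adj] at h
      exact h.2 hadj
  · obtain ⟨T, ι, hι, s, hcard, hodd, hdT, hdd, hadj⟩ := violator hM (by rw [hW]; decide)
    have hadj' : ∀ k, ∀ w ∈ s k, ∀ w', w' ∉ T → w' ∉ s k → H.Adj w w' := by
      intro k w hw w' h1 h2
      have h3 := hadj k w hw w' h1 h2
      rw [SimpleGraph.compl_adj] at h3
      push Not at h3
      exact h3 (fun h => h2 (h ▸ hw))
    have hsne : ∀ k, (s k).Nonempty := fun k => card_pos.1 (hodd k).pos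
    choose v hv using hsne
    have hvinj : Function.Injective v := by
      intro k k' h
      by_contra hne
      have h1 := hv k'
      rw [← h] at h1
      exact (Finset.disjoint_left.1 (hdd k k' hne)) (hv k) h1
    have hsT : ∀ k, ∀ w ∈ s k, w ∉ T := fun k w hw => Finset.disjoint_left.1 (hdT k) hw
    have hvadj : ∀ k k', k ≠ k' → H.Adj (v k) (v k') := by
      intro k k' hne
      apply hadj' k (v k) (hv k) (v k') (hsT k' _ (hv k'))
      exact Finset.disjoint_left.1 (hdd k' k (Ne.symm hne)) (hv k')
    -- at most seven components
    have hm7 : Fintype.card ι ≤ 7 := by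
      by_contra hcon
      push Not at hcon
      obtain ⟨K, _, hK⟩ := exists_subset_card_eq (s := (univ : Finset ι)) (n := 8)
        (by rw [card_univ]; omega)
      apply D.k8 (K.image v)
      rw [SimpleGraph.isNClique_iff, SimpleGraph.isClique_iff]
      constructor
      · intro a ha b hb hab
        rw [mem_coe, mem_image] at ha hb
        obtain ⟨k, _, rfl⟩ := ha
        obtain ⟨k', _, rfl⟩ := hb
        exact hvadj k k' (fun h => hab (by rw [h]))
      · rw [card_image_of_injective _ hvinj, hK]
    -- the union of the components
    have hU : (univ.biUnion s).card = ∑ k, (s k).card :=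
      card_biUnion (fun k _ k' _ h => hdd k k' h)
    have hUT : Disjoint (univ.biUnion s) T := by
      rw [disjoint_biUnion_left]
      exact fun k _ => hdT k
    have hsum : (∑ k, (s k).card) + T.card ≤ 14 := by
      rw [← hU, ← card_union_of_disjoint hUT, ← hW]
      exact card_le_univ _
    -- degrees
    have hdeg : ∀ k, ∀ w ∈ s k, 6 + (N w).card ≤ (s k).card + T.card := by
      intro k w hw
      have h1 : (univ \ (s k ∪ T)) ⊆ H.neighborFinset w := by
        intro w' hw'
        rw [mem_sdiff, mem_union] at hw'
        push Not at hw'
        rw [SimpleGraph.mem_neighborFinset]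
        exact hadj' k w hw w' hw'.2.2 hw'.2.1
      have h2 := card_le_card h1
      rw [card_sdiff_of_subset (subset_univ _), card_univ, hW, card_union_of_disjoint (hdT k),
        SimpleGraph.card_neighborFinset_eq_degree] at h2
      have := D.deg w
      omega
    have hsize : ∀ k, 6 ≤ (s k).card + T.card := by
      intro k
      have := hdeg k (v k) (hv k)
      omega
    have hlow : Fintype.card ι * (6 - T.card) ≤ ∑ k, (s k).card := by
      rw [← card_univ (α := ι), ← smul_eq_mul]
      apply card_nsmul_le_sum
      intro k _
      have := hsize k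
      omega
    have hT5 : T.card ≤ 5 := by omega
    have hmul : (T.card + 2) * (6 - T.card) + T.card ≤ 14 := by
      have := Nat.mul_le_mul_right (6 - T.card) hcard
      omega
    have hcases : T.card = 0 ∨ T.card = 5 := by
      generalize T.card = t at hT5 hmul
      interval_cases t <;> omega
    rcases hcases with h0 | h5
    · -- two components of size seven
      have hs7 : ∀ k, 7 ≤ (s k).card := by
        intro k
        have h1 := hsize k
        have h2 := hodd k
        rcases Nat.lt_or_ge (s k).card 7 with h | h
        · have h3 : (s k).card = 6 := by omega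
          rw [h3] at h2
          exact absurd h2 (by decide)
        · exact h
      have hlow7 : Fintype.card ι * 7 ≤ ∑ k, (s k).card := by
        rw [← card_univ (α := ι), ← smul_eq_mul]
        exact card_nsmul_le_sum _ _ _ (fun k _ => hs7 k)
      have hι2 : Fintype.card ι = 2 := by omega
      obtain ⟨k1, k2, h12, huniv⟩ := card_eq_two.1 (card_univ.trans hι2)
      have hsum2 : ∑ k, (s k).card = (s k1).card + (s k2).card := by
        rw [huniv, sum_pair h12]
      have e1 := hs7 k1
      have e2 := hs7 k2
      have hA7 : (s k1).card = 7 := by omega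
      have hB7 : (s k2).card = 7 := by omega
      have hd := hdd k1 k2 h12
      have hT0 : T = ∅ := card_eq_zero.1 h0
      have huw : ∀ w, w ∈ s k1 ∨ w ∈ s k2 := by
        have h1 : s k1 ∪ s k2 = univ := by
          apply eq_univ_of_card
          rw [card_union_of_disjoint hd, hA7, hB7, hW]
        intro w
        rw [← mem_union, h1]
        exact mem_univ w
      apply good_bipartite D hA7 hB7 hd huw
      intro a ha b hb
      apply hadj' k1 a ha b (by rw [hT0]; simp)
      exact Finset.disjoint_left.1 hd.symm hb
    · -- seven components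
      have hι7 : Fintype.card ι = 7 := by omega
      -- every vertex outside `T` is in a component
      have hcov : ∀ w, w ∉ T → ∃ k, w ∈ s k := by
        intro w hwT
        by_contra hcon
        push Not at hcon
        have hwv : w ∉ univ.image v := by
          rw [mem_image]
          rintro ⟨k, _, rfl⟩
          exact hcon k (hv k)
        apply D.k8 (insert w (univ.image v))
        rw [SimpleGraph.isNClique_iff, SimpleGraph.isClique_iff]
        constructor
        · intro a ha b hb hab
          rw [mem_coe, mem_insert, mem_image] at ha hb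
          rcases ha with rfl | ⟨k, _, rfl⟩ <;> rcases hb with rfl | ⟨k', _, rfl⟩
          · exact absurd rfl hab
          · exact (hadj' k' _ (hv k') a hwT (hcon k')).symm
          · exact hadj' k _ (hv k) b hwT (hcon k)
          · exact hvadj k k' (fun h => hab (by rw [h]))
        · rw [card_insert_of_notMem hwv, card_image_of_injective _ hvinj, card_univ, hι7]
      have hUeq : univ.biUnion s = univ \ T := by
        ext w
        rw [mem_biUnion, mem_sdiff]
        constructor
        · rintro ⟨k, _, hk⟩
          exact ⟨mem_univ _, hsT k w hk⟩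
        · rintro ⟨_, h⟩
          obtain ⟨k, hk⟩ := hcov w h
          exact ⟨k, mem_univ _, hk⟩
      have hsum9 : ∑ k, (s k).card = 9 := by
        rw [← hU, hUeq, card_sdiff_of_subset (subset_univ _), card_univ, hW, h5]
      -- one component has size three
      have hex : ∃ k0, (s k0).card ≠ 1 := by
        by_contra hcon
        push Not at hcon
        rw [sum_congr rfl (fun k _ => hcon k), sum_const, card_univ, hι7] at hsum9
        simp at hsum9
      obtain ⟨k0, hk0⟩ := hex
      have h3 : 3 ≤ (s k0).card := by
        have h1 := hodd k0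
        rcases Nat.lt_or_ge (s k0).card 3 with h | h
        · generalize (s k0).card = a at h1 h hk0
          interval_cases a
          · exact absurd h1 (by decide)
          · exact absurd rfl hk0
          · exact absurd h1 (by decide)
        · exact h
      have hsplit : (s k0).card + ∑ k ∈ univ.erase k0, (s k).card = 9 := by
        rw [add_sum_erase univ (fun k => (s k).card) (mem_univ k0)]
        exact hsum9
      have hcardE : (univ.erase k0).card = 6 := by
        rw [card_erase_of_mem (mem_univ _), card_univ, hι7]
      have hlow6 : 6 ≤ ∑ k ∈ univ.erase k0, (s k).card := by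
        have := card_nsmul_le_sum (univ.erase k0) (fun k => (s k).card) 1
          (fun k _ => (hodd k).pos)
        rw [hcardE, smul_eq_mul] at this
        omega
      have hk3 : (s k0).card = 3 := by omega
      have hrest : ∀ k, k ≠ k0 → (s k).card = 1 := by
        intro k hk
        have h1 : ∑ k ∈ univ.erase k0, (s k).card = 6 := by omega
        have hkm : k ∈ univ.erase k0 := mem_erase.2 ⟨hk, mem_univ _⟩
        rw [← add_sum_erase _ (fun k => (s k).card) hkm] at h1
        have h2 := card_nsmul_le_sum ((univ.erase k0).erase k) (fun k => (s k).card) 1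
          (fun k _ => (hodd k).pos)
        rw [card_erase_of_mem hkm, hcardE, smul_eq_mul] at h2
        have h4 := (hodd k).pos
        omega
      set X := (univ.erase k0).biUnion s with hX
      have hXc : X.card = 6 := by
        rw [hX, card_biUnion (fun k _ k' _ h => hdd k k' h)]
        omega
      have hXT : Disjoint X T := by
        rw [hX, disjoint_biUnion_left]
        exact fun k _ => hdT k
      have hXC : Disjoint X (s k0) := by
        rw [hX, disjoint_biUnion_left]
        intro k hk
        exact hdd k k0 (mem_erase.1 hk).1
      have hone : ∀ k, k ≠ k0 → ∀ a ∈ s k, ∀ b ∈ s k, a = b := by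
        intro k hk a ha b hb
        exact card_le_one.1 (hrest k hk).le a ha b hb
      apply good_exceptional D (X := X) (T := T) (C := s k0) hXc h5 hk3 hXT hXC (hdT k0).symm
      · intro w
        by_cases hwT : w ∈ T
        · exact Or.inr (Or.inl hwT)
        · obtain ⟨k, hk⟩ := hcov w hwT
          by_cases hkk : k = k0
          · right; right; rw [← hkk]; exact hk
          · left
            rw [hX, mem_biUnion]
            exact ⟨k, mem_erase.2 ⟨hkk, mem_univ _⟩, hk⟩
      · intro x hx x' hx' hne
        rw [hX, mem_biUnion] at hx hx'
        obtain ⟨k, hk, hxk⟩ := hx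
        obtain ⟨k', hk', hxk'⟩ := hx'
        rw [mem_erase] at hk hk'
        apply hadj' k x hxk x' (hsT k' _ hxk')
        intro h
        exact hne (hone k hk.1 x hxk x' h)
      · intro x hx y hy
        rw [hX, mem_biUnion] at hx
        obtain ⟨k, hk, hxk⟩ := hx
        rw [mem_erase] at hk
        apply hadj' k x hxk y (hsT k0 _ hy)
        exact Finset.disjoint_left.1 (hdd k0 k (Ne.symm hk.1)) hy

end Pool.Agent.R87.Seven
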