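import Pool.Agent.R87.Seven

/-!
# Tutte's theorem on fourteen vertices
-/

set_option autoImplicit false
set_option linter.unusedSectionVars false

namespace Pool.Agent.R87.Seven

open Finset

section general

variable {W : Type} [Fintype W] [DecidableEq W]

/-- the components that witness the failure of Tutte's condition -/
theorem violator {F : SimpleGraph W} (hno : ¬ ∃ M : F.Subgraph, M.IsPerfectMatching)
    (heven : Even (Fintype.card W)) :
    ∃ (T : Finset W) (ι : Type) (_ : Fintype ι) (s : ι → Finset W),
      T.card + 2 ≤ Fintype.card ι ∧ (∀ k, Odd (s k).card) ∧ (∀ k, Disjoint (s k) T) ∧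
      (∀ k k', k ≠ k' → Disjoint (s k) (s k')) ∧
      ∀ k, ∀ w ∈ s k, ∀ w', w' ∉ T → w' ∉ s k → ¬ F.Adj w w' := by
  classical
  rw [SimpleGraph.tutte] at hno
  push Not at hno
  obtain ⟨u, hu⟩ := hno
  unfold SimpleGraph.IsTutteViolator at hu
  set F1 := ((⊤ : F.Subgraph).deleteVerts u).coe with hF1
  have hverts : ∀ w : W, w ∈ ((⊤ : F.Subgraph).deleteVerts u).verts ↔ w ∉ u := by
    intro w; simp
  have hT : u.ncard = u.toFinset.card := Set.ncard_eq_toFinset_card' u
  let s : F1.oddComponents → Finset W := fun K =>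
    (K.1.supp.toFinset).image Subtype.val
  have hs : ∀ K w, w ∈ s K ↔ ∃ h : w ∈ ((⊤ : F.Subgraph).deleteVerts u).verts,
      (⟨w, h⟩ : ((⊤ : F.Subgraph).deleteVerts u).verts) ∈ K.1.supp := by
    intro K w
    simp only [s, mem_image, Set.mem_toFinset, Subtype.exists, exists_and_right, exists_eq_right]
  have hι : Fintype.card F1.oddComponents = F1.oddComponents.ncard := by
    rw [Set.ncard_eq_toFinset_card', Set.toFinset_card]
  -- parity
  have hpar : Odd F1.oddComponents.ncard ↔ Odd (Nat.card ((⊤ : F.Subgraph).deleteVerts u).verts) :=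
    SimpleGraph.odd_ncard_oddComponents F1
  have hcv : Nat.card ((⊤ : F.Subgraph).deleteVerts u).verts + u.ncard = Fintype.card W := by
    have h1 : ((⊤ : F.Subgraph).deleteVerts u).verts = uᶜ := by
      ext w; simp
    rw [h1, Nat.card_coe_set_eq, add_comm]
    rw [Set.ncard_add_ncard_compl, Nat.card_eq_fintype_card]
  have hm : u.ncard + 2 ≤ F1.oddComponents.ncard := by
    by_contra hcon
    have h1 : F1.oddComponents.ncard = u.ncard + 1 := by omega
    rw [h1] at hpar
    rcases Nat.even_or_odd u.ncard with h | h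
    · have h2 : Odd (u.ncard + 1) := h.add_one
      have h3 := hpar.1 h2
      have h4 : Odd (Fintype.card W) := by rw [← hcv]; exact h3.add_even h
      exact (Nat.not_even_iff_odd.2 h4) heven
    · have h2 : ¬ Odd (u.ncard + 1) := by
        rw [Nat.not_odd_iff_even]; exact h.add_one
      have h3 : ¬ Odd (Nat.card ((⊤ : F.Subgraph).deleteVerts u).verts) := fun h' => h2 (hpar.2 h')
      rw [Nat.not_odd_iff_even] at h3
      have h4 : Odd (Fintype.card W) := by rw [← hcv]; exact h3.add_odd h
      exact (Nat.not_even_iff_odd.2 h4) heven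
  refine ⟨u.toFinset, F1.oddComponents, inferInstance, s, ?_, ?_, ?_, ?_, ?_⟩
  · rw [hι, ← hT]; exact hm
  · intro K
    have h1 : (s K).card = K.1.supp.ncard := by
      simp only [s]
      rw [card_image_of_injective _ Subtype.val_injective, Set.ncard_eq_toFinset_card']
    rw [h1]
    exact K.2
  · intro K
    rw [Finset.disjoint_left]
    intro w hw hwu
    rw [hs] at hw
    obtain ⟨h, _⟩ := hw
    rw [hverts] at h
    exact h (Set.mem_toFinset.1 hwu)
  · intro K K' hne
    rw [Finset.disjoint_left]
    intro w hw hw'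
    rw [hs] at hw hw'
    obtain ⟨h, h1⟩ := hw
    obtain ⟨h', h1'⟩ := hw'
    rw [SimpleGraph.ConnectedComponent.mem_supp_iff] at h1 h1'
    exact hne (Subtype.ext (h1.symm.trans h1'))
  · intro K w hw w' hw'T hw' hadj
    rw [hs] at hw
    obtain ⟨h, h1⟩ := hw
    apply hw'
    rw [hs]
    have hv' : w' ∈ ((⊤ : F.Subgraph).deleteVerts u).verts := by
      rw [hverts]
      intro h2
      exact hw'T (Set.mem_toFinset.2 h2)
    refine ⟨hv', ?_⟩
    rw [SimpleGraph.ConnectedComponent.mem_supp_iff] at h1 ⊢
    rw [← h1]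
    apply SimpleGraph.ConnectedComponent.sound
    apply SimpleGraph.Adj.reachable
    rw [hF1]
    rw [SimpleGraph.Subgraph.coe_adj, SimpleGraph.Subgraph.deleteVerts_adj]
    exact ⟨by simp, fun h2 => hw'T (Set.mem_toFinset.2 h2), by simp, (hverts w).1 h, hadj.symm⟩

/-- a perfect matching gives a colouring with classes of size at most two -/
theorem coloring_of_matching {F : SimpleGraph W} (hM : ∃ M : F.Subgraph, M.IsPerfectMatching)
    (hW : Fintype.card W = 14) :
    ∃ c : W → Fin 7, (∀ w w', c w = c w' → w = w' ∨ F.Adj w w') ∧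
      ∀ i, (univ.filter (fun w => c w = i)).card ≤ 2 := by
  classical
  obtain ⟨M, hM⟩ := hM
  rw [SimpleGraph.Subgraph.isPerfectMatching_iff] at hM
  choose p hp hpu using hM
  simp only at hp hpu
  have hpp : ∀ w, p (p w) = w := fun w => (hpu (p w) w (hp w).symm).symm
  have hpne : ∀ w, p w ≠ w := fun w h => by
    have := hp w
    rw [h] at this
    exact M.loopless.irrefl w this
  let e : W → Sym2 W := fun w => s(w, p w)
  have he : ∀ w w', e w = e w' ↔ w' = w ∨ w' = p w := by
    intro w w'
    simp only [e, Sym2.eq_iff]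
    constructor
    · rintro (⟨h1, _⟩ | ⟨_, h2⟩)
      · exact Or.inl h1.symm
      · exact Or.inr h2.symm
    · rintro (rfl | rfl)
      · exact Or.inl ⟨rfl, rfl⟩
      · exact Or.inr ⟨(hpp w).symm, rfl⟩
  have hfib : ∀ x ∈ univ.image e, (univ.filter (fun w => e w = x)).card = 2 := by
    intro x hx
    rw [mem_image] at hx
    obtain ⟨w, _, rfl⟩ := hx
    have h1 : univ.filter (fun w' => e w' = e w) = {w, p w} := by
      ext w'
      rw [mem_filter, mem_insert, mem_singleton, eq_comm, he]
      simp
    rw [h1, card_pair (hpne w).symm]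
  have hcard : (univ.image e).card = 7 := by
    have h1 : (univ : Finset W).card = ∑ x ∈ univ.image e, (univ.filter (fun w => e w = x)).card :=
      card_eq_sum_card_fiberwise (fun w _ => mem_image_of_mem e (mem_univ w))
    rw [sum_congr rfl hfib, sum_const, card_univ, hW, smul_eq_mul] at h1
    omega
  let φ : (univ.image e) ≃ Fin 7 := (univ.image e).equivFinOfCardEq hcard
  refine ⟨fun w => φ ⟨e w, mem_image_of_mem e (mem_univ w)⟩, ?_, ?_⟩
  · intro w w' h
    have h1 := φ.injective h
    have h2 : e w = e w' := by simpa using h1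
    rcases (he w w').1 h2 with h3 | h3
    · exact Or.inl h3.symm
    · right
      rw [h3]
      exact M.adj_sub (hp w)
  · intro i
    by_cases hne : (univ.filter (fun w => φ ⟨e w, mem_image_of_mem e (mem_univ w)⟩ = i)).Nonempty
    · obtain ⟨w0, hw0⟩ := hne
      rw [mem_filter] at hw0
      have h1 : univ.filter (fun w => φ ⟨e w, mem_image_of_mem e (mem_univ w)⟩ = i) ⊆
          univ.filter (fun w => e w = e w0) := by
        intro w hw
        rw [mem_filter] at hw ⊢
        refine ⟨mem_univ _, ?_⟩
        have h2 := φ.injective (hw.2.trans hw0.2.symm)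
        simpa using h2
      exact (card_le_card h1).trans (hfib _ (mem_image_of_mem e (mem_univ w0))).le
    · rw [not_nonempty_iff_eq_empty] at hne
      rw [hne]; simp

end general

end Pool.Agent.R87.Seven
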