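import Pool.Agent.R87.SpectralGen

namespace Pool.R87.Spectral

open Set

/-- parity of the last six binary digits -/
def bp (n : ℕ) : Bool :=
  (n.testBit 0) ^^ (n.testBit 1) ^^ (n.testBit 2) ^^ (n.testBit 3) ^^ (n.testBit 4) ^^
    (n.testBit 5)

/-- the bilinear form on `𝔽₂⁶ = {0,…,63}` -/
def dot (a x : ℕ) : Bool := bp (a &&& x)

lemma bp_xor (a b : ℕ) : bp (a ^^^ b) = (bp a ^^ bp b) := by
  unfold bp
  simp only [Nat.testBit_xor]
  cases a.testBit 0 <;> cases a.testBit 1 <;> cases a.testBit 2 <;> cases a.testBit 3 <;>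
    cases a.testBit 4 <;> cases a.testBit 5 <;> simp <;>
    cases b.testBit 0 <;> cases b.testBit 1 <;> cases b.testBit 2 <;> cases b.testBit 3 <;>
    cases b.testBit 4 <;> cases b.testBit 5 <;> rfl

lemma dot_xor (a x y : ℕ) : dot a (x ^^^ y) = (dot a x ^^ dot a y) := by
  unfold dot
  rw [Nat.and_xor_distrib_left, bp_xor]

lemma dot_comm (a x : ℕ) : dot a x = dot x a := by
  unfold dot
  rw [Nat.and_comm]

/-- addition of `𝔽₂⁶` on `Fin 64` -/
def add (x y : Fin 64) : Fin 64 :=
  ⟨x.val ^^^ y.val, Nat.xor_lt_two_pow (n := 6) x.isLt y.isLt⟩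

lemma add_add_cancel (x y : Fin 64) : add x (add x y) = y := by
  apply Fin.ext
  simp [add, ← Nat.xor_assoc]

lemma add_comm' (x y : Fin 64) : add x y = add y x := by
  apply Fin.ext
  simp [add, Nat.xor_comm]

lemma add_assoc' (x y z : Fin 64) : add (add x y) z = add x (add y z) := by
  apply Fin.ext
  simp [add, Nat.xor_assoc]

lemma add_self' (x : Fin 64) : add x x = 0 := by
  apply Fin.ext
  simp [add]

lemma add_zero' (x : Fin 64) : add x 0 = x := by
  apply Fin.ext
  simp [add]

/-- translation by `x` -/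
def tr (x : Fin 64) : Fin 64 ≃ Fin 64 where
  toFun := add x
  invFun := add x
  left_inv := add_add_cancel x
  right_inv := add_add_cancel x

/-- characters -/
def chi (a x : Fin 64) : ℤ := if dot a.val x.val then -1 else 1

lemma chi_add (a x y : Fin 64) : chi a (add x y) = chi a x * chi a y := by
  unfold chi add
  simp only [dot_xor]
  cases dot a.val x.val <;> cases dot a.val y.val <;> rfl

lemma chi_comm (a x : Fin 64) : chi a x = chi x a := by
  unfold chi
  rw [dot_comm]

lemma chi_sq (a x : Fin 64) : chi a x * chi a x = 1 := by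
  unfold chi
  cases dot a.val x.val <;> rfl

/-- the twelve columns of the code -/
def Acode : List (Fin 64) := [4, 6, 8, 13, 16, 21, 28, 30, 34, 37, 51, 52]

/-- the 47 connection elements (minimal codewords), as a bit mask -/
def Smask : ℕ := 0x4bdffeef43f7bfae

def inS (x : Fin 64) : Bool := Smask.testBit x.val

/-- The graph. -/
def Gr : SimpleGraph (Fin 64) where
  Adj x y := inS (add x y) = true
  symm := by
    constructor
    intro x y h
    rw [add_comm']
    exact h
  loopless := by
    constructor
    intro x h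
    rw [add_self'] at h
    revert h
    decide

instance : DecidableRel Gr.Adj := fun x y => inferInstanceAs (Decidable (inS (add x y) = true))

/-- the eigenvalues -/
def th (T : Fin 64) : ℤ := ∑ s : Fin 64, if inS s then chi T s else 0

lemma th_eq_five (T : Fin 64) : th T = 5 ↔ T ∈ Acode := by
  revert T; decide +kernel

lemma th_vals (T : Fin 64) : th T = 47 ∨ th T = 7 ∨ th T ≤ 5 := by
  revert T; decide +kernel

lemma th_zero : th 0 = 47 := by decide +kernel
lemma th_31 : th 31 = 7 := by decide +kernel

lemma chi_sum (x : Fin 64) : ∑ T : Fin 64, chi T x = if x = 0 then 64 else 0 := by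
  revert x; decide +kernel

lemma minimal_word (s : Fin 64) (hs : inS s = true) (x : Fin 64)
    (h : ∀ a ∈ Acode, chi a s = 1 → chi a x = 1) : x = 0 ∨ x = s := by
  revert x; revert s; decide +kernel

lemma nonminimal_word (w : Fin 64) (hw : w ≠ 0) (hs : inS w = false) :
    ∃ u : Fin 64, u ≠ 0 ∧ u ≠ w ∧ ∀ a ∈ Acode, chi a w = 1 → chi a u = 1 := by
  revert w; decide +kernel

lemma spanning (x : Fin 64) (h : ∀ a ∈ Acode, chi a x = 1) : x = 0 := by
  revert x; decide +kernel

end Pool.R87.Spectral
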