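import Mathlib

/-!
# MP_a5282b_co : eigenpolytopes and `θ_k`-spectral graphs (definitions)
-/

namespace Pool.R87.Spectral

open Set

variable {V : Type*} [Fintype V]

open Classical in
/-- The adjacency matrix of `G` over `ℝ`. -/
noncomputable def adj (G : SimpleGraph V) : Matrix V V ℝ :=
  fun i j => if G.Adj i j then 1 else 0

open Classical in
/-- The eigenspace of the adjacency matrix of `G` for the real number `θ`,
a subspace of `V → ℝ`. -/
noncomputable def Eig (G : SimpleGraph V) (θ : ℝ) : Submodule ℝ (V → ℝ) :=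
  Module.End.eigenspace (Matrix.toLin' (adj G)) θ

/-- The set of eigenvalues of (the adjacency matrix of) `G`. -/
def Eigenvalues (G : SimpleGraph V) : Set ℝ := {θ | Eig G θ ≠ ⊥}

/-- `θ` is the `k`-th largest distinct eigenvalue `θ_k` of `G` (numbering starts at `k = 1`). -/
def IsKthEigenvalue (G : SimpleGraph V) (k : ℕ) (θ : ℝ) : Prop :=
  θ ∈ Eigenvalues G ∧ {μ | μ ∈ Eigenvalues G ∧ θ < μ}.Finite ∧
    {μ | μ ∈ Eigenvalues G ∧ θ < μ}.ncard + 1 = k

/-- The `i`-th row `v_i ∈ ℝ^d` of the matrix whose columns are the basis vectors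
`u_1, …, u_d` of the `θ`-eigenspace. -/
noncomputable def point {G : SimpleGraph V} {θ : ℝ} {d : ℕ} (u : Module.Basis (Fin d) ℝ (Eig G θ)) (i : V) :
    Fin d → ℝ :=
  fun j => (u j : V → ℝ) i

/-- The `θ`-eigenpolytope `conv {v_1, …, v_n}` (with respect to the chosen basis). -/
noncomputable def polytope {G : SimpleGraph V} {θ : ℝ} {d : ℕ} (u : Module.Basis (Fin d) ℝ (Eig G θ)) :
    Set (Fin d → ℝ) :=
  convexHull ℝ (Set.range (point u))

/-- `conv {p, q}` is an edge of `P`: the points are distinct and the segment between them is a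
face of `P` (the set of maximisers of a linear functional over `P`). -/
def IsEdge {d : ℕ} (P : Set (Fin d → ℝ)) (p q : Fin d → ℝ) : Prop :=
  p ≠ q ∧ IsExposed ℝ P (segment ℝ p q)

/-- `G` is `θ`-spectral: for every choice of the basis, the `v_i` are distinct, they are vertices
(extreme points) of the eigenpolytope, and `conv {v_i, v_j}` is an edge of it exactly when `ij`
is an edge of `G`. -/
def IsSpectral (G : SimpleGraph V) (θ : ℝ) : Prop :=
  ∀ (d : ℕ) (u : Module.Basis (Fin d) ℝ (Eig G θ)),
    Function.Injective (point u) ∧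
    (∀ i, point u i ∈ (polytope u).extremePoints ℝ) ∧
    ∀ i j, i ≠ j → (IsEdge (polytope u) (point u i) (point u j) ↔ G.Adj i j)

end Pool.R87.Spectral
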