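import Pool.Agent.R87.SpectralDefs

namespace Pool.R87.Spectral

open Set

variable {V : Type*} [Fintype V]

lemma mem_Eig {G : SimpleGraph V} {θ : ℝ} {f : V → ℝ} :
    f ∈ Eig G θ ↔ ∀ i, ∑ j, adj G i j * f j = θ * f i := by
  classical
  unfold Eig
  rw [Module.End.mem_eigenspace_iff]
  constructor
  · intro h i
    have := congrFun h i
    simpa [Matrix.toLin'_apply, Matrix.mulVec, dotProduct] using this
  · intro h
    funext i
    have := h i
    simpa [Matrix.toLin'_apply, Matrix.mulVec, dotProduct] using this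

/-- every eigenvector gives a linear functional on `ℝ^d`. -/
lemma exists_functional {G : SimpleGraph V} {θ : ℝ} {d : ℕ}
    (u : Module.Basis (Fin d) ℝ (Eig G θ)) {f : V → ℝ} (hf : f ∈ Eig G θ) :
    ∃ l : (Fin d → ℝ) →L[ℝ] ℝ, ∀ i, l (point u i) = f i := by
  classical
  let c := u.repr ⟨f, hf⟩
  let L : (Fin d → ℝ) →ₗ[ℝ] ℝ := ∑ j, (c j) • LinearMap.proj j
  refine ⟨LinearMap.toContinuousLinearMap L, fun i => ?_⟩
  have h1 : (⟨f, hf⟩ : Eig G θ) = ∑ j, c j • u j := by
    exact (u.sum_repr ⟨f, hf⟩).symm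
  have h2 : f i = (∑ j, c j • ((u j : Eig G θ) : V → ℝ)) i := by
    have := congrArg (fun (g : Eig G θ) => (g : V → ℝ) i) h1
    simpa using this
  rw [h2]
  simp [L, point, LinearMap.sum_apply, Finset.sum_apply]

/-- a convex hull point is a convex combination with weights on the index type. -/
lemma exists_weights {d : ℕ} {v : V → (Fin d → ℝ)} {x : Fin d → ℝ}
    (hx : x ∈ convexHull ℝ (Set.range v)) :
    ∃ w : V → ℝ, (∀ i, 0 ≤ w i) ∧ ∑ i, w i = 1 ∧ ∑ i, w i • v i = x := by
  classical
  have hsub : convexHull ℝ (Set.range v) ⊆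
      {x | ∃ w : V → ℝ, (∀ i, 0 ≤ w i) ∧ ∑ i, w i = 1 ∧ ∑ i, w i • v i = x} := by
    apply convexHull_min
    · rintro _ ⟨i, rfl⟩
      refine ⟨Pi.single i 1, fun j => ?_, by simp, ?_⟩
      · by_cases h : j = i
        · subst h; simp
        · simp [h]
      · rw [Finset.sum_eq_single i]
        · simp
        · intro j _ hj
          simp [hj]
        · simp
    · rintro x ⟨w, hw0, hw1, hwx⟩ y ⟨w', hw0', hw1', hwy⟩ a b ha hb hab
      refine ⟨fun i => a * w i + b * w' i, fun i => ?_, ?_, ?_⟩
      · have := hw0 i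
        have := hw0' i
        positivity
      · rw [Finset.sum_add_distrib, ← Finset.mul_sum, ← Finset.mul_sum, hw1, hw1']
        simpa using hab
      · rw [← hwx, ← hwy, Finset.smul_sum, Finset.smul_sum, ← Finset.sum_add_distrib]
        apply Finset.sum_congr rfl
        intro i _
        rw [add_smul, mul_smul, mul_smul]
  exact hsub hx

/-- The face criterion. -/
lemma isEdge_of_functional {d : ℕ} {v : V → (Fin d → ℝ)} {i j : V} (hij : v i ≠ v j)
    (l : (Fin d → ℝ) →L[ℝ] ℝ) (M : ℝ) (hi : l (v i) = M) (hj : l (v j) = M)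
    (hk : ∀ k, k ≠ i → k ≠ j → l (v k) < M) :
    IsEdge (convexHull ℝ (Set.range v)) (v i) (v j) := by
  classical
  refine ⟨hij, fun _ => ⟨l, ?_⟩⟩
  have hle : ∀ k, l (v k) ≤ M := by
    intro k
    by_cases h1 : k = i
    · subst h1; exact hi.le
    · by_cases h2 : k = j
      · subst h2; exact hj.le
      · exact (hk k h1 h2).le
  have hmax : ∀ y ∈ convexHull ℝ (Set.range v), l y ≤ M := by
    intro y hy
    obtain ⟨w, hw0, hw1, rfl⟩ := exists_weights hy
    rw [map_sum]
    calc ∑ k, l (w k • v k) = ∑ k, w k * l (v k) := by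
          apply Finset.sum_congr rfl; intro k _; rw [map_smul, smul_eq_mul]
      _ ≤ ∑ k, w k * M := Finset.sum_le_sum fun k _ => mul_le_mul_of_nonneg_left (hle k) (hw0 k)
      _ = M := by rw [← Finset.sum_mul, hw1, one_mul]
  have hvi : v i ∈ convexHull ℝ (Set.range v) := subset_convexHull ℝ _ ⟨i, rfl⟩
  have hvj : v j ∈ convexHull ℝ (Set.range v) := subset_convexHull ℝ _ ⟨j, rfl⟩
  apply Set.Subset.antisymm
  · intro x hx
    refine ⟨(convex_convexHull ℝ _).segment_subset hvi hvj hx, fun y hy => ?_⟩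
    obtain ⟨a, b, ha, hb, hab, rfl⟩ := hx
    have : l (a • v i + b • v j) = M := by
      rw [map_add, map_smul, map_smul, hi, hj, smul_eq_mul, smul_eq_mul, ← add_mul, hab, one_mul]
    rw [this]
    exact hmax y hy
  · rintro x ⟨hx, hx2⟩
    have hxM : l x = M := le_antisymm (hmax x hx) (hi ▸ hx2 _ hvi)
    obtain ⟨w, hw0, hw1, rfl⟩ := exists_weights hx
    have hzero : ∀ k, k ≠ i → k ≠ j → w k = 0 := by
      have h0 : ∑ k, w k * (M - l (v k)) = 0 := by
        have : ∑ k, w k * (M - l (v k)) = M - l (∑ k, w k • v k) := by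
          rw [map_sum]
          simp only [mul_sub, Finset.sum_sub_distrib, ← Finset.sum_mul, hw1, one_mul, map_smul,
            smul_eq_mul]
        rw [this, hxM, sub_self]
      have h1 := (Finset.sum_eq_zero_iff_of_nonneg (fun k _ =>
        mul_nonneg (hw0 k) (sub_nonneg.mpr (hle k)))).mp h0
      intro k h2 h3
      have h4 := h1 k (Finset.mem_univ _)
      have h5 := hk k h2 h3
      rcases mul_eq_zero.mp h4 with h | h
      · exact h
      · linarith
    by_cases hijeq : i = j
    · exact absurd (by rw [hijeq]) hij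
    · have hs1 : ∑ k, w k • v k = w i • v i + w j • v j := by
        rw [← Finset.sum_subset (Finset.subset_univ {i, j})]
        · rw [Finset.sum_pair hijeq]
        · intro k _ hk'
          simp only [Finset.mem_insert, Finset.mem_singleton, not_or] at hk'
          rw [hzero k hk'.1 hk'.2, zero_smul]
      have hs2 : w i + w j = 1 := by
        rw [← hw1, ← Finset.sum_subset (Finset.subset_univ {i, j})]
        · rw [Finset.sum_pair hijeq]
        · intro k _ hk'
          simp only [Finset.mem_insert, Finset.mem_singleton, not_or] at hk'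
          exact hzero k hk'.1 hk'.2
      rw [hs1]
      exact ⟨w i, w j, hw0 i, hw0 j, hs2, rfl⟩

lemma extreme_of_functional {d : ℕ} {v : V → (Fin d → ℝ)} {i : V}
    (l : (Fin d → ℝ) →L[ℝ] ℝ) (hk : ∀ k, k ≠ i → l (v k) < l (v i)) :
    v i ∈ (convexHull ℝ (Set.range v)).extremePoints ℝ := by
  classical
  have hle : ∀ k, l (v k) ≤ l (v i) := by
    intro k
    by_cases h1 : k = i
    · subst h1; exact le_rfl
    · exact (hk k h1).le
  have hmax : ∀ y ∈ convexHull ℝ (Set.range v), l y ≤ l (v i) ∧ (l y = l (v i) → y = v i) := by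
    intro y hy
    obtain ⟨w, hw0, hw1, rfl⟩ := exists_weights hy
    have hsum : l (∑ k, w k • v k) = ∑ k, w k * l (v k) := by
      rw [map_sum]
      apply Finset.sum_congr rfl; intro k _; rw [map_smul, smul_eq_mul]
    refine ⟨?_, ?_⟩
    · rw [hsum]
      calc ∑ k, w k * l (v k)
          ≤ ∑ k, w k * l (v i) :=
            Finset.sum_le_sum fun k _ => mul_le_mul_of_nonneg_left (hle k) (hw0 k)
        _ = l (v i) := by rw [← Finset.sum_mul, hw1, one_mul]
    · intro heq
      have h0 : ∑ k, w k * (l (v i) - l (v k)) = 0 := by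
        have : ∑ k, w k * (l (v i) - l (v k)) = l (v i) - l (∑ k, w k • v k) := by
          rw [hsum]
          simp only [mul_sub, Finset.sum_sub_distrib, ← Finset.sum_mul, hw1, one_mul]
        rw [this, heq, sub_self]
      have h1 := (Finset.sum_eq_zero_iff_of_nonneg (fun k _ =>
        mul_nonneg (hw0 k) (sub_nonneg.mpr (hle k)))).mp h0
      have hzero : ∀ k, k ≠ i → w k = 0 := by
        intro k h2
        have h4 := h1 k (Finset.mem_univ _)
        have h5 := hk k h2
        rcases mul_eq_zero.mp h4 with h | h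
        · exact h
        · linarith
      have hwi : w i = 1 := by
        rw [← hw1]
        symm
        apply Finset.sum_eq_single i
        · intro k _ hk'; exact hzero k hk'
        · simp
      rw [Finset.sum_eq_single i]
      · rw [hwi, one_smul]
      · intro k _ hk'; rw [hzero k hk', zero_smul]
      · simp
  refine ⟨subset_convexHull ℝ _ ⟨i, rfl⟩, ?_⟩
  intro x hx y hy hxy
  obtain ⟨a, b, ha, hb, hab, hz⟩ := hxy
  have h1 := hmax x hx
  have h2 := hmax y hy
  have h3 : a * l x + b * l y = l (v i) := by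
    rw [← hz, map_add, map_smul, map_smul, smul_eq_mul, smul_eq_mul]
  have h4 : l x = l (v i) := by
    by_contra hne
    have hlt : l x < l (v i) := lt_of_le_of_ne h1.1 hne
    have : a * l x + b * l y < a * l (v i) + b * l (v i) :=
      add_lt_add_of_lt_of_le (mul_lt_mul_of_pos_left hlt ha)
        (mul_le_mul_of_nonneg_left h2.1 hb.le)
    rw [← add_mul, hab, one_mul, h3] at this
    exact lt_irrefl _ this
  exact h1.2 h4

/-- If `v i + v j = v k + v l` with `k, l ∉ {i, j}` then `conv {v i, v j}` is not an edge. -/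
lemma not_isEdge_of_sum {d : ℕ} {v : V → (Fin d → ℝ)} (hinj : Function.Injective v)
    (hext : ∀ i, v i ∈ (convexHull ℝ (Set.range v)).extremePoints ℝ)
    {i j k m : V} (hki : k ≠ i) (hkj : k ≠ j) (hsum : v i + v j = v k + v m) :
    ¬ IsEdge (convexHull ℝ (Set.range v)) (v i) (v j) := by
  rintro ⟨hij, hexp⟩
  have hE := hexp.isExtreme
  have hmem : ∀ i, v i ∈ convexHull ℝ (Set.range v) := fun i => subset_convexHull ℝ _ ⟨i, rfl⟩
  have hz1 : (1/2 : ℝ) • v i + (1/2 : ℝ) • v j ∈ segment ℝ (v i) (v j) :=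
    ⟨1/2, 1/2, by norm_num, by norm_num, by norm_num, rfl⟩
  have hz2 : (1/2 : ℝ) • v i + (1/2 : ℝ) • v j ∈ openSegment ℝ (v k) (v m) := by
    refine ⟨1/2, 1/2, by norm_num, by norm_num, by norm_num, ?_⟩
    rw [← smul_add, ← smul_add, hsum]
  have hk := hE.left_mem_of_mem_openSegment (hmem k) (hmem m) hz1 hz2
  have hk2 := hext k
  rw [mem_extremePoints_iff_forall_segment] at hk2
  rcases hk2.2 _ (hmem i) _ (hmem j) hk with h | h
  · exact hki (hinj h.symm)
  · exact hkj (hinj h.symm)

end Pool.R87.Spectral
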