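import Pool.Agent.R87.SpectralCode

namespace Pool.R87.Spectral

open Set

/-- the real character -/
noncomputable def ch (T x : Fin 64) : ℝ := (chi T x : ℝ)

lemma ch_add (a x y : Fin 64) : ch a (add x y) = ch a x * ch a y := by
  unfold ch; rw [chi_add]; push_cast; rfl

lemma ch_comm (a x : Fin 64) : ch a x = ch x a := by
  unfold ch; rw [chi_comm]

lemma ch_sq (a x : Fin 64) : ch a x * ch a x = 1 := by
  unfold ch; exact_mod_cast chi_sq a x

lemma ch_cases (a x : Fin 64) : (chi a x = 1 ∧ ch a x = 1) ∨ (chi a x = -1 ∧ ch a x = -1) := by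
  unfold ch chi
  cases dot a.val x.val <;> simp

lemma ch_add_left (a b x : Fin 64) : ch (add a b) x = ch a x * ch b x := by
  rw [ch_comm, ch_add, ch_comm x a, ch_comm x b]

lemma ch_sum (x : Fin 64) : ∑ T : Fin 64, ch T x = if x = 0 then 64 else 0 := by
  have h := chi_sum x
  have h2 : ((∑ T : Fin 64, chi T x : ℤ) : ℝ) = ((if x = 0 then 64 else 0 : ℤ) : ℝ) := by rw [h]
  push_cast at h2
  unfold ch
  rw [h2]

lemma add_eq_zero_iff' (x y : Fin 64) : add x y = 0 ↔ x = y := by
  constructor
  · intro h
    have := congrArg (add x) h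
    rw [add_add_cancel, add_zero'] at this
    exact this.symm
  · rintro rfl; exact add_self' x

lemma adj_eq (x y : Fin 64) : adj Gr x y = if inS (add x y) = true then 1 else 0 := by
  unfold adj
  congr 1

/-- characters are eigenfunctions -/
lemma adj_ch (T x : Fin 64) : ∑ y, adj Gr x y * ch T y = (th T : ℝ) * ch T x := by
  rw [← (tr x).sum_comp]
  have h : ∀ s : Fin 64, adj Gr x ((tr x) s) * ch T ((tr x) s) =
      ((if inS s then chi T s else 0 : ℤ) : ℝ) * ch T x := by
    intro s
    have h1 : (tr x) s = add x s := rfl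
    rw [h1, adj_eq, add_add_cancel, ch_add]
    by_cases h : inS s = true
    · simp only [h, if_true]
      unfold ch; ring
    · simp [h]
  rw [Finset.sum_congr rfl (fun s _ => h s), ← Finset.sum_mul]
  unfold th
  push_cast
  rfl

lemma adj_symm (x y : Fin 64) : adj Gr x y = adj Gr y x := by
  rw [adj_eq, adj_eq, add_comm']

/-- Fourier coefficient -/
noncomputable def co (f : Fin 64 → ℝ) (T : Fin 64) : ℝ := ∑ x, f x * ch T x

lemma co_eig {f : Fin 64 → ℝ} {μ : ℝ} (hf : f ∈ Eig Gr μ) (T : Fin 64) :
    ((th T : ℝ) - μ) * co f T = 0 := by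
  rw [mem_Eig] at hf
  have h1 : ∑ x, (∑ y, adj Gr x y * f y) * ch T x = μ * co f T := by
    unfold co
    rw [Finset.mul_sum]
    apply Finset.sum_congr rfl
    intro x _
    rw [hf x]; ring
  have h2 : ∑ x, (∑ y, adj Gr x y * f y) * ch T x = (th T : ℝ) * co f T := by
    unfold co
    simp_rw [Finset.sum_mul]
    rw [Finset.sum_comm, Finset.mul_sum]
    apply Finset.sum_congr rfl
    intro y _
    have : ∑ x, adj Gr x y * f y * ch T x = f y * ∑ x, adj Gr y x * ch T x := by
      rw [Finset.mul_sum]
      apply Finset.sum_congr rfl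
      intro x _
      rw [adj_symm x y]; ring
    rw [this, adj_ch]; ring
  rw [sub_mul, ← h1, ← h2, sub_self]

lemma inversion (f : Fin 64 → ℝ) (x : Fin 64) : 64 * f x = ∑ T, co f T * ch T x := by
  unfold co
  simp_rw [Finset.sum_mul]
  rw [Finset.sum_comm]
  have h : ∀ y : Fin 64, ∑ T, f y * ch T y * ch T x = if y = x then 64 * f x else 0 := by
    intro y
    have h1 : ∑ T, f y * ch T y * ch T x = f y * ∑ T, ch T (add y x) := by
      rw [Finset.mul_sum]
      apply Finset.sum_congr rfl
      intro T _
      rw [ch_add]; ring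
    rw [h1, ch_sum]
    by_cases hxy : y = x
    · subst hxy
      simp [add_self']
      ring
    · have : add y x ≠ 0 := fun h => hxy ((add_eq_zero_iff' y x).mp h)
      simp [this, hxy]
  rw [Finset.sum_congr rfl (fun y _ => h y)]
  simp

lemma ch_mem (T : Fin 64) : ch T ∈ Eig Gr (th T) := by
  rw [mem_Eig]
  intro x
  exact adj_ch T x

lemma ch_ne_zero (T : Fin 64) : ch T ≠ 0 := by
  intro h
  have := congrFun h 0
  have h2 := ch_sq T 0
  rw [this] at h2
  simp at h2

/-- Elements of the eigenspace of `5` satisfy the rectangle identity. -/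
lemma rect {f : Fin 64 → ℝ} (hf : f ∈ Eig Gr 5) {w u : Fin 64}
    (hu : ∀ a ∈ Acode, chi a w = 1 → chi a u = 1) (x : Fin 64) :
    f x + f (add x w) = f (add x u) + f (add (add x u) w) := by
  have key : ∀ T, co f T * ch T x + co f T * ch T (add x w) =
      co f T * ch T (add x u) + co f T * ch T (add (add x u) w) := by
    intro T
    by_cases hT : T ∈ Acode
    · simp only [ch_add]
      rcases ch_cases T w with ⟨h1, h2⟩ | ⟨_, h2⟩
      · have h3 := hu T hT h1
        have h4 : ch T u = 1 := by unfold ch; rw [h3]; norm_num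
        rw [h2, h4]; ring
      · rw [h2]; ring
    · have h1 := co_eig hf T
      have h2 : th T ≠ 5 := fun h => hT ((th_eq_five T).mp h)
      have h3 : ((th T : ℝ) - 5) ≠ 0 := by
        intro h
        apply h2
        have : (th T : ℝ) = 5 := by linarith
        exact_mod_cast this
      have h4 : co f T = 0 := by
        rcases mul_eq_zero.mp h1 with h | h
        · exact absurd h h3
        · exact h
      rw [h4]; ring
  have h64 : 64 * (f x + f (add x w)) = 64 * (f (add x u) + f (add (add x u) w)) := by
    rw [mul_add, mul_add, inversion, inversion f (add x w), inversion f (add x u),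
      inversion f (add (add x u) w), ← Finset.sum_add_distrib, ← Finset.sum_add_distrib]
    exact Finset.sum_congr rfl fun T _ => key T
  linarith

/-- the list of coordinates as a finset -/
def Afin : Finset (Fin 64) := Acode.toFinset

lemma ch_mem5 {a : Fin 64} (ha : a ∈ Afin) : ch a ∈ Eig Gr 5 := by
  have h1 : th a = 5 := (th_eq_five a).mpr (List.mem_toFinset.mp ha)
  have h2 := ch_mem a
  rw [h1] at h2
  simpa using h2

/-- the supporting function of the face spanned by `x` and `x + s` -/
noncomputable def supp (B : Finset (Fin 64)) (x : Fin 64) : Fin 64 → ℝ :=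
  ∑ a ∈ B, ch a x • ch a

lemma supp_mem {B : Finset (Fin 64)} (hB : B ⊆ Afin) (x : Fin 64) : supp B x ∈ Eig Gr 5 :=
  Submodule.sum_mem _ fun a ha => Submodule.smul_mem _ _ (ch_mem5 (hB ha))

lemma supp_apply (B : Finset (Fin 64)) (x y : Fin 64) :
    supp B x y = ∑ a ∈ B, ch a (add x y) := by
  unfold supp
  rw [Finset.sum_apply]
  apply Finset.sum_congr rfl
  intro a _
  rw [ch_add]; rfl

lemma ch_le_one (a x : Fin 64) : ch a x ≤ 1 := by
  rcases ch_cases a x with ⟨_, h⟩ | ⟨_, h⟩ <;> rw [h]; norm_num

lemma sum_lt {B : Finset (Fin 64)} {y : Fin 64} (h : ∃ a ∈ B, chi a y ≠ 1) :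
    ∑ a ∈ B, ch a y < B.card := by
  obtain ⟨a, ha, hne⟩ := h
  have : (B.card : ℝ) = ∑ a ∈ B, (1 : ℝ) := by simp
  rw [this]
  apply Finset.sum_lt_sum (fun b _ => ch_le_one b y)
  refine ⟨a, ha, ?_⟩
  rcases ch_cases a y with ⟨h, _⟩ | ⟨_, h⟩
  · exact absurd h hne
  · rw [h]; norm_num

lemma sum_eq {B : Finset (Fin 64)} {y : Fin 64} (h : ∀ a ∈ B, chi a y = 1) :
    ∑ a ∈ B, ch a y = B.card := by
  have : (B.card : ℝ) = ∑ a ∈ B, (1 : ℝ) := by simp
  rw [this]
  apply Finset.sum_congr rfl
  intro a ha
  unfold ch; rw [h a ha]; norm_num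

theorem spectral : IsSpectral Gr 5 := by
  intro d u
  have hext0 : ∀ i : Fin 64, ∃ l : (Fin d → ℝ) →L[ℝ] ℝ, ∀ k, k ≠ i →
      l (point u k) < l (point u i) := by
    intro i
    obtain ⟨l, hl⟩ := exists_functional u (supp_mem (Finset.Subset.refl Afin) i)
    refine ⟨l, fun k hk => ?_⟩
    rw [hl, hl, supp_apply, supp_apply, add_self']
    rw [sum_eq (B := Afin) (y := 0)]
    · apply sum_lt
      by_contra hcon
      push Not at hcon
      have := spanning (add i k) (fun a ha => hcon a (List.mem_toFinset.mpr ha))
      exact hk ((add_eq_zero_iff' i k).mp this).symm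
    · intro a _
      have := chi_add a 0 0
      rw [add_self'] at this
      rw [this]; exact chi_sq a 0
  have hinj : Function.Injective (point u) := by
    intro i j hij
    by_contra hne
    obtain ⟨l, hl⟩ := hext0 i
    have := hl j (fun h => hne h.symm)
    rw [hij] at this
    exact lt_irrefl _ this
  have hext : ∀ i, point u i ∈ (polytope u).extremePoints ℝ := by
    intro i
    obtain ⟨l, hl⟩ := hext0 i
    exact extreme_of_functional l hl
  refine ⟨hinj, hext, ?_⟩
  intro i j hij
  constructor
  · intro hedge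
    by_contra hadj
    have hw0 : add i j ≠ 0 := fun h => hij ((add_eq_zero_iff' i j).mp h)
    have hS : inS (add i j) = false := by
      have : ¬ (inS (add i j) = true) := hadj
      simpa using this
    obtain ⟨t, ht0, htw, ht⟩ := nonminimal_word (add i j) hw0 hS
    have hsum : point u i + point u j = point u (add i t) + point u (add j t) := by
      funext m
      have h1 := rect (u m).2 ht i
      rw [add_add_cancel] at h1
      have h2 : add (add i t) (add i j) = add j t := by
        rw [add_assoc', ← add_assoc' t i j, add_comm' t i, add_assoc' i t j, add_add_cancel,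
          add_comm']
      rw [h2] at h1
      exact h1
    refine not_isEdge_of_sum hinj hext (k := add i t) (m := add j t) ?_ ?_ hsum hedge
    · intro h
      apply ht0
      have h3 := congrArg (add i) h
      rw [add_add_cancel, add_self'] at h3
      exact h3
    · intro h
      apply htw
      have h3 := congrArg (add i) h
      rw [add_add_cancel] at h3
      exact h3
  · intro hadj
    have hS : inS (add i j) = true := hadj
    let B : Finset (Fin 64) := Afin.filter fun a => chi a (add i j) = 1
    have hB : B ⊆ Afin := Finset.filter_subset _ _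
    obtain ⟨l, hl⟩ := exists_functional u (supp_mem hB i)
    refine isEdge_of_functional (fun h => hij (hinj h)) l (B.card : ℝ) ?_ ?_ ?_
    · rw [hl, supp_apply, add_self']
      apply sum_eq
      intro a _
      have := chi_add a 0 0
      rw [add_self'] at this
      rw [this]; exact chi_sq a 0
    · rw [hl, supp_apply]
      apply sum_eq
      intro a ha
      exact (Finset.mem_filter.mp ha).2
    · intro k hki hkj
      rw [hl, supp_apply]
      apply sum_lt
      by_contra hcon
      push Not at hcon
      have := minimal_word (add i j) hS (add i k) (fun a ha h1 =>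
        hcon a (Finset.mem_filter.mpr ⟨List.mem_toFinset.mpr ha, h1⟩))
      rcases this with h | h
      · exact hki ((add_eq_zero_iff' i k).mp h).symm
      · apply hkj
        have h3 := congrArg (add i) h
        rw [add_add_cancel, add_add_cancel] at h3
        exact h3

lemma eigenvalue_iff (μ : ℝ) : μ ∈ Eigenvalues Gr ↔ ∃ T : Fin 64, (th T : ℝ) = μ := by
  constructor
  · intro h
    obtain ⟨f, hf, hf0⟩ := Submodule.exists_mem_ne_zero_of_ne_bot h
    by_contra hcon
    push Not at hcon
    apply hf0
    funext x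
    have h1 := inversion f x
    have h2 : ∑ T, co f T * ch T x = 0 := by
      apply Finset.sum_eq_zero
      intro T _
      have h3 := co_eig hf T
      have h4 : co f T = 0 := by
        rcases mul_eq_zero.mp h3 with h | h
        · exact absurd (by linarith) (hcon T)
        · exact h
      rw [h4, zero_mul]
    rw [h2] at h1
    simpa using h1
  · rintro ⟨T, rfl⟩ hbot
    have := ch_mem T
    rw [hbot, Submodule.mem_bot] at this
    exact ch_ne_zero T this

theorem third : IsKthEigenvalue Gr 3 5 := by
  have hset : {μ | μ ∈ Eigenvalues Gr ∧ (5:ℝ) < μ} = {47, 7} := by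
    ext μ
    simp only [Set.mem_ofPred_eq, Set.mem_insert_iff, Set.mem_singleton_iff, eigenvalue_iff]
    constructor
    · rintro ⟨⟨T, rfl⟩, h⟩
      rcases th_vals T with h1 | h1 | h1
      · left; rw [h1]; norm_num
      · right; rw [h1]; norm_num
      · exfalso
        have : (th T : ℝ) ≤ 5 := by exact_mod_cast h1
        linarith
    · rintro (rfl | rfl)
      · exact ⟨⟨0, by rw [th_zero]; norm_num⟩, by norm_num⟩
      · exact ⟨⟨31, by rw [th_31]; norm_num⟩, by norm_num⟩
  refine ⟨?_, ?_, ?_⟩
  · rw [eigenvalue_iff]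
    refine ⟨4, ?_⟩
    have : th 4 = 5 := (th_eq_five 4).mpr (by decide)
    rw [this]; norm_num
  · rw [hset]; exact Set.toFinite _
  · rw [hset, Set.ncard_pair (by norm_num)]

/-- There is a `θ_k`-spectral graph with `k ≠ 2`. -/
theorem main : ∃ (n : ℕ) (G : SimpleGraph (Fin n)) (k : ℕ) (θ : ℝ),
    2 ≤ n ∧ k ≠ 2 ∧ IsKthEigenvalue G k θ ∧ IsSpectral G θ :=
  ⟨64, Gr, 3, 5, by norm_num, by norm_num, third, spectral⟩

end Pool.R87.Spectral
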