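import Mathlib
import Pool.Agent.R87.BlowLimit

/-!
# Homomorphism counts into tensor powers of complete graphs
-/

set_option autoImplicit false

namespace Pool.Agent.R87.TensorPow

open Finset Pool.Agent.R87.BlowLimit

/-- Tensor power of the complete graph `K_m`: two words are adjacent iff they differ in every
coordinate. -/
def tens (m r : ℕ) : SimpleGraph (Fin r → Fin m) where
  Adj x y := x ≠ y ∧ ∀ c, x c ≠ y c
  symm := ⟨fun _ _ h => ⟨h.1.symm, fun c => (h.2 c).symm⟩⟩
  loopless := ⟨fun _ h => h.1 rfl⟩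

theorem tens_adj {m r : ℕ} (hr : 0 < r) (x y : Fin r → Fin m) :
    (tens m r).Adj x y ↔ ∀ c, x c ≠ y c := by
  constructor
  · exact fun h => h.2
  · exact fun h => ⟨fun hxy => h ⟨0, hr⟩ (by rw [hxy]), h⟩

variable {W : Type} [Fintype W] [DecidableEq W]

omit [Fintype W] [DecidableEq W] in
theorem homs_tens (F : SimpleGraph W) {m r : ℕ} (hr : 0 < r) :
    homs F (tens m r) = (homs F (⊤ : SimpleGraph (Fin m))) ^ r := by
  unfold homs
  rw [← Nat.card_coe_set_eq, ← Nat.card_coe_set_eq]
  have e : {φ : W → (Fin r → Fin m) | ∀ i j, F.Adj i j → (tens m r).Adj (φ i) (φ j)} ≃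
      (Fin r → {g : W → Fin m | ∀ i j, F.Adj i j → (⊤ : SimpleGraph (Fin m)).Adj (g i) (g j)}) :=
    { toFun := fun φ c => ⟨fun w => φ.1 w c, fun i j hij => by
        rw [SimpleGraph.top_adj]
        exact (φ.2 i j hij).2 c⟩
      invFun := fun g => ⟨fun w c => (g c).1 w, fun i j hij => by
        rw [tens_adj hr]
        intro c
        have := (g c).2 i j hij
        rwa [SimpleGraph.top_adj] at this⟩
      left_inv := fun φ => by rfl
      right_inv := fun g => by rfl }
  rw [Nat.card_congr e, Nat.card_fun]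
  congr 1
  rw [Nat.card_eq_fintype_card, Fintype.card_fin]

/-- The number of colourings of a complete graph. -/
theorem homs_top (k m : ℕ) :
    homs (⊤ : SimpleGraph (Fin k)) (⊤ : SimpleGraph (Fin m)) = m.descFactorial k := by
  unfold homs
  have h1 : {φ : Fin k → Fin m | ∀ i j, (⊤ : SimpleGraph (Fin k)).Adj i j →
      (⊤ : SimpleGraph (Fin m)).Adj (φ i) (φ j)} = {φ : Fin k → Fin m | Function.Injective φ} := by
    ext φ
    simp only [SimpleGraph.top_adj]
    constructor
    · intro h i j hij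
      by_contra hne
      exact h i j hne hij
    · intro h i j hij hφ
      exact hij (h hφ)
  rw [h1, ← Nat.card_coe_set_eq]
  have h2 : Nat.card (Fin k ↪ Fin m) = m.descFactorial k := by
    rw [Nat.card_eq_fintype_card, Fintype.card_embedding_eq, Fintype.card_fin, Fintype.card_fin]
  rw [← h2]
  exact Nat.card_congr (Equiv.subtypeInjectiveEquivEmbedding (Fin k) (Fin m))

/-- The number of common non-neighbours-in-equality of a tuple. -/
def avoid {s m : ℕ} (x : Fin s → Fin m) : Finset (Fin m) :=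
  univ.filter (fun z => ∀ i, x i ≠ z)

open Classical in
theorem homs_bip (s t m : ℕ) :
    homs (completeBipartiteGraph (Fin s) (Fin t)) (⊤ : SimpleGraph (Fin m)) =
      ∑ x : Fin s → Fin m, (avoid x).card ^ t := by
  rw [homs_eq]
  have e := Finset.card_eq_sum_card_fiberwise
    (f := fun g : Fin s ⊕ Fin t → Fin m => fun i : Fin s => g (Sum.inl i))
    (s := univ.filter (fun φ : Fin s ⊕ Fin t → Fin m => ∀ i j,
      (completeBipartiteGraph (Fin s) (Fin t)).Adj i j → (⊤ : SimpleGraph (Fin m)).Adj (φ i) (φ j)))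
    (t := (univ : Finset (Fin s → Fin m))) (fun _ _ => Finset.mem_coe.2 (Finset.mem_univ _))
  refine Eq.trans (by congr) (e.trans ?_)
  apply Finset.sum_congr rfl
  intro x _
  have h1 : (Fintype.piFinset (fun _ : Fin t => avoid x)).card = (avoid x).card ^ t := by
    rw [Fintype.card_piFinset, Finset.prod_const, Finset.card_univ, Fintype.card_fin]
  rw [← h1]
  apply Finset.card_bij' (fun g _ => fun j : Fin t => g (Sum.inr j))
    (fun y _ => Sum.elim x y)
  · intro g hg
    simp only [Finset.mem_filter, Finset.mem_univ, true_and] at hg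
    rw [Fintype.mem_piFinset]
    intro j
    simp only [avoid, Finset.mem_filter, Finset.mem_univ, true_and]
    intro i
    have h2 := hg.1 (Sum.inl i) (Sum.inr j) (by simp)
    rw [SimpleGraph.top_adj] at h2
    rw [← hg.2]
    exact h2
  · intro y hy
    rw [Fintype.mem_piFinset] at hy
    simp only [avoid, Finset.mem_filter, Finset.mem_univ, true_and] at hy
    simp only [Finset.mem_filter, Finset.mem_univ, true_and]
    refine ⟨?_, ?_⟩
    · rintro (i | i) (j | j) hij
      · simp at hij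
      · rw [SimpleGraph.top_adj]; exact hy j i
      · rw [SimpleGraph.top_adj]; exact (hy i j).symm
      · simp at hij
    · funext i; rfl
  · intro g hg
    simp only [Finset.mem_filter, Finset.mem_univ, true_and] at hg
    funext z
    rcases z with i | j
    · exact (congrFun hg.2 i).symm
    · rfl
  · intro y _
    rfl

theorem card_avoid_ge {s m : ℕ} (x : Fin s → Fin m) : m ≤ (avoid x).card + s := by
  classical
  have h1 : (univ : Finset (Fin m)) ⊆ avoid x ∪ univ.image x := by
    intro z _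
    rw [Finset.mem_union]
    by_cases h : ∀ i, x i ≠ z
    · left; simp [avoid, h]
    · right
      push Not at h
      obtain ⟨i, hi⟩ := h
      exact Finset.mem_image.2 ⟨i, Finset.mem_univ _, hi⟩
  have h2 := Finset.card_le_card h1
  have h3 := Finset.card_union_le (avoid x) (univ.image x)
  have h4 : (univ.image x).card ≤ s := by
    calc (univ.image x).card ≤ (univ : Finset (Fin s)).card := Finset.card_image_le
      _ = s := by rw [Finset.card_univ, Fintype.card_fin]
  rw [Finset.card_univ, Fintype.card_fin] at h2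
  omega

theorem card_avoid_le {s m : ℕ} (x : Fin s → Fin m) : (avoid x).card ≤ m := by
  calc (avoid x).card ≤ (univ : Finset (Fin m)).card := Finset.card_le_univ _
    _ = m := by rw [Finset.card_univ, Fintype.card_fin]

theorem sum_avoid (s m : ℕ) :
    ∑ x : Fin s → Fin m, (avoid x).card = m * (m - 1) ^ s := by
  classical
  have h1 : ∀ x : Fin s → Fin m, (avoid x).card = ∑ z : Fin m, if ∀ i, x i ≠ z then 1 else 0 := by
    intro x
    unfold avoid
    rw [Finset.card_filter]
  simp_rw [h1]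
  rw [Finset.sum_comm]
  have h2 : ∀ z : Fin m, (∑ x : Fin s → Fin m, if ∀ i, x i ≠ z then 1 else 0) = (m - 1) ^ s := by
    intro z
    rw [← Finset.card_filter]
    have h3 : (univ.filter (fun x : Fin s → Fin m => ∀ i, x i ≠ z)) =
        Fintype.piFinset (fun _ : Fin s => (univ.erase z : Finset (Fin m))) := by
      ext x
      simp [Fintype.mem_piFinset]
    rw [h3, Fintype.card_piFinset, Finset.prod_const, Finset.card_univ, Fintype.card_fin,
      Finset.card_erase_of_mem (Finset.mem_univ _), Finset.card_univ, Fintype.card_fin]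
  simp_rw [h2]
  rw [Finset.sum_const, Finset.card_univ, Fintype.card_fin, smul_eq_mul]

/-- Second order Taylor bound for powers. -/
theorem pow_taylor {u v : ℝ} (hu0 : 0 ≤ u) (hu : u ≤ 1) (hv0 : 0 ≤ v) (hv : v ≤ 1) (t : ℕ) :
    u ^ t ≤ v ^ t + t * v ^ (t - 1) * (u - v) + (t : ℝ) ^ 2 * (u - v) ^ 2 := by
  induction t with
  | zero => simp
  | succ t ih =>
    have h1 : u ^ (t + 1) ≤ u * (v ^ t + t * v ^ (t - 1) * (u - v) + (t : ℝ) ^ 2 * (u - v) ^ 2) := by
      rw [pow_succ, mul_comm]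
      exact mul_le_mul_of_nonneg_left ih hu0
    have h2 : (t : ℝ) * v ^ (t - 1) * v = t * v ^ t := by
      rcases Nat.eq_zero_or_pos t with h | h
      · subst h; simp
      · rw [mul_assoc, ← pow_succ, Nat.sub_add_cancel h]
    have h3 : v ^ (t - 1) ≤ 1 := pow_le_one₀ hv0 hv
    have h4 : 0 ≤ v ^ (t - 1) := pow_nonneg hv0 _
    have h5 : 0 ≤ (u - v) ^ 2 := sq_nonneg _
    have ht : (0 : ℝ) ≤ t := Nat.cast_nonneg t
    have h6 : (t : ℝ) * v ^ (t - 1) * (u - v) ^ 2 ≤ t * (u - v) ^ 2 := by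
      have := mul_le_mul_of_nonneg_left h3 (mul_nonneg ht h5)
      nlinarith
    have h7 : (t : ℝ) ^ 2 * (u - v) ^ 2 * u ≤ (t : ℝ) ^ 2 * (u - v) ^ 2 := by
      have : 0 ≤ (t : ℝ) ^ 2 * (u - v) ^ 2 := by positivity
      nlinarith
    have h8 : u * (v ^ t + t * v ^ (t - 1) * (u - v) + (t : ℝ) ^ 2 * (u - v) ^ 2) =
        v ^ (t + 1) + ((t : ℝ) + 1) * v ^ t * (u - v) + t * v ^ (t - 1) * (u - v) ^ 2 +
          (t : ℝ) ^ 2 * (u - v) ^ 2 * u + (t * v ^ (t - 1) * v - t * v ^ t) * (u - v) := by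
      ring
    rw [h2, sub_self, zero_mul, add_zero] at h8
    rw [h8] at h1
    simp only [Nat.add_sub_cancel]
    push_cast
    have h9 : ((t : ℝ) + 1) ^ 2 * (u - v) ^ 2 = (t : ℝ) ^ 2 * (u - v) ^ 2 + 2 * (t * (u - v) ^ 2) +
        (u - v) ^ 2 := by ring
    rw [h9]
    have h10 : 0 ≤ t * (u - v) ^ 2 := by positivity
    linarith

/-- Upper bound for the density of `K_{s,t}` in `K_m`. -/
theorem bip_density (s t m : ℕ) (hm : 0 < m) :
    (homs (completeBipartiteGraph (Fin s) (Fin t)) (⊤ : SimpleGraph (Fin m)) : ℝ) /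
      (m : ℝ) ^ (s + t) ≤ (1 - 1 / (m : ℝ)) ^ (s * t) + (t : ℝ) ^ 2 * (s : ℝ) ^ 2 / (m : ℝ) ^ 2 := by
  have hm' : (0 : ℝ) < m := by exact_mod_cast hm
  have hm1 : (1 : ℝ) ≤ m := by exact_mod_cast hm
  set v : ℝ := (1 - 1 / (m : ℝ)) ^ s with hv
  have h01 : 0 ≤ 1 - 1 / (m : ℝ) := by
    rw [sub_nonneg, div_le_one hm']
    exact hm1
  have h11 : 1 - 1 / (m : ℝ) ≤ 1 := by
    have : 0 ≤ 1 / (m : ℝ) := by positivity
    linarith
  have hv0 : 0 ≤ v := pow_nonneg h01 _
  have hv1 : v ≤ 1 := pow_le_one₀ h01 h11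
  have hvs : 1 - (s : ℝ) / m ≤ v := by
    have := one_add_mul_le_pow (a := -(1 / (m : ℝ))) (by linarith) s
    rw [hv]
    calc 1 - (s : ℝ) / m = 1 + (s : ℝ) * (-(1 / (m : ℝ))) := by ring
      _ ≤ (1 + -(1 / (m : ℝ))) ^ s := this
      _ = (1 - 1 / (m : ℝ)) ^ s := by ring
  have hterm : ∀ x : Fin s → Fin m, (((avoid x).card : ℝ) / m) ^ t ≤
      v ^ t + t * v ^ (t - 1) * (((avoid x).card : ℝ) / m - v) +
        (t : ℝ) ^ 2 * ((s : ℝ) / m) ^ 2 := by
    intro x
    have hu0 : 0 ≤ ((avoid x).card : ℝ) / m := by positivity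
    have hu1 : ((avoid x).card : ℝ) / m ≤ 1 := by
      rw [div_le_one hm']
      exact_mod_cast card_avoid_le x
    have hus : 1 - (s : ℝ) / m ≤ ((avoid x).card : ℝ) / m := by
      rw [sub_le_iff_le_add, ← add_div, le_div_iff₀ hm', one_mul]
      exact_mod_cast card_avoid_ge x
    have h1 := pow_taylor hu0 hu1 hv0 hv1 t
    have h2 : (((avoid x).card : ℝ) / m - v) ^ 2 ≤ ((s : ℝ) / m) ^ 2 := by
      apply sq_le_sq'
      · linarith
      · linarith
    have h3 : (t : ℝ) ^ 2 * (((avoid x).card : ℝ) / m - v) ^ 2 ≤ (t : ℝ) ^ 2 * ((s : ℝ) / m) ^ 2 :=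
      mul_le_mul_of_nonneg_left h2 (by positivity)
    linarith
  have hsum : ∑ x : Fin s → Fin m, (((avoid x).card : ℝ) / m) ^ t ≤
      (m : ℝ) ^ s * (v ^ t + (t : ℝ) ^ 2 * ((s : ℝ) / m) ^ 2) := by
    calc ∑ x : Fin s → Fin m, (((avoid x).card : ℝ) / m) ^ t
        ≤ ∑ x : Fin s → Fin m, (v ^ t + t * v ^ (t - 1) * (((avoid x).card : ℝ) / m - v) +
          (t : ℝ) ^ 2 * ((s : ℝ) / m) ^ 2) := Finset.sum_le_sum (fun x _ => hterm x)
      _ = (m : ℝ) ^ s * (v ^ t + (t : ℝ) ^ 2 * ((s : ℝ) / m) ^ 2) +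
          t * v ^ (t - 1) * (∑ x : Fin s → Fin m, ((avoid x).card : ℝ) / m - (m : ℝ) ^ s * v) := by
          rw [Finset.sum_add_distrib, Finset.sum_add_distrib, ← Finset.mul_sum,
            Finset.sum_sub_distrib]
          simp only [Finset.sum_const, Finset.card_univ, Fintype.card_fun, Fintype.card_fin,
            nsmul_eq_mul]
          push_cast
          ring
      _ = (m : ℝ) ^ s * (v ^ t + (t : ℝ) ^ 2 * ((s : ℝ) / m) ^ 2) := by
          have h4 : ∑ x : Fin s → Fin m, ((avoid x).card : ℝ) / m = (m : ℝ) ^ s * v := by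
            rw [← Finset.sum_div, ← Nat.cast_sum, sum_avoid, hv]
            rw [Nat.cast_mul, Nat.cast_pow, Nat.cast_sub hm]
            rw [mul_div_assoc, mul_comm, div_mul_cancel₀ _ hm'.ne', ← mul_pow]
            congr 1
            field_simp
            simp
          rw [h4, sub_self, mul_zero, add_zero]
  rw [homs_bip]
  have h5 : ((∑ x : Fin s → Fin m, (avoid x).card ^ t : ℕ) : ℝ) / (m : ℝ) ^ (s + t) =
      (∑ x : Fin s → Fin m, (((avoid x).card : ℝ) / m) ^ t) / (m : ℝ) ^ s := by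
    push_cast
    rw [Finset.sum_div, Finset.sum_div]
    apply Finset.sum_congr rfl
    intro x _
    rw [div_pow, pow_add, div_div, mul_comm]
  rw [h5, div_le_iff₀ (by positivity)]
  refine hsum.trans (le_of_eq ?_)
  rw [hv, ← pow_mul, div_pow]
  ring

omit [Fintype W] [DecidableEq W] in
/-- Isomorphic patterns have the same counts. -/
theorem homs_iso {W' X : Type} (σ : W' ≃ W) (F' : SimpleGraph W') (F : SimpleGraph W)
    (Γ : SimpleGraph X) (h : ∀ i j, F'.Adj i j ↔ F.Adj (σ i) (σ j)) : homs F' Γ = homs F Γ := by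
  unfold homs
  rw [← Nat.card_coe_set_eq, ← Nat.card_coe_set_eq]
  refine Nat.card_congr ⟨fun φ => ⟨fun w => φ.1 (σ.symm w), ?_⟩, fun ψ => ⟨fun w => ψ.1 (σ w), ?_⟩,
    ?_, ?_⟩
  · intro i j hij
    apply φ.2
    rw [h]
    simpa using hij
  · intro i j hij
    exact ψ.2 _ _ ((h i j).1 hij)
  · intro φ
    apply Subtype.ext
    funext w
    simp
  · intro ψ
    apply Subtype.ext
    funext w
    simp

/-- The vertices of a four-cycle split into opposite pairs. -/
def sigma4 : Fin 2 ⊕ Fin 2 ≃ Fin 4 where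
  toFun := Sum.elim ![0, 2] ![1, 3]
  invFun := ![Sum.inl 0, Sum.inr 0, Sum.inl 1, Sum.inr 1]
  left_inv := by decide
  right_inv := by decide

theorem sigma4_adj (i j : Fin 2 ⊕ Fin 2) :
    (completeBipartiteGraph (Fin 2) (Fin 2)).Adj i j ↔
      (SimpleGraph.cycleGraph 4).Adj (sigma4 i) (sigma4 j) := by
  rcases i with i | i <;> rcases j with j | j <;> fin_cases i <;> fin_cases j <;>
    simp [sigma4, SimpleGraph.cycleGraph_adj] <;> decide

theorem homs_cycle_four (m : ℕ) (hm : 2 ≤ m) :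
    (homs (SimpleGraph.cycleGraph 4) (⊤ : SimpleGraph (Fin m)) : ℝ) =
      m * (m - 1) * ((m - 1) + (m - 2) ^ 2) := by
  classical
  rw [← homs_iso sigma4 (completeBipartiteGraph (Fin 2) (Fin 2)) (SimpleGraph.cycleGraph 4)
    (⊤ : SimpleGraph (Fin m)) sigma4_adj, homs_bip]
  have h1 : ∑ x : Fin 2 → Fin m, (avoid x).card ^ 2 =
      ∑ y : Fin m × Fin m, (if y.1 = y.2 then (m - 1) ^ 2 else (m - 2) ^ 2) := by
    apply Fintype.sum_equiv (finTwoArrowEquiv (Fin m))
    intro x
    have h2 : avoid x = univ \ {x 0, x 1} := by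
      ext z
      simp only [avoid, Finset.mem_filter, Finset.mem_univ, true_and, Finset.mem_sdiff,
        Finset.mem_insert, Finset.mem_singleton, not_or]
      constructor
      · intro h; exact ⟨(h 0).symm, (h 1).symm⟩
      · rintro ⟨h0, h1⟩ i
        fin_cases i
        · exact fun h => h0 h.symm
        · exact fun h => h1 h.symm
    have h3 : (avoid x).card = m - ({x 0, x 1} : Finset (Fin m)).card := by
      rw [h2, Finset.card_sdiff_of_subset (Finset.subset_univ _), Finset.card_univ,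
        Fintype.card_fin]
    rw [h3]
    by_cases hx : x 0 = x 1
    · simp [finTwoArrowEquiv, hx]
    · rw [Finset.card_pair hx]
      simp [finTwoArrowEquiv, hx]
  rw [h1, Fintype.sum_prod_type]
  have h4 : ∀ a : Fin m, ∑ b : Fin m, (if a = b then (m - 1) ^ 2 else (m - 2) ^ 2) =
      (m - 1) ^ 2 + (m - 1) * (m - 2) ^ 2 := by
    intro a
    rw [Finset.sum_ite]
    simp only [Finset.sum_const, smul_eq_mul]
    rw [Finset.filter_eq, if_pos (Finset.mem_univ a), Finset.card_singleton, one_mul]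
    congr 1
    have h5 : (univ.filter (fun b : Fin m => ¬ a = b)) = univ.erase a := by
      ext b
      simp [eq_comm]
    rw [h5, Finset.card_erase_of_mem (Finset.mem_univ _), Finset.card_univ, Fintype.card_fin]
  simp_rw [h4]
  rw [Finset.sum_const, Finset.card_univ, Fintype.card_fin, smul_eq_mul]
  have e1 : ((m - 1 : ℕ) : ℝ) = (m : ℝ) - 1 := by
    rw [Nat.cast_sub (by omega)]; simp
  have e2 : ((m - 2 : ℕ) : ℝ) = (m : ℝ) - 2 := by
    rw [Nat.cast_sub hm]; simp
  push_cast [e1, e2]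
  ring

end Pool.Agent.R87.TensorPow
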