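import Pool.Agent.R87.SevenGraph

/-!
# The triple (7, 8, 8)

The disjoint union of the blowup of the 5-cycle by triangles and of a complete graph on seven
vertices is a minimum-order (7,8,8)-graph.
-/

set_option autoImplicit false

namespace Pool.Agent.R87.Triple

open Finset

open Classical in
/-- The triple `(a, b, c)` is graphical via `G`: clique number `a`, chromatic number `b` and
maximum degree `c`. -/
def Via {n : ℕ} (G : SimpleGraph (Fin n)) (a b c : ℕ) : Prop :=
  G.cliqueNum = a ∧ G.chromaticNumber = (b : ℕ∞) ∧ G.maxDegree = c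

/-- `G` is a minimum-order `(a, b, c)`-graph. -/
def IsMinimumOrder {n : ℕ} (G : SimpleGraph (Fin n)) (a b c : ℕ) : Prop :=
  Via G a b c ∧ ∀ (m : ℕ) (G' : SimpleGraph (Fin m)), Via G' a b c → n ≤ m

/-- the block of a vertex: five blocks of size three and one block of size seven -/
def blk : Fin 22 → Fin 6 :=
  ![0, 0, 0, 1, 1, 1, 2, 2, 2, 3, 3, 3, 4, 4, 4, 5, 5, 5, 5, 5, 5, 5]

/-- equal or cyclically adjacent blocks -/
def rel (a b : Fin 6) : Bool :=
  match a, b with
  | 0, 0 => true | 0, 1 => true | 1, 0 => true | 1, 1 => true | 1, 2 => true | 2, 1 => true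
  | 2, 2 => true | 2, 3 => true | 3, 2 => true | 3, 3 => true | 3, 4 => true | 4, 3 => true
  | 4, 4 => true | 4, 0 => true | 0, 4 => true | 5, 5 => true
  | _, _ => false

theorem rel_symm : ∀ a b, rel a b = true → rel b a = true := by decide

/-- the graph -/
def GG : SimpleGraph (Fin 22) where
  Adj i j := i ≠ j ∧ rel (blk i) (blk j) = true
  symm := ⟨fun _ _ h => ⟨h.1.symm, rel_symm _ _ h.2⟩⟩
  loopless := ⟨fun _ h => h.1 rfl⟩

instance : DecidableRel GG.Adj := fun i j =>
  inferInstanceAs (Decidable (i ≠ j ∧ rel (blk i) (blk j) = true))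

theorem adj_iff {i j : Fin 22} : GG.Adj i j ↔ i ≠ j ∧ rel (blk i) (blk j) = true := Iff.rfl

theorem rel_refl : ∀ a, rel a a = true := by decide
theorem rel_tri : ∀ a b c, a ≠ 5 → b ≠ a → rel a b = true → rel a c = true → rel b c = true →
    c = a ∨ c = b := by decide
theorem rel_five : ∀ a b, rel a b = true → (a = 5 ↔ b = 5) := by decide
theorem rel_indep : ∀ a b c, a ≠ 5 → b ≠ 5 → c ≠ 5 → rel a b = true ∨ rel a c = true ∨
    rel b c = true := by decide
theorem blk_card : ∀ a : Fin 6, a ≠ 5 → (univ.filter (fun i => blk i = a)).card = 3 := by decide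
theorem blk_card5 : (univ.filter (fun i => blk i = 5)).card = 7 := by decide
theorem blk_card15 : (univ.filter (fun i => blk i ≠ 5)).card = 15 := by decide

theorem rel_of_clique {s : Finset (Fin 22)} (hs : GG.IsClique (s : Set (Fin 22))) {u v : Fin 22}
    (hu : u ∈ s) (hv : v ∈ s) : rel (blk u) (blk v) = true := by
  by_cases h : u = v
  · rw [h]; exact rel_refl _
  · exact (hs hu hv h).2

/-- a clique that meets the blowup has at most six vertices -/
theorem clique_card {s : Finset (Fin 22)} (hs : GG.IsClique (s : Set (Fin 22))) {v : Fin 22}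
    (hv : v ∈ s) (hv5 : blk v ≠ 5) : s.card ≤ 6 := by
  by_cases h : ∃ w ∈ s, blk w ≠ blk v
  · obtain ⟨w, hw, hwv⟩ := h
    have hsub : s ⊆ univ.filter (fun i => blk i = blk v) ∪ univ.filter (fun i => blk i = blk w) := by
      intro u hu
      rw [mem_union, mem_filter, mem_filter]
      rcases rel_tri (blk v) (blk w) (blk u) hv5 hwv (rel_of_clique hs hv hw)
        (rel_of_clique hs hv hu) (rel_of_clique hs hw hu) with h | h
      · exact Or.inl ⟨mem_univ _, h⟩
      · exact Or.inr ⟨mem_univ _, h⟩
    have hw5 : blk w ≠ 5 := fun h => hv5 ((rel_five _ _ (rel_of_clique hs hv hw)).2 h)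
    have h1 := card_le_card hsub
    have h2 := card_union_le (univ.filter (fun i => blk i = blk v))
      (univ.filter (fun i => blk i = blk w))
    rw [blk_card _ hv5, blk_card _ hw5] at h2
    omega
  · push Not at h
    have hsub : s ⊆ univ.filter (fun i => blk i = blk v) := by
      intro u hu
      rw [mem_filter]
      exact ⟨mem_univ _, h u hu⟩
    have h1 := card_le_card hsub
    rw [blk_card _ hv5] at h1
    omega

theorem cliqueFree : GG.CliqueFree 8 := by
  intro s hs
  rw [SimpleGraph.isNClique_iff] at hs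
  by_cases h : ∃ v ∈ s, blk v ≠ 5
  · obtain ⟨v, hv, hv5⟩ := h
    have := clique_card hs.1 hv hv5
    omega
  · push Not at h
    have hsub : s ⊆ univ.filter (fun i => blk i = 5) := by
      intro u hu
      rw [mem_filter]
      exact ⟨mem_univ _, h u hu⟩
    have h1 := card_le_card hsub
    rw [blk_card5] at h1
    omega

theorem clique7 : GG.IsNClique 7 (univ.filter (fun i => blk i = 5)) := by
  rw [SimpleGraph.isNClique_iff]
  refine ⟨?_, blk_card5⟩
  intro u hu v hv huv
  simp only [coe_filter, mem_univ, true_and, Set.mem_ofPred_eq] at hu hv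
  rw [adj_iff, hu, hv]
  exact ⟨huv, rfl⟩

theorem cliqueNum_eq_of {n k : ℕ} {G : SimpleGraph (Fin n)} {s : Finset (Fin n)}
    (h1 : G.IsNClique k s) (h2 : G.CliqueFree (k + 1)) : G.cliqueNum = k := by
  apply le_antisymm
  · by_contra hcon
    push Not at hcon
    obtain ⟨t, ht⟩ := G.exists_isNClique_cliqueNum
    exact (h2.mono hcon) t ht
  · rw [← h1.card_eq]
    exact h1.isClique.card_le_cliqueNum

/-- a colouring with eight colours -/
def col : Fin 22 → Fin 8 :=
  ![0, 1, 2, 3, 4, 5, 6, 7, 0, 1, 2, 3, 4, 5, 6, 0, 1, 2, 3, 4, 5, 6]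

theorem col_proper : ∀ i j, GG.Adj i j → col i ≠ col j := by decide

theorem colorable8 : GG.Colorable 8 := ⟨SimpleGraph.Coloring.mk col (fun {i j} h => col_proper i j h)⟩

theorem not_colorable7 : ¬ GG.Colorable 7 := by
  rintro ⟨C⟩
  obtain ⟨k, _, hk⟩ := exists_lt_card_fiber_of_mul_lt_card_of_maps_to
    (s := univ.filter (fun i => blk i ≠ 5)) (t := (univ : Finset (Fin 7))) (f := fun i => C i)
    (n := 2) (fun _ _ => mem_univ _) (by rw [blk_card15, card_univ, Fintype.card_fin]; norm_num)
  obtain ⟨t, ht, htc⟩ := exists_subset_card_eq hk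
  obtain ⟨x, y, z, hxy, hxz, hyz, rfl⟩ := card_eq_three.1 htc
  have hm : ∀ w ∈ ({x, y, z} : Finset (Fin 22)), blk w ≠ 5 ∧ C w = k := by
    intro w hw
    have := ht hw
    rw [mem_filter, mem_filter] at this
    exact ⟨this.1.2, this.2⟩
  have hx := hm x (by simp)
  have hy := hm y (by simp)
  have hz := hm z (by simp)
  rcases rel_indep _ _ _ hx.1 hy.1 hz.1 with h | h | h
  · exact C.valid (adj_iff.2 ⟨hxy, h⟩) (hx.2.trans hy.2.symm)
  · exact C.valid (adj_iff.2 ⟨hxz, h⟩) (hx.2.trans hz.2.symm)
  · exact C.valid (adj_iff.2 ⟨hyz, h⟩) (hy.2.trans hz.2.symm)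

theorem chrom : GG.chromaticNumber = ((8 : ℕ) : ℕ∞) := by
  apply le_antisymm
  · exact colorable8.chromaticNumber_le
  · by_contra hcon
    push Not at hcon
    have h1 : GG.chromaticNumber ≤ ((7 : ℕ) : ℕ∞) := by
      have h2 : GG.chromaticNumber < ((7 : ℕ) : ℕ∞) + 1 := hcon
      exact Order.le_of_lt_add_one h2
    exact not_colorable7 (SimpleGraph.chromaticNumber_le_iff_colorable.1 h1)

theorem deg_le : ∀ v, GG.degree v = if blk v = 5 then 6 else 8 := by decide

theorem maxDeg (inst : DecidableRel GG.Adj) : @SimpleGraph.maxDegree _ GG _ inst = 8 := by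
  have h : inst = instDecidableRelFinOfNatNatAdjGG := Subsingleton.elim _ _
  subst h
  apply le_antisymm
  · apply SimpleGraph.maxDegree_le_of_forall_degree_le
    intro v
    rw [deg_le v]
    split_ifs <;> norm_num
  · have h1 := deg_le 0
    rw [if_neg (by decide)] at h1
    rw [← h1]
    exact SimpleGraph.degree_le_maxDegree _ _

theorem via : Via GG 7 8 8 := ⟨cliqueNum_eq_of clique7 cliqueFree, chrom, maxDeg _⟩

theorem minimal (m : ℕ) (G : SimpleGraph (Fin m)) (h : Via G 7 8 8) : 22 ≤ m := by
  classical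
  by_contra hcon
  push Not at hcon
  obtain ⟨h1, h2, h3⟩ := h
  obtain ⟨s, hs⟩ := G.exists_isNClique_cliqueNum
  rw [h1] at hs
  have hcl : G.CliqueFree 8 := by
    intro t ht
    have h4 := ht.isClique.card_le_cliqueNum
    rw [ht.card_eq] at h4
    omega
  have hdeg : ∀ v, G.degree v ≤ 8 := by
    intro v
    rw [← h3]
    convert SimpleGraph.degree_le_maxDegree G v
  have hcol := Seven.colorable7 G (by rw [Fintype.card_fin]; omega) hcl hs hdeg
  have h4 := hcol.chromaticNumber_le
  rw [h2] at h4
  have h5 : (8 : ℕ) ≤ 7 := by exact_mod_cast h4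
  omega

theorem isMinimumOrder : IsMinimumOrder GG 7 8 8 := ⟨via, minimal⟩

theorem reach {u v : Fin 22} (h : GG.Reachable u v) : (blk u = 5 ↔ blk v = 5) := by
  obtain ⟨p⟩ := h
  induction p with
  | nil => exact Iff.rfl
  | cons h _ ih => exact (rel_five _ _ h.2).trans ih

theorem not_connected : ¬ GG.Connected := by
  intro h
  have := reach (h.preconnected 0 15)
  revert this
  decide

theorem avoid (v : Fin 22) (inst : Fintype (GG.neighborSet v))
    (hv : @SimpleGraph.degree _ GG v inst = 8)
    (s : Finset (Fin 22)) (hs : GG.IsNClique 7 s) : v ∉ s := by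
  intro hvs
  have h1 : @SimpleGraph.degree _ GG v inst = if blk v = 5 then 6 else 8 := by
    rw [← deg_le v]
    congr 1
    exact Subsingleton.elim _ _
  rw [hv] at h1
  have h5 : blk v ≠ 5 := by
    intro h
    rw [if_pos h] at h1
    omega
  have h2 := clique_card hs.isClique hvs h5
  rw [hs.card_eq] at h2
  omega

end Pool.Agent.R87.Triple
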