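import Pool.Agent.R87.GnpMore

/-!
# Zero forcing with a random set: the brick graph
-/

set_option autoImplicit false
set_option linter.unusedSectionVars false

namespace Pool.Agent.R87.ZF

open Finset Pool.Agent.W166.Gnp Pool.Agent.R87.GnpMore

/-- The vertices that become blue when the vertices of `B` are blue at the start: a blue vertex
`u` colours its neighbour `v` once all other neighbours of `u` are blue. -/
inductive Blue {V : Type} (G : SimpleGraph V) (B : Finset V) : V → Prop
  | start (v : V) (h : v ∈ B) : Blue G B v
  | force (u v : V) (hu : Blue G B u) (huv : G.Adj u v)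
      (h : ∀ w, G.Adj u w → w ≠ v → Blue G B w) : Blue G B v

/-- `B` is a zero forcing set. -/
def IsZeroForcing {V : Type} (G : SimpleGraph V) (B : Finset V) : Prop := ∀ v, Blue G B v

open Classical in
/-- The probability that the random set `B_p(G)` is a zero forcing set. -/
noncomputable def zfProb {V : Type} [Fintype V] (G : SimpleGraph V) (p : ℝ) : ℝ :=
  ∑ B : Finset V, if IsZeroForcing G B then p ^ B.card * (1 - p) ^ (Fintype.card V - B.card) else 0

/-- `p` is the threshold probability of `G`. -/
def IsThreshold {V : Type} [Fintype V] (G : SimpleGraph V) (p : ℝ) : Prop :=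
  0 ≤ p ∧ p ≤ 1 ∧ zfProb G p = 1 / 2

/-- the vertices of the brick graph -/
abbrev BV (m L k : ℕ) : Type := (Fin m × Fin L) ⊕ (Fin k × Fin (m + 1))

/-- oriented adjacency -/
def brel (m L k : ℕ) (x y : BV m L k) : Prop :=
  match x, y with
  | Sum.inl (i, j), Sum.inl (i', j') => i = i' ∧ j.val + 1 = j'.val
  | Sum.inl (i, j), Sum.inr (s, t) => j.val + 1 = L ∧ s.val = 0 ∧ (t.val = i.val ∨ t.val = i.val + 1)
  | Sum.inr (s, t), Sum.inr (s', t') =>
      (t.val < m ∧ s.val + 1 = s'.val ∧ (t'.val = t.val ∨ t'.val = t.val + 1)) ∨
      (t.val = m ∧ t'.val = m ∧ s.val < s'.val)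
  | Sum.inr _, Sum.inl _ => False

/-- the brick graph -/
def brick (m L k : ℕ) : SimpleGraph (BV m L k) where
  Adj x y := brel m L k x y ∨ brel m L k y x
  symm := ⟨fun _ _ h => h.symm⟩
  loopless := ⟨by
    rintro (⟨i, j⟩ | ⟨s, t⟩) h
    · rcases h with h | h <;> · simp only [brel] at h; omega
    · rcases h with h | h <;> · simp only [brel] at h; omega⟩

variable {m L k : ℕ}

/-- the nice sets -/
def Nice (m L k : ℕ) (B : Finset (BV m L k)) : Prop :=
  (∀ i : Fin m, ∃ j j' : Fin L, j.val + 1 = j'.val ∧ Sum.inl (i, j) ∈ B ∧ Sum.inl (i, j') ∈ B) ∧
  ∀ s : Fin k, ∃ t : Fin (m + 1), Sum.inr (s, t) ∈ B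

theorem blue_arm {B : Finset (BV m L k)} (i : Fin m)
    (h : ∃ j j' : Fin L, j.val + 1 = j'.val ∧ Sum.inl (i, j) ∈ B ∧ Sum.inl (i, j') ∈ B) :
    ∀ j : Fin L, Blue (brick m L k) B (Sum.inl (i, j)) := by
  obtain ⟨j0, j0', hj, h0, h0'⟩ := h
  -- one step
  have step : ∀ a b c : Fin L, (a.val + 1 = b.val ∧ b.val + 1 = c.val) →
      Blue (brick m L k) B (Sum.inl (i, b)) →
      (Blue (brick m L k) B (Sum.inl (i, a)) → Blue (brick m L k) B (Sum.inl (i, c))) ∧
      (Blue (brick m L k) B (Sum.inl (i, c)) → Blue (brick m L k) B (Sum.inl (i, a))) := by
    intro a b c habc hb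
    have hnb : ∀ w, (brick m L k).Adj (Sum.inl (i, b)) w → w = Sum.inl (i, a) ∨ w = Sum.inl (i, c) := by
      rintro (⟨i', j'⟩ | ⟨s, t⟩) hw
      · rcases hw with hw | hw
        · simp only [brel] at hw
          right
          have : j' = c := Fin.ext (by omega)
          rw [this, ← hw.1]
        · simp only [brel] at hw
          left
          have : j' = a := Fin.ext (by omega)
          rw [this, hw.1]
      · rcases hw with hw | hw
        · simp only [brel] at hw
          have := c.2
          omega
        · simp only [brel] at hw
    constructor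
    · intro ha
      apply Blue.force (Sum.inl (i, b)) (Sum.inl (i, c)) hb (Or.inl ⟨rfl, habc.2⟩)
      intro w hw hne
      rcases hnb w hw with rfl | rfl
      · exact ha
      · exact absurd rfl hne
    · intro hc
      apply Blue.force (Sum.inl (i, b)) (Sum.inl (i, a)) hb (Or.inr ⟨rfl, habc.1⟩)
      intro w hw hne
      rcases hnb w hw with rfl | rfl
      · exact absurd rfl hne
      · exact hc
  -- upwards
  have up : ∀ d : ℕ, ∀ j : Fin L, j.val = j0.val + d → Blue (brick m L k) B (Sum.inl (i, j)) := by
    intro d
    induction d using Nat.strong_induction_on with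
    | _ d ih =>
      intro j hjd
      rcases Nat.lt_or_ge d 2 with hd | hd
      · interval_cases d
        · have : j = j0 := Fin.ext (by omega)
          rw [this]; exact Blue.start _ h0
        · have : j = j0' := Fin.ext (by omega)
          rw [this]; exact Blue.start _ h0'
      · have hjL := j.2
        have h1 := ih (d - 2) (by omega) ⟨j0.val + (d - 2), by omega⟩ rfl
        have h2 := ih (d - 1) (by omega) ⟨j0.val + (d - 1), by omega⟩ rfl
        exact (step _ _ j ⟨by simp only; omega, by simp only; omega⟩ h2).1 h1
  have down : ∀ d : ℕ, ∀ j : Fin L, j.val + d = j0'.val → Blue (brick m L k) B (Sum.inl (i, j)) := by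
    intro d
    induction d using Nat.strong_induction_on with
    | _ d ih =>
      intro j hjd
      rcases Nat.lt_or_ge d 2 with hd | hd
      · interval_cases d
        · have : j = j0' := Fin.ext (by omega)
          rw [this]; exact Blue.start _ h0'
        · have : j = j0 := Fin.ext (by omega)
          rw [this]; exact Blue.start _ h0
      · have hjL := j0'.2
        have h1 := ih (d - 2) (by omega) ⟨j.val + 2, by omega⟩ (by simp only; omega)
        have h2 := ih (d - 1) (by omega) ⟨j.val + 1, by omega⟩ (by simp only; omega)
        exact (step j _ _ ⟨rfl, rfl⟩ h2).2 h1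
  intro j
  rcases Nat.lt_or_ge j.val j0.val with h | h
  · exact down (j0'.val - j.val) j (by omega)
  · exact up (j.val - j0.val) j (by omega)

/-- a row of blue vertices, each with only two further neighbours in the next row -/
theorem blue_row {B : Finset (BV m L k)} (s : Fin k) (f : Fin m → BV m L k)
    (hf : ∀ i, Blue (brick m L k) B (f i))
    (hadj : ∀ i : Fin m, (brick m L k).Adj (f i) (Sum.inr (s, i.castSucc)) ∧
      (brick m L k).Adj (f i) (Sum.inr (s, i.succ)))
    (hnb : ∀ (i : Fin m) w, (brick m L k).Adj (f i) w → Blue (brick m L k) B w ∨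
      w = Sum.inr (s, i.castSucc) ∨ w = Sum.inr (s, i.succ))
    (hB : ∃ t : Fin (m + 1), Sum.inr (s, t) ∈ B) :
    ∀ t : Fin (m + 1), Blue (brick m L k) B (Sum.inr (s, t)) := by
  obtain ⟨t0, ht0⟩ := hB
  have up : ∀ d : ℕ, ∀ t : Fin (m + 1), t.val = t0.val + d →
      Blue (brick m L k) B (Sum.inr (s, t)) := by
    intro d
    induction d with
    | zero =>
      intro t ht
      have : t = t0 := Fin.ext (by omega)
      rw [this]; exact Blue.start _ ht0
    | succ d ih =>
      intro t ht
      have htm := t.2
      have h1 := ih ⟨t0.val + d, by omega⟩ rfl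
      let i : Fin m := ⟨t0.val + d, by omega⟩
      have e1 : (⟨t0.val + d, by omega⟩ : Fin (m + 1)) = i.castSucc := rfl
      have e2 : t = i.succ := Fin.ext (by rw [Fin.val_succ]; show t.val = t0.val + d + 1; omega)
      rw [e1] at h1
      rw [e2]
      apply Blue.force (f i) _ (hf i) (hadj i).2
      intro w hw hne
      rcases hnb i w hw with h | h | h
      · exact h
      · rw [h]; exact h1
      · exact absurd h hne
  have down : ∀ d : ℕ, ∀ t : Fin (m + 1), t.val + d = t0.val →
      Blue (brick m L k) B (Sum.inr (s, t)) := by
    intro d
    induction d with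
    | zero =>
      intro t ht
      have : t = t0 := Fin.ext (by omega)
      rw [this]; exact Blue.start _ ht0
    | succ d ih =>
      intro t ht
      have htm := t0.2
      have h1 := ih ⟨t.val + 1, by omega⟩ (by simp only; omega)
      let i : Fin m := ⟨t.val, by omega⟩
      have e1 : (⟨t.val + 1, by omega⟩ : Fin (m + 1)) = i.succ := rfl
      have e2 : t = i.castSucc := rfl
      rw [e1] at h1
      rw [e2]
      apply Blue.force (f i) _ (hf i) (hadj i).1
      intro w hw hne
      rcases hnb i w hw with h | h | h
      · exact h
      · exact absurd h hne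
      · rw [h]; exact h1
  intro t
  rcases Nat.lt_or_ge t.val t0.val with h | h
  · exact down (t0.val - t.val) t (by omega)
  · exact up (t.val - t0.val) t (by omega)

theorem zf_of_nice (hL : 0 < L) {B : Finset (BV m L k)} (hB : Nice m L k B) :
    IsZeroForcing (brick m L k) B := by
  have harm : ∀ (i : Fin m) (j : Fin L), Blue (brick m L k) B (Sum.inl (i, j)) :=
    fun i => blue_arm i (hB.1 i)
  have hrow : ∀ (r : ℕ) (s : Fin k), s.val = r → ∀ t : Fin (m + 1),
      Blue (brick m L k) B (Sum.inr (s, t)) := by
    intro r
    induction r using Nat.strong_induction_on with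
    | _ r ih =>
    rcases Nat.eq_zero_or_pos r with hr | hr
    · subst hr
      intro s hs
      apply blue_row s (fun i => Sum.inl (i, ⟨L - 1, by omega⟩)) (fun i => harm i _)
      · intro i
        constructor
        · left
          exact ⟨by simp only; omega, hs, Or.inl rfl⟩
        · left
          exact ⟨by simp only; omega, hs, Or.inr (by simp)⟩
      · rintro i (⟨i', j'⟩ | ⟨s', t'⟩) hw
        · exact Or.inl (harm i' j')
        · right
          rcases hw with hw | hw
          · simp only [brel] at hw
            have hss : s' = s := Fin.ext (by omega)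
            rcases hw.2.2 with h | h
            · left
              rw [hss]
              congr 2
              exact Fin.ext (by simpa using h)
            · right
              rw [hss]
              congr 2
              exact Fin.ext (by simpa using h)
          · simp only [brel] at hw
      · exact hB.2 s
    · intro s hs
      have hsk := s.2
      let s0 : Fin k := ⟨r - 1, by omega⟩
      have hs0 : s0.val = r - 1 := rfl
      apply blue_row s (fun i => Sum.inr (s0, i.castSucc))
        (fun i => ih (r - 1) (by omega) s0 rfl _)
      · intro i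
        constructor
        · left
          left
          exact ⟨i.2, by simp only [s0]; omega, Or.inl rfl⟩
        · left
          left
          exact ⟨i.2, by simp only [s0]; omega, Or.inr (by simp)⟩
      · rintro i (⟨i', j'⟩ | ⟨s', t'⟩) hw
        · exact Or.inl (harm i' j')
        · rcases hw with hw | hw
          · simp only [brel, Fin.val_castSucc] at hw
            rcases hw with hw | hw
            · right
              have hss : s' = s := Fin.ext (by have := hw.2.1; simp only [s0] at this; omega)
              rcases hw.2.2 with h | h
              · left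
                rw [hss]
                congr 2
                exact Fin.ext (by simpa using h)
              · right
                rw [hss]
                congr 2
                exact Fin.ext (by simpa using h)
            · have := i.2
              omega
          · simp only [brel, Fin.val_castSucc] at hw
            rcases hw with hw | hw
            · left
              exact ih s'.val (by omega) s' rfl t'
            · have := i.2
              omega
      · exact hB.2 s
  rintro (⟨i, j⟩ | ⟨s, t⟩)
  · exact harm i j
  · exact hrow s.val s rfl t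

end Pool.Agent.R87.ZF
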