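import Pool.Agent.R87.ZF

/-!
# Probability estimates for the brick graph
-/

set_option autoImplicit false
set_option linter.unusedSectionVars false

namespace Pool.Agent.R87.ZF

open Finset Pool.Agent.W166.Gnp Pool.Agent.R87.GnpMore

theorem zfProb_eq {V : Type} [Fintype V] [DecidableEq V] (G : SimpleGraph V) (p : ℝ) :
    zfProb G p = Pr (univ : Finset V) p (fun B => IsZeroForcing G B) := by
  classical
  unfold zfProb Pr Ex
  rw [powerset_univ]
  apply sum_congr rfl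
  intro B _
  rw [card_univ]
  by_cases hB : IsZeroForcing G B
  · simp only [hB, if_true, mul_one]
  · simp only [hB, if_false, mul_zero]

variable {m h k : ℕ}

/-- a pair of consecutive vertices of an arm -/
def pr (m h k : ℕ) (i : Fin m) (j : Fin h) : Finset (BV m (2 * h) k) :=
  {Sum.inl (i, ⟨2 * j.val, by omega⟩), Sum.inl (i, ⟨2 * j.val + 1, by omega⟩)}

theorem mem_pr {i : Fin m} {j : Fin h} {x : BV m (2 * h) k} : x ∈ pr m h k i j ↔
    ∃ l : Fin (2 * h), x = Sum.inl (i, l) ∧ (l.val = 2 * j.val ∨ l.val = 2 * j.val + 1) := by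
  unfold pr
  rw [mem_insert, mem_singleton]
  constructor
  · rintro (rfl | rfl)
    · exact ⟨_, rfl, Or.inl rfl⟩
    · exact ⟨_, rfl, Or.inr rfl⟩
  · rintro ⟨l, rfl, h | h⟩
    · left; congr 2; exact Fin.ext h
    · right; congr 2; exact Fin.ext h

theorem card_pr (i : Fin m) (j : Fin h) : (pr m h k i j).card = 2 := by
  unfold pr
  apply card_pair
  intro heq
  have h1 := Sum.inl.inj heq
  have h2 := congrArg (fun x => (x.2 : Fin (2 * h)).val) h1
  simp at h2

theorem pr_disjoint (i : Fin m) :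
    ((univ : Finset (Fin h)) : Set (Fin h)).PairwiseDisjoint (pr m h k i) := by
  intro j _ j' _ hne
  rw [Function.onFun, Finset.disjoint_left]
  intro x hx hx'
  rw [mem_pr] at hx hx'
  obtain ⟨l, rfl, hl⟩ := hx
  obtain ⟨l', heq, hl'⟩ := hx'
  have h1 := Sum.inl.inj heq
  have h2 : l = l' := congrArg Prod.snd h1
  subst h2
  apply hne
  exact Fin.ext (by omega)

/-- a row -/
def rw' (m h k : ℕ) (s : Fin k) : Finset (BV m (2 * h) k) :=
  univ.image (fun t : Fin (m + 1) => Sum.inr (s, t))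

theorem card_rw (s : Fin k) : (rw' m h k s).card = m + 1 := by
  unfold rw'
  rw [card_image_of_injective, card_univ, Fintype.card_fin]
  intro t t' heq
  have h1 := Sum.inr.inj heq
  exact congrArg Prod.snd h1

theorem arm_prob (p : ℝ) (i : Fin m) :
    Pr (univ : Finset (BV m (2 * h) k)) p (fun S => ∀ j ∈ (univ : Finset (Fin h)),
      ¬ pr m h k i j ⊆ S) = (1 - p ^ 2) ^ h := by
  have h1 := Pr_forall (E := (univ : Finset (BV m (2 * h) k))) p (univ : Finset (Fin h))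
    (pr m h k i) (fun _ _ => subset_univ _) (pr_disjoint i) (fun j S => ¬ pr m h k i j ⊆ S)
  have h2 : Pr (univ : Finset (BV m (2 * h) k)) p (fun S => ∀ j ∈ (univ : Finset (Fin h)),
      ¬ pr m h k i j ⊆ S) = Pr (univ : Finset (BV m (2 * h) k)) p
      (fun S => ∀ j ∈ (univ : Finset (Fin h)), ¬ pr m h k i j ⊆ S ∩ pr m h k i j) := by
    apply Pr_congr
    intro S _
    refine forall₂_congr (fun j _ => not_congr ?_)
    rw [subset_inter_iff]
    exact ⟨fun h => ⟨h, subset_rfl⟩, fun h => h.1⟩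
  rw [h2, h1]
  have h3 : ∀ j ∈ (univ : Finset (Fin h)),
      Pr (pr m h k i j) p (fun S => ¬ pr m h k i j ⊆ S) = 1 - p ^ 2 := by
    intro j _
    rw [Pr_not, Pr_superset subset_rfl, card_pr]
  rw [prod_congr rfl h3, prod_const, card_univ, Fintype.card_fin]

theorem zfProb_ge {p : ℝ} (h0 : 0 ≤ p) (h1 : p ≤ 1) (hh : 0 < h) :
    1 - ((m : ℝ) * (1 - p ^ 2) ^ h + (k : ℝ) * (1 - p) ^ (m + 1)) ≤
      zfProb (brick m (2 * h) k) p := by
  classical
  rw [zfProb_eq]
  have h2 : Pr (univ : Finset (BV m (2 * h) k)) p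
      (fun S => (∃ i ∈ (univ : Finset (Fin m)), ∀ j ∈ (univ : Finset (Fin h)),
        ¬ pr m h k i j ⊆ S) ∨ ∃ s ∈ (univ : Finset (Fin k)), Disjoint (rw' m h k s) S) ≤
      (m : ℝ) * (1 - p ^ 2) ^ h + (k : ℝ) * (1 - p) ^ (m + 1) := by
    refine (Pr_or_le h0 h1 _ _).trans (add_le_add ?_ ?_)
    · refine (Pr_exists_le h0 h1 _ _).trans (le_of_eq ?_)
      rw [sum_congr rfl (fun i _ => arm_prob p i), sum_const, card_univ, Fintype.card_fin,
        nsmul_eq_mul]
    · refine (Pr_exists_le h0 h1 _ _).trans (le_of_eq ?_)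
      have h3 : ∀ s ∈ (univ : Finset (Fin k)), Pr (univ : Finset (BV m (2 * h) k)) p
          (fun S => Disjoint (rw' m h k s) S) = (1 - p) ^ (m + 1) := by
        intro s _
        rw [Pr_disjoint (subset_univ _), card_rw]
      rw [sum_congr rfl h3, sum_const, card_univ, Fintype.card_fin, nsmul_eq_mul]
  have h3 : 1 - Pr (univ : Finset (BV m (2 * h) k)) p (fun B => IsZeroForcing (brick m (2 * h) k) B)
      ≤ Pr (univ : Finset (BV m (2 * h) k)) p
      (fun S => (∃ i ∈ (univ : Finset (Fin m)), ∀ j ∈ (univ : Finset (Fin h)),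
        ¬ pr m h k i j ⊆ S) ∨ ∃ s ∈ (univ : Finset (Fin k)), Disjoint (rw' m h k s) S) := by
    rw [← Pr_not]
    apply Pr_mono h0 h1
    intro S _ hS
    by_contra hcon
    push Not at hcon
    apply hS
    apply zf_of_nice (by omega)
    refine ⟨fun i => ?_, fun s => ?_⟩
    · obtain ⟨j, _, hj⟩ := hcon.1 i (mem_univ _)
      exact ⟨⟨2 * j.val, by omega⟩, ⟨2 * j.val + 1, by omega⟩, rfl, hj (by simp [pr]),
        hj (by simp [pr])⟩
    · have h4 := hcon.2 s (mem_univ _)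
      rw [Finset.not_disjoint_iff] at h4
      obtain ⟨x, hx, hxS⟩ := h4
      rw [rw', mem_image] at hx
      obtain ⟨t, _, rfl⟩ := hx
      exact ⟨t, hxS⟩
  linarith

/-- the clique of the brick graph -/
theorem clique (L : ℕ) : (brick m L k).IsNClique k
    (univ.image (fun s : Fin k => (Sum.inr (s, Fin.last m) : BV m L k))) := by
  rw [SimpleGraph.isNClique_iff, SimpleGraph.isClique_iff]
  constructor
  · intro x hx y hy hxy
    rw [mem_coe, mem_image] at hx hy
    obtain ⟨s, _, rfl⟩ := hx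
    obtain ⟨s', _, rfl⟩ := hy
    have hne : s.val ≠ s'.val := by
      intro h
      exact hxy (by rw [Fin.ext h])
    rcases lt_or_gt_of_ne hne with h | h
    · left
      exact Or.inr ⟨rfl, rfl, h⟩
    · right
      exact Or.inr ⟨rfl, rfl, h⟩
  · rw [card_image_of_injective, card_univ, Fintype.card_fin]
    intro s s' heq
    have h1 := Sum.inr.inj heq
    exact congrArg Prod.fst h1

theorem card_BV (m L k : ℕ) : Fintype.card (BV m L k) = m * L + k * (m + 1) := by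
  simp [BV]

/-- the threshold exists -/
theorem exists_threshold {V : Type} [Fintype V] (G : SimpleGraph V) (hV : Nonempty V) :
    ∃ p, IsThreshold G p := by
  classical
  have hcont : Continuous (fun p : ℝ => zfProb G p) := by
    unfold zfProb
    apply continuous_finsetSum
    intro B _
    split_ifs
    · exact (continuous_pow _).mul ((continuous_const.sub continuous_id).pow _)
    · exact continuous_const
  have h0 : zfProb G 0 = 0 := by
    unfold zfProb
    apply sum_eq_zero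
    intro B _
    split_ifs with h
    · have hB : B.Nonempty := by
        by_contra hcon
        rw [not_nonempty_iff_eq_empty] at hcon
        obtain ⟨v⟩ := hV
        have h1 := h v
        rw [hcon] at h1
        have h2 : ∀ w, Blue G ∅ w → False := by
          intro w hw
          induction hw with
          | start v h => simp at h
          | force u v _ _ _ ih _ => exact ih
        exact h2 v h1
      rw [zero_pow (card_pos.2 hB).ne', zero_mul]
    · rfl
  have h1 : zfProb G 1 = 1 := by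
    unfold zfProb
    rw [sum_eq_single univ]
    · have hz : IsZeroForcing G univ := fun v => Blue.start v (mem_univ v)
      rw [if_pos hz, card_univ]
      simp
    · intro B _ hB
      split_ifs
      · have h2 : B.card < Fintype.card V := by
          rw [← card_univ]
          exact card_lt_card ((ssubset_univ_iff).2 hB)
        rw [sub_self, zero_pow (by omega), mul_zero]
      · rfl
    · intro h
      exact absurd (mem_univ _) h
  have h2 : (1 / 2 : ℝ) ∈ Set.Icc (zfProb G 0) (zfProb G 1) := by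
    rw [h0, h1]; constructor <;> norm_num
  obtain ⟨p, hp, hp2⟩ := intermediate_value_Icc (by norm_num : (0 : ℝ) ≤ 1) hcont.continuousOn h2
  exact ⟨p, hp.1, hp.2, hp2⟩

theorem half_pow (N : ℕ) (hN : 1 ≤ N) : (1 - 1 / (N : ℝ)) ^ N ≤ 1 / 2 := by
  have hNp : (0 : ℝ) < N := by exact_mod_cast hN
  have h1 : (1 : ℝ) - 1 / N ≤ Real.exp (-(1 / (N : ℝ))) := by
    have := Real.add_one_le_exp (-(1 / (N : ℝ)))
    linarith
  have h0 : (0 : ℝ) ≤ 1 - 1 / N := by
    have : (1 : ℝ) / N ≤ 1 := by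
      rw [div_le_one hNp]; exact_mod_cast hN
    linarith
  calc (1 - 1 / (N : ℝ)) ^ N ≤ (Real.exp (-(1 / (N : ℝ)))) ^ N := pow_le_pow_left₀ h0 h1 N
    _ = Real.exp (-1) := by
        rw [← Real.exp_nat_mul]
        congr 1
        field_simp
    _ ≤ 1 / 2 := by
        rw [Real.exp_neg, inv_le_comm₀ (Real.exp_pos 1) (by norm_num)]
        have := Real.add_one_le_exp (1 : ℝ)
        norm_num at this ⊢
        linarith

/-- the estimate for fixed parameters -/
theorem main_aux {c : ℝ} (hc : 0 < c) {b N m h k : ℕ} (hN : N = 2 ^ b) (hb1 : 1 ≤ b)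
    (hb : (b : ℝ) ^ 2 / 2 ^ b < c ^ 2 / 1000) (hm : m = N * (2 * b + 3))
    (hh : h = N ^ 2 * (2 * b + 6)) (hk : k = N ^ 2) {p : ℝ}
    (hthr : IsThreshold (brick m (2 * h) k) p) :
    p < c * Real.sqrt ((k : ℝ) / (Fintype.card (BV m (2 * h) k) : ℝ)) := by
  obtain ⟨hp0, hp1, hp⟩ := hthr
  have hN1 : 1 ≤ N := by rw [hN]; exact Nat.one_le_two_pow
  have hNp : (0 : ℝ) < N := by exact_mod_cast hN1
  have hNR : (N : ℝ) = 2 ^ b := by rw [hN]; push_cast; rfl
  have hbR : (1 : ℝ) ≤ b := by exact_mod_cast hb1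
  obtain ⟨n, hn⟩ : ∃ n, n = Fintype.card (BV m (2 * h) k) := ⟨_, rfl⟩
  rw [← hn]
  by_contra hcon
  push Not at hcon
  have hnR : (n : ℝ) = (m : ℝ) * (2 * h) + k * (m + 1) := by
    rw [hn, card_BV]; push_cast; ring
  have hkR : (k : ℝ) = (N : ℝ) ^ 2 := by rw [hk]; push_cast; rfl
  have hmR : (m : ℝ) = N * (2 * b + 3) := by rw [hm]; push_cast; rfl
  have hhR : (h : ℝ) = (N : ℝ) ^ 2 * (2 * b + 6) := by rw [hh]; push_cast; rfl
  have hnp : (0 : ℝ) < n := by rw [hnR, hkR, hmR, hhR]; positivity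
  have hN1R : (1 : ℝ) ≤ N := by exact_mod_cast hN1
  have hnle : (n : ℝ) ≤ 1000 * (b : ℝ) ^ 2 * (N : ℝ) ^ 3 := by
    rw [hnR, hkR, hmR, hhR]
    have e1 : (N : ℝ) * (2 * b + 3) * (2 * ((N : ℝ) ^ 2 * (2 * b + 6))) =
        (N : ℝ) ^ 3 * (2 * (2 * b + 3) * (2 * b + 6)) := by ring
    have e2 : (N : ℝ) ^ 2 * ((N : ℝ) * (2 * b + 3) + 1) ≤ (N : ℝ) ^ 3 * (2 * b + 4) := by
      have : (N : ℝ) ^ 2 ≤ (N : ℝ) ^ 3 := pow_le_pow_right₀ hN1R (by norm_num)
      linarith
    rw [e1]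
    have e3 : 2 * (2 * (b : ℝ) + 3) * (2 * b + 6) + (2 * b + 4) ≤ 1000 * (b : ℝ) ^ 2 := by
      nlinarith
    calc (N : ℝ) ^ 3 * (2 * (2 * b + 3) * (2 * b + 6)) + (N : ℝ) ^ 2 * ((N : ℝ) * (2 * b + 3) + 1)
        ≤ (N : ℝ) ^ 3 * (2 * (2 * b + 3) * (2 * b + 6)) + (N : ℝ) ^ 3 * (2 * b + 4) := by
          linarith
      _ = (N : ℝ) ^ 3 * (2 * (2 * (b : ℝ) + 3) * (2 * b + 6) + (2 * b + 4)) := by ring
      _ ≤ (N : ℝ) ^ 3 * (1000 * (b : ℝ) ^ 2) := mul_le_mul_of_nonneg_left e3 (by positivity)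
      _ = _ := by ring
  have hkey : (1 : ℝ) / N ≤ c * Real.sqrt ((k : ℝ) / n) := by
    have h1 : (1 / (N : ℝ)) ^ 2 ≤ c ^ 2 * ((k : ℝ) / n) := by
      rw [← mul_div_assoc, le_div_iff₀ hnp, hkR, div_pow, one_pow, div_mul_eq_mul_div, one_mul,
        div_le_iff₀ (by positivity)]
      have h2 : (b : ℝ) ^ 2 < c ^ 2 / 1000 * (N : ℝ) := by
        rw [div_lt_iff₀ (by positivity)] at hb
        rw [hNR]; exact hb
      calc (n : ℝ) ≤ 1000 * (b : ℝ) ^ 2 * (N : ℝ) ^ 3 := hnle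
        _ ≤ 1000 * (c ^ 2 / 1000 * (N : ℝ)) * (N : ℝ) ^ 3 := by
            apply mul_le_mul_of_nonneg_right _ (by positivity)
            linarith
        _ = c ^ 2 * (N : ℝ) ^ 2 * (N : ℝ) ^ 2 := by ring
    have h2 := Real.sqrt_le_sqrt h1
    rw [Real.sqrt_sq (by positivity), Real.sqrt_mul (by positivity), Real.sqrt_sq hc.le] at h2
    exact h2
  have hpN : 1 / (N : ℝ) ≤ p := hkey.trans hcon
  have hlow := zfProb_ge (m := m) (h := h) (k := k) hp0 hp1 (by
    rw [hh]; positivity)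
  rw [hp] at hlow
  have hN1' : (1 : ℝ) / N ≤ 1 := hpN.trans hp1
  -- the rows
  have hrow : (k : ℝ) * (1 - p) ^ (m + 1) ≤ 1 / 8 := by
    have h1 : (1 - p) ^ (m + 1) ≤ (1 / 2) ^ (2 * b + 3) := by
      calc (1 - p) ^ (m + 1) ≤ (1 - p) ^ m :=
            pow_le_pow_of_le_one (by linarith) (by linarith) (Nat.le_succ m)
        _ ≤ (1 - 1 / (N : ℝ)) ^ m := pow_le_pow_left₀ (by linarith) (by linarith) m
        _ = ((1 - 1 / (N : ℝ)) ^ N) ^ (2 * b + 3) := by rw [hm, pow_mul]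
        _ ≤ (1 / 2) ^ (2 * b + 3) :=
            pow_le_pow_left₀ (pow_nonneg (by linarith) _) (half_pow N hN1) _
    calc (k : ℝ) * (1 - p) ^ (m + 1) ≤ (k : ℝ) * (1 / 2) ^ (2 * b + 3) :=
          mul_le_mul_of_nonneg_left h1 (by positivity)
      _ = 1 / 8 := by
          rw [hkR, hNR, ← pow_mul, pow_add, mul_comm b 2, ← mul_assoc, ← mul_pow]
          norm_num
  -- the arms
  have harm : (m : ℝ) * (1 - p ^ 2) ^ h ≤ 1 / 8 := by
    have hp2 : (1 / (N : ℝ)) ^ 2 ≤ p ^ 2 := pow_le_pow_left₀ (by positivity) hpN 2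
    have hp21 : p ^ 2 ≤ 1 := pow_le_one₀ hp0 hp1
    have hN2 : (1 / (N : ℝ)) ^ 2 = 1 / ((N ^ 2 : ℕ) : ℝ) := by push_cast; ring
    have h1 : (1 - p ^ 2) ^ h ≤ (1 / 2) ^ (2 * b + 6) := by
      calc (1 - p ^ 2) ^ h ≤ (1 - 1 / ((N ^ 2 : ℕ) : ℝ)) ^ h := by
            apply pow_le_pow_left₀ (by linarith)
            rw [← hN2]; linarith
        _ = ((1 - 1 / ((N ^ 2 : ℕ) : ℝ)) ^ (N ^ 2)) ^ (2 * b + 6) := by rw [hh, pow_mul]
        _ ≤ (1 / 2) ^ (2 * b + 6) := by
            apply pow_le_pow_left₀ _ (half_pow (N ^ 2) (Nat.one_le_pow _ _ hN1)) _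
            apply pow_nonneg
            rw [← hN2]
            linarith
    have h2 : (m : ℝ) ≤ 8 * (N : ℝ) ^ 2 := by
      rw [hmR]
      have h3 : (b : ℝ) ≤ N := by
        rw [hN]
        exact_mod_cast (Nat.lt_two_pow_self (n := b)).le
      nlinarith
    calc (m : ℝ) * (1 - p ^ 2) ^ h ≤ (8 * (N : ℝ) ^ 2) * (1 / 2) ^ (2 * b + 6) :=
          mul_le_mul h2 h1 (pow_nonneg (by linarith) _) (by positivity)
      _ = 1 / 8 := by
          rw [hNR, ← pow_mul, pow_add, mul_comm b 2]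
          have : (8 : ℝ) * 2 ^ (2 * b) * ((1 / 2) ^ (2 * b) * (1 / 2) ^ 6) =
              8 * (2 * (1 / 2)) ^ (2 * b) * (1 / 2) ^ 6 := by rw [mul_pow]; ring
          rw [this]
          norm_num
  linarith

/-- the choice of the parameters -/
theorem main (c : ℝ) (hc : 0 < c) : ∃ (m h k : ℕ), 1 ≤ k ∧ k ≤ Fintype.card (BV m (2 * h) k) ∧
    ∀ p, IsThreshold (brick m (2 * h) k) p →
      p < c * Real.sqrt ((k : ℝ) / (Fintype.card (BV m (2 * h) k) : ℝ)) := by
  have hlim : Filter.Tendsto (fun b : ℕ => (b : ℝ) ^ 2 / 2 ^ b) Filter.atTop (nhds 0) :=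
    tendsto_pow_const_div_const_pow_of_one_lt 2 (by norm_num : (1 : ℝ) < 2)
  have hev := hlim.eventually_lt_const (show (0 : ℝ) < c ^ 2 / 1000 by positivity)
  obtain ⟨b, hb, hb1⟩ := (hev.and (Filter.eventually_ge_atTop 1)).exists
  have hN1 : 1 ≤ 2 ^ b := Nat.one_le_two_pow
  refine ⟨2 ^ b * (2 * b + 3), (2 ^ b) ^ 2 * (2 * b + 6), (2 ^ b) ^ 2, Nat.one_le_pow _ _ hN1, ?_,
    fun p hp => main_aux hc rfl hb1 hb rfl rfl rfl hp⟩
  rw [card_BV]
  calc (2 ^ b) ^ 2 = (2 ^ b) ^ 2 * 1 := (mul_one _).symm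
    _ ≤ (2 ^ b) ^ 2 * (2 ^ b * (2 * b + 3) + 1) := Nat.mul_le_mul_left _ (by omega)
    _ ≤ _ := Nat.le_add_left _ _

end Pool.Agent.R87.ZF
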